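import Pool.Agent.EXG.Defs
import Pool.Agent.EXP.AxGerm

/-!
# EXG / Ax: algebraic functions with a linear relation of their logarithms

PROOF.  `x_j(t) = log Y_j(z₀ + t)`; apply `EXP.ax_germ`.
-/

set_option autoImplicit false

namespace Pool.Agent.EXG

open Topology Filter

private noncomputable def rel (p : Polynomial (Polynomial ℂ)) : MvPolynomial (Fin 2) ℂ :=
  Polynomial.eval₂ (Polynomial.eval₂RingHom MvPolynomial.C (MvPolynomial.X 0)) (MvPolynomial.X 1) p

private lemma eval_rel (p : Polynomial (Polynomial ℂ)) (a b : ℂ) :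
    MvPolynomial.eval ![a, b] (rel p) = EXP.ev p a b := by
  unfold rel EXP.ev
  rw [Polynomial.hom_eval₂, Polynomial.eval_map, MvPolynomial.eval_X]
  have h1 : (![a, b] : Fin 2 → ℂ) 1 = b := by simp
  rw [h1]
  congr 1
  apply Polynomial.ringHom_ext
  · intro c; simp
  · simp

private lemma rel_ne {p : Polynomial (Polynomial ℂ)} (hp : p ≠ 0) : rel p ≠ 0 := by
  intro h
  apply hp
  have h1 : ∀ a b : ℂ, EXP.ev p a b = 0 := by
    intro a b
    rw [← eval_rel, h, map_zero]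
  have h2 : ∀ a : ℂ, p.map (Polynomial.evalRingHom a) = 0 := by
    intro a
    apply Polynomial.funext
    intro b
    rw [Polynomial.eval_zero]
    exact h1 a b
  ext1 k
  apply Polynomial.funext
  intro a
  have h3 := congrArg (fun q => Polynomial.coeff q k) (h2 a)
  simp only [Polynomial.coeff_map, Polynomial.coeff_zero, Polynomial.coe_evalRingHom] at h3
  rw [h3, Polynomial.coeff_zero, Polynomial.eval_zero]

theorem ax {n : ℕ} (c : Fin n → ℝ) (hc : ∀ v : Fin n → ℤ, v ≠ 0 → ∑ j, c j * v j ≠ 0)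
    (Y : Fin n → ℂ → ℂ) (z₀ : ℂ) (hz : z₀ ≠ 0) (hY : ∀ j, AnalyticAt ℂ (Y j) z₀)
    (hY0 : ∀ j, Y j z₀ ≠ 0) (i : Fin n) (hi : ∀ᶠ z in 𝓝 z₀, Y i z = z)
    (halg : ∀ j, ∃ p : Polynomial (Polynomial ℂ), p ≠ 0 ∧
      ∀ᶠ z in 𝓝 z₀, EXP.ev p z (Y j z) = 0)
    (h : ∀ᶠ z in 𝓝 z₀, ∑ j, (c j : ℂ) * (deriv (Y j) z / Y j z) = 0) : False := by
  have hlam : ∀ v : Fin n → ℤ, ∑ j, c j * v j = 0 → v = 0 := by
    intro v hv
    by_contra h1
    exact hc v h1 hv
  set x : ℂ → Fin n → ℂ := fun t j => Complex.log (Y j (z₀ + t) / Y j z₀) + Complex.log (Y j z₀)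
    with hx
  have htd : Tendsto (fun t : ℂ => z₀ + t) (𝓝 0) (𝓝 z₀) := by
    have h1 : Continuous (fun t : ℂ => z₀ + t) := continuous_const.add continuous_id
    have h2 := h1.tendsto 0
    rwa [add_zero] at h2
  have hsh : AnalyticAt ℂ (fun t : ℂ => z₀ + t) 0 := analyticAt_const.add analyticAt_id
  have hYs : ∀ j, AnalyticAt ℂ (fun t : ℂ => Y j (z₀ + t)) 0 := by
    intro j
    have h1 : AnalyticAt ℂ (Y j) ((fun t : ℂ => z₀ + t) 0) := by
      simpa using hY j
    exact h1.comp hsh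
  have hratio : ∀ j, AnalyticAt ℂ (fun t : ℂ => Y j (z₀ + t) / Y j z₀) 0 := fun j =>
    (hYs j).div analyticAt_const (hY0 j)
  have hslit0 : ∀ j, (fun t : ℂ => Y j (z₀ + t) / Y j z₀) 0 ∈ Complex.slitPlane := by
    intro j
    simp only [add_zero, div_self (hY0 j)]
    exact Complex.one_mem_slitPlane
  have hxa : ∀ j, AnalyticAt ℂ (fun t => x t j) 0 := fun j =>
    ((hratio j).clog (hslit0 j)).add analyticAt_const
  have hne : ∀ᶠ t in 𝓝 (0 : ℂ), ∀ j, Y j (z₀ + t) ≠ 0 := by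
    rw [eventually_all]
    intro j
    exact htd.eventually ((hY j).continuousAt.eventually_ne (hY0 j))
  have hexp : ∀ᶠ t in 𝓝 (0 : ℂ), ∀ j, Complex.exp (x t j) = Y j (z₀ + t) := by
    filter_upwards [hne] with t ht j
    simp only [hx]
    rw [Complex.exp_add, Complex.exp_log (div_ne_zero (ht j) (hY0 j)), Complex.exp_log (hY0 j),
      div_mul_cancel₀ _ (hY0 j)]
  have hslit : ∀ᶠ t in 𝓝 (0 : ℂ), ∀ j, Y j (z₀ + t) / Y j z₀ ∈ Complex.slitPlane := by
    rw [eventually_all]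
    intro j
    exact (hratio j).continuousAt.eventually_mem (Complex.isOpen_slitPlane.mem_nhds (hslit0 j))
  have hana : ∀ᶠ t in 𝓝 (0 : ℂ), ∀ j, AnalyticAt ℂ (Y j) (z₀ + t) := by
    rw [eventually_all]
    intro j
    exact htd.eventually (hY j).eventually_analyticAt
  have hder : ∀ᶠ t in 𝓝 (0 : ℂ), HasDerivAt (fun t => ∑ j, (c j : ℂ) * x t j) 0 t := by
    filter_upwards [hne, hslit, hana, htd.eventually h] with t h1 h2 h3 h4
    have h5 : ∀ j, HasDerivAt (fun t => x t j) (deriv (Y j) (z₀ + t) / Y j (z₀ + t)) t := by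
      intro j
      have h6 : HasDerivAt (fun t : ℂ => Y j (z₀ + t)) (deriv (Y j) (z₀ + t)) t := by
        have h7 : HasDerivAt (Y j) (deriv (Y j) (z₀ + t)) (z₀ + t) :=
          (h3 j).differentiableAt.hasDerivAt
        exact h7.comp_const_add z₀ t
      have h7 := ((h6.div_const (Y j z₀)).clog (h2 j)).add_const (Complex.log (Y j z₀))
      refine h7.congr_deriv ?_
      have h8 := h1 j
      have h9 := hY0 j
      field_simp
    have h6 : HasDerivAt (fun t => ∑ j, (c j : ℂ) * x t j)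
        (∑ j, (c j : ℂ) * (deriv (Y j) (z₀ + t) / Y j (z₀ + t))) t := by
      have h7 := HasDerivAt.fun_sum (u := Finset.univ)
        (A := fun (j : Fin n) (t : ℂ) => (c j : ℂ) * x t j)
        (A' := fun j => (c j : ℂ) * (deriv (Y j) (z₀ + t) / Y j (z₀ + t)))
        fun j _ => (h5 j).const_mul (c j : ℂ)
      exact h7
    rwa [h4] at h6
  have hconst : ∀ᶠ t in 𝓝 (0 : ℂ), ∑ j, (c j : ℂ) * x t j = ∑ j, (c j : ℂ) * x 0 j := by
    obtain ⟨r, hr, hball⟩ := Metric.eventually_nhds_iff_ball.1 hder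
    filter_upwards [Metric.ball_mem_nhds (0 : ℂ) hr] with t ht
    refine Metric.isOpen_ball.is_const_of_deriv_eq_zero
      (f := fun t => ∑ j, (c j : ℂ) * x t j)
      (Metric.isPreconnected_ball (x := (0 : ℂ)) (r := r)) ?_ ?_ ht (Metric.mem_ball_self hr)
    · intro s hs
      exact (hball s hs).differentiableAt.differentiableWithinAt
    · intro s hs
      exact (hball s hs).deriv
  refine EXP.ax_germ c hlam x hxa i ?_ ?_ hconst
  · intro hcon
    have h1 : ∀ᶠ t in 𝓝 (0 : ℂ), t = 0 := by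
      filter_upwards [hcon, hexp, htd.eventually hi] with t h2 h3 h4
      have h5 := h3 i
      rw [h2, h4] at h5
      have h6 : Complex.exp (x 0 i) = Y i (z₀ + 0) := hexp.self_of_nhds i
      have h7 : Y i z₀ = z₀ := hi.self_of_nhds
      rw [h6, add_zero, h7] at h5
      have h8 : z₀ + t = z₀ + 0 := by rw [add_zero]; exact h5.symm
      exact add_left_cancel h8
    obtain ⟨t, h2, h3⟩ := ((h1.filter_mono nhdsWithin_le_nhds).and
      (self_mem_nhdsWithin (s := ({0}ᶜ : Set ℂ)))).exists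
    exact h3 h2
  · intro j
    obtain ⟨p, hp, hpj⟩ := halg j
    refine ⟨rel p, rel_ne hp, ?_⟩
    filter_upwards [hexp, htd.eventually hpj, htd.eventually hi] with t h1 h2 h3
    rw [eval_rel, h1 i, h1 j, h3]
    exact h2

end Pool.Agent.EXG
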