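import Pool.Agent.EXG.Defs

/-!
# EXG / Bdd: logarithmic growth of the frozen points

PROOF.  Let `M_T = max_j |log ‖b T j‖|`. If there is no such `C` then `M_T / log T → ∞` along `𝒰` (ultrafilter). Let
`r_j = lim log ‖b T j‖ / M_T ∈ [-1, 1]` along `𝒰`, some `r_{j₀} ≠ 0` (the index of the maximum is constant along `𝒰`).
For `i ≠ j` write `P i j = ∑_e a_e(X') Y^e`, `a_e ≠ 0`; `a_e(I T β) ≠ 0` and `log ‖a_e(I T β)‖ = O(log T)` (top form at
`I β` not zero by `hβ`). The sum is zero, so two different `e, e'` (constant along `𝒰`) have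
`‖a_e b^e‖ ≤ C ‖a_{e'} b^{e'}‖` and conversely (the two largest terms), so `(e - e') . (r_i, r_j) = 0` with `e ≠ e'`. So for
`i = j₀`: `r_j = q_j r_{j₀}` with `q_j` rational (the coefficient of `r_j` is not zero), `q_{j₀} = 1`. Divide `hκ` by
`M_T`: `∑ c_j r_j = 0`, so `∑ c_j q_j = 0`, clear denominators: against `hc`.
-/

set_option autoImplicit false

namespace Pool.Agent.EXG

open MvPolynomial Topology Filter

/-- the two largest terms of a vanishing sum are comparable -/
private theorem two_terms {ι : Type} [DecidableEq ι] (S : Finset ι) (hS : S.Nonempty) (t : ι → ℂ)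
    (ht : ∀ e ∈ S, t e ≠ 0) (hsum : ∑ e ∈ S, t e = 0) :
    ∃ e ∈ S, ∃ e' ∈ S, e ≠ e' ∧ |Real.log ‖t e‖ - Real.log ‖t e'‖| ≤ Real.log S.card := by
  obtain ⟨e, he, hmax⟩ := S.exists_max_image (fun e => ‖t e‖) hS
  have hdec : t e + ∑ x ∈ S.erase e, t x = 0 := by
    rw [Finset.add_sum_erase S t he]; exact hsum
  have hne : (S.erase e).Nonempty := by
    by_contra h
    rw [Finset.not_nonempty_iff_eq_empty] at h
    rw [h, Finset.sum_empty, add_zero] at hdec
    exact ht e he hdec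
  obtain ⟨e', he', hmax'⟩ := (S.erase e).exists_max_image (fun e => ‖t e‖) hne
  have he'S : e' ∈ S := Finset.mem_of_mem_erase he'
  have hp : 0 < ‖t e‖ := norm_pos_iff.mpr (ht e he)
  have hp' : 0 < ‖t e'‖ := norm_pos_iff.mpr (ht e' he'S)
  have hc0 : (0 : ℝ) < S.card := by exact_mod_cast Finset.card_pos.mpr hS
  have h1 : ‖t e‖ ≤ S.card * ‖t e'‖ := by
    have e1 : t e = -∑ x ∈ S.erase e, t x := eq_neg_of_add_eq_zero_left hdec
    calc ‖t e‖ = ‖∑ x ∈ S.erase e, t x‖ := by rw [e1, norm_neg]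
      _ ≤ ∑ x ∈ S.erase e, ‖t x‖ := norm_sum_le _ _
      _ ≤ ∑ _x ∈ S.erase e, ‖t e'‖ := Finset.sum_le_sum fun x hx => hmax' x hx
      _ = (S.erase e).card * ‖t e'‖ := by rw [Finset.sum_const, nsmul_eq_mul]
      _ ≤ S.card * ‖t e'‖ := by
          refine mul_le_mul_of_nonneg_right ?_ hp'.le
          exact_mod_cast Finset.card_le_card (Finset.erase_subset _ _)
  have h2 : ‖t e'‖ ≤ ‖t e‖ := hmax e' he'S
  have l1 : Real.log ‖t e‖ ≤ Real.log S.card + Real.log ‖t e'‖ := by
    rw [← Real.log_mul hc0.ne' hp'.ne']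
    exact Real.log_le_log hp h1
  have l2 : Real.log ‖t e'‖ ≤ Real.log ‖t e‖ := Real.log_le_log hp' h2
  refine ⟨e, he, e', he'S, ?_, ?_⟩
  · intro h
    exact (Finset.ne_of_mem_erase he') h.symm
  · rw [abs_of_nonneg (by linarith)]
    linarith

/-- a nonzero polynomial at the positive integers -/
private theorem poly_log (p : Polynomial ℂ) (hp : p ≠ 0) :
    ∃ C : ℝ, 0 ≤ C ∧ ∀ᶠ T : ℕ in atTop, p.eval (T : ℂ) ≠ 0 ∧
      |Real.log ‖p.eval (T : ℂ)‖| ≤ C * Real.log T := by
  -- lower bound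
  obtain ⟨c, hc0, hc⟩ : ∃ c : ℝ, 0 < c ∧ ∀ᶠ T : ℕ in atTop, c ≤ ‖p.eval (T : ℂ)‖ := by
    by_cases hd : 0 < p.degree
    · have h1 : Tendsto (fun T : ℕ => ‖(T : ℂ)‖) atTop atTop := by
        have : (fun T : ℕ => ‖(T : ℂ)‖) = fun T : ℕ => (T : ℝ) := by
          funext T; exact Complex.norm_natCast T
        rw [this]
        exact tendsto_natCast_atTop_atTop
      exact ⟨1, one_pos, (p.tendsto_norm_atTop hd h1).eventually_ge_atTop 1⟩
    · have h1 : p = Polynomial.C (p.coeff 0) :=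
        Polynomial.eq_C_of_degree_le_zero (not_lt.mp hd)
      have h2 : p.coeff 0 ≠ 0 := by
        intro h
        rw [h, Polynomial.C_0] at h1
        exact hp h1
      refine ⟨‖p.coeff 0‖, norm_pos_iff.mpr h2, Eventually.of_forall fun T => ?_⟩
      rw [h1, Polynomial.eval_C, Polynomial.coeff_C_zero]
  -- upper bound
  set A : ℝ := ∑ i ∈ p.support, ‖p.coeff i‖ + 1 with hA
  have hA1 : 1 ≤ A := by
    have : 0 ≤ ∑ i ∈ p.support, ‖p.coeff i‖ := Finset.sum_nonneg fun _ _ => norm_nonneg _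
    linarith
  have hup : ∀ T : ℕ, 1 ≤ T → ‖p.eval (T : ℂ)‖ ≤ A * (T : ℝ) ^ p.natDegree := by
    intro T hT
    have hT1 : (1 : ℝ) ≤ T := by exact_mod_cast hT
    rw [Polynomial.eval_eq_sum, Polynomial.sum_def]
    calc ‖∑ i ∈ p.support, p.coeff i * (T : ℂ) ^ i‖
        ≤ ∑ i ∈ p.support, ‖p.coeff i * (T : ℂ) ^ i‖ := norm_sum_le _ _
      _ ≤ ∑ i ∈ p.support, ‖p.coeff i‖ * (T : ℝ) ^ p.natDegree := by
          refine Finset.sum_le_sum fun i hi => ?_
          rw [norm_mul, norm_pow, Complex.norm_natCast]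
          exact mul_le_mul_of_nonneg_left
            (pow_le_pow_right₀ hT1 (Polynomial.le_natDegree_of_mem_supp i hi)) (norm_nonneg _)
      _ = (∑ i ∈ p.support, ‖p.coeff i‖) * (T : ℝ) ^ p.natDegree := by rw [Finset.sum_mul]
      _ ≤ A * (T : ℝ) ^ p.natDegree := by
          refine mul_le_mul_of_nonneg_right (by linarith) (by positivity)
  refine ⟨|Real.log c| + Real.log A + p.natDegree, by
    have := Real.log_nonneg hA1
    positivity, ?_⟩
  filter_upwards [hc, eventually_ge_atTop 3] with T h1 h3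
  have hpos : 0 < ‖p.eval (T : ℂ)‖ := hc0.trans_le h1
  refine ⟨norm_pos_iff.mp hpos, ?_⟩
  have hT3 : (3 : ℝ) ≤ T := by exact_mod_cast h3
  have hT0 : (0 : ℝ) < T := by linarith
  have hlogT : 1 ≤ Real.log T := by
    rw [Real.le_log_iff_exp_le hT0]
    have := Real.exp_one_lt_d9
    linarith
  have lA := Real.log_nonneg hA1
  have l1 : Real.log c ≤ Real.log ‖p.eval (T : ℂ)‖ := Real.log_le_log hc0 h1
  have l2 : Real.log ‖p.eval (T : ℂ)‖ ≤ Real.log A + p.natDegree * Real.log T := by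
    have := Real.log_le_log hpos (hup T (by omega))
    rw [Real.log_mul (by positivity) (by positivity), Real.log_pow] at this
    exact this
  have hd0 : (0 : ℝ) ≤ p.natDegree := Nat.cast_nonneg _
  have e1 : |Real.log c| ≤ |Real.log c| * Real.log T := le_mul_of_one_le_right (abs_nonneg _) hlogT
  have e2 : Real.log A ≤ Real.log A * Real.log T := le_mul_of_one_le_right lA hlogT
  have e3 : 0 ≤ (p.natDegree : ℝ) * Real.log T := by positivity
  have e4 := neg_abs_le (Real.log c)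
  have e5 : (|Real.log c| + Real.log A + p.natDegree) * Real.log T
      = |Real.log c| * Real.log T + Real.log A * Real.log T + p.natDegree * Real.log T := by ring
  have e6 := abs_nonneg (Real.log c)
  rw [abs_le, e5]
  constructor
  · linarith
  · linarith

section alg

variable {m : ℕ} (k : Subfield ℂ) (β : Fin m → ℝ)

/-- `X_l ↦ I β_l T` -/
private noncomputable def phi : MvPolynomial (Fin m) k →+* Polynomial ℂ :=
  (aeval (R := k) fun l => Polynomial.C (Complex.I * (β l : ℂ)) * Polynomial.X).toRingHom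

private theorem phi_C (r : k) : phi k β (C r) = Polynomial.C (r : ℂ) := by
  unfold phi
  simp only [AlgHom.toRingHom_eq_coe, RingHom.coe_coe, algHom_C]
  rfl

private theorem phi_X (l : Fin m) :
    phi k β (X l) = Polynomial.C (Complex.I * (β l : ℂ)) * Polynomial.X := by
  unfold phi
  simp only [AlgHom.toRingHom_eq_coe, RingHom.coe_coe, aeval_X]

private theorem phi_eval (T : ℂ) (p : MvPolynomial (Fin m) k) :
    (phi k β p).eval T = aeval (fun l => Complex.I * T * (β l : ℂ)) p := by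
  have h : (Polynomial.evalRingHom T).comp (phi k β)
      = (aeval (R := k) (fun l => Complex.I * T * (β l : ℂ))).toRingHom := by
    refine MvPolynomial.ringHom_ext ?_ ?_
    · intro r
      rw [RingHom.comp_apply, phi_C]
      simp only [Polynomial.coe_evalRingHom, Polynomial.eval_C, AlgHom.toRingHom_eq_coe,
        RingHom.coe_coe, algHom_C]
      rfl
    · intro l
      rw [RingHom.comp_apply, phi_X]
      simp only [Polynomial.coe_evalRingHom, Polynomial.eval_mul, Polynomial.eval_C,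
        Polynomial.eval_X, AlgHom.toRingHom_eq_coe, RingHom.coe_coe, aeval_X]
      ring
  exact congrArg (fun f : MvPolynomial (Fin m) k →+* ℂ => f p) h

private theorem phi_inj (hβ : AlgebraicIndependent k (fun j => Complex.I * (β j : ℂ))) :
    Function.Injective (phi k β) := by
  rw [injective_iff_map_eq_zero]
  intro p hp
  have h1 := phi_eval k β 1 p
  rw [hp, Polynomial.eval_zero] at h1
  have h2 : aeval (fun j => Complex.I * (β j : ℂ)) p = (0 : ℂ) := by
    rw [h1]
    congr 2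
    funext j
    ring
  exact (injective_iff_map_eq_zero (aeval (R := k) (fun j => Complex.I * (β j : ℂ)))).mp hβ p h2

/-- the polynomial in the last two variables with coefficients in `ℂ[T]` -/
private noncomputable def psi (P : MvPolynomial (Fin m ⊕ Fin 2) k) :
    MvPolynomial (Fin 2) (Polynomial ℂ) :=
  map (phi k β) (sumRingEquiv k (Fin 2) (Fin m) (rename Sum.swap P))

private theorem psi_ne (hβ : AlgebraicIndependent k (fun j => Complex.I * (β j : ℂ)))
    {P : MvPolynomial (Fin m ⊕ Fin 2) k} (hP : P ≠ 0) : psi k β P ≠ 0 := by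
  intro h
  apply hP
  unfold psi at h
  have h1 := (map_injective (σ := Fin 2) (phi k β) (phi_inj k β hβ))
  have h2 : sumRingEquiv k (Fin 2) (Fin m) (rename Sum.swap P) = 0 := by
    apply h1
    rw [h, map_zero]
  have h3 : rename Sum.swap P = 0 := by
    have := congrArg (sumRingEquiv k (Fin 2) (Fin m)).symm h2
    rwa [RingEquiv.symm_apply_apply, map_zero] at this
  have h4 : Function.Injective (rename (R := k) (Sum.swap : Fin m ⊕ Fin 2 → Fin 2 ⊕ Fin m)) :=
    rename_injective _ (Equiv.sumComm (Fin m) (Fin 2)).injective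
  apply h4
  rw [h3, map_zero]

private theorem psi_eval (P : MvPolynomial (Fin m ⊕ Fin 2) k) (T : ℂ) (y : Fin 2 → ℂ) :
    ∑ e ∈ (psi k β P).support, ((psi k β P).coeff e).eval T * ∏ i, y i ^ e i
      = aeval (Sum.elim (fun l => Complex.I * T * (β l : ℂ)) y) P := by
  have h0 : ∑ e ∈ (psi k β P).support, ((psi k β P).coeff e).eval T * ∏ i, y i ^ e i
      = eval₂ (Polynomial.evalRingHom T) y (psi k β P) := by
    rw [eval₂_eq']
    rfl
  rw [h0]
  have h : ((eval₂Hom (Polynomial.evalRingHom T) y).comp (map (phi k β))).comp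
      ((sumRingEquiv k (Fin 2) (Fin m)).toRingHom.comp
        (rename (R := k) (Sum.swap : Fin m ⊕ Fin 2 → Fin 2 ⊕ Fin m)).toRingHom)
      = (aeval (R := k) (Sum.elim (fun l => Complex.I * T * (β l : ℂ)) y)).toRingHom := by
    refine MvPolynomial.ringHom_ext ?_ ?_
    · intro r
      simp only [RingHom.comp_apply, AlgHom.toRingHom_eq_coe, RingHom.coe_coe, algHom_C,
        RingEquiv.toRingHom_eq_coe]
      rw [show (algebraMap k (MvPolynomial (Fin 2 ⊕ Fin m) k)) r = C r from rfl,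
        sumRingEquiv_C, map_C, phi_C, coe_eval₂Hom, eval₂_C]
      simp only [Polynomial.coe_evalRingHom, Polynomial.eval_C]
      rfl
    · intro l
      rcases l with l | l
      · simp only [RingHom.comp_apply, AlgHom.toRingHom_eq_coe, RingHom.coe_coe, rename_X,
          RingEquiv.toRingHom_eq_coe, Sum.swap_inl, sumRingEquiv_X_inr, map_C, phi_X, coe_eval₂Hom,
          eval₂_C, Polynomial.coe_evalRingHom, Polynomial.eval_mul, Polynomial.eval_C,
          Polynomial.eval_X, aeval_X, Sum.elim_inl]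
        ring
      · simp only [RingHom.comp_apply, AlgHom.toRingHom_eq_coe, RingHom.coe_coe, rename_X,
          RingEquiv.toRingHom_eq_coe, Sum.swap_inr, sumRingEquiv_X_inl, map_X, coe_eval₂Hom,
          eval₂_X, aeval_X, Sum.elim_inr]
  exact congrArg (fun f : MvPolynomial (Fin m ⊕ Fin 2) k →+* ℂ => f P) h

end alg

private theorem rel_pair {m : ℕ} (k : Subfield ℂ) (β : Fin m → ℝ)
    (hβ : AlgebraicIndependent k (fun j => Complex.I * (β j : ℂ)))
    (P : MvPolynomial (Fin m ⊕ Fin 2) k) (hP : P ≠ 0)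
    (𝒰 : Ultrafilter ℕ) (h𝒰 : (𝒰 : Filter ℕ) ≤ atTop) (y : ℕ → Fin 2 → ℂ)
    (hy : ∀ T i, y T i ≠ 0)
    (hPy : ∀ᶠ T : ℕ in (𝒰 : Filter ℕ),
      aeval (Sum.elim (fun l => Complex.I * (T : ℂ) * (β l : ℂ)) (y T)) P = 0)
    (M : ℕ → ℝ) (hM : ∀ C : ℝ, ∀ᶠ T : ℕ in (𝒰 : Filter ℕ), C * Real.log T < M T)
    (r : Fin 2 → ℝ)
    (hr : ∀ i, Tendsto (fun T => Real.log ‖y T i‖ / M T) (𝒰 : Filter ℕ) (𝓝 (r i))) :
    ∃ u : Fin 2 → ℤ, u ≠ 0 ∧ ∑ i, (u i : ℝ) * r i = 0 := by
  classical
  set Q := psi k β P with hQ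
  have hQ0 : Q ≠ 0 := psi_ne k β hβ hP
  set S := Q.support with hS
  have hSne : S.Nonempty := by
    rw [hS, Finset.nonempty_iff_ne_empty]
    intro h
    exact hQ0 (support_eq_empty.mp h)
  have hco : ∀ e : Fin 2 →₀ ℕ, ∃ C : ℝ, 0 ≤ C ∧ (e ∈ S → ∀ᶠ T : ℕ in atTop,
      (Q.coeff e).eval (T : ℂ) ≠ 0 ∧ |Real.log ‖(Q.coeff e).eval (T : ℂ)‖| ≤ C * Real.log T) := by
    intro e
    by_cases he : e ∈ S
    · obtain ⟨C, hC, h⟩ := poly_log (Q.coeff e) (mem_support_iff.mp he)
      exact ⟨C, hC, fun _ => h⟩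
    · exact ⟨0, le_rfl, fun h => absurd h he⟩
  choose C hC0 hC using hco
  have hall : ∀ᶠ T : ℕ in (𝒰 : Filter ℕ), ∀ e ∈ S,
      (Q.coeff e).eval (T : ℂ) ≠ 0 ∧
        |Real.log ‖(Q.coeff e).eval (T : ℂ)‖| ≤ C e * Real.log T :=
    h𝒰 ((Filter.eventually_all_finset S).mpr fun e he => hC e he)
  have hpairs : ∀ᶠ T : ℕ in (𝒰 : Filter ℕ), ∃ pr ∈ ((S ×ˢ S : Finset _) : Set ((Fin 2 →₀ ℕ) × (Fin 2 →₀ ℕ))),
      pr.1 ≠ pr.2 ∧ |Real.log ‖(Q.coeff pr.1).eval (T : ℂ) * ∏ i, y T i ^ pr.1 i‖ -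
        Real.log ‖(Q.coeff pr.2).eval (T : ℂ) * ∏ i, y T i ^ pr.2 i‖| ≤ Real.log S.card := by
    filter_upwards [hall, hPy] with T h1 h2
    have h3 := psi_eval k β P (T : ℂ) (y T)
    rw [h2] at h3
    obtain ⟨e, he, e', he', hne, hlog⟩ := two_terms S hSne
      (fun e => (Q.coeff e).eval (T : ℂ) * ∏ i, y T i ^ e i)
      (fun e he => mul_ne_zero (h1 e he).1
        (Finset.prod_ne_zero_iff.mpr fun i _ => pow_ne_zero _ (hy T i))) h3
    exact ⟨(e, e'), Finset.mem_coe.mpr (Finset.mem_product.mpr ⟨he, he'⟩), hne, hlog⟩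
  rw [Ultrafilter.eventually_exists_mem_iff (Finset.finite_toSet _)] at hpairs
  obtain ⟨⟨e, e'⟩, hmem, hev⟩ := hpairs
  rw [Finset.mem_coe, Finset.mem_product] at hmem
  obtain ⟨he, he'⟩ := hmem
  simp only at he he' hev
  have hne : e ≠ e' := by
    obtain ⟨T, hT⟩ := hev.exists
    exact hT.1
  refine ⟨fun i => (e i : ℤ) - (e' i : ℤ), ?_, ?_⟩
  · intro h
    apply hne
    ext i
    have := congrFun h i
    simp only [Pi.zero_apply] at this
    omega
  · set D : ℝ := Real.log S.card + C e + C e' with hD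
    have hcard : 0 ≤ Real.log S.card := Real.log_natCast_nonneg _
    have hD0 : 0 ≤ D := by
      have := hC0 e
      have := hC0 e'
      linarith
    have hlogt : ∀ T : ℕ, ∀ f : Fin 2 →₀ ℕ, (Q.coeff f).eval (T : ℂ) ≠ 0 →
        Real.log ‖(Q.coeff f).eval (T : ℂ) * ∏ i, y T i ^ f i‖
          = Real.log ‖(Q.coeff f).eval (T : ℂ)‖ + ∑ i, (f i : ℝ) * Real.log ‖y T i‖ := by
      intro T f hf
      rw [norm_mul, Real.log_mul (norm_ne_zero_iff.mpr hf)
        (norm_ne_zero_iff.mpr (Finset.prod_ne_zero_iff.mpr fun i _ => pow_ne_zero _ (hy T i))),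
        norm_prod, Real.log_prod fun i _ => norm_ne_zero_iff.mpr (pow_ne_zero _ (hy T i))]
      congr 1
      refine Finset.sum_congr rfl fun i _ => ?_
      rw [norm_pow, Real.log_pow]
    have hbd : ∀ᶠ T : ℕ in (𝒰 : Filter ℕ),
        |∑ i, ((e i : ℝ) - e' i) * Real.log ‖y T i‖| ≤ D * Real.log T := by
      filter_upwards [hall, hev, h𝒰 (eventually_ge_atTop 3)] with T h1 h2 h3
      have a1 := hlogt T e (h1 e he).1
      have a2 := hlogt T e' (h1 e' he').1
      have b1 := (h1 e he).2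
      have b2 := (h1 e' he').2
      have b3 := h2.2
      rw [a1, a2] at b3
      have hT3 : (3 : ℝ) ≤ T := by exact_mod_cast h3
      have hlogT : 1 ≤ Real.log T := by
        rw [Real.le_log_iff_exp_le (by linarith)]
        have := Real.exp_one_lt_d9
        linarith
      have b4 : Real.log S.card ≤ Real.log S.card * Real.log T :=
        le_mul_of_one_le_right hcard hlogT
      have e1 : ∑ i, ((e i : ℝ) - e' i) * Real.log ‖y T i‖
          = (∑ i, (e i : ℝ) * Real.log ‖y T i‖) - ∑ i, (e' i : ℝ) * Real.log ‖y T i‖ := by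
        rw [← Finset.sum_sub_distrib]
        exact Finset.sum_congr rfl fun i _ => by ring
      rw [e1]
      rw [abs_le] at b1 b2 b3 ⊢
      have e2 : D * Real.log T
          = Real.log S.card * Real.log T + C e * Real.log T + C e' * Real.log T := by
        rw [hD]; ring
      rw [e2]
      constructor
      · linarith [b1.1, b1.2, b2.1, b2.2, b3.1, b3.2]
      · linarith [b1.1, b1.2, b2.1, b2.2, b3.1, b3.2]
    have hlim : Tendsto (fun T => |∑ i, ((e i : ℝ) - e' i) * (Real.log ‖y T i‖ / M T)|)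
        (𝒰 : Filter ℕ) (𝓝 |∑ i, ((e i : ℝ) - e' i) * r i|) :=
      (tendsto_finsetSum _ fun i _ => (hr i).const_mul _).abs
    have hle : ∀ ε : ℝ, 0 < ε → |∑ i, ((e i : ℝ) - e' i) * r i| ≤ ε := by
      intro ε hε
      refine le_of_tendsto hlim ?_
      filter_upwards [hbd, hM (D / ε), hM 0] with T h1 h2 h3
      have hM0 : 0 < M T := by linarith
      have e1 : ∑ i, ((e i : ℝ) - e' i) * (Real.log ‖y T i‖ / M T)
          = (∑ i, ((e i : ℝ) - e' i) * Real.log ‖y T i‖) / M T := by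
        rw [Finset.sum_div]
        exact Finset.sum_congr rfl fun i _ => by ring
      rw [e1, abs_div, abs_of_pos hM0, div_le_iff₀ hM0]
      refine h1.trans ?_
      have e2 : D * Real.log T = ε * (D / ε * Real.log T) := by
        field_simp
      rw [e2]
      exact mul_le_mul_of_nonneg_left h2.le hε.le
    have h0 : |∑ i, ((e i : ℝ) - e' i) * r i| = 0 :=
      le_antisymm (le_of_forall_pos_le_add fun ε hε => by rw [zero_add]; exact hle ε hε)
        (abs_nonneg _)
    have h1 := abs_eq_zero.mp h0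
    rw [← h1]
    refine Finset.sum_congr rfl fun i _ => ?_
    push_cast
    ring

theorem bdd {m n : ℕ} (k : Subfield ℂ) (β : Fin m → ℝ)
    (hβ : AlgebraicIndependent k (fun j => Complex.I * (β j : ℂ)))
    (c : Fin n → ℝ) (hc : ∀ v : Fin n → ℤ, v ≠ 0 → ∑ j, c j * v j ≠ 0)
    (P : Fin n → Fin n → MvPolynomial (Fin m ⊕ Fin 2) k) (hP : ∀ i j, i ≠ j → P i j ≠ 0)
    (𝒰 : Ultrafilter ℕ) (h𝒰 : (𝒰 : Filter ℕ) ≤ atTop) (b : ℕ → Fin n → ℂ)
    (hb : ∀ T j, b T j ≠ 0)
    (hPb : ∀ᶠ T : ℕ in (𝒰 : Filter ℕ), ∀ i j, i ≠ j →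
      aeval (Sum.elim (fun l => Complex.I * (T : ℂ) * (β l : ℂ)) ![b T i, b T j]) (P i j) = 0)
    (κ : ℝ) (hκ : ∀ᶠ T : ℕ in (𝒰 : Filter ℕ), ∑ j, c j * Real.log ‖b T j‖ = κ) :
    ∃ C : ℝ, ∀ᶠ T : ℕ in (𝒰 : Filter ℕ), ∀ j, |Real.log ‖b T j‖| ≤ C * Real.log T := by
  classical
  by_contra hno
  push Not at hno
  set x : ℕ → Fin n → ℝ := fun T j => Real.log ‖b T j‖ with hx
  set M : ℕ → ℝ := fun T => ‖x T‖ with hMd
  have hM : ∀ C : ℝ, ∀ᶠ T : ℕ in (𝒰 : Filter ℕ), C * Real.log T < M T := by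
    intro C
    have h1 := hno C
    filter_upwards [h1] with T hT
    obtain ⟨j, hj⟩ := hT
    refine hj.trans_le ?_
    have := norm_le_pi_norm (x T) j
    rwa [Real.norm_eq_abs] at this
  have hMpos : ∀ᶠ T : ℕ in (𝒰 : Filter ℕ), 0 < M T := by
    filter_upwards [hM 0] with T hT
    rwa [zero_mul] at hT
  have hMtop : Tendsto M (𝒰 : Filter ℕ) atTop := by
    rw [tendsto_atTop]
    intro B
    filter_upwards [hM |B|, h𝒰 (eventually_ge_atTop 3)] with T h1 h3
    have hT3 : (3 : ℝ) ≤ T := by exact_mod_cast h3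
    have hlogT : 1 ≤ Real.log T := by
      rw [Real.le_log_iff_exp_le (by linarith)]
      have := Real.exp_one_lt_d9
      linarith
    have h4 : |B| ≤ |B| * Real.log T := le_mul_of_one_le_right (abs_nonneg _) hlogT
    have h5 := le_abs_self B
    linarith
  -- the limit direction
  obtain ⟨r, -, hr⟩ := (isCompact_closedBall (0 : Fin n → ℝ) 1).ultrafilter_le_nhds
    (𝒰.map fun T => (M T)⁻¹ • x T) (by
      rw [Filter.le_principal_iff]
      have h1 : ∀ᶠ T : ℕ in (𝒰 : Filter ℕ), (M T)⁻¹ • x T ∈ Metric.closedBall (0 : Fin n → ℝ) 1 := by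
        filter_upwards [hMpos] with T hT
        rw [mem_closedBall_zero_iff, norm_smul, norm_inv, Real.norm_of_nonneg hT.le]
        exact le_of_eq (inv_mul_cancel₀ hT.ne')
      exact h1)
  have hr' : Tendsto (fun T => (M T)⁻¹ • x T) (𝒰 : Filter ℕ) (𝓝 r) := hr
  have hrj : ∀ j, Tendsto (fun T => x T j / M T) (𝒰 : Filter ℕ) (𝓝 (r j)) := by
    intro j
    have h1 := (tendsto_pi_nhds.mp hr') j
    refine h1.congr fun T => ?_
    rw [Pi.smul_apply, smul_eq_mul, inv_mul_eq_div]
  have hr1 : ‖r‖ = 1 := by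
    have h1 : Tendsto (fun T => ‖(M T)⁻¹ • x T‖) (𝒰 : Filter ℕ) (𝓝 ‖r‖) := hr'.norm
    have h2 : Tendsto (fun T => ‖(M T)⁻¹ • x T‖) (𝒰 : Filter ℕ) (𝓝 1) := by
      refine tendsto_const_nhds.congr' ?_
      filter_upwards [hMpos] with T hT
      rw [norm_smul, norm_inv, Real.norm_of_nonneg hT.le]
      exact (inv_mul_cancel₀ hT.ne').symm
    exact tendsto_nhds_unique h1 h2
  obtain ⟨j0, hj0⟩ : ∃ j0, r j0 ≠ 0 := by
    by_contra h
    push Not at h
    have : r = 0 := funext h
    rw [this, norm_zero] at hr1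
    exact zero_ne_one hr1
  have hq : ∀ j, ∃ q : ℚ, r j = q * r j0 := by
    intro j
    by_cases hj : j = j0
    · exact ⟨1, by rw [hj]; push_cast; ring⟩
    · obtain ⟨u, hu, hsum⟩ := rel_pair k β hβ (P j0 j) (hP j0 j (Ne.symm hj)) 𝒰 h𝒰
        (fun T => ![b T j0, b T j]) (by
          intro T i
          fin_cases i
          · exact hb T j0
          · exact hb T j) (by
          filter_upwards [hPb] with T hT
          exact hT j0 j (Ne.symm hj)) M hM ![r j0, r j] (by
          intro i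
          fin_cases i
          · exact hrj j0
          · exact hrj j)
      rw [Fin.sum_univ_two] at hsum
      simp only [Matrix.cons_val_zero, Matrix.cons_val_one] at hsum
      have hu1 : (u 1 : ℝ) ≠ 0 := by
        intro h
        rw [h, zero_mul, add_zero] at hsum
        have h0 : (u 0 : ℝ) = 0 := (mul_eq_zero.mp hsum).resolve_right hj0
        apply hu
        funext i
        fin_cases i
        · exact_mod_cast h0
        · exact_mod_cast h
      refine ⟨-(u 0 : ℚ) / (u 1 : ℚ), ?_⟩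
      push_cast
      field_simp
      linarith
  choose q hqr using hq
  have hq0 : q j0 = 1 := by
    have h1 := hqr j0
    have h2 : ((q j0 : ℚ) : ℝ) = 1 := by
      have : ((q j0 : ℚ) : ℝ) * r j0 = 1 * r j0 := by rw [one_mul]; exact h1.symm
      exact mul_right_cancel₀ hj0 this
    exact_mod_cast h2
  have hcr : ∑ j, c j * r j = 0 := by
    have h1 : Tendsto (fun T => ∑ j, c j * (x T j / M T)) (𝒰 : Filter ℕ)
        (𝓝 (∑ j, c j * r j)) := tendsto_finsetSum _ fun j _ => (hrj j).const_mul _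
    have h2 : Tendsto (fun T => ∑ j, c j * (x T j / M T)) (𝒰 : Filter ℕ) (𝓝 0) := by
      refine (hMtop.const_div_atTop κ).congr' ?_
      filter_upwards [hκ] with T hT
      rw [← hT, Finset.sum_div]
      exact Finset.sum_congr rfl fun j _ => by rw [hx]; ring
    exact tendsto_nhds_unique h1 h2
  have hcq : ∑ j, c j * (q j : ℝ) = 0 := by
    have h1 : (∑ j, c j * (q j : ℝ)) * r j0 = 0 := by
      rw [← hcr, Finset.sum_mul]
      exact Finset.sum_congr rfl fun j _ => by rw [hqr j]; ring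
    exact (mul_eq_zero.mp h1).resolve_right hj0
  -- clear denominators
  set D : ℕ := ∏ j, (q j).den with hD
  have hD0 : (D : ℚ) ≠ 0 := by
    rw [hD]
    exact_mod_cast Finset.prod_ne_zero_iff.mpr fun j _ => (q j).den_nz
  set v : Fin n → ℤ := fun j => (q j).num * ((∏ i ∈ Finset.univ.erase j, (q i).den : ℕ) : ℤ) with hv
  have hvq : ∀ j, (v j : ℚ) = q j * D := by
    intro j
    have e1 : (D : ℚ) = (q j).den * ((∏ i ∈ Finset.univ.erase j, (q i).den : ℕ) : ℚ) := by
      rw [hD, ← Finset.mul_prod_erase Finset.univ (fun i => (q i).den) (Finset.mem_univ j)]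
      push_cast
      ring
    rw [e1, hv]
    push_cast
    rw [← mul_assoc, Rat.mul_den_eq_num]
  have hvr : ∀ j, (v j : ℝ) = (q j : ℝ) * D := by
    intro j
    have := congrArg (fun z : ℚ => (z : ℝ)) (hvq j)
    push_cast at this
    exact this
  refine hc v ?_ ?_
  · intro h
    have h1 := hvq j0
    rw [h, hq0, one_mul] at h1
    simp only [Pi.zero_apply, Int.cast_zero] at h1
    exact hD0 h1.symm
  · have : ∑ j, c j * (v j : ℝ) = (∑ j, c j * (q j : ℝ)) * D := by
      rw [Finset.sum_mul]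
      exact Finset.sum_congr rfl fun j _ => by rw [hvr j]; ring
    rw [this, hcq, zero_mul]

end Pool.Agent.EXG
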