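import Pool.Agent.EXG.Defs
import Pool.Agent.EXP.AxGerm

/-!
# EXG / Cnt: countability

PROOF.  `big E`: the set of the values `η_i`, `η ∈ E`, is not countable. If the set `A` is not countable, some `i` makes it
big. For `Q ≠ 0` in `ℂ[X][Y]` with `Q(w_i, w_j) = 0` on a big `E` (`w = exp η`) there are a big `E' ⊆ E` and `Q'` with
`Q' = 0`, `∂_Y Q' ≠ 0` on `E'` (induction on the degree in `Y`). Iterate over `j`. `E'` is not countable, so it is not
discrete: `η⁰ ∈ E'` is an accumulation point of `E'`. Implicit functions (with uniqueness): near `η⁰` the points of `E'` are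
`η_j = φ_j(η_i)`. So `∑ c_j φ_j(u) - θ` and the `P i j (e^u, e^{φ_j(u)})` vanish for `u` near `u⁰ = η⁰_i` (identity theorem):
against `ax_germ`.
-/

set_option autoImplicit false

namespace Pool.Agent.EXG

open MvPolynomial Topology Filter

private noncomputable def cvt : MvPolynomial (Fin 2) ℂ →ₐ[ℂ] Polynomial (Polynomial ℂ) :=
  aeval ![Polynomial.C Polynomial.X, Polynomial.X]

private theorem ev_cvt (P : MvPolynomial (Fin 2) ℂ) (a b : ℂ) :
    EXP.ev (cvt P) a b = eval ![a, b] P := by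
  induction P using MvPolynomial.induction_on with
  | C c =>
    unfold cvt EXP.ev
    rw [aeval_C, eval_C]
    have h : algebraMap ℂ (Polynomial (Polynomial ℂ)) c = Polynomial.C (Polynomial.C c) := rfl
    rw [h, Polynomial.map_C, Polynomial.eval_C, Polynomial.coe_evalRingHom, Polynomial.eval_C]
  | add p q hp hq =>
    rw [map_add, map_add, ← hp, ← hq]
    unfold EXP.ev
    rw [Polynomial.map_add, Polynomial.eval_add]
  | mul_X p i hp =>
    rw [map_mul, map_mul, ← hp]
    unfold EXP.ev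
    rw [Polynomial.map_mul, Polynomial.eval_mul]
    congr 1
    unfold cvt
    rw [aeval_X, eval_X]
    fin_cases i <;> simp

private theorem cvt_ne {P : MvPolynomial (Fin 2) ℂ} (hP : P ≠ 0) : cvt P ≠ 0 := by
  intro h
  apply hP
  apply MvPolynomial.funext
  intro x
  have hx : x = ![x 0, x 1] := by
    funext i
    fin_cases i <;> rfl
  rw [map_zero, hx, ← ev_cvt, h]
  simp [EXP.ev]

/-- the values of `η_i` on `E` are not countably many -/
private def Big {n : ℕ} (i : Fin n) (E : Set (Fin n → ℂ)) : Prop :=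
  ¬ ((fun η : Fin n → ℂ => η i) '' E).Countable

private theorem exp_fin_countable (F : Set ℂ) (hF : F.Countable) : (Complex.exp ⁻¹' F).Countable := by
  have h : Complex.exp ⁻¹' F ⊆ ⋃ w ∈ F, (Complex.exp ⁻¹' {w}) := by
    intro z hz
    rw [Set.mem_iUnion₂]
    exact ⟨Complex.exp z, hz, rfl⟩
  refine (hF.biUnion fun w _ => ?_).mono h
  by_cases hw : w = 0
  · have : Complex.exp ⁻¹' {w} = ∅ := by
      ext z
      simp [hw, Complex.exp_ne_zero]
    rw [this]
    exact Set.countable_empty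
  · have hsub : Complex.exp ⁻¹' {w} ⊆
        Set.range (fun m : ℤ => Complex.log w + m * (2 * Real.pi * Complex.I)) := by
      intro z hz
      have h1 : Complex.exp z = Complex.exp (Complex.log w) := by
        rw [Complex.exp_log hw]
        exact hz
      obtain ⟨m, hm⟩ := Complex.exp_eq_exp_iff_exists_int.1 h1
      exact ⟨m, hm.symm⟩
    exact (Set.countable_range _).mono hsub

private theorem split_big {n : ℕ} {i : Fin n} {E E₁ E₂ : Set (Fin n → ℂ)} (h : Big i E)
    (hE : E ⊆ E₁ ∪ E₂) : Big i E₁ ∨ Big i E₂ := by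
  by_contra hcon
  push Not at hcon
  unfold Big at h hcon
  rw [not_not, not_not] at hcon
  apply h
  refine (hcon.1.union hcon.2).mono ?_
  rw [← Set.image_union]
  exact Set.image_mono hE

private theorem red {n : ℕ} (i j : Fin n) : ∀ (N : ℕ) (E : Set (Fin n → ℂ))
    (Q : Polynomial (Polynomial ℂ)), Q ≠ 0 → Q.natDegree ≤ N → Big i E →
    (∀ η ∈ E, EXP.ev Q (Complex.exp (η i)) (Complex.exp (η j)) = 0) →
    ∃ E' ⊆ E, Big i E' ∧ ∃ Q' : Polynomial (Polynomial ℂ), ∀ η ∈ E',
      EXP.ev Q' (Complex.exp (η i)) (Complex.exp (η j)) = 0 ∧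
      EXP.ev (Polynomial.derivative Q') (Complex.exp (η i)) (Complex.exp (η j)) ≠ 0 := by
  intro N
  induction N with
  | zero =>
    intro E Q hQ hdeg hbig hz
    exfalso
    have hdeg0 : Q.natDegree = 0 := Nat.le_zero.1 hdeg
    obtain ⟨q, rfl⟩ : ∃ q, Q = Polynomial.C q := ⟨_, Polynomial.eq_C_of_natDegree_eq_zero hdeg0⟩
    have hq : q ≠ 0 := by
      rintro rfl
      exact hQ (by simp)
    apply hbig
    have hfin : {w : ℂ | q.eval w = 0}.Finite := by
      have h1 := q.roots.toFinset.finite_toSet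
      refine h1.subset ?_
      intro w hw
      rw [Finset.mem_coe, Multiset.mem_toFinset, Polynomial.mem_roots hq]
      exact hw
    refine (exp_fin_countable _ hfin.countable).mono ?_
    rintro _ ⟨η, hη, rfl⟩
    have h1 := hz η hη
    unfold EXP.ev at h1
    rw [Polynomial.map_C, Polynomial.eval_C, Polynomial.coe_evalRingHom] at h1
    exact h1
  | succ N ih =>
    intro E Q hQ hdeg hbig hz
    by_cases hd0 : Q.natDegree = 0
    · exact ih E Q hQ (by omega) hbig hz
    have hder : Polynomial.derivative Q ≠ 0 := by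
      intro h
      exact hd0 (Polynomial.derivative_eq_zero.1 h)
    have hdlt : (Polynomial.derivative Q).natDegree < Q.natDegree :=
      Polynomial.natDegree_derivative_lt hd0
    rcases split_big hbig (E₁ := {η ∈ E | EXP.ev (Polynomial.derivative Q) (Complex.exp (η i))
        (Complex.exp (η j)) ≠ 0}) (E₂ := {η ∈ E | EXP.ev (Polynomial.derivative Q)
        (Complex.exp (η i)) (Complex.exp (η j)) = 0}) (by
      intro η hη
      by_cases h : EXP.ev (Polynomial.derivative Q) (Complex.exp (η i)) (Complex.exp (η j)) = 0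
      · exact Or.inr ⟨hη, h⟩
      · exact Or.inl ⟨hη, h⟩) with h1 | h1
    · exact ⟨_, fun η hη => hη.1, h1, Q, fun η hη => ⟨hz η hη.1, hη.2⟩⟩
    · obtain ⟨E', hE', hb, Q', hQ'⟩ := ih _ _ hder (by omega) h1 (fun η hη => hη.2)
      exact ⟨E', fun η hη => (hE' hη).1, hb, Q', hQ'⟩

private theorem red_all {n : ℕ} (i : Fin n) (Q : Fin n → Polynomial (Polynomial ℂ))
    (E : Set (Fin n → ℂ)) (hbig : Big i E) (hQ : ∀ j, j ≠ i → Q j ≠ 0)
    (hz : ∀ j, j ≠ i → ∀ η ∈ E, EXP.ev (Q j) (Complex.exp (η i)) (Complex.exp (η j)) = 0)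
    (s : Finset (Fin n)) (hs : i ∉ s) :
    ∃ E' ⊆ E, Big i E' ∧ ∀ j ∈ s, ∃ Q' : Polynomial (Polynomial ℂ), ∀ η ∈ E',
      EXP.ev Q' (Complex.exp (η i)) (Complex.exp (η j)) = 0 ∧
      EXP.ev (Polynomial.derivative Q') (Complex.exp (η i)) (Complex.exp (η j)) ≠ 0 := by
  classical
  induction s using Finset.induction_on with
  | empty => exact ⟨E, subset_rfl, hbig, by simp⟩
  | insert j s hj ih =>
    obtain ⟨E₁, h1, h2, h3⟩ := ih (fun h => hs (Finset.mem_insert_of_mem h))
    have hji : j ≠ i := by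
      rintro rfl
      exact hs (Finset.mem_insert_self _ _)
    obtain ⟨E₂, h4, h5, Q', hQ'⟩ := red i j _ E₁ (Q j) (hQ j hji) le_rfl h2
      (fun η hη => hz j hji η (h1 hη))
    refine ⟨E₂, h4.trans h1, h5, fun l hl => ?_⟩
    rcases Finset.mem_insert.1 hl with rfl | hl
    · exact ⟨Q', hQ'⟩
    · obtain ⟨Q'', hQ''⟩ := h3 l hl
      exact ⟨Q'', fun η hη => hQ'' η (h4 hη)⟩

private theorem exists_acc {n : ℕ} {E : Set (Fin n → ℂ)} (h : ¬ E.Countable) :
    ∃ x ∈ E, (𝓝[≠] x ⊓ 𝓟 E).NeBot := by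
  by_contra hcon
  push Not at hcon
  apply h
  have h1 : DiscreteTopology E := by
    rw [discreteTopology_subtype_iff]
    intro x hx
    have := hcon x hx
    exact Filter.not_neBot.1 (by simpa using this)
  have h2 : TopologicalSpace.SeparableSpace E := inferInstance
  exact Set.countable_coe_iff.1 (TopologicalSpace.separableSpace_iff_countable.1 h2)

private theorem cd_ev (p : Polynomial (Polynomial ℂ)) :
    ContDiff ℂ 1 (fun u : ℂ × ℂ => EXP.ev p u.1 u.2) := by
  unfold EXP.ev
  induction p using Polynomial.induction_on' with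
  | add p q hp hq =>
    simp only [Polynomial.map_add, Polynomial.eval_add]
    exact hp.add hq
  | monomial n a =>
    simp only [Polynomial.map_monomial, Polynomial.eval_monomial, Polynomial.coe_evalRingHom]
    have h1 : ContDiff ℂ 1 fun x : ℂ => a.eval x := by
      have := Polynomial.contDiff_aeval (𝕜 := ℂ) a 1
      simpa [Polynomial.aeval_def] using this
    exact (h1.comp contDiff_fst).mul (contDiff_snd.pow n)

/-- the implicit function theorem with uniqueness -/
private theorem ift (Q : Polynomial (Polynomial ℂ)) (u₀ v₀ : ℂ)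
    (h0 : EXP.ev Q (Complex.exp u₀) (Complex.exp v₀) = 0)
    (h1 : EXP.ev (Polynomial.derivative Q) (Complex.exp u₀) (Complex.exp v₀) ≠ 0) :
    ∃ φ : ℂ → ℂ, φ u₀ = v₀ ∧ AnalyticAt ℂ φ u₀ ∧
      ∀ᶠ p in 𝓝 (u₀, v₀), EXP.ev Q (Complex.exp p.1) (Complex.exp p.2) = 0 → p.2 = φ p.1 := by
  set f : ℂ × ℂ → ℂ := fun u => EXP.ev Q (Complex.exp u.1) (Complex.exp u.2) with hf
  have cdf : ContDiffAt ℂ 1 f (u₀, v₀) := by
    have h2 : ContDiff ℂ 1 (fun u : ℂ × ℂ => (Complex.exp u.1, Complex.exp u.2)) :=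
      (contDiff_fst.cexp).prodMk contDiff_snd.cexp
    exact ((cd_ev Q).comp h2).contDiffAt
  have hd : HasFDerivAt f (fderiv ℂ f (u₀, v₀)) (u₀, v₀) :=
    (cdf.differentiableAt one_ne_zero).hasFDerivAt
  have hinr : HasFDerivAt (fun w : ℂ => ((u₀, w) : ℂ × ℂ)) (ContinuousLinearMap.inr ℂ ℂ ℂ) v₀ :=
    hasFDerivAt_prodMk_right u₀ v₀
  have hcomp := HasFDerivAt.comp v₀ (g := f) hd hinr
  have hder : HasDerivAt (fun w : ℂ => EXP.ev Q (Complex.exp u₀) (Complex.exp w))
      (EXP.ev (Polynomial.derivative Q) (Complex.exp u₀) (Complex.exp v₀) * Complex.exp v₀) v₀ := by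
    have h2 := ((Q.map (Polynomial.evalRingHom (Complex.exp u₀))).hasDerivAt
      (Complex.exp v₀)).comp v₀ (Complex.hasDerivAt_exp v₀)
    rw [Polynomial.derivative_map] at h2
    exact h2
  have heq := hcomp.unique hder.hasFDerivAt
  have hne : EXP.ev (Polynomial.derivative Q) (Complex.exp u₀) (Complex.exp v₀) *
      Complex.exp v₀ ≠ 0 := mul_ne_zero h1 (Complex.exp_ne_zero _)
  have hinv : (fderiv ℂ f (u₀, v₀) ∘L .inr ℂ ℂ ℂ).IsInvertible := by
    rw [heq]
    refine ⟨ContinuousLinearEquiv.unitsEquivAut ℂ (Units.mk0 _ hne), ?_⟩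
    ext
    simp
  have e1 := cdf.eventually_apply_eq_iff_implicitFunction one_ne_zero hinv
  have e3 := cdf.contDiffAt_implicitFunction one_ne_zero hinv
  have e4 := cdf.implicitFunction_apply_self one_ne_zero hinv
  refine ⟨cdf.implicitFunction one_ne_zero hinv, e4, ?_, ?_⟩
  · rw [Complex.analyticAt_iff_eventually_differentiableAt]
    have h2 := e3.eventually (by simp)
    filter_upwards [h2] with z hz
    exact hz.differentiableAt one_ne_zero
  · filter_upwards [e1] with p hp hz
    have h2 : f p = f (u₀, v₀) := by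
      rw [hf]
      simp only
      rw [hz, h0]
    exact (hp.1 h2).symm

theorem cnt {n : ℕ} (c : Fin n → ℝ) (hc : ∀ v : Fin n → ℤ, v ≠ 0 → ∑ j, c j * v j ≠ 0)
    (P : Fin n → Fin n → MvPolynomial (Fin 2) ℂ) (hP : ∀ i j, i ≠ j → P i j ≠ 0) (θ : ℂ) :
    {η : Fin n → ℂ | (∀ i j, i ≠ j → eval ![Complex.exp (η i), Complex.exp (η j)] (P i j) = 0) ∧
      ∑ j, (c j : ℂ) * η j = θ}.Countable := by
  classical
  set A : Set (Fin n → ℂ) := {η : Fin n → ℂ | (∀ i j, i ≠ j →
    eval ![Complex.exp (η i), Complex.exp (η j)] (P i j) = 0) ∧ ∑ j, (c j : ℂ) * η j = θ} with hA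
  by_contra hcount
  -- a coordinate with uncountably many values
  obtain ⟨i, hi⟩ : ∃ i, Big i A := by
    by_contra hcon
    push Not at hcon
    apply hcount
    have h1 : (Set.pi Set.univ fun i => (fun η : Fin n → ℂ => η i) '' A).Countable := by
      apply Set.countable_univ_pi
      intro i
      have := hcon i
      unfold Big at this
      rwa [not_not] at this
    refine h1.mono ?_
    intro η hη i _
    exact ⟨η, hη, rfl⟩
  obtain ⟨E, hEA, hE, hQ⟩ := red_all i (fun j => cvt (P i j)) A hi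
    (fun j hj => cvt_ne (hP i j hj.symm)) (by
      intro j hj η hη
      rw [ev_cvt]
      exact hη.1 i j hj.symm) (Finset.univ.erase i) (Finset.notMem_erase i _)
  have hEc : ¬ E.Countable := fun h => hE (h.image _)
  obtain ⟨η₀, hη₀, hacc⟩ := exists_acc hEc
  -- the implicit functions
  have hφ : ∀ j, ∃ φ : ℂ → ℂ, φ (η₀ i) = η₀ j ∧ AnalyticAt ℂ φ (η₀ i) ∧
      (∀ᶠ η in 𝓝 η₀, η ∈ E → η j = φ (η i)) ∧ (j = i → φ = id) := by
    intro j
    by_cases hj : j = i
    · subst hj
      exact ⟨id, rfl, analyticAt_id, Eventually.of_forall fun _ _ => rfl, fun _ => rfl⟩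
    · obtain ⟨Q', hQ'⟩ := hQ j (Finset.mem_erase.2 ⟨hj, Finset.mem_univ _⟩)
      obtain ⟨φ, h1, h2, h3⟩ := ift Q' (η₀ i) (η₀ j) (hQ' η₀ hη₀).1 (hQ' η₀ hη₀).2
      refine ⟨φ, h1, h2, ?_, fun h => absurd h hj⟩
      have ht : Tendsto (fun η : Fin n → ℂ => (η i, η j)) (𝓝 η₀) (𝓝 (η₀ i, η₀ j)) :=
        ((continuous_apply i).prodMk (continuous_apply j)).tendsto η₀
      filter_upwards [ht.eventually h3] with η hη hηE
      exact hη (hQ' η hηE).1
  choose φ hφ0 hφa hφu hφi using hφ
  set u₀ := η₀ i with hu₀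
  -- accumulation
  have hfreq : ∃ᶠ u in 𝓝[≠] u₀, (fun j => φ j u) ∈ A := by
    have hall : ∀ᶠ η in (𝓝[≠] η₀ ⊓ 𝓟 E), η ∈ E ∧ η ≠ η₀ ∧ ∀ j, η j = φ j (η i) := by
      have h1 : ∀ᶠ η in (𝓝[≠] η₀ ⊓ 𝓟 E), η ∈ E :=
        Filter.Eventually.filter_mono inf_le_right (Filter.eventually_principal.2 fun _ h => h)
      have h2 : ∀ᶠ η in (𝓝[≠] η₀ ⊓ 𝓟 E), η ≠ η₀ :=
        Filter.Eventually.filter_mono inf_le_left (eventually_mem_nhdsWithin)
      have h3 : ∀ᶠ η in (𝓝[≠] η₀ ⊓ 𝓟 E), ∀ j, η ∈ E → η j = φ j (η i) :=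
        Filter.Eventually.filter_mono (inf_le_left.trans nhdsWithin_le_nhds)
          (Filter.eventually_all.2 hφu)
      filter_upwards [h1, h2, h3] with η a b d
      exact ⟨a, b, fun j => d j a⟩
    have ht : Tendsto (fun η : Fin n → ℂ => η i) (𝓝[≠] η₀ ⊓ 𝓟 E) (𝓝[≠] u₀) := by
      rw [tendsto_nhdsWithin_iff]
      constructor
      · exact ((continuous_apply i).tendsto η₀).mono_left (inf_le_left.trans nhdsWithin_le_nhds)
      · filter_upwards [hall] with η hη
        intro h
        have h' : η i = u₀ := h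
        apply hη.2.1
        funext j
        rw [hη.2.2 j, h', hφ0 j]
    refine ht.frequently (Eventually.frequently ?_)
    filter_upwards [hall] with η hη
    have h1 : (fun j => φ j (η i)) = η := by
      funext j
      exact (hη.2.2 j).symm
    rw [h1]
    exact hEA hη.1
  -- the germ
  have hshift : AnalyticAt ℂ (fun t : ℂ => u₀ + t) 0 := by fun_prop
  have hxa : ∀ j, AnalyticAt ℂ (fun t : ℂ => φ j (u₀ + t)) 0 := by
    intro j
    have h1 : AnalyticAt ℂ (φ j) (u₀ + 0) := by
      rw [add_zero]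
      exact hφa j
    exact AnalyticAt.fun_comp h1 hshift
  have htr : Tendsto (fun t : ℂ => u₀ + t) (𝓝 0) (𝓝 u₀) := by
    have h1 : Continuous fun t : ℂ => u₀ + t := by fun_prop
    have h2 := h1.tendsto 0
    rwa [add_zero] at h2
  have hsum : ∀ᶠ u in 𝓝 u₀, ∑ j, (c j : ℂ) * φ j u - θ = 0 := by
    have han : AnalyticAt ℂ (fun u => ∑ j, (c j : ℂ) * φ j u - θ) u₀ := by
      refine AnalyticAt.sub ?_ analyticAt_const
      exact Finset.analyticAt_fun_sum _ fun j _ => analyticAt_const.mul (hφa j)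
    rw [← han.frequently_zero_iff_eventually_zero]
    refine hfreq.mono fun u hu => ?_
    have h1 := hu.2
    rw [h1, sub_self]
  have hrel : ∀ j, j ≠ i → ∀ᶠ u in 𝓝 u₀,
      eval ![Complex.exp u, Complex.exp (φ j u)] (P i j) = 0 := by
    intro j hj
    have han : AnalyticAt ℂ (fun u => eval ![Complex.exp u, Complex.exp (φ j u)] (P i j)) u₀ := by
      have h1 : (fun u => eval ![Complex.exp u, Complex.exp (φ j u)] (P i j)) =
          fun u => aeval (fun l : Fin 2 => (![Complex.exp u, Complex.exp (φ j u)] : Fin 2 → ℂ) l)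
            (P i j) := by
        funext u
        rw [MvPolynomial.aeval_def, MvPolynomial.eval₂_eq_eval_map]
        simp
      rw [h1]
      apply AnalyticAt.aeval_mvPolynomial
      intro l
      fin_cases l
      · exact analyticAt_cexp
      · exact (hφa j).cexp
    rw [← han.frequently_zero_iff_eventually_zero]
    refine hfreq.mono fun u hu => ?_
    have h1 := hu.1 i j hj.symm
    have h2 : φ i u = u := by rw [hφi i rfl]; rfl
    simp only at h1
    rw [h2] at h1
    exact h1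
  refine EXP.ax_germ c (fun v hv => ?_) (fun t j => φ j (u₀ + t)) hxa i ?_ ?_ ?_
  · by_contra h
    exact hc v h hv
  · intro h
    have h1 : ∀ᶠ t in 𝓝[≠] (0 : ℂ), t = 0 := by
      filter_upwards [h.filter_mono nhdsWithin_le_nhds] with t ht
      rw [hφi i rfl] at ht
      simpa using ht
    have h2 : ∀ᶠ t in 𝓝[≠] (0 : ℂ), t ≠ 0 := eventually_mem_nhdsWithin
    obtain ⟨t, ht1, ht2⟩ := (h1.and h2).exists
    exact ht2 ht1
  · intro j
    by_cases hj : j = i
    · subst hj
      refine ⟨X 0 - X 1, ?_, Eventually.of_forall fun t => by simp⟩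
      intro h
      have h1 := congrArg (eval ![(1 : ℂ), 0]) h
      simp at h1
    · refine ⟨P i j, hP i j fun h => hj h.symm, ?_⟩
      filter_upwards [htr.eventually (hrel j hj)] with t ht
      rw [hφi i rfl]
      exact ht
  · filter_upwards [htr.eventually hsum] with t ht
    have h1 := hsum.self_of_nhds
    rw [add_zero]
    exact (sub_eq_zero.1 ht).trans (sub_eq_zero.1 h1).symm

end Pool.Agent.EXG
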