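import Pool.Agent.EXG.Sheets

/-!
# EXG / CoreA: the sheet through a point, with logarithms

`u = (x', z)`, the point over `u` has `y_j = s_j w_j exp (Λ_j u)`, and `z = y_i / s_i`.

PROOF.  `Om' = {v | ‖v (some j) - X j‖ < R, ‖v none - s i * w i‖ < ‖s i‖ * r}` is open and convex; `Dl ≠ 0` on it (`hDl` for
`u none = v none / s i`). `sheets` gives `Y`; `Y~ u = Y (cons (s i * u none) (u ∘ some))`, `x0 u = Y~ u (inl 0)`. For `j ≠ i` the continuous
function `‖Y~ u (inr j) / s j - w j‖` on the connected set `Om` is never `δ'` (`hPV`, `hP`) and is `< δ'` at the base point, so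
`< δ' ≤ ‖w j‖ / 4` everywhere; for `j = i` it is `‖u none - w i‖ < r ≤ ‖w i‖ / 4`. So `q = Y~ u (inr j) / (s j * w j)` has
`‖q - 1‖ ≤ 1 / 4`; `Λ j u = log q`, `‖Λ j u‖ ≤ 1`.
-/

set_option autoImplicit false

namespace Pool.Agent.EXG

open MvPolynomial Pool.Agent.EXI

/-- polydiscs -/
private theorem coreA_disc {m : ℕ} (X : Fin m → ℂ) (R r : ℝ) (c : ℂ) :
    IsOpen {v : Option (Fin m) → ℂ | (∀ j, ‖v (some j) - X j‖ < R) ∧ ‖v none - c‖ < r} ∧
      Convex ℝ {v : Option (Fin m) → ℂ | (∀ j, ‖v (some j) - X j‖ < R) ∧ ‖v none - c‖ < r} := by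
  have hcv : ∀ (q : Option (Fin m)) (a : ℂ) (ρ : ℝ),
      Convex ℝ {v : Option (Fin m) → ℂ | ‖v q - a‖ < ρ} := by
    intro q a ρ
    have h1 : {v : Option (Fin m) → ℂ | ‖v q - a‖ < ρ} =
        (LinearMap.proj q : (Option (Fin m) → ℂ) →ₗ[ℝ] ℂ) ⁻¹' Metric.ball a ρ := by
      ext v
      simp [Metric.mem_ball, dist_eq_norm]
    rw [h1]
    exact (convex_ball a ρ).linear_preimage _
  constructor
  · rw [Set.ofPred_and, Set.ofPred_forall]
    refine IsOpen.inter (isOpen_iInter_of_finite fun j => ?_) ?_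
    · exact isOpen_lt (by fun_prop) continuous_const
    · exact isOpen_lt (by fun_prop) continuous_const
  · rw [Set.ofPred_and, Set.ofPred_forall]
    exact (convex_iInter fun j => hcv (some j) _ _).inter (hcv none _ _)

theorem sheet_log {k : Subfield ℂ} {m : ℕ} {a b : Fin (m + 1) → ℂ} {i : Fin (m + 1)}
    (pr : Prim k a b i) (X : Fin m → ℂ) (R r δ' : ℝ) (hR : 0 < R) (hr : 0 < r)
    (s w : Fin (m + 1) → ℂ) (hs : ∀ j, s j ≠ 0) (hw : ∀ j, w j ≠ 0)
    (hδ : ∀ j, δ' ≤ ‖w j‖ / 4) (hrw : r ≤ ‖w i‖ / 4)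
    (hDl : ∀ u : Option (Fin m) → ℂ, (∀ j, ‖u (some j) - X j‖ ≤ R) → ‖u none - w i‖ ≤ r →
      aeval (cons (s i * u none) (fun j => u (some j))) pr.Dl ≠ 0)
    (P : Fin (m + 1) → MvPolynomial (Fin m ⊕ Fin 2) k)
    (hPV : ∀ j, j ≠ i → ∀ x y : Fin (m + 1) → ℂ, Spec k (Sum.elim a b) (Sum.elim x y) →
      aeval (Sum.elim (fun l : Fin m => x l.succ) ![y i, y j]) (P j) = 0)
    (hP : ∀ j, j ≠ i → ∀ (x : Fin m → ℂ) (z ζ : ℂ), (∀ l, ‖x l - X l‖ ≤ R) → ‖z - w i‖ ≤ r →
      ‖ζ - w j‖ = δ' → aeval (Sum.elim x ![s i * z, s j * ζ]) (P j) ≠ 0)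
    (x y : Fin (m + 1) → ℂ) (hxy : Spec k (Sum.elim a b) (Sum.elim x y))
    (hx : ∀ j : Fin m, x j.succ = X j) (hyi : ‖y i / s i - w i‖ < r)
    (hyj : ∀ j, j ≠ i → ‖y j / s j - w j‖ < δ')
    (Om : Set (Option (Fin m) → ℂ))
    (hOm : Om = {u | (∀ j, ‖u (some j) - X j‖ < R) ∧ ‖u none - w i‖ < r}) :
    ∃ (x0 : (Option (Fin m) → ℂ) → ℂ) (Λ : Fin (m + 1) → (Option (Fin m) → ℂ) → ℂ),
      DifferentiableOn ℂ x0 Om ∧ (∀ j, DifferentiableOn ℂ (Λ j) Om) ∧
      (∀ j, ∀ u ∈ Om, ‖Λ j u‖ ≤ 1) ∧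
      (∀ u ∈ Om, Spec k (Sum.elim a b)
        (Sum.elim (Fin.cons (x0 u) (fun j => u (some j)) : Fin (m + 1) → ℂ)
          (fun j => s j * w j * Complex.exp (Λ j u)))) ∧
      (∀ u ∈ Om, w i * Complex.exp (Λ i u) = u none) ∧
      x0 (cons (y i / s i) X) = x 0 ∧
      ∀ j, s j * w j * Complex.exp (Λ j (cons (y i / s i) X)) = y j := by
  have hsi : 0 < ‖s i‖ := norm_pos_iff.2 (hs i)
  obtain ⟨hOo, hOc⟩ := coreA_disc X R r (w i)
  rw [← hOm] at hOo hOc
  obtain ⟨Om', hOm'⟩ : ∃ Om' : Set (Option (Fin m) → ℂ), Om' =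
    {v | (∀ j, ‖v (some j) - X j‖ < R) ∧ ‖v none - s i * w i‖ < ‖s i‖ * r} := ⟨_, rfl⟩
  obtain ⟨hOo', hOc'⟩ := coreA_disc X R (‖s i‖ * r) (s i * w i)
  rw [← hOm'] at hOo' hOc'
  -- the scaling
  obtain ⟨φ, hφ⟩ : ∃ φ : (Option (Fin m) → ℂ) → (Option (Fin m) → ℂ),
    φ = fun u => cons (s i * u none) (fun j => u (some j)) := ⟨_, rfl⟩
  have hφn : ∀ u, φ u none = s i * u none := fun u => by rw [hφ]; rfl
  have hφs : ∀ u (j : Fin m), φ u (some j) = u (some j) := fun u j => by rw [hφ]; rfl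
  have hφd : Differentiable ℂ φ := by
    rw [differentiable_pi]
    intro q
    cases q with
    | none =>
      simp only [hφn]
      fun_prop
    | some j =>
      simp only [hφs]
      fun_prop
  have hφm : ∀ u ∈ Om, φ u ∈ Om' := by
    intro u hu
    rw [hOm] at hu
    rw [hOm']
    refine ⟨fun j => ?_, ?_⟩
    · rw [hφs]
      exact hu.1 j
    · rw [hφn, ← mul_sub, norm_mul]
      exact mul_lt_mul_of_pos_left hu.2 hsi
  have hDl' : ∀ v ∈ Om', aeval v pr.Dl ≠ 0 := by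
    intro v hv
    rw [hOm'] at hv
    have h1 := hDl (cons (v none / s i) (fun j => v (some j))) (fun j => (hv.1 j).le) (by
      have h2 : (cons (v none / s i) (fun j => v (some j)) : Option (Fin m) → ℂ) none =
        v none / s i := rfl
      rw [h2]
      have h3 : v none / s i - w i = (v none - s i * w i) / s i := by
        field_simp [hs i]
      rw [h3, norm_div, div_le_iff₀ hsi, mul_comm r]
      exact hv.2.le)
    have h4 : (cons (s i * (cons (v none / s i) (fun j => v (some j)) :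
        Option (Fin m) → ℂ) none) (fun j : Fin m => (cons (v none / s i) (fun j => v (some j)) :
        Option (Fin m) → ℂ) (some j)) : Option (Fin m) → ℂ) = v := by
      funext q
      cases q with
      | none =>
        change s i * (v none / s i) = v none
        field_simp [hs i]
      | some j => rfl
    rw [h4] at h1
    exact h1
  -- the base point
  obtain ⟨u₀, hu₀⟩ : ∃ u₀ : Option (Fin m) → ℂ, u₀ = cons (y i / s i) X := ⟨_, rfl⟩
  have hu₀m : u₀ ∈ Om := by
    rw [hOm, hu₀]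
    refine ⟨fun j => ?_, ?_⟩
    · change ‖X j - X j‖ < R
      rw [sub_self, norm_zero]
      exact hR
    · exact hyi
  have hφu₀ : φ u₀ = bs i x y := by
    funext q
    cases q with
    | none =>
      rw [hφn, hu₀]
      change s i * (y i / s i) = y i
      field_simp [hs i]
    | some j =>
      rw [hφs, hu₀]
      exact (hx j).symm
  have hbs : bs i x y ∈ Om' := by
    rw [← hφu₀]
    exact hφm _ hu₀m
  obtain ⟨Y, hYd, hY0, hY⟩ := sheets pr Om' hOo' hOc' hDl' x y hxy hbs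
  -- the point over `u`
  have hZd : ∀ q, DifferentiableOn ℂ (fun u => Y (φ u) q) Om := fun q =>
    (hYd q).comp hφd.differentiableOn fun u hu => hφm u hu
  have hZ0 : Y (φ u₀) = Sum.elim x y := by rw [hφu₀, hY0]
  have hZi : ∀ u ∈ Om, Y (φ u) (Sum.inr i) = s i * u none := by
    intro u hu
    rw [(hY _ (hφm u hu)).2.2.1, hφn]
  have hZs : ∀ u ∈ Om, ∀ j : Fin m, Y (φ u) (Sum.inl j.succ) = u (some j) := by
    intro u hu j
    rw [(hY _ (hφm u hu)).2.2.2 j, hφs]
  have hZe : ∀ u ∈ Om, Y (φ u) =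
      Sum.elim (Fin.cons (Y (φ u) (Sum.inl 0)) (fun j => u (some j)) : Fin (m + 1) → ℂ)
        (fun j => Y (φ u) (Sum.inr j)) := by
    intro u hu
    funext q
    rcases q with l | l
    · refine Fin.cases ?_ (fun j => ?_) l
      · rfl
      · simp only [Sum.elim_inl, Fin.cons_succ]
        exact hZs u hu j
    · rfl
  have hdist : ∀ j, j ≠ i → ∀ u ∈ Om, ‖Y (φ u) (Sum.inr j) / s j - w j‖ < δ' := by
    intro j hj u hu
    by_contra hcon
    push Not at hcon
    have hc : ContinuousOn (fun u => ‖Y (φ u) (Sum.inr j) / s j - w j‖) Om :=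
      (((hZd (Sum.inr j)).continuousOn.div_const _).sub continuousOn_const).norm
    have hb0 : ‖Y (φ u₀) (Sum.inr j) / s j - w j‖ < δ' := by
      rw [hZ0]
      exact hyj j hj
    obtain ⟨v, hv, hv2⟩ := hOc.isPreconnected.intermediate_value hu₀m hu hc ⟨hb0.le, hcon⟩
    have hv2' : ‖Y (φ v) (Sum.inr j) / s j - w j‖ = δ' := hv2
    have hvm := hv
    rw [hOm] at hvm
    have h1 := hP j hj (fun l => v (some l)) (v none) (Y (φ v) (Sum.inr j) / s j)
      (fun l => (hvm.1 l).le) hvm.2.le hv2'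
    have h2 := (hY _ (hφm v hv)).1
    rw [hZe v hv] at h2
    have h3 := hPV j hj _ _ h2
    apply h1
    have h4 : (![s i * v none, s j * (Y (φ v) (Sum.inr j) / s j)] : Fin 2 → ℂ) =
        ![Y (φ v) (Sum.inr i), Y (φ v) (Sum.inr j)] := by
      rw [hZi v hv, mul_div_cancel₀ _ (hs j)]
    rw [h4]
    simpa only [Fin.cons_succ] using h3
  have hq : ∀ j, ∀ u ∈ Om, ‖Y (φ u) (Sum.inr j) / (s j * w j) - 1‖ ≤ 1 / 4 := by
    intro j u hu
    have hwj : 0 < ‖w j‖ := norm_pos_iff.2 (hw j)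
    have h1 : Y (φ u) (Sum.inr j) / (s j * w j) - 1 =
        (Y (φ u) (Sum.inr j) / s j - w j) / w j := by
      have := hs j
      have := hw j
      field_simp
    rw [h1, norm_div, div_le_iff₀ hwj]
    by_cases hj : j = i
    · subst hj
      rw [hZi u hu, mul_div_cancel_left₀ _ (hs j)]
      have h2 := hu
      rw [hOm] at h2
      linarith [h2.2]
    · have h2 := hdist j hj u hu
      have h3 := hδ j
      linarith
  have hslit : ∀ j, ∀ u ∈ Om, Y (φ u) (Sum.inr j) / (s j * w j) ∈ Complex.slitPlane := by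
    intro j u hu
    have h1 := hq j u hu
    have h2 := Complex.mem_slitPlane_of_norm_lt_one (z := Y (φ u) (Sum.inr j) / (s j * w j) - 1)
      (by linarith)
    rwa [add_sub_cancel] at h2
  have hexp : ∀ j, ∀ u ∈ Om, s j * w j *
      Complex.exp (Complex.log (Y (φ u) (Sum.inr j) / (s j * w j))) = Y (φ u) (Sum.inr j) := by
    intro j u hu
    rw [Complex.exp_log (Complex.slitPlane_ne_zero (hslit j u hu))]
    have := hs j
    have := hw j
    field_simp
  refine ⟨fun u => Y (φ u) (Sum.inl 0), fun j u => Complex.log (Y (φ u) (Sum.inr j) / (s j * w j)),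
    hZd _, fun j => ?_, fun j u hu => ?_, fun u hu => ?_, fun u hu => ?_, ?_, fun j => ?_⟩
  · have h1 : DifferentiableOn ℂ (fun u => Y (φ u) (Sum.inr j) / (s j * w j)) Om :=
      by
        simp only [div_eq_mul_inv]
        exact (hZd (Sum.inr j)).mul_const _
    exact h1.clog (hslit j)
  · have h1 := hq j u hu
    have h2 := Complex.norm_log_one_add_half_le_self
      (z := Y (φ u) (Sum.inr j) / (s j * w j) - 1) (by linarith)
    rw [add_sub_cancel] at h2
    linarith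
  · have h1 := (hY _ (hφm u hu)).1
    rw [hZe u hu] at h1
    have h2 : (fun j => s j * w j *
        Complex.exp (Complex.log (Y (φ u) (Sum.inr j) / (s j * w j)))) =
        fun j => Y (φ u) (Sum.inr j) := by
      funext j
      exact hexp j u hu
    simp only [h2]
    exact h1
  · have h1 := hexp i u hu
    rw [hZi u hu, mul_assoc] at h1
    have h2 := mul_left_cancel₀ (hs i) h1
    simp only
    rw [hZi u hu]
    exact h2
  · simp only
    rw [← hu₀, hZ0]
    rfl
  · rw [← hu₀]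
    simp only
    rw [hexp j u₀ hu₀m, hZ0]
    rfl

end Pool.Agent.EXG
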