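import Pool.Agent.EXG.Lim
import Pool.Agent.EXG.Cnt

/-!
# EXG / NiceB2: the choice of the radius `r1` (helper93)
-/

set_option autoImplicit false

namespace Pool.Agent.EXG

open MvPolynomial Topology Filter

private lemma r1_pair {n : ℕ} (b : ℕ → Fin n → ℂ) (T : ℕ) (i' j : Fin n) (u v : ℂ) :
    (fun l : Fin 2 => (![b T i', b T j] : Fin 2 → ℂ) l * (![u, v] : Fin 2 → ℂ) l) =
      ![b T i' * u, b T j * v] := by
  funext l
  fin_cases l <;> simp

theorem exists_r1 {m n : ℕ} (k : Subfield ℂ) (β : Fin m → ℝ)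
    (hβ : AlgebraicIndependent k (fun j => Complex.I * (β j : ℂ)))
    (c : Fin n → ℝ) (hc : ∀ v : Fin n → ℤ, v ≠ 0 → ∑ j, c j * v j ≠ 0)
    (P : Fin n → Fin n → MvPolynomial (Fin m ⊕ Fin 2) k) (hP : ∀ i j, i ≠ j → P i j ≠ 0)
    (𝒰 : Ultrafilter ℕ) (h𝒰 : (𝒰 : Filter ℕ) ≤ atTop) (b : ℕ → Fin n → ℂ)
    (hb : ∀ T j, b T j ≠ 0) (i : Fin n) (ηi : Fin n → ℂ) (r0 : ℝ) (hr0 : 0 < r0) :
    ∃ r1 μ : ℝ, 0 < r1 ∧ r1 < r0 ∧ 0 < μ ∧ ∀ᶠ T : ℕ in (𝒰 : Filter ℕ), ∀ ζ : Fin n → ℂ,
      (∀ j, ‖ζ j‖ ≤ 1) →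
      (∀ i' j, i' ≠ j → aeval (Sum.elim (fun l => Complex.I * (T : ℂ) * (β l : ℂ))
        ![b T i' * Complex.exp (ηi i' + ζ i'), b T j * Complex.exp (ηi j + ζ j)]) (P i' j) = 0) →
      ‖Complex.exp (ηi i + ζ i) - Complex.exp (ηi i)‖ = r1 →
      μ ≤ ‖∑ j, (c j : ℂ) * ζ j‖ := by
  classical
  -- the limits of the pair relations
  have hl : ∀ i' j : Fin n, i' ≠ j → ∃ (ν : ℕ → ℂ) (N' : MvPolynomial (Fin 2) ℂ), N' ≠ 0 ∧
      ∀ R δ : ℝ, 0 < δ → ∀ᶠ T : ℕ in (𝒰 : Filter ℕ), ∀ (x : Fin m → ℂ) (w : Fin 2 → ℂ),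
        (∀ j, ‖x j - Complex.I * (T : ℂ) * (β j : ℂ)‖ ≤ √(T : ℝ)) → (∀ j, ‖w j‖ ≤ R) →
        ‖ν T * aeval (Sum.elim x fun l => (![b T i', b T j] : Fin 2 → ℂ) l * w l) (P i' j) -
          eval w N'‖ ≤ δ := by
    intro i' j hij
    obtain ⟨ν, N', -, h1, h2⟩ := lim k β hβ (P i' j) (hP i' j hij) 𝒰 h𝒰
      (fun T => (![b T i', b T j] : Fin 2 → ℂ)) (by
        intro T l
        fin_cases l
        · exact hb T i'
        · exact hb T j)
    exact ⟨ν, N', h1, h2⟩
  choose! ν N' hN' hlim using hl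
  -- the radius
  have hC := cnt c hc N' hN' (∑ j, (c j : ℂ) * ηi j)
  have hD := hC.image (fun η : Fin n → ℂ => ‖Complex.exp (η i) - Complex.exp (ηi i)‖)
  obtain ⟨r1, hr1D, hr10, hr1r⟩ := (hD.dense_compl ℝ).exists_between hr0
  -- the compact set
  let K : Set (Fin n → ℂ) := {ζ | (∀ j, ‖ζ j‖ ≤ 1) ∧ (∀ i' j, i' ≠ j →
    eval ![Complex.exp (ηi i' + ζ i'), Complex.exp (ηi j + ζ j)] (N' i' j) = 0) ∧
    ‖Complex.exp (ηi i + ζ i) - Complex.exp (ηi i)‖ = r1}
  have hcont : ∀ (i' j : Fin n) (q : MvPolynomial (Fin 2) ℂ), Continuous (fun ζ : Fin n → ℂ =>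
      eval ![Complex.exp (ηi i' + ζ i'), Complex.exp (ηi j + ζ j)] q) := by
    intro i' j q
    have h1 : Continuous (fun w : Fin 2 → ℂ => eval w q) := MvPolynomial.continuous_eval q
    refine h1.comp (continuous_pi fun l => ?_)
    fin_cases l
    · exact Complex.continuous_exp.comp (continuous_const.add (continuous_apply i'))
    · exact Complex.continuous_exp.comp (continuous_const.add (continuous_apply j))
  have hcr : Continuous (fun ζ : Fin n → ℂ => ‖Complex.exp (ηi i + ζ i) - Complex.exp (ηi i)‖) :=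
    ((Complex.continuous_exp.comp (continuous_const.add (continuous_apply i))).sub
      continuous_const).norm
  have hcs : Continuous (fun ζ : Fin n → ℂ => ‖∑ j, (c j : ℂ) * ζ j‖) :=
    (continuous_finsetSum _ fun j _ => continuous_const.mul (continuous_apply j)).norm
  have hKc : IsCompact K := by
    refine Metric.isCompact_of_isClosed_isBounded ?_ ?_
    · refine IsClosed.inter (s₁ := {ζ : Fin n → ℂ | ∀ j, ‖ζ j‖ ≤ 1}) ?_
        (IsClosed.inter (s₁ := {ζ : Fin n → ℂ | ∀ i' j, i' ≠ j →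
          eval ![Complex.exp (ηi i' + ζ i'), Complex.exp (ηi j + ζ j)] (N' i' j) = 0}) ?_ ?_)
      · simp only [Set.ofPred_forall]
        exact isClosed_iInter fun j => isClosed_le (continuous_apply j).norm continuous_const
      · simp only [Set.ofPred_forall]
        exact isClosed_iInter fun i' => isClosed_iInter fun j => isClosed_iInter fun _ =>
          isClosed_eq (hcont i' j _) continuous_const
      · exact isClosed_eq hcr continuous_const
    · refine (Metric.isBounded_closedBall (x := (0 : Fin n → ℂ)) (r := 1)).subset ?_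
      intro ζ hζ
      rw [mem_closedBall_zero_iff, pi_norm_le_iff_of_nonneg zero_le_one]
      exact hζ.1
  have hpos : ∀ ζ ∈ K, 0 < ‖∑ j, (c j : ℂ) * ζ j‖ := by
    intro ζ hζ
    rw [norm_pos_iff]
    intro h0
    apply hr1D
    refine ⟨fun j => ηi j + ζ j, ⟨fun i' j hij => hζ.2.1 i' j hij, ?_⟩, hζ.2.2⟩
    simp only [mul_add, Finset.sum_add_distrib, h0, add_zero]
  obtain ⟨μ0, hμ0, hμK⟩ := hKc.exists_forall_le' hcs.continuousOn hpos
  refine ⟨r1, μ0 / 2, hr10, hr1r, by positivity, ?_⟩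
  by_contra hcon
  rw [← Ultrafilter.eventually_not] at hcon
  push Not at hcon
  obtain ⟨ζ, hζ⟩ := hcon.choice
  obtain ⟨ζl, hζl, hle⟩ := (isCompact_closedBall (0 : Fin n → ℂ) 1).ultrafilter_le_nhds
    (𝒰.map ζ) (by
      rw [le_principal_iff]
      change ∀ᶠ T in (𝒰 : Filter ℕ), ζ T ∈ Metric.closedBall 0 1
      filter_upwards [hζ] with T hT
      rw [mem_closedBall_zero_iff, pi_norm_le_iff_of_nonneg zero_le_one]
      exact hT.1)
  have htend : Tendsto ζ (𝒰 : Filter ℕ) (𝓝 ζl) := hle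
  have hmem : ζl ∈ K := by
    refine ⟨?_, ?_, ?_⟩
    · rw [mem_closedBall_zero_iff, pi_norm_le_iff_of_nonneg zero_le_one] at hζl
      exact hζl
    · intro i' j hij
      have h1 : Tendsto (fun T => eval ![Complex.exp (ηi i' + ζ T i'), Complex.exp (ηi j + ζ T j)]
          (N' i' j)) (𝒰 : Filter ℕ)
          (𝓝 (eval ![Complex.exp (ηi i' + ζl i'), Complex.exp (ηi j + ζl j)] (N' i' j))) :=
        ((hcont i' j (N' i' j)).tendsto ζl).comp htend
      refine tendsto_nhds_unique h1 ?_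
      rw [Metric.tendsto_nhds]
      intro ε hε
      filter_upwards [hζ, hlim i' j hij (Real.exp (‖ηi i'‖ + 1) + Real.exp (‖ηi j‖ + 1)) (ε / 2)
        (by positivity)] with T hT h2
      have h3 := h2 (fun l => Complex.I * (T : ℂ) * (β l : ℂ))
        ![Complex.exp (ηi i' + ζ T i'), Complex.exp (ηi j + ζ T j)]
        (fun l => by simp) (by
          intro l
          have hb1 : ∀ q : Fin n, ‖Complex.exp (ηi q + ζ T q)‖ ≤ Real.exp (‖ηi q‖ + 1) := by
            intro q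
            refine (Complex.norm_exp_le_exp_norm _).trans (Real.exp_le_exp.2 ?_)
            exact (norm_add_le _ _).trans (by linarith [hT.1 q])
          fin_cases l
          · have := hb1 i'
            change ‖Complex.exp (ηi i' + ζ T i')‖ ≤ _
            linarith [Real.exp_pos (‖ηi j‖ + 1)]
          · have := hb1 j
            change ‖Complex.exp (ηi j + ζ T j)‖ ≤ _
            linarith [Real.exp_pos (‖ηi i'‖ + 1)])
      rw [r1_pair, hT.2.1 i' j hij, mul_zero, zero_sub, norm_neg] at h3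
      rw [dist_zero_right]
      linarith
    · have h1 := (hcr.tendsto ζl).comp htend
      refine tendsto_nhds_unique h1 ?_
      refine tendsto_const_nhds.congr' ?_
      filter_upwards [hζ] with T hT
      exact hT.2.2.1.symm
  have h2 := hμK ζl hmem
  have h3 : ‖∑ j, (c j : ℂ) * ζl j‖ ≤ μ0 / 2 := by
    refine le_of_tendsto ((hcs.tendsto ζl).comp htend) ?_
    filter_upwards [hζ] with T hT
    exact hT.2.2.2.le
  linarith

end Pool.Agent.EXG
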