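import Pool.Agent.EXG.Defs
import Pool.Agent.EXI.CTd

/-!
# EXG / PrimA: the plane model

PROOF.  `p = Sum.elim a b`, `R = k[a', b_i]` (a polynomial ring by `hind`, integrally closed), `E` its fraction field. All `p_q`
are algebraic over `R` (`htd`). A primitive element `α` of `E(p)` over `E`; a multiple `ϑ = Q(a, b)` of `α` by an element of `R`
is in `k[a, b]` and integral over `R`. `M` = minimal polynomial of `ϑ` over `R`. Every `f ∈ R[T]` with `f(ϑ) = 0` is a
multiple of `M` in `R[T]` (*). `d_q p_q = B'_q(ϑ)`; `Dl` = product of the `d_q` and of the elements `r ∈ R` with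
`U M + V M' = r`, `U M + V B'_(inr j) = r`. `B_q` is `B'_q` multiplied by the cofactor of `d_q`.
-/

set_option autoImplicit false

namespace Pool.Agent.EXG

open MvPolynomial Pool.Agent.EXL Pool.Agent.EXI

section gen

variable {R : Type*} [CommRing R] [IsDomain R]

private lemma clear_poly {E : Type*} [Field E] [Algebra R E] [IsFractionRing R E]
    (U : Polynomial E) : ∃ r : R, r ≠ 0 ∧ ∃ U' : Polynomial R,
      U'.map (algebraMap R E) = Polynomial.C (algebraMap R E r) * U := by
  obtain ⟨b, hb₁, hb₂⟩ := IsLocalization.integerNormalization_spec (nonZeroDivisors R) U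
  refine ⟨b, nonZeroDivisors.ne_zero hb₁, _, hb₂.trans ?_⟩
  rw [← Polynomial.smul_eq_C_mul, algebraMap_smul]

private lemma bezout {E : Type*} [Field E] [Algebra R E] [IsFractionRing R E]
    (F G : Polynomial R) (h : IsCoprime (F.map (algebraMap R E)) (G.map (algebraMap R E))) :
    ∃ r : R, r ≠ 0 ∧ ∃ U V : Polynomial R, U * F + V * G = Polynomial.C r := by
  obtain ⟨U, V, hUV⟩ := h
  obtain ⟨r, hr, U', hU⟩ := clear_poly (R := R) U
  obtain ⟨s, hs, V', hV⟩ := clear_poly (R := R) V
  refine ⟨r * s, mul_ne_zero hr hs, Polynomial.C s * U', Polynomial.C r * V', ?_⟩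
  apply Polynomial.map_injective (algebraMap R E) (IsFractionRing.injective R E)
  simp only [Polynomial.map_add, Polynomial.map_mul, Polynomial.map_C, hU, hV, map_mul]
  linear_combination (Polynomial.C (algebraMap R E r) * Polynomial.C (algebraMap R E s)) * hUV

variable {K : Type*} [Field K] [Algebra R K] [FaithfulSMul R K] [CharZero K]

private lemma prim {ι : Type*} [Fintype ι] (p : ι → K) (hp : ∀ q, IsAlgebraic R (p q)) :
    ∃ θ ∈ Algebra.adjoin R (Set.range p), IsIntegral R θ ∧
      ∀ q, ∃ d : R, d ≠ 0 ∧ ∃ B : Polynomial R,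
        algebraMap R K d * p q = Polynomial.aeval θ B := by
  classical
  let : Algebra (FractionRing R) K := FractionRing.liftAlgebra R K
  have hst : IsScalarTower R (FractionRing R) K := FractionRing.isScalarTower_liftAlgebra R K
  have hinj : Function.Injective (algebraMap R K) := FaithfulSMul.algebraMap_injective R K
  have hpE : ∀ q, IsAlgebraic (FractionRing R) (p q) := fun q =>
    (IsFractionRing.isAlgebraic_iff R (FractionRing R) K).1 (hp q)
  have hE0 : CharZero (FractionRing R) := (algebraMap (FractionRing R) K).charZero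
  have hfd : FiniteDimensional (FractionRing R)
      (IntermediateField.adjoin (FractionRing R) (Set.range p)) :=
    IntermediateField.finiteDimensional_adjoin (by rintro _ ⟨q, rfl⟩; exact (hpE q).isIntegral)
  let pb := Field.powerBasisOfFiniteOfSeparable (FractionRing R)
    (IntermediateField.adjoin (FractionRing R) (Set.range p))
  have hα : (pb.gen : K) ∈ Algebra.adjoin (FractionRing R) (Set.range p) := by
    rw [← IntermediateField.adjoin_toSubalgebra_of_isAlgebraic
      (by rintro _ ⟨q, rfl⟩; exact hpE q)]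
    exact pb.gen.2
  have hcl : ∀ x ∈ Algebra.adjoin (FractionRing R) (Set.range p),
      ∃ d : R, d ≠ 0 ∧ algebraMap R K d * x ∈ Algebra.adjoin R (Set.range p) := by
    intro x hx
    induction hx using Algebra.adjoin_induction with
    | mem x hx =>
      refine ⟨1, one_ne_zero, ?_⟩
      rw [map_one, one_mul]
      exact Algebra.subset_adjoin hx
    | algebraMap r =>
      obtain ⟨n, d, hd, rfl⟩ := IsFractionRing.div_surjective (A := R) r
      refine ⟨d, nonZeroDivisors.ne_zero hd, ?_⟩
      have hd0 : algebraMap R K d ≠ 0 := by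
        rw [Ne, map_eq_zero_iff _ hinj]
        exact nonZeroDivisors.ne_zero hd
      have : algebraMap R K d * algebraMap (FractionRing R) K
          (algebraMap R (FractionRing R) n / algebraMap R (FractionRing R) d) =
          algebraMap R K n := by
        rw [map_div₀, ← IsScalarTower.algebraMap_apply, ← IsScalarTower.algebraMap_apply]
        field_simp
      rw [this]
      exact Subalgebra.algebraMap_mem _ _
    | add x y _ _ hx hy =>
      obtain ⟨d, hd, hx⟩ := hx
      obtain ⟨e, he, hy⟩ := hy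
      refine ⟨d * e, mul_ne_zero hd he, ?_⟩
      have : algebraMap R K (d * e) * (x + y) = algebraMap R K e * (algebraMap R K d * x) +
          algebraMap R K d * (algebraMap R K e * y) := by
        rw [map_mul]; ring
      rw [this]
      exact add_mem (mul_mem (Subalgebra.algebraMap_mem _ _) hx)
        (mul_mem (Subalgebra.algebraMap_mem _ _) hy)
    | mul x y _ _ hx hy =>
      obtain ⟨d, hd, hx⟩ := hx
      obtain ⟨e, he, hy⟩ := hy
      refine ⟨d * e, mul_ne_zero hd he, ?_⟩
      have : algebraMap R K (d * e) * (x * y) = (algebraMap R K d * x) *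
          (algebraMap R K e * y) := by
        rw [map_mul]; ring
      rw [this]
      exact mul_mem hx hy
  obtain ⟨d, hd, hdα⟩ := hcl _ hα
  have halg : IsAlgebraic R (algebraMap R K d * (pb.gen : K)) := by
    rw [IsFractionRing.isAlgebraic_iff R (FractionRing R) K]
    have h1 : IsAlgebraic (FractionRing R) (pb.gen : K) := by
      have h0 : IsAlgebraic (FractionRing R) pb.gen := Algebra.IsAlgebraic.isAlgebraic _
      exact (IntermediateField.isAlgebraic_iff (S :=
        IntermediateField.adjoin (FractionRing R) (Set.range p)) (x := pb.gen)).1 h0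
    rw [IsScalarTower.algebraMap_apply R (FractionRing R) K]
    exact (isAlgebraic_algebraMap _).mul h1
  obtain ⟨e, he, hint⟩ := halg.exists_integral_multiple
  refine ⟨e • (algebraMap R K d * (pb.gen : K)), Subalgebra.smul_mem _ hdα e, hint, ?_⟩
  intro q
  have hq : p q ∈ IntermediateField.adjoin (FractionRing R) (Set.range p) :=
    IntermediateField.subset_adjoin _ _ ⟨q, rfl⟩
  obtain ⟨P, hP⟩ := pb.exists_eq_aeval' ⟨p q, hq⟩
  have hP' : p q = Polynomial.aeval (pb.gen : K) P := by
    have := congrArg (fun y : IntermediateField.adjoin (FractionRing R) (Set.range p) =>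
      (y : K)) hP
    simpa using this
  have hc0 : algebraMap R K (e * d) ≠ 0 := by
    rw [Ne, map_eq_zero_iff _ hinj]
    exact mul_ne_zero he hd
  have hcE0 : algebraMap R (FractionRing R) (e * d) ≠ 0 := by
    intro h
    apply hc0
    rw [IsScalarTower.algebraMap_apply R (FractionRing R) K, h, map_zero]
  have hP2 : p q = Polynomial.aeval (e • (algebraMap R K d * (pb.gen : K)))
      (P.comp (Polynomial.C (algebraMap R (FractionRing R) (e * d))⁻¹ * Polynomial.X)) := by
    rw [Polynomial.aeval_comp, map_mul, Polynomial.aeval_C, Polynomial.aeval_X, map_inv₀,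
      ← IsScalarTower.algebraMap_apply, Algebra.smul_def, ← mul_assoc (algebraMap R K e),
      ← map_mul, ← mul_assoc, inv_mul_cancel₀ hc0, one_mul]
    exact hP'
  obtain ⟨r, hr, B, hB⟩ := clear_poly (R := R)
    (P.comp (Polynomial.C (algebraMap R (FractionRing R) (e * d))⁻¹ * Polynomial.X))
  refine ⟨r, hr, B, ?_⟩
  rw [← Polynomial.aeval_map_algebraMap (FractionRing R), hB, map_mul, Polynomial.aeval_C,
    ← IsScalarTower.algebraMap_apply, ← hP2]

variable [IsIntegrallyClosed R]

private lemma sep_bez (θ : K) (hθ : IsIntegral R θ) :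
    ∃ r : R, r ≠ 0 ∧ ∃ U V : Polynomial R,
      U * minpoly R θ + V * (minpoly R θ).derivative = Polynomial.C r := by
  let : Algebra (FractionRing R) K := FractionRing.liftAlgebra R K
  have hst : IsScalarTower R (FractionRing R) K := FractionRing.isScalarTower_liftAlgebra R K
  have hE0 : CharZero (FractionRing R) := (algebraMap (FractionRing R) K).charZero
  have h1 := minpoly.isIntegrallyClosed_eq_field_fractions' (FractionRing R) hθ
  have hθE : IsIntegral (FractionRing R) θ := hθ.tower_top
  have hsep : (minpoly (FractionRing R) θ).Separable := (minpoly.irreducible hθE).separable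
  rw [h1] at hsep
  apply bezout (E := FractionRing R)
  rw [← Polynomial.derivative_map]
  exact hsep

omit [CharZero K] in
private lemma ne_bez (θ : K) (hθ : IsIntegral R θ) (B : Polynomial R)
    (hB : Polynomial.aeval θ B ≠ 0) :
    ∃ r : R, r ≠ 0 ∧ ∃ U V : Polynomial R,
      U * minpoly R θ + V * B = Polynomial.C r := by
  let : Algebra (FractionRing R) K := FractionRing.liftAlgebra R K
  have hst : IsScalarTower R (FractionRing R) K := FractionRing.isScalarTower_liftAlgebra R K
  have h1 := minpoly.isIntegrallyClosed_eq_field_fractions' (FractionRing R) hθ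
  have hθE : IsIntegral (FractionRing R) θ := hθ.tower_top
  apply bezout (E := FractionRing R)
  rw [← h1]
  refine ((minpoly.irreducible hθE).coprime_iff_not_dvd).2 ?_
  intro hdvd
  apply hB
  obtain ⟨G, hG⟩ := hdvd
  rw [← Polynomial.aeval_map_algebraMap (FractionRing R), hG, map_mul, minpoly.aeval, zero_mul]

end gen

private lemma range_am (K : Subfield ℂ) : Set.range (algebraMap K ℂ) = (K : Set ℂ) := by
  ext x
  constructor
  · rintro ⟨c, rfl⟩
    exact c.2
  · intro hx
    exact ⟨⟨x, hx⟩, rfl⟩

/-- the variables of the base as variables of the space -/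
private def emb {m : ℕ} (i : Fin (m + 1)) : Option (Fin m) → Fin (m + 1) ⊕ Fin (m + 1)
  | none => Sum.inr i
  | some j => Sum.inl j.succ

private lemma emb_inj {m : ℕ} (i : Fin (m + 1)) {o o' : Option (Fin m)}
    (h : emb i o = emb i o') : o' = o := by
  cases o with
  | none =>
    cases o' with
    | none => rfl
    | some j => exact absurd h (by simp [emb])
  | some j =>
    cases o' with
    | none => exact absurd h (by simp [emb])
    | some j' =>
      have : j.succ = j'.succ := Sum.inl.inj h
      rw [Fin.succ_inj.1 this]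

private lemma elim_emb {m : ℕ} (i : Fin (m + 1)) (x y : Fin (m + 1) → ℂ) :
    (Sum.elim x y) ∘ (emb i) = bs i x y := by
  funext o
  cases o <;> rfl

private lemma alg_coord (k : Subfield ℂ) {m : ℕ} (a b : Fin (m + 1) → ℂ)
    (htd : td (k : Set ℂ) (Sum.elim a b) = m + 1) (i : Fin (m + 1))
    (hind : AlgebraicIndependent k (bs i a b)) (q : Fin (m + 1) ⊕ Fin (m + 1)) :
    ∃ P : Polynomial (MvPolynomial (Option (Fin m)) k), P ≠ 0 ∧
      P.eval₂ (sp k (bs i a b)) (Sum.elim a b q) = 0 := by
  have halg : IsAlgebraic (Algebra.adjoin k (Set.range (bs i a b))) (Sum.elim a b q) := by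
    by_contra hna
    have h3 : AlgebraicIndependent k
        (fun o : Option (Option (Fin m)) => o.elim (Sum.elim a b q) (bs i a b)) :=
      (hind.option_iff_transcendental (Sum.elim a b q)).2 hna
    have h4 := (algInd_iff (k := k) _).1 h3
    rw [range_am, Fintype.card_option, Fintype.card_option, Fintype.card_fin] at h4
    have h5 : td (k : Set ℂ)
        (fun o : Option (Option (Fin m)) => o.elim (Sum.elim a b q) (bs i a b)) ≤
        td (k : Set ℂ) (Sum.elim a b) := by
      refine rk_le_of_dep _ _ _ ?_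
      intro D _ hz o
      cases o with
      | none => exact hz q
      | some o =>
        have := hz (emb i o)
        rw [← Function.comp_apply (f := Sum.elim a b) (g := emb i), elim_emb] at this
        exact this
    rw [h4, htd] at h5
    omega
  obtain ⟨P, hP0, hP⟩ := halg
  let e := hind.aevalEquiv
  refine ⟨P.map (e.symm : _ →+* MvPolynomial (Option (Fin m)) k), ?_, ?_⟩
  · rw [Ne, Polynomial.map_eq_zero_iff e.symm.injective]
    exact hP0
  · rw [Polynomial.eval₂_map]
    have hcomp : (sp k (bs i a b)).comp (e.symm : _ →+* MvPolynomial (Option (Fin m)) k) =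
        algebraMap (Algebra.adjoin k (Set.range (bs i a b))) ℂ := by
      ext x
      have h1 := hind.algebraMap_aevalEquiv (e.symm x)
      have h2 : e (e.symm x) = x := e.apply_symm_apply x
      change algebraMap _ ℂ (e (e.symm x)) = _ at h1
      rw [h2] at h1
      exact h1.symm
    rw [hcomp]
    exact hP

private lemma pull (k : Subfield ℂ) {m : ℕ} (i : Fin (m + 1))
    (Q : MvPolynomial (Fin (m + 1) ⊕ Fin (m + 1)) k)
    (F : Polynomial (MvPolynomial (Option (Fin m)) k)) (x y : Fin (m + 1) → ℂ) :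
    aeval (Sum.elim x y) (F.eval₂ ((rename (emb i) : MvPolynomial (Option (Fin m)) k →ₐ[k] _) :
      MvPolynomial (Option (Fin m)) k →+* _) Q) =
      evm F (bs i x y) (aeval (Sum.elim x y) Q) := by
  have h1 := Polynomial.hom_eval₂ F
    ((rename (emb i) : MvPolynomial (Option (Fin m)) k →ₐ[k] _) :
      MvPolynomial (Option (Fin m)) k →+* MvPolynomial (Fin (m + 1) ⊕ Fin (m + 1)) k)
    ((aeval (Sum.elim x y) : MvPolynomial (Fin (m + 1) ⊕ Fin (m + 1)) k →ₐ[k] ℂ) :
      MvPolynomial (Fin (m + 1) ⊕ Fin (m + 1)) k →+* ℂ) Q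
  have h2 : ((aeval (Sum.elim x y) : MvPolynomial (Fin (m + 1) ⊕ Fin (m + 1)) k →ₐ[k] ℂ) :
      MvPolynomial (Fin (m + 1) ⊕ Fin (m + 1)) k →+* ℂ).comp
      ((rename (emb i) : MvPolynomial (Option (Fin m)) k →ₐ[k] _) :
      MvPolynomial (Option (Fin m)) k →+* MvPolynomial (Fin (m + 1) ⊕ Fin (m + 1)) k) =
      sp k (bs i x y) := by
    apply RingHom.ext
    intro f
    change aeval (Sum.elim x y) (rename (emb i) f) = aeval (bs i x y) f
    rw [aeval_rename, elim_emb]
  rw [h2] at h1
  rw [evm, Polynomial.eval_map]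
  exact h1

private lemma evm_mul {k : Subfield ℂ} {σ : Type} (p q : Polynomial (MvPolynomial σ k))
    (u : σ → ℂ) (θ : ℂ) : evm (p * q) u θ = evm p u θ * evm q u θ := by
  rw [evm, Polynomial.map_mul, Polynomial.eval_mul, evm, evm]

private lemma evm_add {k : Subfield ℂ} {σ : Type} (p q : Polynomial (MvPolynomial σ k))
    (u : σ → ℂ) (θ : ℂ) : evm (p + q) u θ = evm p u θ + evm q u θ := by
  rw [evm, Polynomial.map_add, Polynomial.eval_add, evm, evm]

private lemma evm_C {k : Subfield ℂ} {σ : Type} (c : MvPolynomial σ k)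
    (u : σ → ℂ) (θ : ℂ) : evm (Polynomial.C c) u θ = aeval u c := by
  rw [evm, Polynomial.map_C, Polynomial.eval_C]
  rfl

private lemma subst (k : Subfield ℂ) {σ ι : Type} (Dl : MvPolynomial σ k)
    (B : ι → Polynomial (MvPolynomial σ k)) (f : MvPolynomial ι k) :
    ∃ (N : ℕ) (F : Polynomial (MvPolynomial σ k)), ∀ (u : σ → ℂ) (θ : ℂ), aeval u Dl ≠ 0 →
      evm F u θ = aeval u Dl ^ N * aeval (fun q => evm (B q) u θ / aeval u Dl) f := by
  induction f using MvPolynomial.induction_on with
  | C c =>
    refine ⟨0, Polynomial.C (C c), fun u θ _ => ?_⟩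
    rw [evm_C, pow_zero, one_mul, aeval_C, aeval_C]
  | add f g hf hg =>
    obtain ⟨N1, F1, h1⟩ := hf
    obtain ⟨N2, F2, h2⟩ := hg
    refine ⟨N1 + N2, Polynomial.C (Dl ^ N2) * F1 + Polynomial.C (Dl ^ N1) * F2,
      fun u θ hu => ?_⟩
    rw [evm_add, evm_mul, evm_mul, evm_C, evm_C, h1 u θ hu, h2 u θ hu, map_pow, map_pow, map_add]
    ring
  | mul_X f q hf =>
    obtain ⟨N, F, h⟩ := hf
    refine ⟨N + 1, F * B q, fun u θ hu => ?_⟩
    rw [evm_mul, h u θ hu, map_mul, aeval_X, pow_succ]
    field_simp

theorem exists_prim (k : Subfield ℂ) {m : ℕ} (a b : Fin (m + 1) → ℂ) (hb : ∀ j, b j ≠ 0)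
    (htd : td (k : Set ℂ) (Sum.elim a b) = m + 1) (i : Fin (m + 1))
    (hind : AlgebraicIndependent k (bs i a b)) : Nonempty (Prim k a b i) := by
  classical
  let : Algebra (MvPolynomial (Option (Fin m)) k) ℂ := (sp k (bs i a b)).toAlgebra
  have hinj : Function.Injective (algebraMap (MvPolynomial (Option (Fin m)) k) ℂ) := hind
  have hfs : FaithfulSMul (MvPolynomial (Option (Fin m)) k) ℂ :=
    (faithfulSMul_iff_algebraMap_injective _ _).2 hinj
  have halg : ∀ q, IsAlgebraic (MvPolynomial (Option (Fin m)) k) (Sum.elim a b q) := by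
    intro q
    obtain ⟨P, hP0, hP⟩ := alg_coord k a b htd i hind q
    exact ⟨P, hP0, hP⟩
  obtain ⟨θ, hθ, hint, hgen⟩ := prim (R := MvPolynomial (Option (Fin m)) k) (Sum.elim a b) halg
  -- `θ = Q(a, b)`
  obtain ⟨Q, hQ⟩ : ∃ Q : MvPolynomial (Fin (m + 1) ⊕ Fin (m + 1)) k,
      aeval (Sum.elim a b) Q = θ := by
    clear hint hgen
    induction hθ using Algebra.adjoin_induction with
    | mem x hx =>
      obtain ⟨q, rfl⟩ := hx
      exact ⟨X q, aeval_X _ _⟩
    | algebraMap r =>
      refine ⟨rename (emb i) r, ?_⟩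
      rw [aeval_rename, elim_emb]
      rfl
    | add x y _ _ hx hy =>
      obtain ⟨P, rfl⟩ := hx
      obtain ⟨Q, rfl⟩ := hy
      exact ⟨P + Q, map_add _ _ _⟩
    | mul x y _ _ hx hy =>
      obtain ⟨P, rfl⟩ := hx
      obtain ⟨Q, rfl⟩ := hy
      exact ⟨P * Q, map_mul _ _ _⟩
  have hev : ∀ F : Polynomial (MvPolynomial (Option (Fin m)) k),
      Polynomial.aeval θ F = evm F (bs i a b) θ := by
    intro F
    rw [evm, Polynomial.eval_map]
    rfl
  have hgen' : ∀ q, ∃ d : MvPolynomial (Option (Fin m)) k, d ≠ 0 ∧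
      ∃ B : Polynomial (MvPolynomial (Option (Fin m)) k),
        aeval (bs i a b) d * Sum.elim a b q = evm B (bs i a b) θ ∧
        ∀ o, q = emb i o → d = 1 ∧ B = Polynomial.C (X o) := by
    intro q
    by_cases hq : ∃ o, q = emb i o
    · obtain ⟨o, rfl⟩ := hq
      refine ⟨1, one_ne_zero, Polynomial.C (X o), ?_, ?_⟩
      · rw [map_one, one_mul, evm_C, aeval_X, ← Function.comp_apply (f := Sum.elim a b)
          (g := emb i), elim_emb]
      · intro o' ho'
        rw [emb_inj i ho']
        exact ⟨rfl, rfl⟩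
    · obtain ⟨d, hd, B, hB⟩ := hgen q
      refine ⟨d, hd, B, ?_, ?_⟩
      · rw [← hev, ← hB]
        rfl
      · intro o ho
        exact absurd ⟨o, ho⟩ hq
  choose d hd B' hB' hsp using hgen'
  obtain ⟨r1, hr1, U, V, hUV⟩ := sep_bez θ hint
  have hne : ∀ j : Fin (m + 1), ∃ r : MvPolynomial (Option (Fin m)) k, r ≠ 0 ∧
      ∃ U V : Polynomial (MvPolynomial (Option (Fin m)) k),
        U * minpoly (MvPolynomial (Option (Fin m)) k) θ + V * B' (Sum.inr j) =
          Polynomial.C r := by
    intro j
    refine ne_bez θ hint _ ?_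
    rw [hev, ← hB' (Sum.inr j)]
    refine mul_ne_zero ?_ (hb j)
    intro h
    exact hd _ ((injective_iff_map_eq_zero _).1 hinj _ h)
  choose r2 hr2 U2 V2 hUV2 using hne
  set M := minpoly (MvPolynomial (Option (Fin m)) k) θ with hM
  have hMθ : evm M (bs i a b) θ = 0 := by
    rw [← hev]
    exact minpoly.aeval _ _
  -- the cofactors
  let c : MvPolynomial (Option (Fin m)) k := r1 * ∏ j, r2 j
  let cof : Fin (m + 1) ⊕ Fin (m + 1) → MvPolynomial (Option (Fin m)) k := fun q =>
    (∏ q' ∈ Finset.univ.erase q, d q') * c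
  let Dl : MvPolynomial (Option (Fin m)) k := (∏ q, d q) * c
  have hDl : ∀ q, d q * cof q = Dl := by
    intro q
    change d q * ((∏ q' ∈ Finset.univ.erase q, d q') * c) = (∏ q, d q) * c
    rw [← mul_assoc, Finset.mul_prod_erase _ _ (Finset.mem_univ q)]
  have hdvd : ∀ (u : Option (Fin m) → ℂ) (r : MvPolynomial (Option (Fin m)) k), r ∣ Dl →
      aeval u Dl ≠ 0 → aeval u r ≠ 0 := by
    rintro u r ⟨s, hs⟩ hu h
    apply hu
    rw [hs, map_mul, h, zero_mul]
  have hr1d : r1 ∣ Dl := (Dvd.intro _ rfl : r1 ∣ c).mul_left _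
  have hr2d : ∀ j, r2 j ∣ Dl := fun j =>
    (((Finset.dvd_prod_of_mem r2 (Finset.mem_univ j)).mul_left r1 : r2 j ∣ c)).mul_left _
  have hcofd : ∀ q, cof q ∣ Dl := fun q => Dvd.intro_left _ (hDl q)
  have hDl0 : Dl ≠ 0 := by
    refine mul_ne_zero (Finset.prod_ne_zero_iff.2 fun q _ => hd q) (mul_ne_zero hr1 ?_)
    exact Finset.prod_ne_zero_iff.2 fun j _ => hr2 j
  have hDlu : aeval (bs i a b) Dl ≠ 0 := fun h =>
    hDl0 ((injective_iff_map_eq_zero _).1 hinj _ h)
  let B : Fin (m + 1) ⊕ Fin (m + 1) → Polynomial (MvPolynomial (Option (Fin m)) k) := fun q =>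
    Polynomial.C (cof q) * B' q
  have hBev : ∀ q (u : Option (Fin m) → ℂ) (t : ℂ),
      evm (B q) u t = aeval u (cof q) * evm (B' q) u t := by
    intro q u t
    rw [← evm_C (cof q) u t, ← evm_mul]
  have hBθ : ∀ q, aeval (bs i a b) Dl * Sum.elim a b q = evm (B q) (bs i a b) θ := by
    intro q
    rw [hBev, ← hB' q, ← hDl q, map_mul]
    ring
  refine ⟨⟨M, Q, Dl, B, minpoly.monic hint, hDl0, ?_, ?_, ?_, ?_, ?_, ?_, ?_⟩⟩
  · -- separable
    intro u hu
    have hr : aeval u r1 ≠ 0 := hdvd u r1 hr1d hu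
    have h1 := congrArg (Polynomial.map (sp k u)) hUV
    rw [Polynomial.map_add, Polynomial.map_mul, Polynomial.map_mul, Polynomial.map_C,
      ← Polynomial.derivative_map] at h1
    have h2 : sp k u r1 = aeval u r1 := rfl
    rw [h2] at h1
    refine ⟨Polynomial.C (aeval u r1)⁻¹ * U.map (sp k u),
      Polynomial.C (aeval u r1)⁻¹ * V.map (sp k u), ?_⟩
    have h3 : Polynomial.C (aeval u r1)⁻¹ * Polynomial.C (aeval u r1) = (1 : Polynomial ℂ) := by
      rw [← Polynomial.C_mul, inv_mul_cancel₀ hr, Polynomial.C_1]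
    linear_combination Polynomial.C (aeval u r1)⁻¹ * h1 + h3
  · -- root
    intro x y hxy
    rw [← pull k i Q M x y]
    apply hxy
    rw [pull k i Q M a b, hQ, hMθ]
  · -- coord
    intro x y hxy q
    have h1 := hxy (rename (emb i) Dl * X q - (B q).eval₂
      ((rename (emb i) : MvPolynomial (Option (Fin m)) k →ₐ[k] _) :
      MvPolynomial (Option (Fin m)) k →+* _) Q) (by
        rw [map_sub, map_mul, aeval_X, aeval_rename, elim_emb, pull k i Q (B q) a b, hQ, hBθ q,
          sub_self])
    rw [map_sub, map_mul, aeval_X, aeval_rename, elim_emb, pull k i Q (B q) x y] at h1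
    exact sub_eq_zero.1 h1
  · -- spec
    intro u t hu ht f hf
    obtain ⟨N, F, hF⟩ := subst k Dl B f
    have h0 : (fun q => evm (B q) (bs i a b) θ / aeval (bs i a b) Dl) = Sum.elim a b := by
      funext q
      rw [← hBθ q]
      field_simp
    have h1 : Polynomial.aeval θ F = 0 := by
      rw [hev, hF _ _ hDlu, h0, hf, mul_zero]
    obtain ⟨G, hG⟩ := minpoly.isIntegrallyClosed_dvd hint h1
    have h2 := hF u t hu
    rw [hG, evm_mul, ← hM, ht, zero_mul] at h2
    exact (mul_eq_zero.1 h2.symm).resolve_left (pow_ne_zero _ hu)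
  · -- not zero
    intro u t hu ht j h
    rw [hBev] at h
    rcases mul_eq_zero.1 h with h | h
    · exact hdvd u _ (hcofd _) hu h
    · have h1 := congrArg (fun F => evm F u t) (hUV2 j)
      change evm _ u t = evm _ u t at h1
      rw [evm_add, evm_mul, evm_mul, evm_C, ht, h, mul_zero, mul_zero, add_zero] at h1
      exact hdvd u _ (hr2d j) hu h1.symm
  · -- the coordinate `y_i`
    obtain ⟨h1, h2⟩ := hsp (Sum.inr i) none rfl
    have h3 := hDl (Sum.inr i)
    rw [h1, one_mul] at h3
    change Polynomial.C (cof _) * B' _ = _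
    rw [h2, h3, ← Polynomial.C_mul]
  · -- the coordinates `x_j`
    intro j
    obtain ⟨h1, h2⟩ := hsp (Sum.inl j.succ) (some j) rfl
    have h3 := hDl (Sum.inl j.succ)
    rw [h1, one_mul] at h3
    change Polynomial.C (cof _) * B' _ = _
    rw [h2, h3, ← Polynomial.C_mul]

end Pool.Agent.EXG
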