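import Pool.Agent.EXG.Defs
import Pool.Agent.EXI.CTd

/-!
# EXG / PrimB: norms, pair relations

PROOF.  `exists_norm`: `g = h(a, b) ≠ 0` is algebraic over `k(a', b_i)`: `∑_l c_l(a', b_i) g^l = 0`, not all `c_l = 0` as
polynomials; divide by the power of `g`: `c_0 ≠ 0`. The polynomial `∑ c_l(X', Y_i) h^l` vanishes at `(a, b)`, so at every
specialization; if `h(x, y) = 0` then `c_0(x', y_i) = 0`. `N = c_0`.
`exists_pair`: the `m + 2` elements `a'`, `b_i`, `b_j` are algebraically dependent over `k` (`htd`).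
`exists_pair1`: the same for a polynomial in `(X', Y_i)` only, if `(a', b_i)` is not independent.
-/

set_option autoImplicit false

namespace Pool.Agent.EXG

open MvPolynomial Pool.Agent.EXL Pool.Agent.EXI

private lemma range_am (K : Subfield ℂ) : Set.range (algebraMap K ℂ) = (K : Set ℂ) := by
  ext x
  constructor
  · rintro ⟨c, rfl⟩
    exact c.2
  · intro hx
    exact ⟨⟨x, hx⟩, rfl⟩

/-- the coordinates of `bs` among the coordinates of `(x, y)` -/
private def io {m : ℕ} (i : Fin (m + 1)) : Option (Fin m) → Fin (m + 1) ⊕ Fin (m + 1)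
  | none => Sum.inr i
  | some j => Sum.inl j.succ

private lemma elim_io {m : ℕ} (i : Fin (m + 1)) (x y : Fin (m + 1) → ℂ) :
    Sum.elim x y ∘ io i = bs i x y := by
  funext o
  cases o <;> rfl

private lemma aeval_io (k : Subfield ℂ) {m : ℕ} (i : Fin (m + 1)) (x y : Fin (m + 1) → ℂ)
    (p : MvPolynomial (Option (Fin m)) k) :
    aeval (Sum.elim x y) (rename (io i) p) = aeval (bs i x y) p := by
  rw [aeval_rename, elim_io]

private lemma td_fam (k : Subfield ℂ) {ι κ : Type} [Fintype ι] [Fintype κ] (z : ι → ℂ) (w : κ → ℂ)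
    (hw : AlgebraicIndependent k w)
    (h : ∀ D ∈ DerOver (k : Set ℂ), (∀ i, D (z i) = 0) → ∀ j, D (w j) = 0) :
    Fintype.card κ ≤ td (k : Set ℂ) z := by
  have h1 := (algInd_iff (k := k) w).1 hw
  rw [range_am] at h1
  rw [← h1]
  exact rk_le_of_dep _ _ _ h

theorem exists_norm (k : Subfield ℂ) {m : ℕ} (a b : Fin (m + 1) → ℂ)
    (htd : td (k : Set ℂ) (Sum.elim a b) = m + 1) (i : Fin (m + 1))
    (hind : AlgebraicIndependent k (bs i a b))
    (h : MvPolynomial (Fin (m + 1) ⊕ Fin (m + 1)) k) (hh : aeval (Sum.elim a b) h ≠ 0) :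
    ∃ N : MvPolynomial (Option (Fin m)) k, N ≠ 0 ∧ ∀ x y : Fin (m + 1) → ℂ,
      Spec k (Sum.elim a b) (Sum.elim x y) → aeval (Sum.elim x y) h = 0 →
        aeval (bs i x y) N = 0 := by
  classical
  set g := aeval (Sum.elim a b) h with hg
  have hgalg : IsAlgebraic (Algebra.adjoin k (Set.range (bs i a b))) g := by
    by_contra hna
    have h3 : AlgebraicIndependent k (fun o : Option (Option (Fin m)) => o.elim g (bs i a b)) :=
      (hind.option_iff_transcendental g).2 hna
    have h4 := td_fam k (Sum.elim a b) _ h3 (by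
      intro D hD hz o
      cases o with
      | none =>
        show D g = 0
        apply kill_of_algebraic k (Sum.elim a b) D hD hz
        have hmem : g ∈ Algebra.adjoin k (Set.range (Sum.elim a b)) := by
          rw [Algebra.adjoin_range_eq_range_aeval]
          exact ⟨h, rfl⟩
        exact isAlgebraic_algebraMap (⟨g, hmem⟩ : Algebra.adjoin k (Set.range (Sum.elim a b)))
      | some o =>
        have : (bs i a b) o = Sum.elim a b (io i o) := by rw [← elim_io]; rfl
        show D (bs i a b o) = 0
        rw [this]; exact hz _)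
    rw [htd] at h4
    simp at h4
  obtain ⟨q, hq0, hq⟩ := hgalg.exists_nonzero_coeff_and_aeval_eq_zero
    (mem_nonZeroDivisors_of_ne_zero hh)
  have hc : ∀ l, ∃ c : MvPolynomial (Option (Fin m)) k, aeval (bs i a b) c = (q.coeff l : ℂ) := by
    intro l
    have key : ∀ e ∈ Algebra.adjoin k (Set.range (bs i a b)),
        ∃ c : MvPolynomial (Option (Fin m)) k, aeval (bs i a b) c = e := by
      intro e he
      rw [Algebra.adjoin_range_eq_range_aeval] at he
      exact he
    exact key _ (q.coeff l).2
  choose c hc using hc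
  set F : MvPolynomial (Fin (m + 1) ⊕ Fin (m + 1)) k :=
    ∑ l ∈ Finset.range (q.natDegree + 1), rename (io i) (c l) * h ^ l with hF
  have hFab : aeval (Sum.elim a b) F = 0 := by
    rw [hF, map_sum]
    rw [Polynomial.aeval_eq_sum_range] at hq
    rw [← hq]
    refine Finset.sum_congr rfl fun l _ => ?_
    rw [map_mul, map_pow, aeval_io, hc, ← hg]
    rfl
  refine ⟨c 0, ?_, ?_⟩
  · intro h0
    have h1 := hc 0
    rw [h0, map_zero] at h1
    apply hq0
    exact Subtype.ext h1.symm
  · intro x y hS hxy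
    have h1 := hS F hFab
    rw [hF, map_sum, Finset.sum_eq_single 0] at h1
    · rw [map_mul, pow_zero, map_one, mul_one, aeval_io] at h1
      exact h1
    · intro l _ hl
      rw [map_mul, map_pow, hxy, zero_pow hl, mul_zero]
    · intro h2
      exact absurd (Finset.mem_range.2 (Nat.succ_pos _)) h2

theorem exists_pair (k : Subfield ℂ) {m : ℕ} (a b : Fin (m + 1) → ℂ)
    (htd : td (k : Set ℂ) (Sum.elim a b) = m + 1) (i j : Fin (m + 1)) (hij : i ≠ j) :
    ∃ P : MvPolynomial (Fin m ⊕ Fin 2) k, P ≠ 0 ∧ ∀ x y : Fin (m + 1) → ℂ,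
      Spec k (Sum.elim a b) (Sum.elim x y) →
        aeval (Sum.elim (fun l : Fin m => x l.succ) ![y i, y j]) P = 0 := by
  classical
  set σ : Fin m ⊕ Fin 2 → Fin (m + 1) ⊕ Fin (m + 1) :=
    Sum.elim (fun l => Sum.inl l.succ) ![Sum.inr i, Sum.inr j] with hσ
  have hcomp : ∀ x y : Fin (m + 1) → ℂ,
      Sum.elim x y ∘ σ = Sum.elim (fun l : Fin m => x l.succ) ![y i, y j] := by
    intro x y
    funext o
    rcases o with l | l
    · rfl
    · fin_cases l <;> rfl
  have hnot : ¬ AlgebraicIndependent k (Sum.elim (fun l : Fin m => a l.succ) ![b i, b j]) := by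
    intro hw
    have h4 := td_fam k (Sum.elim a b) _ hw (by
      intro D _ hz o
      rw [← hcomp]
      exact hz _)
    rw [htd] at h4
    simp at h4
  rw [algebraicIndependent_iff] at hnot
  push Not at hnot
  obtain ⟨P, hP, hP0⟩ := hnot
  refine ⟨P, hP0, ?_⟩
  intro x y hS
  have h1 := hS (rename σ P) (by rw [aeval_rename, hcomp]; exact hP)
  rw [aeval_rename, hcomp] at h1
  exact h1

theorem exists_pair1 (k : Subfield ℂ) {m : ℕ} (a b : Fin (m + 1) → ℂ) (i : Fin (m + 1))
    (hind : ¬ AlgebraicIndependent k (bs i a b)) :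
    ∃ N : MvPolynomial (Option (Fin m)) k, N ≠ 0 ∧ ∀ x y : Fin (m + 1) → ℂ,
      Spec k (Sum.elim a b) (Sum.elim x y) → aeval (bs i x y) N = 0 := by
  rw [algebraicIndependent_iff] at hind
  push Not at hind
  obtain ⟨N, hN, hN0⟩ := hind
  refine ⟨N, hN0, ?_⟩
  intro x y hS
  have h1 := hS (rename (io i) N) (by rw [aeval_io]; exact hN)
  rwa [aeval_io] at h1

/-- Some `b i` is transcendental over `k(a')`, if the `a_j` (`j ≥ 1`) are independent and `a_0` is algebraic over them. -/
theorem exists_index (k : Subfield ℂ) {m : ℕ} (a b : Fin (m + 1) → ℂ)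
    (htd : td (k : Set ℂ) (Sum.elim a b) = m + 1) (hta : td (k : Set ℂ) a = m)
    (ha : AlgebraicIndependent k (fun j : Fin m => a j.succ)) :
    ∃ i : Fin (m + 1), AlgebraicIndependent k (bs i a b) := by
  classical
  by_contra hcon
  push Not at hcon
  have hbs : ∀ (i : Fin (m + 1)), bs i a b = fun o : Option (Fin m) => o.elim (b i) (fun j => a j.succ) := by
    intro i
    funext o
    cases o <;> rfl
  have hb : ∀ i, IsAlgebraic (Algebra.adjoin k (Set.range (fun j : Fin m => a j.succ))) (b i) := by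
    intro i
    by_contra hna
    apply hcon i
    rw [hbs i]
    exact (ha.option_iff_transcendental (b i)).2 hna
  have ha0 : IsAlgebraic (Algebra.adjoin k (Set.range (fun j : Fin m => a j.succ))) (a 0) := by
    by_contra hna
    have h3 : AlgebraicIndependent k (fun o : Option (Fin m) => o.elim (a 0) (fun j => a j.succ)) :=
      (ha.option_iff_transcendental (a 0)).2 hna
    have h4 := td_fam k a _ h3 (by
      intro D _ hz o
      cases o with
      | none => exact hz 0
      | some j => exact hz _)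
    rw [hta] at h4
    simp at h4
  have h5 : td (k : Set ℂ) (Sum.elim a b) ≤ td (k : Set ℂ) (fun j : Fin m => a j.succ) := by
    refine rk_le_of_dep _ _ _ ?_
    intro D hD hz o
    rcases o with j | j
    · show D (a j) = 0
      refine Fin.cases ?_ (fun l => hz l) j
      exact kill_of_algebraic k _ D hD hz _ ha0
    · exact kill_of_algebraic k _ D hD hz _ (hb j)
  have h6 := (algInd_iff (k := k) _).1 ha
  rw [range_am, Fintype.card_fin] at h6
  rw [htd, h6] at h5
  omega

end Pool.Agent.EXG
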