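import Mathlib

/-!
# EXG / Root: the branch of the hypersurface at infinity

PROOF.  `F(I T β + ξ) / ((I T)^(d-1) μ) = ∑ c_j ξ_j - f0 + O((1 + ‖ξ‖)^2 / T)` for `‖ξ‖ ≤ T` (Taylor expansion of the forms,
`L(β) = 0`, `f0 = - F_{d-1}(β) / μ`; `d ≥ 1` because `μ c_0 ≠ 0`), constant `K` in the `O`. Take `ε` small with respect to
`|c 0| / K`.
-/

set_option autoImplicit false

namespace Pool.Agent.EXG

open MvPolynomial Filter

/-- homogeneity -/
private theorem rt_smul {n : ℕ} (k : Subfield ℂ) (p : MvPolynomial (Fin n) k) (d : ℕ)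
    (hp : p.IsHomogeneous d) (s : ℂ) (x : Fin n → ℂ) :
    aeval (fun i => s * x i) p = s ^ d * aeval x p := by
  rw [aeval_def, aeval_def, eval₂_eq', eval₂_eq', Finset.mul_sum]
  refine Finset.sum_congr rfl fun m hm => ?_
  have h1 : m.degree = d := by
    have h2 := hp (mem_support_iff.1 hm)
    rw [← h2, Finsupp.degree_eq_weight_one]
    rfl
  have h3 : ∏ i, (s * x i) ^ m i = s ^ d * ∏ i, x i ^ m i := by
    simp only [mul_pow]
    rw [Finset.prod_mul_distrib, Finset.prod_pow_eq_pow_sum, ← h1, Finsupp.degree_eq_sum]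
  rw [h3]
  ring

/-- Taylor estimates -/
private theorem rt_taylor {n : ℕ} (k : Subfield ℂ) (b : Fin n → ℂ) (p : MvPolynomial (Fin n) k) :
    ∃ K : ℝ, 0 ≤ K ∧ ∀ η : Fin n → ℂ, ‖η‖ ≤ 1 →
      ‖aeval (b + η) p‖ ≤ K ∧ ‖aeval (b + η) p - aeval b p‖ ≤ K * ‖η‖ ∧
      ‖aeval (b + η) p - aeval b p - ∑ j, aeval b (pderiv j p) * η j‖ ≤ K * ‖η‖ ^ 2 := by
  induction p using MvPolynomial.induction_on with
  | C a =>
    refine ⟨‖(algebraMap k ℂ a : ℂ)‖, norm_nonneg _, fun η hη => ?_⟩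
    simp only [algHom_C, pderiv_C, map_zero, zero_mul, Finset.sum_const_zero, sub_self, norm_zero]
    exact ⟨le_rfl, by positivity, by positivity⟩
  | add p q hp hq =>
    obtain ⟨K, hK, h1⟩ := hp
    obtain ⟨K', hK', h1'⟩ := hq
    refine ⟨K + K', add_nonneg hK hK', fun η hη => ?_⟩
    obtain ⟨e1, e2, e3⟩ := h1 η hη
    obtain ⟨e1', e2', e3'⟩ := h1' η hη
    have hs : ∑ j, aeval b (pderiv j (p + q)) * η j =
        ∑ j, aeval b (pderiv j p) * η j + ∑ j, aeval b (pderiv j q) * η j := by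
      rw [← Finset.sum_add_distrib]
      refine Finset.sum_congr rfl fun j _ => ?_
      rw [map_add, map_add, add_mul]
    rw [hs, map_add, map_add]
    refine ⟨(norm_add_le _ _).trans (add_le_add e1 e1'), ?_, ?_⟩
    · rw [add_mul, add_sub_add_comm]
      exact (norm_add_le _ _).trans (add_le_add e2 e2')
    · rw [add_mul, add_sub_add_comm, add_sub_add_comm]
      exact (norm_add_le _ _).trans (add_le_add e3 e3')
  | mul_X p i hp =>
    obtain ⟨K, hK, h1⟩ := hp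
    refine ⟨K * (‖b i‖ + 1), by positivity, fun η hη => ?_⟩
    obtain ⟨e1, e2, e3⟩ := h1 η hη
    have hi : ‖η i‖ ≤ ‖η‖ := norm_le_pi_norm η i
    have hs : ∑ j, aeval b (pderiv j (p * X i)) * η j =
        (∑ j, aeval b (pderiv j p) * η j) * b i + aeval b p * η i := by
      have h2 : ∀ j, aeval b (pderiv j (p * X i)) * η j =
          aeval b (pderiv j p) * η j * b i + (if j = i then aeval b p * η i else 0) := by
        intro j
        rw [pderiv_mul, map_add, map_mul, map_mul, aeval_X, pderiv_X]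
        by_cases hji : j = i
        · subst hji
          rw [Pi.single_eq_same, map_one, if_pos rfl]
          ring
        · rw [Pi.single_eq_of_ne (Ne.symm hji), map_zero, if_neg hji]
          ring
      rw [Finset.sum_congr rfl fun j _ => h2 j, Finset.sum_add_distrib, ← Finset.sum_mul,
        Finset.sum_ite_eq' Finset.univ i, if_pos (Finset.mem_univ i)]
    rw [hs, map_mul, map_mul, aeval_X, aeval_X, Pi.add_apply]
    set f := aeval (b + η) p
    set f0 := aeval b p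
    set D := ∑ j, aeval b (pderiv j p) * η j
    refine ⟨?_, ?_, ?_⟩
    · rw [norm_mul]
      refine mul_le_mul e1 ((norm_add_le _ _).trans ?_) (norm_nonneg _) hK
      exact add_le_add le_rfl (hi.trans hη)
    · have h2 : f * (b i + η i) - f0 * b i = (f - f0) * b i + f * η i := by ring
      rw [h2]
      refine (norm_add_le _ _).trans ?_
      rw [norm_mul, norm_mul]
      have h3 : ‖f - f0‖ * ‖b i‖ ≤ K * ‖η‖ * ‖b i‖ :=
        mul_le_mul_of_nonneg_right e2 (norm_nonneg _)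
      have h4 : ‖f‖ * ‖η i‖ ≤ K * ‖η‖ := mul_le_mul e1 hi (norm_nonneg _) hK
      calc _ ≤ K * ‖η‖ * ‖b i‖ + K * ‖η‖ := add_le_add h3 h4
        _ = _ := by ring
    · have h2 : f * (b i + η i) - f0 * b i - (D * b i + f0 * η i) =
          (f - f0 - D) * b i + (f - f0) * η i := by ring
      rw [h2]
      refine (norm_add_le _ _).trans ?_
      rw [norm_mul, norm_mul]
      have h3 : ‖f - f0 - D‖ * ‖b i‖ ≤ K * ‖η‖ ^ 2 * ‖b i‖ :=
        mul_le_mul_of_nonneg_right e3 (norm_nonneg _)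
      have h4 : ‖f - f0‖ * ‖η i‖ ≤ K * ‖η‖ * ‖η‖ :=
        mul_le_mul e2 hi (norm_nonneg _) (by positivity)
      calc _ ≤ K * ‖η‖ ^ 2 * ‖b i‖ + K * ‖η‖ * ‖η‖ := add_le_add h3 h4
        _ = _ := by ring

/-- the main estimate -/
private theorem rt_est {m : ℕ} (k : Subfield ℂ) (d : ℕ) (Fc : ℕ → MvPolynomial (Fin (m + 1)) k)
    (hFc : ∀ i, (Fc i).IsHomogeneous i) (β : Fin (m + 1) → ℝ) (c : Fin (m + 1) → ℝ) (μ : ℂ)
    (hμ : μ ≠ 0) (h0 : aeval (fun j => (β j : ℂ)) (Fc (d + 1)) = 0)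
    (hd : ∀ j, aeval (fun j => (β j : ℂ)) (pderiv j (Fc (d + 1))) = μ * (c j : ℂ)) :
    ∃ (f0 : ℂ) (K : ℝ), 0 < K ∧ ∀ T : ℕ, 1 ≤ T → ∀ ξ : Fin (m + 1) → ℂ, ‖ξ‖ ≤ T →
      ‖aeval (fun j => Complex.I * (T : ℂ) * (β j : ℂ) + ξ j)
          (∑ i ∈ Finset.range (d + 2), Fc i) / ((Complex.I * T) ^ d * μ) -
        (∑ j, (c j : ℂ) * ξ j - f0)‖ ≤ K * (1 + ‖ξ‖) ^ 2 / T := by
  set b : Fin (m + 1) → ℂ := fun j => (β j : ℂ) with hb
  choose K hK hKη using fun i => rt_taylor k b (Fc i)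
  have hμ' : 0 < ‖μ‖ := norm_pos_iff.2 hμ
  refine ⟨-(aeval b (Fc d) / μ), (∑ i ∈ Finset.range (d + 2), K i) / ‖μ‖ + 1, ?_, ?_⟩
  · have : 0 ≤ ∑ i ∈ Finset.range (d + 2), K i := Finset.sum_nonneg fun i _ => hK i
    positivity
  intro T hT ξ hξ
  have hT0 : (0 : ℝ) < T := by exact_mod_cast hT
  have hT1 : (1 : ℝ) ≤ T := by exact_mod_cast hT
  set s : ℂ := Complex.I * T with hs
  have hsn : ‖s‖ = T := by rw [hs, norm_mul, Complex.norm_I, one_mul, Complex.norm_natCast]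
  have hs0 : s ≠ 0 := by
    rw [← norm_pos_iff, hsn]
    exact hT0
  set η : Fin (m + 1) → ℂ := s⁻¹ • ξ with hη
  have hηn : ‖η‖ = ‖ξ‖ / T := by
    rw [hη, norm_smul, norm_inv, hsn, div_eq_inv_mul]
  have hη1 : ‖η‖ ≤ 1 := by
    rw [hηn]
    exact (div_le_one hT0).2 hξ
  have hξη : ∀ j, ξ j = s * η j := by
    intro j
    rw [hη, Pi.smul_apply, smul_eq_mul, mul_inv_cancel_left₀ hs0]
  have hval : aeval (fun j => s * (β j : ℂ) + ξ j) (∑ i ∈ Finset.range (d + 2), Fc i) =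
      ∑ i ∈ Finset.range (d + 2), s ^ i * aeval (b + η) (Fc i) := by
    rw [map_sum]
    refine Finset.sum_congr rfl fun i _ => ?_
    rw [← rt_smul k (Fc i) i (hFc i)]
    congr 2
    funext j
    rw [hξη, Pi.add_apply, mul_add]
  rw [hval, Finset.sum_range_succ, Finset.sum_range_succ]
  set G := ∑ i ∈ Finset.range d, s ^ i * aeval (b + η) (Fc i) with hG
  -- the three errors
  have hKs : ∀ i, i ∈ Finset.range (d + 2) → K i ≤ ∑ i ∈ Finset.range (d + 2), K i :=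
    fun i hi => Finset.single_le_sum (f := K) (fun i _ => hK i) hi
  have g1 : ‖G / s ^ d‖ ≤ (∑ i ∈ Finset.range d, K i) / T := by
    rw [hG, Finset.sum_div, Finset.sum_div]
    refine (norm_sum_le _ _).trans (Finset.sum_le_sum fun i hi => ?_)
    have hid : i + 1 ≤ d := Finset.mem_range.1 hi
    rw [norm_div, norm_mul, norm_pow, norm_pow, hsn, div_le_div_iff₀ (by positivity) hT0]
    have h1 := (hKη i η hη1).1
    have h2 : (T : ℝ) ^ i * T ≤ T ^ d := by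
      rw [← pow_succ]
      exact pow_le_pow_right₀ hT1 hid
    calc (T : ℝ) ^ i * ‖aeval (b + η) (Fc i)‖ * T
        = ‖aeval (b + η) (Fc i)‖ * ((T : ℝ) ^ i * T) := by ring
      _ ≤ K i * (T : ℝ) ^ d := mul_le_mul h1 h2 (by positivity) (hK i)
  have g2 : ‖aeval (b + η) (Fc d) - aeval b (Fc d)‖ ≤ K d * ‖ξ‖ / T := by
    have h1 := (hKη d η hη1).2.1
    rw [hηn] at h1
    rw [mul_div_assoc]
    exact h1
  have g3 : ‖s * aeval (b + η) (Fc (d + 1)) - μ * ∑ j, (c j : ℂ) * ξ j‖ ≤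
      K (d + 1) * ‖ξ‖ ^ 2 / T := by
    have h1 := (hKη (d + 1) η hη1).2.2
    rw [h0, sub_zero] at h1
    have h2 : s * aeval (b + η) (Fc (d + 1)) - μ * ∑ j, (c j : ℂ) * ξ j =
        s * (aeval (b + η) (Fc (d + 1)) - ∑ j, aeval b (pderiv j (Fc (d + 1))) * η j) := by
      rw [mul_sub, Finset.mul_sum, Finset.mul_sum]
      congr 1
      refine Finset.sum_congr rfl fun j _ => ?_
      rw [hd, hξη]
      ring
    rw [h2, norm_mul, hsn]
    calc (T : ℝ) * _ ≤ T * (K (d + 1) * ‖η‖ ^ 2) := mul_le_mul_of_nonneg_left h1 hT0.le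
      _ = _ := by
        rw [hηn]
        field_simp
  have hsd : s ^ d ≠ 0 := pow_ne_zero d hs0
  have hid : (G + s ^ d * aeval (b + η) (Fc d) + s ^ (d + 1) * aeval (b + η) (Fc (d + 1))) /
      (s ^ d * μ) - (∑ j, (c j : ℂ) * ξ j - -(aeval b (Fc d) / μ)) =
      (G / s ^ d + (aeval (b + η) (Fc d) - aeval b (Fc d)) +
        (s * aeval (b + η) (Fc (d + 1)) - μ * ∑ j, (c j : ℂ) * ξ j)) / μ := by
    field_simp
    ring
  rw [hid, norm_div]
  have hx0 : 0 ≤ ‖ξ‖ := norm_nonneg ξ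
  have hsum : ∑ i ∈ Finset.range (d + 2), K i = ∑ i ∈ Finset.range d, K i + K d + K (d + 1) := by
    rw [Finset.sum_range_succ, Finset.sum_range_succ]
  have hS : 0 ≤ ∑ i ∈ Finset.range d, K i := Finset.sum_nonneg fun i _ => hK i
  have h5 : ‖G / s ^ d + (aeval (b + η) (Fc d) - aeval b (Fc d)) +
        (s * aeval (b + η) (Fc (d + 1)) - μ * ∑ j, (c j : ℂ) * ξ j)‖ ≤
      (∑ i ∈ Finset.range (d + 2), K i) * (1 + ‖ξ‖) ^ 2 / T := by
    refine (norm_add₃_le).trans ((add_le_add_three g1 g2 g3).trans ?_)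
    rw [← add_div, ← add_div, hsum]
    refine div_le_div_of_nonneg_right ?_ hT0.le
    have := hK d
    have := hK (d + 1)
    nlinarith [mul_nonneg hS hx0, mul_nonneg (hK d) hx0, mul_nonneg (hK (d + 1)) hx0,
      mul_nonneg hS (sq_nonneg ‖ξ‖), mul_nonneg (hK d) (sq_nonneg ‖ξ‖)]
  calc _ ≤ (∑ i ∈ Finset.range (d + 2), K i) * (1 + ‖ξ‖) ^ 2 / T / ‖μ‖ :=
        div_le_div_of_nonneg_right h5 hμ'.le
    _ = (∑ i ∈ Finset.range (d + 2), K i) / ‖μ‖ * (1 + ‖ξ‖) ^ 2 / T := by ring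
    _ ≤ _ := by
      refine div_le_div_of_nonneg_right ?_ hT0.le
      exact mul_le_mul_of_nonneg_right (by linarith) (sq_nonneg _)

/-- the zeros close to the ray -/
private theorem rt_zero {m : ℕ} {c : Fin (m + 1) → ℝ} {f0 : ℂ} {K ε : ℝ} (hK : 0 < K)
    (hc0 : c 0 ≠ 0) (hε1 : ε ≤ 1) (hεK : 6 * K * ε ≤ |c 0|) {T : ℝ} (hT : 1 ≤ T)
    {ξ : Fin (m + 1) → ℂ} {ρ : ℝ} (hρ0 : 0 ≤ ρ) (hρ : ρ ≤ √T) (h1 : ∀ j : Fin m, ‖ξ j.succ‖ ≤ ρ)
    (h2 : ‖ξ 0‖ ≤ ε * T)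
    (h3 : ‖ξ‖ ≤ T → ‖∑ j, (c j : ℂ) * ξ j - f0‖ ≤ K * (1 + ‖ξ‖) ^ 2 / T) :
    ‖ξ 0‖ ≤ 2 / |c 0| * (∑ j : Fin m, |c j.succ|) * ρ + 2 / |c 0| * (‖f0‖ + 6 * K) ∧
    ‖∑ j, (c j : ℂ) * ξ j - f0‖ ≤ K * (1 + ρ + ‖ξ 0‖) ^ 2 / T := by
  have hT0 : 0 < T := by linarith
  have hc : 0 < |c 0| := abs_pos.2 hc0
  have hz0 : 0 ≤ ‖ξ 0‖ := norm_nonneg _
  have hρT : ρ ^ 2 ≤ T := by
    calc ρ ^ 2 ≤ √T ^ 2 := by gcongr
      _ = T := Real.sq_sqrt hT0.le
  have hρT' : ρ ≤ T := by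
    by_contra hcon
    push Not at hcon
    nlinarith
  have hn : ‖ξ‖ ≤ T := by
    rw [pi_norm_le_iff_of_nonneg hT0.le]
    intro j
    refine Fin.cases ?_ (fun j => ?_) j
    · exact h2.trans (by nlinarith)
    · exact (h1 j).trans hρT'
  have hn' : ‖ξ‖ ≤ ρ + ‖ξ 0‖ := by
    rw [pi_norm_le_iff_of_nonneg (by positivity)]
    intro j
    refine Fin.cases ?_ (fun j => ?_) j
    · linarith
    · linarith [h1 j]
  have h4 : ‖∑ j, (c j : ℂ) * ξ j - f0‖ ≤ K * (1 + ρ + ‖ξ 0‖) ^ 2 / T := by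
    refine (h3 hn).trans ?_
    have := norm_nonneg ξ
    gcongr K * ?_ ^ 2 / T
    linarith
  refine ⟨?_, h4⟩
  set z := ‖ξ 0‖ with hz
  have h5 : K * (1 + ρ + z) ^ 2 / T ≤ 6 * K + |c 0| * z / 2 := by
    rw [div_le_iff₀ hT0]
    have e1 : (1 + ρ + z) ^ 2 ≤ 3 * (1 + ρ ^ 2 + z ^ 2) := by
      nlinarith [sq_nonneg (1 - ρ), sq_nonneg (1 - z), sq_nonneg (ρ - z)]
    have e2 : z ^ 2 ≤ ε * T * z := by nlinarith
    have e3 : K * (1 + ρ + z) ^ 2 ≤ K * (3 * (1 + ρ ^ 2 + z ^ 2)) :=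
      mul_le_mul_of_nonneg_left e1 hK.le
    have e4 : 3 * K * (ε * T * z) ≤ |c 0| * z / 2 * T := by
      have := mul_le_mul_of_nonneg_right hεK (mul_nonneg hT0.le hz0)
      nlinarith
    nlinarith
  have h6 : |c 0| * z ≤ ‖∑ j, (c j : ℂ) * ξ j - f0‖ + ‖f0‖ + (∑ j : Fin m, |c j.succ|) * ρ := by
    have e1 : (c 0 : ℂ) * ξ 0 = (∑ j, (c j : ℂ) * ξ j - f0) + f0 -
        ∑ j : Fin m, (c j.succ : ℂ) * ξ j.succ := by
      rw [Fin.sum_univ_succ]
      ring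
    have e2 : |c 0| * z = ‖(c 0 : ℂ) * ξ 0‖ := by
      rw [norm_mul, Complex.norm_real, Real.norm_eq_abs]
    rw [e2, e1]
    refine (norm_sub_le _ _).trans (add_le_add (norm_add_le _ _) ?_)
    rw [Finset.sum_mul]
    refine (norm_sum_le _ _).trans (Finset.sum_le_sum fun j _ => ?_)
    rw [norm_mul, Complex.norm_real, Real.norm_eq_abs]
    exact mul_le_mul_of_nonneg_left (h1 j) (abs_nonneg _)
  have h7 : |c 0| * z / 2 ≤ (∑ j : Fin m, |c j.succ|) * ρ + (‖f0‖ + 6 * K) := by linarith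
  have h8 : z = 2 / |c 0| * (|c 0| * z / 2) := by field_simp
  rw [h8]
  calc 2 / |c 0| * (|c 0| * z / 2)
      ≤ 2 / |c 0| * ((∑ j : Fin m, |c j.succ|) * ρ + (‖f0‖ + 6 * K)) :=
        mul_le_mul_of_nonneg_left h7 (by positivity)
    _ = _ := by ring

private theorem rt_lim (a b : ℝ) :
    Tendsto (fun T : ℕ => (a + b * Real.log T) ^ 2 / (T : ℝ)) atTop (nhds 0) := by
  have hn : Tendsto (fun T : ℕ => (T : ℝ)) atTop atTop := tendsto_natCast_atTop_atTop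
  have l0 : Tendsto (fun x : ℝ => 1 / x) atTop (nhds 0) := by
    simpa using tendsto_inv_atTop_zero
  have l1 : Tendsto (fun x : ℝ => Real.log x ^ 1 / x) atTop (nhds 0) :=
    (Real.isLittleO_pow_log_id_atTop (n := 1)).tendsto_div_nhds_zero
  have l2 : Tendsto (fun x : ℝ => Real.log x ^ 2 / x) atTop (nhds 0) :=
    (Real.isLittleO_pow_log_id_atTop (n := 2)).tendsto_div_nhds_zero
  have l3 : Tendsto (fun x : ℝ => a ^ 2 * (1 / x) + 2 * a * b * (Real.log x ^ 1 / x) +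
      b ^ 2 * (Real.log x ^ 2 / x)) atTop (nhds 0) := by
    have := ((l0.const_mul (a ^ 2)).add (l1.const_mul (2 * a * b))).add (l2.const_mul (b ^ 2))
    simpa using this
  refine (l3.comp hn).congr fun T => ?_
  simp only [Function.comp]
  ring

/-- existence of a zero -/
private theorem rt_ex {m : ℕ} (k : Subfield ℂ) (F : MvPolynomial (Fin (m + 1)) k) (w : Fin (m + 1) → ℂ)
    (D : ℂ) (c0 f0 : ℂ) (hc0 : c0 ≠ 0) (e : ℝ) (he : e ≤ ‖c0‖ / 8)
    (h : ∀ z : ℂ, ‖z‖ ≤ ‖f0 / c0‖ + 1 →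
      ‖aeval (fun j => w j + (Fin.cons z 0 : Fin (m + 1) → ℂ) j) F / D - (c0 * z - f0)‖ ≤ e) :
    ∃ z : ℂ, ‖z‖ ≤ ‖f0 / c0‖ + 1 ∧
      aeval (fun j => w j + (Fin.cons z 0 : Fin (m + 1) → ℂ) j) F = 0 := by
  set z0 : ℂ := f0 / c0 with hz0
  have hcn : 0 < ‖c0‖ := norm_pos_iff.2 hc0
  have hD : D ≠ 0 := by
    intro hD
    have h1 := h (z0 + 1) (by
      refine (norm_add_le _ _).trans ?_
      rw [norm_one])
    rw [hD, div_zero, hz0] at h1
    have h2 : (0 : ℂ) - (c0 * (f0 / c0 + 1) - f0) = -c0 := by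
      field_simp
      ring
    rw [h2, norm_neg] at h1
    linarith
  set g : ℂ → ℂ := fun z => aeval (fun j => w j + (Fin.cons z 0 : Fin (m + 1) → ℂ) j) F / D with hg
  have han : AnalyticOnNhd ℂ g Set.univ := by
    intro z _
    have h1 : AnalyticAt ℂ
        (fun z : ℂ => aeval (fun j => w j + (Fin.cons z 0 : Fin (m + 1) → ℂ) j) F) z := by
      refine AnalyticAt.aeval_mvPolynomial (f := fun z : ℂ => fun j =>
        w j + (Fin.cons z 0 : Fin (m + 1) → ℂ) j) (fun j => ?_) F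
      refine Fin.cases ?_ (fun j => ?_) j
      · simp only [Fin.cons_zero]
        exact analyticAt_const.add analyticAt_id
      · simp only [Fin.cons_succ]
        exact analyticAt_const
    exact h1.div analyticAt_const hD
  have hdiff : Differentiable ℂ g := fun z => (han z (Set.mem_univ z)).differentiableAt
  have hg0 : ‖g z0‖ ≤ e := by
    have h1 := h z0 (by linarith)
    have h2 : c0 * z0 - f0 = 0 := by
      rw [hz0]
      field_simp
      ring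
    rw [h2, sub_zero] at h1
    exact h1
  have hsph : ∀ z ∈ Metric.sphere z0 1, ‖c0‖ / 2 ≤ ‖g z - g z0‖ := by
    intro z hz
    rw [mem_sphere_iff_norm] at hz
    have h1 := h z (by
      calc ‖z‖ = ‖(z - z0) + z0‖ := by rw [sub_add_cancel]
        _ ≤ ‖z - z0‖ + ‖z0‖ := norm_add_le _ _
        _ = _ := by rw [hz, add_comm])
    have h3 : ‖c0 * z - f0‖ = ‖c0‖ := by
      have : c0 * z - f0 = c0 * (z - z0) := by
        rw [hz0]
        field_simp
      rw [this, norm_mul, hz, mul_one]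
    have h4 : ‖c0 * z - f0‖ ≤ ‖g z - g z0‖ + ‖g z0‖ + ‖g z - (c0 * z - f0)‖ := by
      have : c0 * z - f0 = (g z - g z0) + g z0 - (g z - (c0 * z - f0)) := by ring
      calc ‖c0 * z - f0‖ = ‖(g z - g z0) + g z0 - (g z - (c0 * z - f0))‖ := by rw [← this]
        _ ≤ ‖(g z - g z0) + g z0‖ + ‖g z - (c0 * z - f0)‖ := norm_sub_le _ _
        _ ≤ _ := add_le_add (norm_add_le _ _) le_rfl
    rw [h3] at h4
    have h5 : ‖g z - (c0 * z - f0)‖ ≤ e := h1
    linarith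
  have hfreq : ∃ᶠ z in nhds z0, g z ≠ g z0 := by
    intro hcon
    have h1 : g =ᶠ[nhds z0] fun _ => g z0 := by
      filter_upwards [hcon] with z hz
      exact not_not.1 hz
    have h2 := han.eq_of_eventuallyEq (fun z _ => analyticAt_const) h1
    have h3 := hsph (z0 + 1) (by rw [mem_sphere_iff_norm, add_sub_cancel_left, norm_one])
    rw [congrFun h2 (z0 + 1), sub_self, norm_zero] at h3
    linarith
  have hball := hdiff.diffContOnCl.ball_subset_image_closedBall (z₀ := z0) (r := 1) one_pos hsph hfreq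
  obtain ⟨z, hz, hgz⟩ := hball (show (0 : ℂ) ∈ Metric.ball (g z0) (‖c0‖ / 2 / 2) by
    rw [Metric.mem_ball, dist_comm, dist_zero_right]
    linarith)
  refine ⟨z, ?_, ?_⟩
  · rw [mem_closedBall_iff_norm] at hz
    calc ‖z‖ = ‖(z - z0) + z0‖ := by rw [sub_add_cancel]
      _ ≤ ‖z - z0‖ + ‖z0‖ := norm_add_le _ _
      _ ≤ _ := by linarith
  · exact (div_eq_zero_iff.1 hgz).resolve_right hD

theorem root_loc {m : ℕ} (k : Subfield ℂ) (d : ℕ) (Fc : ℕ → MvPolynomial (Fin (m + 1)) k)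
    (hFc : ∀ i, (Fc i).IsHomogeneous i) (β : Fin (m + 1) → ℝ) (c : Fin (m + 1) → ℝ) (μ : ℂ)
    (hμ : μ ≠ 0) (h0 : aeval (fun j => (β j : ℂ)) (Fc d) = 0)
    (hd : ∀ j, aeval (fun j => (β j : ℂ)) (pderiv j (Fc d)) = μ * (c j : ℂ)) (hc0 : c 0 ≠ 0) :
    ∃ (f0 : ℂ) (ε : ℝ), 0 < ε ∧
      (∀ᶠ T : ℕ in atTop, ∃ x : Fin (m + 1) → ℂ,
        aeval x (∑ i ∈ Finset.range (d + 1), Fc i) = 0 ∧
        (∀ j : Fin m, x j.succ = Complex.I * (T : ℂ) * (β j.succ : ℂ)) ∧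
        ‖x 0 - Complex.I * (T : ℂ) * (β 0 : ℂ)‖ ≤ ε * T / 2) ∧
      (∀ᶠ T : ℕ in atTop, ∀ x : Fin (m + 1) → ℂ,
        aeval x (∑ i ∈ Finset.range (d + 1), Fc i) = 0 →
        (∀ j : Fin m, ‖x j.succ - Complex.I * (T : ℂ) * (β j.succ : ℂ)‖ ≤ √(T : ℝ)) →
        ‖x 0 - Complex.I * (T : ℂ) * (β 0 : ℂ)‖ ≤ ε * T →
        ‖x 0 - Complex.I * (T : ℂ) * (β 0 : ℂ)‖ ≤ ε * T / 2) ∧
      (∀ C δ : ℝ, 0 < δ → ∀ᶠ T : ℕ in atTop, ∀ x : Fin (m + 1) → ℂ,
        aeval x (∑ i ∈ Finset.range (d + 1), Fc i) = 0 →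
        (∀ j : Fin m, ‖x j.succ - Complex.I * (T : ℂ) * (β j.succ : ℂ)‖ ≤ C * Real.log T) →
        ‖x 0 - Complex.I * (T : ℂ) * (β 0 : ℂ)‖ ≤ ε * T →
        ‖∑ j, (c j : ℂ) * x j - f0‖ ≤ δ) := by
  -- the degree is positive
  obtain ⟨d, rfl⟩ : ∃ d', d = d' + 1 := by
    rcases Nat.eq_zero_or_pos d with h | h
    · exfalso
      subst h
      have h1 := hd 0
      rw [totalDegree_eq_zero_iff_eq_C.1 ((totalDegree_zero_iff_isHomogeneous _).2 (hFc 0)), pderiv_C,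
        map_zero] at h1
      rcases mul_eq_zero.1 h1.symm with h2 | h2
      · exact hμ h2
      · exact hc0 (by exact_mod_cast h2)
    · exact ⟨d - 1, by omega⟩
  obtain ⟨f0, K, hK, hest⟩ := rt_est k d Fc hFc β c μ hμ h0 hd
  have hc : 0 < |c 0| := abs_pos.2 hc0
  -- Euler
  have heul : ∑ j, (c j : ℂ) * (β j : ℂ) = 0 := by
    have h1 := congrArg (aeval (fun j => (β j : ℂ))) (hFc (d + 1)).sum_X_mul_pderiv
    rw [map_sum, map_nsmul, h0, smul_zero] at h1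
    have h2 : μ * ∑ j, (c j : ℂ) * (β j : ℂ) = 0 := by
      rw [← h1, Finset.mul_sum]
      refine Finset.sum_congr rfl fun j _ => ?_
      rw [map_mul, aeval_X, hd]
      ring
    exact (mul_eq_zero.1 h2).resolve_left hμ
  set ε : ℝ := min 1 (|c 0| / (6 * K)) with hε
  have hε0 : 0 < ε := lt_min one_pos (by positivity)
  have hε1 : ε ≤ 1 := min_le_left _ _
  have hεK : 6 * K * ε ≤ |c 0| := by
    have : ε ≤ |c 0| / (6 * K) := min_le_right _ _
    rw [le_div_iff₀ (by positivity)] at this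
    linarith
  -- the estimate at a zero
  have hzero : ∀ T : ℕ, 1 ≤ T → ∀ x : Fin (m + 1) → ℂ,
      aeval x (∑ i ∈ Finset.range (d + 1 + 1), Fc i) = 0 →
      ‖(fun j => x j - Complex.I * (T : ℂ) * (β j : ℂ))‖ ≤ T →
      ‖∑ j, (c j : ℂ) * (x j - Complex.I * (T : ℂ) * (β j : ℂ)) - f0‖ ≤
        K * (1 + ‖(fun j => x j - Complex.I * (T : ℂ) * (β j : ℂ))‖) ^ 2 / T := by
    intro T hT x hx hn
    have h1 := hest T hT _ hn
    have h2 : (fun j => Complex.I * (T : ℂ) * (β j : ℂ) +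
        (x j - Complex.I * (T : ℂ) * (β j : ℂ))) = x := by
      funext j
      ring
    rw [h2, hx, zero_div, zero_sub, norm_neg] at h1
    exact h1
  set A : ℝ := 2 / |c 0| * (∑ j : Fin m, |c j.succ|) with hA
  set B : ℝ := 2 / |c 0| * (‖f0‖ + 6 * K) with hB
  have hA0 : 0 ≤ A := by
    have : 0 ≤ ∑ j : Fin m, |c j.succ| := Finset.sum_nonneg fun j _ => abs_nonneg _
    positivity
  have hB0 : 0 ≤ B := by positivity
  have hnat : Tendsto (fun T : ℕ => (T : ℝ)) atTop atTop := tendsto_natCast_atTop_atTop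
  have hsq : Tendsto (fun T : ℕ => √(T : ℝ)) atTop atTop := Real.tendsto_sqrt_atTop.comp hnat
  refine ⟨f0, ε, hε0, ?_, ?_, ?_⟩
  · -- existence
    have hc0' : (c 0 : ℂ) ≠ 0 := by exact_mod_cast hc0
    set R : ℝ := ‖f0 / (c 0 : ℂ)‖ + 1 with hR
    have hR0 : 0 ≤ R := by positivity
    filter_upwards [hnat.eventually_ge_atTop R, hnat.eventually_ge_atTop (2 * R / ε),
      hnat.eventually_ge_atTop (8 * (K * (1 + R) ^ 2) / |c 0|), eventually_ge_atTop 1]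
      with T hT1 hT2 hT3 hT
    have hT0 : (0 : ℝ) < T := by exact_mod_cast hT
    obtain ⟨z, hz, hz0⟩ := rt_ex k (∑ i ∈ Finset.range (d + 1 + 1), Fc i)
      (fun j => Complex.I * (T : ℂ) * (β j : ℂ)) ((Complex.I * T) ^ d * μ) (c 0 : ℂ) f0 hc0'
      (K * (1 + R) ^ 2 / T)
      (by
        rw [Complex.norm_real, Real.norm_eq_abs, div_le_div_iff₀ hT0 (by norm_num)]
        rw [div_le_iff₀ hc] at hT3
        linarith)
      (by
        intro z hz
        have hn : ‖(Fin.cons z 0 : Fin (m + 1) → ℂ)‖ ≤ R := by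
          rw [pi_norm_le_iff_of_nonneg hR0]
          intro j
          refine Fin.cases ?_ (fun j => ?_) j
          · rw [Fin.cons_zero]
            exact hz
          · rw [Fin.cons_succ, Pi.zero_apply, norm_zero]
            exact hR0
        have h1 := hest T hT (Fin.cons z 0) (hn.trans hT1)
        have h2 : ∑ j, (c j : ℂ) * (Fin.cons z 0 : Fin (m + 1) → ℂ) j = (c 0 : ℂ) * z := by
          rw [Fin.sum_univ_succ, Fin.cons_zero]
          simp
        rw [h2] at h1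
        refine h1.trans ?_
        have := norm_nonneg (Fin.cons z 0 : Fin (m + 1) → ℂ)
        gcongr)
    refine ⟨_, hz0, fun j => ?_, ?_⟩
    · rw [Fin.cons_succ, Pi.zero_apply, add_zero]
    · rw [Fin.cons_zero, add_sub_cancel_left]
      rw [div_le_iff₀ hε0] at hT2
      linarith
  · -- separation
    filter_upwards [hsq.eventually_ge_atTop (4 * A / ε), hnat.eventually_ge_atTop (4 * B / ε),
      eventually_ge_atTop 1] with T hT1 hT2 hT x hx h1 h2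
    have hT0 : (0 : ℝ) < T := by exact_mod_cast hT
    have hT1' : (1 : ℝ) ≤ T := by exact_mod_cast hT
    have h3 := (rt_zero (c := c) (f0 := f0) hK hc0 hε1 hεK hT1'
      (ξ := fun j => x j - Complex.I * (T : ℂ) * (β j : ℂ)) (Real.sqrt_nonneg _) le_rfl h1 h2
      (hzero T hT x hx)).1
    refine h3.trans ?_
    rw [div_le_iff₀ hε0] at hT1 hT2
    have h4 : √(T : ℝ) * √(T : ℝ) = T := Real.mul_self_sqrt hT0.le
    have h5 : 4 * A * √(T : ℝ) ≤ √(T : ℝ) * ε * √(T : ℝ) :=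
      mul_le_mul_of_nonneg_right hT1 (Real.sqrt_nonneg _)
    have h6 : √(T : ℝ) * ε * √(T : ℝ) = ε * T := by
      rw [mul_right_comm, h4, mul_comm]
    rw [h6] at h5
    linarith
  · -- the value of the linear form
    intro C δ hδ
    have l1 : ∀ᶠ T : ℕ in atTop, (0 + |C| * Real.log T) ^ 2 / (T : ℝ) < 1 :=
      (rt_lim 0 |C|).eventually_lt_const one_pos
    have l2 : ∀ᶠ T : ℕ in atTop, (1 + B + (|C| + A * |C|) * Real.log T) ^ 2 / (T : ℝ) < δ / K :=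
      (rt_lim (1 + B) (|C| + A * |C|)).eventually_lt_const (by positivity)
    filter_upwards [l1, l2, eventually_ge_atTop 1] with T hT1 hT2 hT x hx h1 h2
    have hT0 : (0 : ℝ) < T := by exact_mod_cast hT
    have hT1' : (1 : ℝ) ≤ T := by exact_mod_cast hT
    have hlog : 0 ≤ Real.log T := Real.log_nonneg hT1'
    set ρ : ℝ := |C| * Real.log T with hρ
    have hρ0 : 0 ≤ ρ := mul_nonneg (abs_nonneg _) hlog
    have hρs : ρ ≤ √(T : ℝ) := by
      apply Real.le_sqrt_of_sq_le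
      rw [zero_add, div_lt_one hT0] at hT1
      exact hT1.le
    obtain ⟨h3, h4⟩ := rt_zero (c := c) (f0 := f0) hK hc0 hε1 hεK hT1'
      (ξ := fun j => x j - Complex.I * (T : ℂ) * (β j : ℂ)) hρ0 hρs
      (fun j => (h1 j).trans (mul_le_mul_of_nonneg_right (le_abs_self C) hlog)) h2
      (hzero T hT x hx)
    have h5 : ∑ j, (c j : ℂ) * (x j - Complex.I * (T : ℂ) * (β j : ℂ)) = ∑ j, (c j : ℂ) * x j := by
      have : ∑ j, (c j : ℂ) * (x j - Complex.I * (T : ℂ) * (β j : ℂ)) =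
          ∑ j, (c j : ℂ) * x j - Complex.I * (T : ℂ) * ∑ j, (c j : ℂ) * (β j : ℂ) := by
        rw [Finset.mul_sum, ← Finset.sum_sub_distrib]
        exact Finset.sum_congr rfl fun j _ => by ring
      rw [this, heul, mul_zero, sub_zero]
    simp only [h5] at h4
    refine h4.trans ?_
    have h6 : 1 + ρ + ‖x 0 - Complex.I * (T : ℂ) * (β 0 : ℂ)‖ ≤
        1 + B + (|C| + A * |C|) * Real.log T := by
      have : A * ρ = A * |C| * Real.log T := by rw [hρ]; ring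
      have h3' : ‖x 0 - Complex.I * (T : ℂ) * (β 0 : ℂ)‖ ≤ A * ρ + B := h3
      rw [this] at h3'
      rw [add_mul]
      linarith
    have h7 : (1 + ρ + ‖x 0 - Complex.I * (T : ℂ) * (β 0 : ℂ)‖) ^ 2 ≤
        (1 + B + (|C| + A * |C|) * Real.log T) ^ 2 := by
      have := norm_nonneg (x 0 - Complex.I * (T : ℂ) * (β 0 : ℂ))
      gcongr
    rw [lt_div_iff₀ hK] at hT2
    calc K * (1 + ρ + ‖x 0 - Complex.I * (T : ℂ) * (β 0 : ℂ)‖) ^ 2 / T
        ≤ K * (1 + B + (|C| + A * |C|) * Real.log T) ^ 2 / T := by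
          refine div_le_div_of_nonneg_right ?_ hT0.le
          exact mul_le_mul_of_nonneg_left h7 hK.le
      _ = (1 + B + (|C| + A * |C|) * Real.log T) ^ 2 / (T : ℝ) * K := by ring
      _ ≤ δ := hT2.le

end Pool.Agent.EXG
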