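import Mathlib

/-!
# EXG / Sol: contraction in `x'`, minimum principle in `z`

`u = (x', z) : Option (Fin m) → ℂ`, `u (some j) = x'_j`, `u none = z`.

PROOF.  `Om = {‖u (some j) - X j‖ < R, ‖u none - z0‖ < r}`. Cauchy: `‖Λ_j‖ ≤ 1` on `Om`, so for `u, u' ∈ Om` with the same `z` and
`x'`-coordinates within `ρ + 1 ≤ R / 4` of `X`: `‖Λ_j u - Λ_j u'‖ ≤ (4 m / R) max ‖x' - x''‖` (coordinate by coordinate, or the
Schwarz lemma on the complex line through the two points). For `‖z - z0‖ < r` the map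
`x' ↦ (κ (j+1) + Λ_(j+1) (x', z))_j` maps the closed polydisc of radius `ρ + 1` about `X` to itself and is a contraction (`hR`);
its fixed point `x'(z)` is holomorphic in `z` (locally uniform limit of the iterates of the constant `X`). Put
`g(z) = c_0 (x0(u(z)) - κ_0 - Λ_0(u(z)))`, `u(z) = (x'(z), z)`. Then `g(z) = [c_0 x0 + ∑ c_j x_j] - ∑ c_j κ_j - ∑ c_j Λ_j(u(z))`, so
`‖g(z) + ∑ c_j Λ_j(X, z)‖ ≤ μ/8 + μ/8 + (∑ |c_j|) (4 m / R) (ρ + 1) ≤ 3 μ / 8`. On `‖z - z0‖ = r1`: `‖g‖ ≥ 5 μ / 8`; at `zT`: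
`‖g‖ ≤ μ / 2`. Minimum principle (maximum principle for `1 / g`): `g` has a zero in `‖z - z0‖ < r1`.
-/

set_option autoImplicit false

open Filter Topology Metric

namespace Pool.Agent.EXG

private def mk {m : ℕ} (x : Fin m → ℂ) (z : ℂ) : Option (Fin m) → ℂ := fun o => o.elim z x

private theorem mk_none {m : ℕ} (x : Fin m → ℂ) (z : ℂ) : mk x z none = z := rfl

private theorem mk_some {m : ℕ} (x : Fin m → ℂ) (z : ℂ) (j : Fin m) : mk x z (some j) = x j := rfl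

private theorem mk_diff {m : ℕ} {f : ℂ → Fin m → ℂ} {g : ℂ → ℂ} {s : Set ℂ}
    (hf : DifferentiableOn ℂ f s) (hg : DifferentiableOn ℂ g s) :
    DifferentiableOn ℂ (fun t => mk (f t) (g t)) s := by
  rw [differentiableOn_pi]
  rintro (_ | j)
  · exact hg
  · exact (differentiableOn_pi.1 hf) j

private theorem mk_tendsto {m : ℕ} {f : ℕ → Fin m → ℂ} {a : Fin m → ℂ} (z : ℂ)
    (hf : Tendsto f atTop (𝓝 a)) : Tendsto (fun n => mk (f n) z) atTop (𝓝 (mk a z)) := by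
  rw [tendsto_pi_nhds]
  rintro (_ | j)
  · exact tendsto_const_nhds
  · exact (tendsto_pi_nhds.1 hf) j

private theorem lip {m : ℕ} (X : Fin m → ℂ) (z0 : ℂ) (R r ρ : ℝ) (hρ : 0 ≤ ρ)
    (hR0 : 64 * (ρ + 1) ≤ R) (Om : Set (Option (Fin m) → ℂ))
    (hOm : Om = {u | (∀ j, ‖u (some j) - X j‖ < R) ∧ ‖u none - z0‖ < r})
    (Λ : (Option (Fin m) → ℂ) → ℂ) (hΛ : DifferentiableOn ℂ Λ Om) (hΛ1 : ∀ u ∈ Om, ‖Λ u‖ ≤ 1)
    (x x' : Fin m → ℂ) (z : ℂ) (hx : ∀ i, ‖x i - X i‖ ≤ ρ + 1) (hx' : ∀ i, ‖x' i - X i‖ ≤ ρ + 1)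
    (hz : ‖z - z0‖ < r) : ‖Λ (mk x z) - Λ (mk x' z)‖ ≤ 4 / R * ‖x - x'‖ := by
  have hR : 0 < R := by linarith
  rcases eq_or_ne x x' with h | h
  · subst h; simp
  have hδ : 0 < ‖x - x'‖ := norm_pos_iff.2 (sub_ne_zero.2 h)
  set δ : ℝ := ‖x - x'‖ with hδd
  have hδ2 : δ ≤ 2 * (ρ + 1) := by
    rw [hδd, pi_norm_le_iff_of_nonneg (by positivity)]
    intro i
    rw [Pi.sub_apply]
    calc ‖x i - x' i‖ = ‖(x i - X i) - (x' i - X i)‖ := by ring_nf
      _ ≤ ‖x i - X i‖ + ‖x' i - X i‖ := norm_sub_le _ _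
      _ ≤ 2 * (ρ + 1) := by linarith [hx i, hx' i]
  set T : ℝ := 3 * R / 4 / δ with hT
  have hT0 : 0 < T := by positivity
  have hT1 : 1 < T := by
    rw [hT, lt_div_iff₀ hδ]
    linarith
  set φ : ℂ → ℂ := fun t => Λ (mk (x' + t • (x - x')) z) with hφ
  have hmem : ∀ t ∈ ball (0 : ℂ) T, mk (x' + t • (x - x')) z ∈ Om := by
    intro t ht
    rw [mem_ball_zero_iff] at ht
    rw [hOm]
    refine ⟨fun j => ?_, hz⟩
    rw [mk_some, Pi.add_apply, Pi.smul_apply, Pi.sub_apply, smul_eq_mul]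
    have h1 : ‖x j - x' j‖ ≤ δ := norm_le_pi_norm (x - x') j
    have h2 : ‖t‖ * δ < 3 * R / 4 := by
      rw [hT, lt_div_iff₀ hδ] at ht
      exact ht
    calc ‖x' j + t * (x j - x' j) - X j‖ = ‖(x' j - X j) + t * (x j - x' j)‖ := by ring_nf
      _ ≤ ‖x' j - X j‖ + ‖t * (x j - x' j)‖ := norm_add_le _ _
      _ = ‖x' j - X j‖ + ‖t‖ * ‖x j - x' j‖ := by rw [norm_mul]
      _ ≤ (ρ + 1) + ‖t‖ * δ := by
        have h3 := hx' j
        have h4 : ‖t‖ * ‖x j - x' j‖ ≤ ‖t‖ * δ := mul_le_mul_of_nonneg_left h1 (norm_nonneg _)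
        linarith
      _ < R := by linarith
  have hd : DifferentiableOn ℂ φ (ball 0 T) := by
    refine hΛ.comp (mk_diff ?_ (differentiableOn_const z)) hmem
    exact (Differentiable.const_add x' (differentiable_id.smul_const (x - x'))).differentiableOn
  have hmaps : Set.MapsTo φ (ball 0 T) (closedBall (φ 0) 3) := by
    intro t ht
    rw [mem_closedBall, dist_eq_norm]
    calc ‖φ t - φ 0‖ ≤ ‖φ t‖ + ‖φ 0‖ := norm_sub_le _ _
      _ ≤ 1 + 1 := add_le_add (hΛ1 _ (hmem t ht)) (hΛ1 _ (hmem 0 (mem_ball_self hT0)))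
      _ ≤ 3 := by norm_num
  have h1 : (1 : ℂ) ∈ ball (0 : ℂ) T := by
    rw [mem_ball_zero_iff, norm_one]; exact hT1
  have key := Complex.dist_le_div_mul_dist_of_mapsTo_ball hd hmaps h1
  have e1 : φ 1 = Λ (mk x z) := by
    simp only [hφ, one_smul]
    congr 2
    abel
  have e0 : φ 0 = Λ (mk x' z) := by simp only [hφ, zero_smul, add_zero]
  rw [e1, e0, dist_eq_norm, dist_eq_norm, sub_zero, norm_one, mul_one] at key
  refine key.trans (le_of_eq ?_)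
  rw [hT]
  field_simp

theorem solve {m : ℕ} (c : Fin (m + 1) → ℝ) (hc0 : c 0 ≠ 0) (X : Fin m → ℂ) (z0 f0 : ℂ)
    (R r ρ μ : ℝ) (hρ : 0 ≤ ρ) (hμ : 0 < μ) (hR0 : 64 * (m + 1) * (ρ + 1) ≤ R)
    (hR : 64 * (m + 1) * (ρ + 1) * (∑ j, |c j|) ≤ R * μ)
    (Om : Set (Option (Fin m) → ℂ))
    (hOm : Om = {u | (∀ j, ‖u (some j) - X j‖ < R) ∧ ‖u none - z0‖ < r})
    (Λ : Fin (m + 1) → (Option (Fin m) → ℂ) → ℂ) (x0 : (Option (Fin m) → ℂ) → ℂ)
    (hΛ : ∀ j, DifferentiableOn ℂ (Λ j) Om) (hx0 : DifferentiableOn ℂ x0 Om)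
    (hΛ1 : ∀ j, ∀ u ∈ Om, ‖Λ j u‖ ≤ 1)
    (κ : Fin (m + 1) → ℂ) (hκ : ∀ j : Fin m, ‖κ j.succ - X j‖ ≤ ρ)
    (happ : ∀ u ∈ Om, (∀ j, ‖u (some j) - X j‖ ≤ ρ + 1) →
      ‖(c 0 : ℂ) * x0 u + ∑ j : Fin m, (c j.succ : ℂ) * u (some j) - f0‖ ≤ μ / 8)
    (hf0 : ‖∑ j, (c j : ℂ) * κ j - f0‖ ≤ μ / 8)
    (r1 : ℝ) (hr1 : 0 < r1) (hr : r1 < r)
    (hcirc : ∀ u : Option (Fin m) → ℂ, (∀ j, u (some j) = X j) → ‖u none - z0‖ = r1 →
      μ ≤ ‖∑ j, (c j : ℂ) * Λ j u‖)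
    (uT : Option (Fin m) → ℂ) (huT : ∀ j, uT (some j) = X j) (hzT : ‖uT none - z0‖ < r1)
    (hT : ‖∑ j, (c j : ℂ) * Λ j uT‖ ≤ μ / 8) :
    ∃ u ∈ Om, (∀ j : Fin m, u (some j) = κ j.succ + Λ j.succ u) ∧ x0 u = κ 0 + Λ 0 u ∧
      ‖u none - z0‖ < r1 := by
  have hρ1 : 0 < ρ + 1 := by linarith
  have hm1 : (1 : ℝ) ≤ m + 1 := by
    have : (0 : ℝ) ≤ m := Nat.cast_nonneg m
    linarith
  have hR1 : 64 * (ρ + 1) ≤ R := by
    have : 64 * 1 * (ρ + 1) ≤ 64 * (m + 1) * (ρ + 1) := by gcongr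
    linarith
  have hR64 : 64 ≤ R := by linarith
  have hRpos : 0 < R := by linarith
  have h4R : 4 / R ≤ 1 / 16 := by
    rw [div_le_div_iff₀ hRpos (by norm_num)]
    linarith
  have hOpen : IsOpen Om := by
    rw [hOm]
    have e : {u : Option (Fin m) → ℂ | (∀ j, ‖u (some j) - X j‖ < R) ∧ ‖u none - z0‖ < r} =
        (⋂ j, {u : Option (Fin m) → ℂ | ‖u (some j) - X j‖ < R}) ∩
          {u | ‖u none - z0‖ < r} := by
      ext u
      simp only [Set.mem_ofPred_eq, Set.mem_inter_iff, Set.mem_iInter]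
    rw [e]
    refine IsOpen.inter (isOpen_iInter_of_finite fun j => ?_) ?_
    · exact isOpen_lt (by fun_prop) continuous_const
    · exact isOpen_lt (by fun_prop) continuous_const
  have hmemOm : ∀ (x : Fin m → ℂ) (z : ℂ), (∀ i, ‖x i - X i‖ ≤ ρ + 1) → z ∈ ball z0 r →
      mk x z ∈ Om := by
    intro x z hx hz
    rw [hOm]
    refine ⟨fun j => ?_, ?_⟩
    · rw [mk_some]
      have := hx j
      linarith
    · rw [mk_none]
      rwa [mem_ball, dist_eq_norm] at hz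
  -- the iterates
  let xs : ℕ → ℂ → (Fin m → ℂ) := fun n => Nat.rec (fun _ => X)
    (fun _ f => fun z j => κ j.succ + Λ j.succ (mk (f z) z)) n
  have hxs0 : ∀ z, xs 0 z = X := fun z => rfl
  have hxs : ∀ n z j, xs (n + 1) z j = κ j.succ + Λ j.succ (mk (xs n z) z) := fun n z j => rfl
  have hP : ∀ n, ∀ z ∈ ball z0 r, ∀ i, ‖xs n z i - X i‖ ≤ ρ + 1 := by
    intro n
    induction n with
    | zero =>
      intro z _ i
      rw [hxs0, sub_self, norm_zero]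
      exact hρ1.le
    | succ n ih =>
      intro z hz i
      rw [hxs]
      have h1 := hΛ1 i.succ _ (hmemOm _ z (ih z hz) hz)
      have h2 := hκ i
      calc ‖κ i.succ + Λ i.succ (mk (xs n z) z) - X i‖
          = ‖(κ i.succ - X i) + Λ i.succ (mk (xs n z) z)‖ := by ring_nf
        _ ≤ ‖κ i.succ - X i‖ + ‖Λ i.succ (mk (xs n z) z)‖ := norm_add_le _ _
        _ ≤ ρ + 1 := add_le_add h2 h1
  have hD : ∀ n, DifferentiableOn ℂ (xs n) (ball z0 r) := by
    intro n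
    induction n with
    | zero => exact differentiableOn_const X
    | succ n ih =>
      rw [differentiableOn_pi]
      intro j
      have h1 : DifferentiableOn ℂ (fun z => Λ j.succ (mk (xs n z) z)) (ball z0 r) :=
        (hΛ j.succ).comp (mk_diff ih differentiableOn_id)
          (fun z hz => hmemOm _ z (hP n z hz) hz)
      exact h1.const_add (κ j.succ)
  have hLip : ∀ (j : Fin (m + 1)) (x x' : Fin m → ℂ), ∀ z ∈ ball z0 r,
      (∀ i, ‖x i - X i‖ ≤ ρ + 1) → (∀ i, ‖x' i - X i‖ ≤ ρ + 1) →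
      ‖Λ j (mk x z) - Λ j (mk x' z)‖ ≤ 4 / R * ‖x - x'‖ := by
    intro j x x' z hz hx hx'
    rw [mem_ball, dist_eq_norm] at hz
    exact lip X z0 R r ρ hρ hR1 Om hOm (Λ j) (hΛ j) (hΛ1 j) x x' z hx hx' hz
  have hgeo : ∀ z ∈ ball z0 r, ∀ n, dist (xs n z) (xs (n + 1) z) ≤ (ρ + 1) * (1 / 16) ^ n := by
    intro z hz n
    induction n with
    | zero =>
      rw [pow_zero, mul_one, dist_comm, dist_eq_norm, pi_norm_le_iff_of_nonneg hρ1.le]
      intro i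
      exact hP 1 z hz i
    | succ n ih =>
      rw [dist_eq_norm, pi_norm_le_iff_of_nonneg (by positivity)]
      intro i
      change ‖(κ i.succ + Λ i.succ (mk (xs n z) z)) -
        (κ i.succ + Λ i.succ (mk (xs (n + 1) z) z))‖ ≤ _
      rw [add_sub_add_left_eq_sub]
      refine (hLip i.succ _ _ z hz (hP n z hz) (hP (n + 1) z hz)).trans ?_
      rw [dist_eq_norm] at ih
      calc 4 / R * ‖xs n z - xs (n + 1) z‖ ≤ 1 / 16 * ((ρ + 1) * (1 / 16) ^ n) := by gcongr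
        _ = (ρ + 1) * (1 / 16) ^ (n + 1) := by rw [pow_succ]; ring
  have hlim : ∀ z, ∃ a, z ∈ ball z0 r → Tendsto (fun n => xs n z) atTop (𝓝 a) := by
    intro z
    by_cases hz : z ∈ ball z0 r
    · obtain ⟨a, ha⟩ := cauchySeq_tendsto_of_complete
        (cauchySeq_of_le_geometric (1 / 16) (ρ + 1) (by norm_num) (hgeo z hz))
      exact ⟨a, fun _ => ha⟩
    · exact ⟨X, fun h => absurd h hz⟩
  choose xl hxl using hlim
  have hdist : ∀ z ∈ ball z0 r, ∀ n, dist (xs n z) (xl z) ≤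
      (ρ + 1) * (1 / 16) ^ n / (1 - 1 / 16) := fun z hz n =>
    dist_le_of_le_geometric_of_tendsto (1 / 16) (ρ + 1) (by norm_num) (hgeo z hz) (hxl z hz) n
  have hunif : TendstoUniformlyOn xs xl atTop (ball z0 r) := by
    rw [Metric.tendstoUniformlyOn_iff]
    intro ε hε
    have h1 : Tendsto (fun n : ℕ => (ρ + 1) * (1 / 16 : ℝ) ^ n / (1 - 1 / 16)) atTop
        (𝓝 ((ρ + 1) * 0 / (1 - 1 / 16))) :=
      ((tendsto_pow_atTop_nhds_zero_of_lt_one (by norm_num) (by norm_num)).const_mul _).div_const _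
    rw [mul_zero, zero_div] at h1
    filter_upwards [h1.eventually (gt_mem_nhds hε)] with n hn z hz
    rw [dist_comm]
    exact (hdist z hz n).trans_lt hn
  have hxlD : DifferentiableOn ℂ xl (ball z0 r) :=
    hunif.tendstoLocallyUniformlyOn.differentiableOn (Eventually.of_forall hD) isOpen_ball
  have hxlP : ∀ z ∈ ball z0 r, ∀ i, ‖xl z i - X i‖ ≤ ρ + 1 := by
    intro z hz i
    have h1 : Tendsto (fun n => ‖xs n z i - X i‖) atTop (𝓝 ‖xl z i - X i‖) :=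
      (((tendsto_pi_nhds.1 (hxl z hz)) i).sub_const _).norm
    exact le_of_tendsto h1 (Eventually.of_forall fun n => hP n z hz i)
  have hfix : ∀ z ∈ ball z0 r, ∀ j : Fin m, xl z j = κ j.succ + Λ j.succ (mk (xl z) z) := by
    intro z hz j
    have h1 : Tendsto (fun n => xs (n + 1) z j) atTop (𝓝 (xl z j)) :=
      (((tendsto_pi_nhds.1 (hxl z hz)) j)).comp (tendsto_add_atTop_nat 1)
    have h2 : ContinuousAt (Λ j.succ) (mk (xl z) z) :=
      (hΛ j.succ).continuousOn.continuousAt (hOpen.mem_nhds (hmemOm _ z (hxlP z hz) hz))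
    have h3 : Tendsto (fun n => κ j.succ + Λ j.succ (mk (xs n z) z)) atTop
        (𝓝 (κ j.succ + Λ j.succ (mk (xl z) z))) :=
      (h2.tendsto.comp (mk_tendsto z (hxl z hz))).const_add _
    exact tendsto_nhds_unique h1 h3
  -- the function g
  set g : ℂ → ℂ := fun z => (c 0 : ℂ) * (x0 (mk (xl z) z) - κ 0 - Λ 0 (mk (xl z) z)) with hg
  have hu : ∀ z ∈ ball z0 r, mk (xl z) z ∈ Om := fun z hz => hmemOm _ z (hxlP z hz) hz
  have huD : DifferentiableOn ℂ (fun z => mk (xl z) z) (ball z0 r) :=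
    mk_diff hxlD differentiableOn_id
  have hgD : DifferentiableOn ℂ g (ball z0 r) :=
    (((hx0.comp huD hu).sub_const _).sub ((hΛ 0).comp huD hu)).const_mul _
  have hS : ∑ j, |c j| ≤ R * μ / (64 * (ρ + 1)) := by
    rw [le_div_iff₀ (by positivity)]
    have h0 : 0 ≤ ∑ j, |c j| := Finset.sum_nonneg fun j _ => abs_nonneg _
    have h1 : 64 * 1 * (ρ + 1) * (∑ j, |c j|) ≤ 64 * (m + 1) * (ρ + 1) * (∑ j, |c j|) := by gcongr
    nlinarith
  have hXP : ∀ i, ‖X i - X i‖ ≤ ρ + 1 := fun i => by rw [sub_self, norm_zero]; exact hρ1.le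
  have hgh : ∀ z ∈ ball z0 r, ‖g z + ∑ j, (c j : ℂ) * Λ j (mk X z)‖ ≤ 3 * μ / 8 := by
    intro z hz
    have e1 : ∑ j, (c j : ℂ) * κ j = (c 0 : ℂ) * κ 0 + ∑ j : Fin m, (c j.succ : ℂ) * κ j.succ :=
      Fin.sum_univ_succ _
    have e2 : ∑ j, (c j : ℂ) * Λ j (mk (xl z) z) = (c 0 : ℂ) * Λ 0 (mk (xl z) z) +
        ∑ j : Fin m, (c j.succ : ℂ) * Λ j.succ (mk (xl z) z) := Fin.sum_univ_succ _
    have e3 : ∑ j : Fin m, (c j.succ : ℂ) * xl z j = ∑ j : Fin m, (c j.succ : ℂ) * κ j.succ +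
        ∑ j : Fin m, (c j.succ : ℂ) * Λ j.succ (mk (xl z) z) := by
      rw [← Finset.sum_add_distrib]
      refine Finset.sum_congr rfl fun j _ => ?_
      rw [hfix z hz j]
      ring
    have e4 : g z + ∑ j, (c j : ℂ) * Λ j (mk X z) =
        ((c 0 : ℂ) * x0 (mk (xl z) z) + ∑ j : Fin m, (c j.succ : ℂ) * mk (xl z) z (some j) - f0) -
        (∑ j, (c j : ℂ) * κ j - f0) +
        ∑ j, (c j : ℂ) * (Λ j (mk X z) - Λ j (mk (xl z) z)) := by
      simp only [mk_some, mul_sub, Finset.sum_sub_distrib]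
      rw [e1, e2, e3, hg]
      ring
    rw [e4]
    have b1 := happ (mk (xl z) z) (hu z hz) (fun j => hxlP z hz j)
    have b2 : ‖∑ j, (c j : ℂ) * (Λ j (mk X z) - Λ j (mk (xl z) z))‖ ≤ μ / 8 := by
      calc ‖∑ j, (c j : ℂ) * (Λ j (mk X z) - Λ j (mk (xl z) z))‖
          ≤ ∑ j, ‖(c j : ℂ) * (Λ j (mk X z) - Λ j (mk (xl z) z))‖ := norm_sum_le _ _
        _ ≤ ∑ j, |c j| * (4 / R * (ρ + 1)) := by
          refine Finset.sum_le_sum fun j _ => ?_
          rw [norm_mul, Complex.norm_real, Real.norm_eq_abs]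
          refine mul_le_mul_of_nonneg_left ?_ (abs_nonneg _)
          refine (hLip j X (xl z) z hz hXP (hxlP z hz)).trans ?_
          refine mul_le_mul_of_nonneg_left ?_ (by positivity)
          rw [norm_sub_rev, pi_norm_le_iff_of_nonneg hρ1.le]
          exact hxlP z hz
        _ = (∑ j, |c j|) * (4 / R * (ρ + 1)) := by rw [Finset.sum_mul]
        _ ≤ R * μ / (64 * (ρ + 1)) * (4 / R * (ρ + 1)) := by gcongr
        _ = μ / 16 := by field_simp; ring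
        _ ≤ μ / 8 := by linarith
    calc _ ≤ ‖((c 0 : ℂ) * x0 (mk (xl z) z) + ∑ j : Fin m, (c j.succ : ℂ) * mk (xl z) z (some j) -
          f0) - (∑ j, (c j : ℂ) * κ j - f0)‖ +
          ‖∑ j, (c j : ℂ) * (Λ j (mk X z) - Λ j (mk (xl z) z))‖ := norm_add_le _ _
      _ ≤ (‖(c 0 : ℂ) * x0 (mk (xl z) z) + ∑ j : Fin m, (c j.succ : ℂ) * mk (xl z) z (some j) -
          f0‖ + ‖∑ j, (c j : ℂ) * κ j - f0‖) + μ / 8 := add_le_add (norm_sub_le _ _) b2
      _ ≤ 3 * μ / 8 := by linarith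
  have hsphere : ∀ z ∈ sphere z0 r1, 5 * μ / 8 ≤ ‖g z‖ := by
    intro z hz
    have hz' : ‖z - z0‖ = r1 := by rwa [mem_sphere, dist_eq_norm] at hz
    have h1 := hcirc (mk X z) (fun j => rfl) hz'
    have h2 := hgh z (by rw [mem_ball, dist_eq_norm, hz']; exact hr)
    have h3 : ‖∑ j, (c j : ℂ) * Λ j (mk X z)‖ ≤ ‖g z + ∑ j, (c j : ℂ) * Λ j (mk X z)‖ + ‖g z‖ := by
      have e : ∑ j, (c j : ℂ) * Λ j (mk X z) = (g z + ∑ j, (c j : ℂ) * Λ j (mk X z)) - g z := by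
        ring
      calc ‖∑ j, (c j : ℂ) * Λ j (mk X z)‖ = ‖(g z + ∑ j, (c j : ℂ) * Λ j (mk X z)) - g z‖ := by
            rw [← e]
        _ ≤ _ := norm_sub_le _ _
    linarith
  set zT : ℂ := uT none with hzTd
  have huTe : uT = mk X zT := by
    funext o
    cases o with
    | none => rfl
    | some j => exact huT j
  have hzTb : zT ∈ ball z0 r1 := by rw [mem_ball, dist_eq_norm]; exact hzT
  have hgT : ‖g zT‖ ≤ μ / 2 := by
    have h2 := hgh zT (ball_subset_ball hr.le hzTb)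
    rw [huTe] at hT
    have h3 : ‖g zT‖ ≤ ‖g zT + ∑ j, (c j : ℂ) * Λ j (mk X zT)‖ +
        ‖∑ j, (c j : ℂ) * Λ j (mk X zT)‖ := by
      have e : g zT = (g zT + ∑ j, (c j : ℂ) * Λ j (mk X zT)) -
          ∑ j, (c j : ℂ) * Λ j (mk X zT) := by ring
      calc ‖g zT‖ = ‖(g zT + ∑ j, (c j : ℂ) * Λ j (mk X zT)) -
          ∑ j, (c j : ℂ) * Λ j (mk X zT)‖ := by rw [← e]
        _ ≤ _ := norm_sub_le _ _
    linarith
  -- a zero
  have hzero : ∃ z ∈ ball z0 r1, g z = 0 := by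
    by_contra hcon
    push Not at hcon
    have hne : ∀ z ∈ closedBall z0 r1, g z ≠ 0 := by
      intro z hz h0
      rcases (mem_closedBall.1 hz).lt_or_eq with h1 | h1
      · exact hcon z (mem_ball.2 h1) h0
      · have h2 := hsphere z (mem_sphere.2 h1)
        rw [h0, norm_zero] at h2
        linarith
    have hdc : DiffContOnCl ℂ (fun z => (g z)⁻¹) (ball z0 r1) := by
      refine DifferentiableOn.diffContOnCl ?_
      rw [closure_ball z0 hr1.ne']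
      exact (hgD.mono (closedBall_subset_ball hr)).inv hne
    have hb := Complex.norm_le_of_forall_mem_frontier_norm_le (C := (5 * μ / 8)⁻¹)
      (isBounded_ball (x := z0) (r := r1)) hdc (fun z hz => by
        rw [frontier_ball z0 hr1.ne'] at hz
        rw [norm_inv]
        exact inv_anti₀ (by positivity) (hsphere z hz)) (subset_closure hzTb)
    rw [norm_inv] at hb
    have hgT0 : 0 < ‖g zT‖ := norm_pos_iff.2 (hne zT (ball_subset_closedBall hzTb))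
    have h1 : (μ / 2)⁻¹ ≤ ‖g zT‖⁻¹ := inv_anti₀ hgT0 hgT
    have h2 := h1.trans hb
    rw [inv_le_inv₀ (by positivity) (by positivity)] at h2
    linarith
  obtain ⟨z, hz, hgz⟩ := hzero
  have hz' : z ∈ ball z0 r := ball_subset_ball hr.le hz
  refine ⟨mk (xl z) z, hu z hz', fun j => hfix z hz' j, ?_, ?_⟩
  · have h1 : x0 (mk (xl z) z) - κ 0 - Λ 0 (mk (xl z) z) = 0 := by
      rcases mul_eq_zero.1 hgz with h | h
      · exact absurd (by exact_mod_cast h) hc0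
      · exact h
    linear_combination h1
  · rw [mk_none]
    rwa [mem_ball, dist_eq_norm] at hz

end Pool.Agent.EXG
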