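import Mathlib

/-!
# EXG / SurjDisc: a compact piece of a curve maps onto a disc

`K` compact, `L` continuous on `K`; through every point of `K` outside a set `B` where `|L| < m₀` passes an
analytic disc in `K` on which `L` is not constant; `L '' (K ∩ B)` is closed and countable. Then `L '' K` contains
the disc `|t| < m₀` if there is a point of `K` outside `B` with `|L| < m₀`: in the disc minus `L '' (K ∩ B)`, which is
connected, `L '' K` is closed (compactness) and open (open mapping theorem).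
-/

set_option autoImplicit false

namespace Pool.Agent.EXG

open Topology

/-- a disc minus a countable set is preconnected -/
theorem ball_diff_countable {F : Set ℂ} (hF : F.Countable) {r : ℝ} (hr : 0 < r) :
    IsPreconnected (Metric.ball (0 : ℂ) r \ F) := by
  have hinj : Function.Injective (OpenPartialHomeomorph.univBall (0 : ℂ) r) := by
    intro a b hab
    have h := (OpenPartialHomeomorph.univBall (0 : ℂ) r).injOn
    rw [OpenPartialHomeomorph.univBall_source] at h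
    exact h (Set.mem_univ a) (Set.mem_univ b) hab
  have hpre : ((OpenPartialHomeomorph.univBall (0 : ℂ) r) ⁻¹' F).Countable :=
    hF.preimage hinj
  have hconn : IsPreconnected ((OpenPartialHomeomorph.univBall (0 : ℂ) r) ⁻¹' F)ᶜ := by
    refine (hpre.isConnected_compl_of_one_lt_rank ?_).isPreconnected
    rw [Complex.rank_real_complex]
    norm_num
  have himg : Metric.ball (0 : ℂ) r \ F =
      (OpenPartialHomeomorph.univBall (0 : ℂ) r) ''
        ((OpenPartialHomeomorph.univBall (0 : ℂ) r) ⁻¹' F)ᶜ := by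
    have hran : (OpenPartialHomeomorph.univBall (0 : ℂ) r) '' Set.univ = Metric.ball 0 r := by
      have h := (OpenPartialHomeomorph.univBall (0 : ℂ) r).image_source_eq_target
      rwa [OpenPartialHomeomorph.univBall_source,
        OpenPartialHomeomorph.univBall_target (0 : ℂ) hr] at h
    ext z
    constructor
    · rintro ⟨h1, h2⟩
      rw [← hran] at h1
      obtain ⟨y, -, rfl⟩ := h1
      exact ⟨y, h2, rfl⟩
    · rintro ⟨y, hy, rfl⟩
      refine ⟨?_, hy⟩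
      rw [← hran]
      exact ⟨y, Set.mem_univ y, rfl⟩
  rw [himg]
  exact hconn.image _ (OpenPartialHomeomorph.continuous_univBall (0 : ℂ) r).continuousOn

theorem surj_disc {E : Type*} [TopologicalSpace E] (K B : Set E) (hK : IsCompact K) (L : E → ℂ)
    (hL : ContinuousOn L K) (hB : (L '' (K ∩ B)).Countable) (hBc : IsClosed (L '' (K ∩ B)))
    (m₀ : ℝ) (h0 : ∃ η ∈ K, η ∉ B ∧ ‖L η‖ < m₀)
    (h : ∀ η ∈ K, η ∉ B → ‖L η‖ < m₀ → ∃ γ : ℂ → E, γ 0 = η ∧ (∀ᶠ t in 𝓝 (0 : ℂ), γ t ∈ K) ∧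
      AnalyticAt ℂ (fun t => L (γ t)) 0 ∧ ¬ ∀ᶠ t in 𝓝 (0 : ℂ), L (γ t) = L (γ 0))
    (t : ℂ) (ht : ‖t‖ < m₀) : ∃ η ∈ K, L η = t := by
  have hm : 0 < m₀ := lt_of_le_of_lt (norm_nonneg _) ht
  have hc : IsCompact (L '' K) := hK.image_of_continuousOn hL
  have hpre := ball_diff_countable hB hm
  have hnb : ∀ η ∈ K, η ∉ B → ‖L η‖ < m₀ → L '' K ∈ 𝓝 (L η) := by
    intro η hη hηB hs
    obtain ⟨γ, hγ0, hγK, han, hnc⟩ := h η hη hηB hs
    have h1 := han.eventually_constant_or_nhds_le_map_nhds.resolve_left hnc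
    rw [hγ0] at h1
    refine h1 ?_
    rw [Filter.mem_map]
    filter_upwards [hγK] with z hz
    exact ⟨γ z, hz, rfl⟩
  have hopen : IsOpen (Metric.ball (0 : ℂ) m₀ \ L '' (K ∩ B)) :=
    Metric.isOpen_ball.sdiff hBc
  have hO : IsOpen (L '' K ∩ (Metric.ball (0 : ℂ) m₀ \ L '' (K ∩ B))) := by
    rw [isOpen_iff_mem_nhds]
    rintro s ⟨⟨η, hη, rfl⟩, hs, hsB⟩
    have hηB : η ∉ B := fun hb => hsB ⟨η, ⟨hη, hb⟩, rfl⟩
    exact Filter.inter_mem (hnb η hη hηB (mem_ball_zero_iff.1 hs)) (hopen.mem_nhds ⟨hs, hsB⟩)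
  have hne : ((Metric.ball (0 : ℂ) m₀ \ L '' (K ∩ B)) ∩
      (L '' K ∩ (Metric.ball (0 : ℂ) m₀ \ L '' (K ∩ B)))).Nonempty := by
    obtain ⟨η, hη, hηB, hs⟩ := h0
    have h1 : L '' K ∩ Metric.ball (0 : ℂ) m₀ ∈ 𝓝 (L η) :=
      Filter.inter_mem (hnb η hη hηB hs) (Metric.isOpen_ball.mem_nhds (mem_ball_zero_iff.2 hs))
    have h2 : Dense (L '' (K ∩ B))ᶜ := hB.dense_compl ℝ
    obtain ⟨s, hs1, hs2⟩ := h2.inter_nhds_nonempty h1
    exact ⟨s, ⟨hs2.2, hs1⟩, hs2.1, hs2.2, hs1⟩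
  have hsub : Metric.ball (0 : ℂ) m₀ \ L '' (K ∩ B) ⊆
      L '' K ∩ (Metric.ball (0 : ℂ) m₀ \ L '' (K ∩ B)) := by
    refine hpre.subset_of_closure_inter_subset hO hne ?_
    rintro s ⟨hs1, hs2⟩
    refine ⟨?_, hs2⟩
    have h1 := closure_mono (Set.inter_subset_left) hs1
    rwa [hc.isClosed.closure_eq] at h1
  by_cases htB : t ∈ L '' (K ∩ B)
  · obtain ⟨η, hη, hηt⟩ := htB
    exact ⟨η, hη.1, hηt⟩
  · obtain ⟨⟨η, hη, hηt⟩, -⟩ := hsub ⟨mem_ball_zero_iff.2 ht, htB⟩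
    exact ⟨η, hη, hηt⟩

end Pool.Agent.EXG
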