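import Pool.Agent.EXP.Good
import Pool.Agent.EXG.SurjDisc

/-!
# EXG / CurveSurj: a compact piece of a curve maps onto a disc

`lam` real with `lam . v` not zero for one puncture `v` of the curve, `x(t)` a disc in the curve on which
`lam . x` is not constant. If `|lam . η| ≥ m₀` at all points `η`, `‖η‖ = ρ`, with `exp (x 0 + η)` in the curve, then
`lam . η` takes on the piece `‖η‖ ≤ ρ` of the curve every value of absolute value less than `m₀`
(`surj_disc`; the bad points of `curve_disc` are finitely many, their logarithms are countable and closed).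
-/

set_option autoImplicit false

namespace Pool.Agent.EXG

open MvPolynomial Topology Pool.Agent.EXP

private theorem cd_countable {n : ℕ} {F : Set (Fin n → ℂ)} (hF : F.Finite) :
    {ξ : Fin n → ℂ | (fun j => Complex.exp (ξ j)) ∈ F}.Countable := by
  have h1 : ∀ w : ℂ, {z : ℂ | Complex.exp z = w}.Countable := by
    intro w
    rcases Set.eq_empty_or_nonempty {z : ℂ | Complex.exp z = w} with h | ⟨z₀, hz₀⟩
    · rw [h]
      exact Set.countable_empty
    · refine (Set.countable_range (fun k : ℤ => z₀ + k * (2 * Real.pi * Complex.I))).mono ?_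
      intro z hz
      have h2 : Complex.exp z = Complex.exp z₀ := by
        rw [Set.mem_ofPred_eq] at hz hz₀
        rw [hz, hz₀]
      obtain ⟨k, hk⟩ := Complex.exp_eq_exp_iff_exists_int.1 h2
      exact ⟨k, hk.symm⟩
  have h2 : {ξ : Fin n → ℂ | (fun j => Complex.exp (ξ j)) ∈ F} ⊆
      ⋃ w ∈ F, {ξ : Fin n → ℂ | ∀ j, ξ j ∈ {z : ℂ | Complex.exp z = w j}} := by
    intro ξ hξ
    rw [Set.mem_iUnion₂]
    exact ⟨_, hξ, fun j => rfl⟩
  refine Set.Countable.mono h2 ?_
  exact hF.countable.biUnion fun w _ => Set.countable_pi fun j => h1 (w j)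

theorem curve_surj {n : ℕ} (Q : Ideal (MvPolynomial (Fin n) ℂ)) (hQ : Q.IsPrime)
    (hY : ∀ j : Fin n, (X j : MvPolynomial (Fin n) ℂ) ∉ Q)
    (hdim : Algebra.trdeg ℂ (MvPolynomial (Fin n) ℂ ⧸ Q) = 1) (lam : Fin n → ℝ)
    (v : Fin n → ℤ) (hv : Punct Q v) (hlv : ∑ j, lam j * v j ≠ 0)
    (x : ℂ → Fin n → ℂ) (hx : ∀ j, AnalyticAt ℂ (fun t => x t j) 0)
    (hxQ : ∀ᶠ t in 𝓝 (0 : ℂ), (fun j => Complex.exp (x t j)) ∈ Tz Q)
    (hxn : ¬ ∀ᶠ t in 𝓝 (0 : ℂ), ∑ j, (lam j : ℂ) * x t j = ∑ j, (lam j : ℂ) * x 0 j)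
    (ρ m₀ : ℝ) (hρ : 0 < ρ)
    (hm : ∀ η : Fin n → ℂ, ‖η‖ = ρ → (fun j => Complex.exp (x 0 j + η j)) ∈ Tz Q →
      m₀ ≤ ‖∑ j, (lam j : ℂ) * η j‖) (t : ℂ) (ht : ‖t‖ < m₀) :
    ∃ η : Fin n → ℂ, ‖η‖ ≤ ρ ∧ (fun j => Complex.exp (x 0 j + η j)) ∈ Tz Q ∧
      ∑ j, (lam j : ℂ) * η j = t := by
  classical
  have hm₀ : 0 < m₀ := lt_of_le_of_lt (norm_nonneg _) ht
  obtain ⟨S, hS, hdisc⟩ := curve_disc Q hQ hY hdim lam v hv hlv
  have hfin := fin_zeros Q hQ hdim S hS
  have hct := cd_countable hfin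
  obtain ⟨K, hKd⟩ : ∃ K : Set (Fin n → ℂ), K = {η | ‖η‖ ≤ ρ ∧
      (fun j => Complex.exp (x 0 j + η j)) ∈ Tz Q} := ⟨_, rfl⟩
  have hKm : ∀ η, η ∈ K ↔ ‖η‖ ≤ ρ ∧ (fun j => Complex.exp (x 0 j + η j)) ∈ Tz Q := by
    intro η
    rw [hKd]
    rfl
  have hcont : Continuous fun (η : Fin n → ℂ) => fun j => Complex.exp (x 0 j + η j) := by
    fun_prop
  have hpc : ∀ f : MvPolynomial (Fin n) ℂ,
      Continuous fun (η : Fin n → ℂ) => eval (fun j => Complex.exp (x 0 j + η j)) f := fun f =>
    (MvPolynomial.continuous_eval f).comp hcont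
  have hK : IsCompact K := by
    have h1 : K = Metric.closedBall (0 : Fin n → ℂ) ρ ∩
        ⋂ f ∈ Q, {η | eval (fun j => Complex.exp (x 0 j + η j)) f = 0} := by
      ext η
      rw [hKm, Set.mem_inter_iff, mem_closedBall_zero_iff, Set.mem_iInter₂]
      constructor
      · rintro ⟨h1, h2⟩
        exact ⟨h1, fun f hf => h2.1 f hf⟩
      · rintro ⟨h1, h2⟩
        exact ⟨h1, fun f hf => h2 f hf, fun j => Complex.exp_ne_zero _⟩
    rw [h1]
    refine (isCompact_closedBall 0 ρ).inter_right ?_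
    refine isClosed_biInter fun f _ => ?_
    exact isClosed_eq (hpc f) continuous_const
  obtain ⟨B, hBd⟩ : ∃ B : Set (Fin n → ℂ), B = {η |
      eval (fun j => Complex.exp (x 0 j + η j)) S = 0} := ⟨_, rfl⟩
  have hBm : ∀ η, η ∈ B ↔ eval (fun j => Complex.exp (x 0 j + η j)) S = 0 := by
    intro η
    rw [hBd]
    rfl
  have hBc : IsClosed B := by
    rw [hBd]
    exact isClosed_eq (hpc S) continuous_const
  have hLc : Continuous fun (η : Fin n → ℂ) => ∑ j, (lam j : ℂ) * η j := by fun_prop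
  have hKBc : (K ∩ B).Countable := by
    have h1 : K ∩ B ⊆ (fun (ξ : Fin n → ℂ) => fun j => ξ j - x 0 j) ''
        {ξ : Fin n → ℂ | (fun j => Complex.exp (ξ j)) ∈
          {w : Fin n → ℂ | (∀ f ∈ Q, eval w f = 0) ∧ eval w S = 0}} := by
      rintro η ⟨h1, h2⟩
      refine ⟨fun j => x 0 j + η j, ⟨((hKm η).1 h1).2.1, (hBm η).1 h2⟩, ?_⟩
      funext j
      simp
    exact (hct.image _).mono h1
  obtain ⟨η, hη, hηt⟩ := surj_disc K B hK (fun η => ∑ j, (lam j : ℂ) * η j) hLc.continuousOn
    (hKBc.image _) ((hK.inter_right hBc).image hLc).isClosed m₀ (by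
      -- a good point near the centre
      have hcx : ∀ j, ContinuousAt (fun t => x t j) 0 := fun j => (hx j).continuousAt
      have hcx' : ContinuousAt (fun t => fun j => x t j - x 0 j) (0 : ℂ) := by
        rw [continuousAt_pi]
        exact fun j => (hcx j).sub continuousAt_const
      have h1 : ∀ᶠ t in 𝓝 (0 : ℂ), ‖fun j => x t j - x 0 j‖ ≤ ρ := by
        have h2 := hcx'.norm
        have h3 : ‖fun j => x 0 j - x 0 j‖ < ρ := by
          have : (fun j => x 0 j - x 0 j) = (0 : Fin n → ℂ) := by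
            funext j
            simp
          rw [this, norm_zero]
          exact hρ
        filter_upwards [h2.eventually_lt continuousAt_const h3] with t ht
        exact ht.le
      have h2 : ∀ᶠ t in 𝓝 (0 : ℂ), ‖∑ j, (lam j : ℂ) * (x t j - x 0 j)‖ < m₀ := by
        have h3 : ContinuousAt (fun t => ‖∑ j, (lam j : ℂ) * (x t j - x 0 j)‖) (0 : ℂ) := by
          refine ContinuousAt.norm ?_
          exact tendsto_finsetSum _ fun j _ =>
            (((hcx j).sub continuousAt_const).const_mul (lam j : ℂ)).tendsto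
        refine h3.eventually_lt continuousAt_const ?_
        simpa using hm₀
      have h3 : ∃ᶠ t in 𝓝 (0 : ℂ), ¬ eval (fun j => Complex.exp (x t j)) S = 0 := by
        intro h4
        apply hxn
        have h5 : AnalyticAt ℂ (fun t => ∑ j, (lam j : ℂ) * x t j) 0 :=
          Finset.analyticAt_fun_sum _ fun j _ => analyticAt_const.mul (hx j)
        rcases h5.eventually_constant_or_nhds_le_map_nhds with h6 | h6
        · exact h6
        exfalso
        have h7 : (fun (ξ : Fin n → ℂ) => ∑ j, (lam j : ℂ) * ξ j) ''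
            {ξ : Fin n → ℂ | (fun j => Complex.exp (ξ j)) ∈
              {w : Fin n → ℂ | (∀ f ∈ Q, eval w f = 0) ∧ eval w S = 0}} ∈
            𝓝 (∑ j, (lam j : ℂ) * x 0 j) := by
          refine h6 ?_
          rw [Filter.mem_map]
          filter_upwards [h4, hxQ] with t h8 h9
          rw [not_not] at h8
          exact ⟨fun j => x t j, ⟨h9.1, h8⟩, rfl⟩
        have h8 := (hct.image (fun (ξ : Fin n → ℂ) => ∑ j, (lam j : ℂ) * ξ j)).dense_compl ℝ
        obtain ⟨s, hs1, hs2⟩ := h8.inter_nhds_nonempty h7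
        exact hs1 hs2
      obtain ⟨t, ht1, ht2⟩ := (h3.and_eventually ((h1.and h2).and hxQ)).exists
      refine ⟨fun j => x t j - x 0 j, (hKm _).2 ⟨ht2.1.1, ?_⟩, ?_, ht2.1.2⟩
      · simpa using ht2.2
      · rw [hBm]
        simpa using ht1)
    (by
      intro η hη hηB hηm
      have hlt : ‖η‖ < ρ := by
        refine lt_of_le_of_ne ((hKm η).1 hη).1 fun h => ?_
        exact absurd (hm η h ((hKm η).1 hη).2) (not_le.2 hηm)
      obtain ⟨y, hy1, hy2, hy3, hy4⟩ := hdisc (fun j => x 0 j + η j) ((hKm η).1 hη).2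
        (fun h => hηB ((hBm η).2 h))
      refine ⟨fun t j => y t j - x 0 j, ?_, ?_, ?_, ?_⟩
      · funext j
        simp only [hy2]
        ring
      · have hcy : ContinuousAt (fun t => fun j => y t j - x 0 j) (0 : ℂ) := by
          rw [continuousAt_pi]
          exact fun j => (hy1 j).continuousAt.sub continuousAt_const
        have h2 : ‖fun j => y 0 j - x 0 j‖ < ρ := by
          have : (fun j => y 0 j - x 0 j) = η := by
            funext j
            rw [hy2]
            simp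
          rw [this]
          exact hlt
        filter_upwards [hcy.norm.eventually_lt continuousAt_const h2, hy3] with t h3 h4
        refine (hKm _).2 ⟨h3.le, ?_⟩
        simpa using h4
      · exact Finset.analyticAt_fun_sum _ fun j _ =>
          analyticAt_const.mul ((hy1 j).sub analyticAt_const)
      · intro h
        apply hy4
        filter_upwards [h] with t ht
        simp only [mul_sub, Finset.sum_sub_distrib] at ht
        exact sub_left_injective ht) t ht
  exact ⟨η, ((hKm η).1 hη).1, ((hKm η).1 hη).2, hηt⟩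


end Pool.Agent.EXG
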