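import Pool.Agent.EXI.CDefs
import Pool.Agent.EXP.Defs

/-!
# EXG / Defs: generic sheets of an irreducible subset of dimension `m + 1`
-/

set_option autoImplicit false

namespace Pool.Agent.EXG

open MvPolynomial Pool.Agent.EXI

/-- Evaluation of the coefficients at `u`. -/
noncomputable def sp (k : Subfield ℂ) {σ : Type} (u : σ → ℂ) : MvPolynomial σ k →+* ℂ :=
  (aeval u : MvPolynomial σ k →ₐ[k] ℂ).toRingHom

/-- `p(u, θ)` -/
noncomputable def evm {k : Subfield ℂ} {σ : Type} (p : Polynomial (MvPolynomial σ k)) (u : σ → ℂ)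
    (θ : ℂ) : ℂ :=
  (p.map (sp k u)).eval θ

/-- The points of the plane curve `p = 0` outside the finite set `S` of values of the first coordinate. -/
def crv (p : Polynomial (Polynomial ℂ)) (S : Finset ℂ) : Set (ℂ × ℂ) :=
  {q | q.1 ∉ S ∧ EXP.ev p q.1 q.2 = 0}

/-- The base coordinates `(x_1, .., x_m)` and `y_i` of the point `(x, y)`. -/
def bs {m : ℕ} (i : Fin (m + 1)) (x y : Fin (m + 1) → ℂ) : Option (Fin m) → ℂ :=
  cons (y i) (fun j => x j.succ)

/-- The specializations of `(a, b)` over `k`, as the points of a plane model over the base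
`(x_1, .., x_m, y_i)`. -/
structure Prim (k : Subfield ℂ) {m : ℕ} (a b : Fin (m + 1) → ℂ) (i : Fin (m + 1)) where
  M : Polynomial (MvPolynomial (Option (Fin m)) k)
  Q : MvPolynomial (Fin (m + 1) ⊕ Fin (m + 1)) k
  Dl : MvPolynomial (Option (Fin m)) k
  B : Fin (m + 1) ⊕ Fin (m + 1) → Polynomial (MvPolynomial (Option (Fin m)) k)
  monic : M.Monic
  ne : Dl ≠ 0
  sep : ∀ u : Option (Fin m) → ℂ, aeval u Dl ≠ 0 → (M.map (sp k u)).Separable
  root : ∀ x y : Fin (m + 1) → ℂ, Spec k (Sum.elim a b) (Sum.elim x y) →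
    evm M (bs i x y) (aeval (Sum.elim x y) Q) = 0
  coord : ∀ x y : Fin (m + 1) → ℂ, Spec k (Sum.elim a b) (Sum.elim x y) → ∀ q,
    aeval (bs i x y) Dl * Sum.elim x y q = evm (B q) (bs i x y) (aeval (Sum.elim x y) Q)
  spec : ∀ (u : Option (Fin m) → ℂ) (θ : ℂ), aeval u Dl ≠ 0 → evm M u θ = 0 →
    Spec k (Sum.elim a b) (fun q => evm (B q) u θ / aeval u Dl)
  ne_zero : ∀ (u : Option (Fin m) → ℂ) (θ : ℂ), aeval u Dl ≠ 0 → evm M u θ = 0 →
    ∀ j, evm (B (Sum.inr j)) u θ ≠ 0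
  Bz : B (Sum.inr i) = Polynomial.C (Dl * X none)
  Bx : ∀ j : Fin m, B (Sum.inl j.succ) = Polynomial.C (Dl * X (some j))

end Pool.Agent.EXG
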