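import Pool.Agent.EXP.Dens

/-!
# EXG / Densu: uniform density of the values of an irrational linear form (helper42)

PROOF.  Density: `dens` of `EXP` (helper6). Uniform on `|θ| ≤ K`: the finitely many centres `k ε / 2`, `|k| ≤ N`, are
`ε / 2`-dense in `[-K, K]`.
-/

set_option autoImplicit false

namespace Pool.Agent.EXG

theorem densu {n : ℕ} (hn : 2 ≤ n) (c : Fin n → ℝ)
    (hc : ∀ v : Fin n → ℤ, v ≠ 0 → ∑ j, c j * v j ≠ 0) (K ε : ℝ) (hε : 0 < ε) :
    ∃ L : ℕ, ∀ θ : ℝ, |θ| ≤ K → ∃ l : Fin n → ℤ, (∀ j, |l j| ≤ L) ∧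
      |∑ j, c j * (2 * Real.pi * l j) - θ| < ε := by
  have hc' : ∀ v : Fin n → ℤ, v ≠ 0 → ∑ j, (2 * Real.pi * c j) * v j ≠ 0 := by
    intro v hv h
    apply hc v hv
    have h1 : (2 * Real.pi) * ∑ j, c j * v j = 0 := by
      rw [Finset.mul_sum, ← h]
      exact Finset.sum_congr rfl fun j _ => by ring
    exact (mul_eq_zero.1 h1).resolve_left (by positivity)
  have hd : ∀ k : ℤ, ∃ l : Fin n → ℤ, |∑ j, (2 * Real.pi * c j) * l j - k * (ε / 2)| < ε / 2 :=
    fun k => EXP.dens hn _ hc' _ _ (half_pos hε)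
  choose l hl using hd
  obtain ⟨N, hN⟩ := exists_nat_ge (|K| * 2 / ε + 1)
  refine ⟨(Finset.Icc (-(N : ℤ)) N).sup fun k => Finset.univ.sup fun j => (l k j).natAbs,
    fun θ hθ => ?_⟩
  set k : ℤ := round (θ / (ε / 2)) with hk
  have h1 : |θ / (ε / 2) - k| ≤ 1 / 2 := abs_sub_round _
  have h2 : |θ - k * (ε / 2)| ≤ ε / 4 := by
    have e : θ - k * (ε / 2) = (θ / (ε / 2) - k) * (ε / 2) := by
      field_simp
    rw [e, abs_mul, abs_of_pos (half_pos hε)]
    nlinarith [half_pos hε]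
  have h3 : |(k : ℝ)| ≤ N := by
    have h4 : |(k : ℝ)| ≤ |θ / (ε / 2)| + 1 / 2 := by
      have h5 : (k : ℝ) = θ / (ε / 2) - (θ / (ε / 2) - k) := by ring
      rw [h5]
      exact (abs_sub _ _).trans (by linarith)
    have h6 : |θ / (ε / 2)| ≤ |K| * 2 / ε := by
      rw [abs_div, abs_of_pos (half_pos hε), div_le_div_iff₀ (half_pos hε) hε]
      have : |θ| ≤ |K| := hθ.trans (le_abs_self K)
      nlinarith
    linarith
  have h7 : k ∈ Finset.Icc (-(N : ℤ)) N := by
    rw [Finset.mem_Icc]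
    have h8 := abs_le.1 h3
    constructor
    · exact_mod_cast h8.1
    · exact_mod_cast h8.2
  refine ⟨l k, fun j => ?_, ?_⟩
  · have h9 : (l k j).natAbs ≤ (Finset.Icc (-(N : ℤ)) N).sup fun k =>
        Finset.univ.sup fun j => (l k j).natAbs := by
      refine le_trans ?_ (Finset.le_sup (f := fun k => Finset.univ.sup fun j => (l k j).natAbs) h7)
      exact Finset.le_sup (f := fun j => (l k j).natAbs) (Finset.mem_univ j)
    rw [Int.abs_eq_natAbs]
    exact_mod_cast h9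
  · have h10 : ∑ j, c j * (2 * Real.pi * l k j) - θ =
        (∑ j, (2 * Real.pi * c j) * l k j - k * (ε / 2)) - (θ - k * (ε / 2)) := by
      have : ∑ j, c j * (2 * Real.pi * l k j) = ∑ j, (2 * Real.pi * c j) * l k j :=
        Finset.sum_congr rfl fun j _ => by ring
      rw [this]
      ring
    rw [h10]
    refine (abs_sub _ _).trans_lt ?_
    linarith [hl k]

end Pool.Agent.EXG
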