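import Pool.Agent.EXP.Elim

/-!
# EXG / Gz: generic zeros of a hypersurface

PROOF.  `F` is irreducible (its multiples are the kernel of `aeval a`, a prime ideal) and has positive degree in `X 0` (`ha`, `F(a) = 0`).
If `f(x) = 0` and `F` does not divide `f`: the resultant with respect to `X 0` is not zero (`res_ne` of `EXP/Elim`) and vanishes at `x'`:
against `hx'`.
-/

set_option autoImplicit false

namespace Pool.Agent.EXG

open MvPolynomial

/-- evaluation through `finSuccEquiv` -/
theorem gz_eval (k : Subfield ℂ) {m : ℕ} (x : Fin (m + 1) → ℂ) (P : MvPolynomial (Fin (m + 1)) k) :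
    (finSuccEquiv k m P).eval₂
      ((aeval fun j : Fin m => x j.succ : MvPolynomial (Fin m) k →ₐ[k] ℂ) :
        MvPolynomial (Fin m) k →+* ℂ) (x 0) = aeval x P := by
  have h : (Polynomial.eval₂RingHom
      ((aeval fun j : Fin m => x j.succ : MvPolynomial (Fin m) k →ₐ[k] ℂ) :
        MvPolynomial (Fin m) k →+* ℂ) (x 0)).comp
      (finSuccEquiv k m : MvPolynomial (Fin (m + 1)) k →+* Polynomial (MvPolynomial (Fin m) k)) =
      ((aeval x : MvPolynomial (Fin (m + 1)) k →ₐ[k] ℂ) : MvPolynomial (Fin (m + 1)) k →+* ℂ) := by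
    refine MvPolynomial.ringHom_ext ?_ ?_
    · intro c
      simp [finSuccEquiv_apply]
    · intro j
      refine Fin.cases ?_ (fun j => ?_) j
      · simp [finSuccEquiv_X_zero]
      · simp [finSuccEquiv_X_succ]
  exact congrArg (fun φ => φ P) h

theorem gen_zero (k : Subfield ℂ) {m : ℕ} (F : MvPolynomial (Fin (m + 1)) k) (hF0 : F ≠ 0)
    (a : Fin (m + 1) → ℂ) (hF : ∀ f : MvPolynomial (Fin (m + 1)) k, aeval a f = 0 ↔ F ∣ f)
    (ha : AlgebraicIndependent k (fun j : Fin m => a j.succ))
    (x : Fin (m + 1) → ℂ) (hx' : AlgebraicIndependent k (fun j : Fin m => x j.succ))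
    (hx : aeval x F = 0) (f : MvPolynomial (Fin (m + 1)) k) : aeval x f = 0 ↔ F ∣ f := by
  have hirr : Irreducible F := by
    refine Prime.irreducible ⟨hF0, ?_, ?_⟩
    · intro hu
      have h1 : F ∣ 1 := hu.dvd
      have h2 := (hF 1).2 h1
      rw [map_one] at h2
      exact one_ne_zero h2
    · intro p q hpq
      have h1 := (hF _).2 hpq
      rw [map_mul] at h1
      rcases mul_eq_zero.1 h1 with h2 | h2
      · exact Or.inl ((hF p).1 h2)
      · exact Or.inr ((hF q).1 h2)
  have hdeg : (finSuccEquiv k m F).natDegree ≠ 0 := by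
    intro h0
    obtain ⟨c, hc⟩ := Polynomial.natDegree_eq_zero.1 h0
    have h1 : aeval a F = 0 := (hF F).2 dvd_rfl
    rw [← gz_eval, ← hc, Polynomial.eval₂_C] at h1
    have h2 : c = 0 := (algebraicIndependent_iff.1 ha) c h1
    rw [h2, map_zero] at hc
    exact hF0 ((map_eq_zero_iff (finSuccEquiv k m) (finSuccEquiv k m).injective).1 hc.symm)
  constructor
  · intro hf
    by_contra hnd
    have h1 : Polynomial.resultant (finSuccEquiv k m F) (finSuccEquiv k m f) ≠ 0 := by
      refine EXP.res_ne ((MulEquiv.irreducible_iff (finSuccEquiv k m)).2 hirr) hdeg ?_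
      intro h2
      exact hnd ((map_dvd_iff (finSuccEquiv k m)).1 h2)
    obtain ⟨p, q, -, -, hpq⟩ := Polynomial.exists_mul_add_mul_eq_C_resultant
      (finSuccEquiv k m F) (finSuccEquiv k m f) le_rfl le_rfl (Or.inl hdeg)
    have h3 := congrArg (fun P => Polynomial.eval₂
      ((aeval fun j : Fin m => x j.succ : MvPolynomial (Fin m) k →ₐ[k] ℂ) :
        MvPolynomial (Fin m) k →+* ℂ) (x 0) P) hpq
    simp only [Polynomial.eval₂_add, Polynomial.eval₂_mul, Polynomial.eval₂_C] at h3
    rw [gz_eval, gz_eval, hx, hf, zero_mul, zero_mul, add_zero] at h3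
    exact h1 ((algebraicIndependent_iff.1 hx') _ h3.symm)
  · rintro ⟨g, rfl⟩
    rw [map_mul, hx, zero_mul]

end Pool.Agent.EXG
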