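import Mathlib

/-!
# EXG / Rd: the gradient at the real zero

PROOF.  `f(β) = 0 ↔ G ∣ f` for `f` over `k`, and `G ∣ conj G` over `ℂ` (`hconj`): `conj G = u G`, `u` a constant, so for the
values `g_j = ∂_j G(β)` we have `conj g_j = u g_j` and `g_j conj(g_0) = c_j` is real.
`∂_j L(β) = R(β) ∂_j G(β) = (R(β) / conj g_0) c_j` (`G(β) = 0`), `R(β) ≠ 0` because `G ∤ R`. Independence: if
`∑ c_j v_j = 0`, `v ≠ 0` integer, then `D = ∑ v_j ∂_j G` vanishes at `β`, so `G ∣ D`, homogeneous of degree `r - 1` (`< r`), so `D = 0`,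
so `v` is a period of `G` (`t ↦ G(x + t v)` has derivative `0`): against `hper`. So all `c_j ≠ 0`, in particular
`∂_0 G(β) ≠ 0`, so `G` really contains `X 0`, and `β_1, .., β_m` are independent over `k`: if `f(β') = 0`, `f` without
`X 0`, then `G ∣ f` so `f = 0` by the degree in `X 0`. (`I ∈ k`: multiplication of the elements by `I` keeps independence.)
-/

set_option autoImplicit false

namespace Pool.Agent.EXG

open MvPolynomial

private theorem rd_chain {n : ℕ} (U : Fin n → Polynomial ℂ) (P : MvPolynomial (Fin n) ℂ) :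
    Polynomial.derivative (aeval U P) =
      ∑ l, Polynomial.derivative (U l) * aeval U (pderiv l P) := by
  induction P using MvPolynomial.induction_on with
  | C a =>
    rw [aeval_C]
    simp only [pderiv_C, map_zero, mul_zero, Finset.sum_const_zero]
    exact Polynomial.derivative_C
  | add P Q hP hQ =>
    rw [map_add, map_add, hP, hQ, ← Finset.sum_add_distrib]
    refine Finset.sum_congr rfl fun l _ => ?_
    rw [map_add, map_add, mul_add]
  | mul_X P i hP =>
    rw [map_mul, aeval_X, Polynomial.derivative_mul, hP]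
    have e : ∀ l, Polynomial.derivative (U l) * aeval U (pderiv l (P * X i)) =
        Polynomial.derivative (U l) * aeval U (pderiv l P) * U i +
          (if i = l then aeval U P * Polynomial.derivative (U i) else 0) := by
      intro l
      rw [Derivation.leibniz, pderiv_X]
      by_cases hl : i = l
      · subst hl
        rw [if_pos rfl]
        simp only [Pi.single_eq_same, smul_eq_mul, map_add, map_mul, aeval_X, mul_one]
        ring
      · rw [if_neg hl, Pi.single_eq_of_ne hl]
        simp only [smul_eq_mul, mul_zero, zero_add, map_mul, aeval_X, add_zero]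
        ring
    simp only [e, Finset.sum_add_distrib]
    rw [Finset.sum_ite_eq Finset.univ i, if_pos (Finset.mem_univ i), Finset.sum_mul]

private theorem rd_period {n : ℕ} (P : MvPolynomial (Fin n) ℂ) (v : Fin n → ℂ)
    (h : ∑ j, C (v j) * pderiv j P = 0) (x : Fin n → ℂ) :
    eval (fun j => x j + v j) P = eval x P := by
  let U : Fin n → Polynomial ℂ := fun j => Polynomial.C (x j) + Polynomial.C (v j) * Polynomial.X
  have h1 : Polynomial.derivative (aeval U P) = 0 := by
    rw [rd_chain]
    have h0 : ∀ l, Polynomial.derivative (U l) = Polynomial.C (v l) := by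
      intro l; simp [U]
    simp only [h0]
    have h2 := congrArg (aeval U) h
    rw [map_sum, map_zero] at h2
    rw [← h2]
    refine Finset.sum_congr rfl fun l _ => ?_
    rw [map_mul, aeval_C]
    rfl
  have h3 : aeval U P = Polynomial.C ((aeval U P).coeff 0) :=
    Polynomial.eq_C_of_derivative_eq_zero h1
  have h4 : ∀ t : ℂ, Polynomial.eval t (aeval U P) = eval (fun j => x j + v j * t) P := by
    intro t
    have h0 : (Polynomial.evalRingHom t).comp (aeval U).toRingHom =
        eval (fun j => x j + v j * t) := by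
      refine MvPolynomial.ringHom_ext (fun r => ?_) fun i => ?_
      · simp
      · simp [U]
    exact RingHom.congr_fun h0 P
  have h5 := h4 1
  have h6 := h4 0
  rw [h3, Polynomial.eval_C] at h5 h6
  simp only [mul_one, mul_zero, add_zero] at h5 h6
  rw [← h5, h6]

theorem grad (k : Subfield ℂ) (hI : Complex.I ∈ k) {m : ℕ}
    (G R : MvPolynomial (Fin (m + 1)) k) (r : ℕ) (hG : G.IsHomogeneous r)
    (hirr : Irreducible (map (algebraMap k ℂ) G)) (hR : ¬ G ∣ R)
    (hper : ∀ v : Fin (m + 1) → ℤ, v ≠ 0 → ∃ x : Fin (m + 1) → ℂ,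
      eval (fun j => x j + v j) (map (algebraMap k ℂ) G) ≠ eval x (map (algebraMap k ℂ) G))
    (hconj : map (algebraMap k ℂ) G ∣ map (starRingEnd ℂ) (map (algebraMap k ℂ) G))
    (β : Fin (m + 1) → ℝ)
    (hβ : ∀ f : MvPolynomial (Fin (m + 1)) k, aeval (fun j => (β j : ℂ)) f = 0 ↔ G ∣ f) :
    ∃ (c : Fin (m + 1) → ℝ) (μ : ℂ), μ ≠ 0 ∧
      (∀ v : Fin (m + 1) → ℤ, v ≠ 0 → ∑ j, c j * v j ≠ 0) ∧
      (∀ j, aeval (fun j => (β j : ℂ)) (pderiv j (G * R)) = μ * (c j : ℂ)) ∧
      AlgebraicIndependent k (fun j : Fin m => Complex.I * (β j.succ : ℂ)) := by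
  classical
  set b : Fin (m + 1) → ℂ := fun j => (β j : ℂ) with hb
  set Gc := map (algebraMap k ℂ) G with hGc
  have hev : ∀ f : MvPolynomial (Fin (m + 1)) k, aeval b f = eval b (map (algebraMap k ℂ) f) := by
    intro f
    rw [aeval_def, eval₂_eq_eval_map]
  have hG0 : G ≠ 0 := by
    rintro rfl
    exact hirr.ne_zero (by rw [hGc, map_zero])
  have hGβ : aeval b G = 0 := (hβ G).2 dvd_rfl
  have hRβ : aeval b R ≠ 0 := fun h => hR ((hβ R).1 h)
  set g : Fin (m + 1) → ℂ := fun j => aeval b (pderiv j G) with hg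
  -- independence over the integers
  have hind : ∀ v : Fin (m + 1) → ℤ, v ≠ 0 → ∑ j, g j * v j ≠ 0 := by
    intro v hv h0
    set D : MvPolynomial (Fin (m + 1)) k := ∑ j, C ((v j : ℤ) : k) * pderiv j G with hD
    have h1 : aeval b D = 0 := by
      rw [hD, map_sum, ← h0]
      refine Finset.sum_congr rfl fun j _ => ?_
      rw [map_mul, aeval_C, map_intCast, mul_comm]
    have h2 : G ∣ D := (hβ D).1 h1
    have h3 : D = 0 := by
      by_contra hD0
      by_cases hr : r = 0
      · subst hr
        apply hD0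
        rw [← totalDegree_zero_iff_isHomogeneous, totalDegree_eq_zero_iff_eq_C] at hG
        rw [hD]
        refine Finset.sum_eq_zero fun j _ => ?_
        rw [hG, pderiv_C, mul_zero]
      · have h4 : D.IsHomogeneous (r - 1) := by
          rw [hD]
          refine IsHomogeneous.sum _ _ _ fun j _ => ?_
          have := (isHomogeneous_C (Fin (m + 1)) ((v j : ℤ) : k)).mul (hG.pderiv (i := j))
          rwa [zero_add] at this
        have h5 := totalDegree_le_of_dvd_of_isDomain h2 hD0
        rw [hG.totalDegree hG0, h4.totalDegree hD0] at h5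
        omega
    have h4 : ∑ j, C ((v j : ℤ) : ℂ) * pderiv j Gc = 0 := by
      have h5 := congrArg (map (algebraMap k ℂ)) h3
      rw [hD, map_sum, map_zero] at h5
      rw [← h5]
      refine Finset.sum_congr rfl fun j _ => ?_
      rw [map_mul, hGc, pderiv_map]
      congr 1
      simp
    obtain ⟨x, hx⟩ := hper v hv
    exact hx (rd_period Gc (fun j => ((v j : ℤ) : ℂ)) h4 x)
  have hg0 : g 0 ≠ 0 := by
    have h1 := hind (Pi.single 0 1) (by
      intro h
      have := congrFun h 0
      simp at this)
    rw [Finset.sum_eq_single 0] at h1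
    · simpa using h1
    · intro j _ hj
      rw [Pi.single_eq_of_ne hj]
      simp
    · intro h; exact absurd (Finset.mem_univ _) h
  -- the conjugate
  obtain ⟨q, hq⟩ := hconj
  have hGc0 : Gc ≠ 0 := hirr.ne_zero
  have hq0 : q ≠ 0 := by
    rintro rfl
    rw [mul_zero] at hq
    have : Function.Injective (map (σ := Fin (m + 1)) (starRingEnd ℂ)) :=
      map_injective _ (starRingEnd ℂ).injective
    exact hGc0 (this (by rw [hq, map_zero]))
  have hqC : ∃ u : ℂ, q = C u := by
    have h1 : (map (starRingEnd ℂ) Gc).IsHomogeneous r := (hG.map _).map _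
    have h1' : Gc.IsHomogeneous r := hG.map _
    have h2 : (map (starRingEnd ℂ) Gc) ≠ 0 := by
      rw [hq]; exact mul_ne_zero hGc0 hq0
    have h3 := totalDegree_mul_of_isDomain hGc0 hq0
    rw [← hq, h1.totalDegree h2, h1'.totalDegree hGc0] at h3
    exact ⟨_, totalDegree_eq_zero_iff_eq_C.1 (by omega)⟩
  obtain ⟨u, rfl⟩ := hqC
  have hgc : ∀ j, g j = eval b (pderiv j Gc) := by
    intro j
    rw [hg, hGc, pderiv_map]
    exact hev _
  have hstar : ∀ j, (starRingEnd ℂ) (g j) = u * g j := by
    intro j
    have h1 : (starRingEnd ℂ).comp (eval b) = (eval b).comp (map (starRingEnd ℂ)) := by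
      refine MvPolynomial.ringHom_ext (fun r => ?_) fun i => ?_
      · simp
      · simp [hb]
    have h2 := RingHom.congr_fun h1 (pderiv j Gc)
    simp only [RingHom.comp_apply] at h2
    rw [hgc j, h2, ← pderiv_map, hq, Derivation.leibniz, pderiv_C, smul_zero, zero_add,
      smul_eq_mul, map_mul, eval_C]
  have hstar0 : (starRingEnd ℂ) (g 0) ≠ 0 := by
    intro h
    exact hg0 ((map_eq_zero (starRingEnd ℂ)).1 h)
  have hreal : ∀ j, ((g j * (starRingEnd ℂ) (g 0)).re : ℂ) = g j * (starRingEnd ℂ) (g 0) := by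
    intro j
    rw [← Complex.conj_eq_iff_re, map_mul, Complex.conj_conj, hstar j, hstar 0]
    ring
  refine ⟨fun j => (g j * (starRingEnd ℂ) (g 0)).re, aeval b R / (starRingEnd ℂ) (g 0),
    div_ne_zero hRβ hstar0, ?_, ?_, ?_⟩
  · intro v hv h0
    have h1 : ((∑ j, (g j * (starRingEnd ℂ) (g 0)).re * (v j : ℝ) : ℝ) : ℂ) =
        (starRingEnd ℂ) (g 0) * ∑ j, g j * v j := by
      rw [Complex.ofReal_sum, Finset.mul_sum]
      refine Finset.sum_congr rfl fun j _ => ?_
      rw [Complex.ofReal_mul, hreal j, Complex.ofReal_intCast]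
      ring
    rw [h0, Complex.ofReal_zero] at h1
    exact mul_ne_zero hstar0 (hind v hv) h1.symm
  · intro j
    rw [hreal j, Derivation.leibniz, map_add, smul_eq_mul, smul_eq_mul, map_mul, map_mul, hGβ,
      zero_mul, zero_add]
    show aeval b R * g j = _
    field_simp
  · rw [algebraicIndependent_iff]
    intro p hp
    let ι : k := ⟨Complex.I, hI⟩
    have hι : ι ≠ 0 := by
      intro h
      exact Complex.I_ne_zero (congrArg Subtype.val h)
    let ψ : MvPolynomial (Fin m) k →ₐ[k] MvPolynomial (Fin (m + 1)) k :=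
      (rename Fin.succ).comp (aeval fun j => C ι * X j)
    let χ : MvPolynomial (Fin (m + 1)) k →ₐ[k] MvPolynomial (Fin m) k :=
      aeval (Fin.cases 0 fun j => C ι⁻¹ * X j)
    have hχ : χ.comp ψ = AlgHom.id k _ := by
      refine MvPolynomial.algHom_ext fun j => ?_
      simp only [ψ, χ, AlgHom.comp_apply, aeval_X, map_mul, rename_C, rename_X, aeval_C,
        Fin.cases_succ, AlgHom.id_apply, algebraMap_eq]
      rw [← mul_assoc, ← C_mul, mul_inv_cancel₀ hι, C_1, one_mul]
    have h1 : aeval b (ψ p) = aeval (fun j : Fin m => Complex.I * (β j.succ : ℂ)) p := by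
      have h2 : (aeval b).comp ψ = aeval (R := k) (fun j : Fin m => Complex.I * (β j.succ : ℂ)) := by
        refine MvPolynomial.algHom_ext fun j => ?_
        simp only [ψ, AlgHom.comp_apply, aeval_X, map_mul, rename_C, rename_X, aeval_C]
        rfl
      exact AlgHom.congr_fun h2 p
    have h2 : G ∣ ψ p := (hβ _).1 (by rw [h1, hp])
    have h3 : ψ p = 0 := by
      by_contra h0
      obtain ⟨q, hq'⟩ := h2
      have hq0' : q ≠ 0 := by
        rintro rfl
        exact h0 (by rw [hq', mul_zero])
      have h4 := degreeOf_mul_eq (n := (0 : Fin (m + 1))) hG0 hq0'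
      have h5 : degreeOf 0 (ψ p) = 0 := by
        by_contra h6
        have h7 : (0 : Fin (m + 1)) ∈ (ψ p).vars := by
          rw [vars_def, Multiset.mem_toFinset, ← Multiset.count_ne_zero]
          rwa [degreeOf_def] at h6
        have h8 := vars_rename Fin.succ ((aeval fun j => C ι * X j) p) h7
        obtain ⟨j, _, hj⟩ := Finset.mem_image.1 h8
        exact Fin.succ_ne_zero j hj
      have h6 : degreeOf 0 G ≠ 0 := by
        intro h7
        apply hg0
        show aeval b (pderiv 0 G) = 0
        rw [pderiv_eq_zero_of_notMem_vars, map_zero]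
        intro h8
        rw [vars_def, Multiset.mem_toFinset, ← Multiset.count_ne_zero, ← degreeOf_def] at h8
        exact h8 h7
      rw [← hq', h5] at h4
      omega
    have h4 := AlgHom.congr_fun hχ p
    rw [AlgHom.comp_apply, h3, map_zero] at h4
    exact h4.symm

end Pool.Agent.EXG
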