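import Pool.Agent.EXK.KFin
import Pool.Agent.EXK.KRe
import Pool.Agent.EXI.CTd

/-!
# EXG / Rz: a generic real zero

`L = G R`; `¬ NonHypC L v`: on every real line in the direction `v` either `L` vanishes identically or
all zeros of `L` are real. Take `y` real with algebraically independent coordinates over `k`; `L(y) ≠ 0`.
`G(y + ρ v)` as a polynomial in `ρ` is not constant, otherwise `v` is a period of `G`. So it has a
root `ρ₀`, a zero of `L(y + ρ v)`, so real. `β = y + ρ₀ v` has transcendence degree at least `n - 1`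
and is a specialization of the generic point of `G = 0`.
-/

set_option autoImplicit false

namespace Pool.Agent.EXG

open MvPolynomial Pool.Agent.EXL Pool.Agent.EXI Pool.Agent.EXK

private lemma rz_range_am (K : Subfield ℂ) : Set.range (algebraMap K ℂ) = (K : Set ℂ) := by
  ext x
  constructor
  · rintro ⟨c, rfl⟩
    exact c.2
  · intro hx
    exact ⟨⟨x, hx⟩, rfl⟩

private lemma rz_aeval_eq (k : Subfield ℂ) {ι : Type} (x : ι → ℂ) (f : MvPolynomial ι k) :
    aeval x f = eval x (map (algebraMap k ℂ) f) := by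
  rw [eval_map, aeval_def]

private lemma rz_der_I (D : Derivation ℤ ℂ ℂ) : D Complex.I = 0 := by
  have h : D (Complex.I * Complex.I) = 0 := by
    rw [Complex.I_mul_I, map_neg, D.map_one_eq_zero, neg_zero]
  rw [Derivation.leibniz, smul_eq_mul, ← two_mul, ← mul_assoc] at h
  exact (mul_eq_zero.1 h).resolve_left (mul_ne_zero two_ne_zero Complex.I_ne_zero)

private lemma rz_der_int (D : Derivation ℤ ℂ ℂ) (m : ℤ) : D (m : ℂ) = 0 := by
  have := D.map_algebraMap m
  simp

private lemma rz_real_ind (k : Subfield ℂ) (hk : (k : Set ℂ).Countable) (n : ℕ) :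
    ∃ y : Fin n → ℝ, AlgebraicIndependent k (fun j => (y j : ℂ)) := by
  obtain ⟨y, -, hy⟩ := exists_ind_near k hk (fun _ : Fin n => (0 : ℝ)) 1 one_pos
  refine ⟨y, ?_⟩
  rw [ind_iff] at hy ⊢
  refine le_antisymm ?_ ?_
  · have := rk_le_card (DerOver (k : Set ℂ)) (fun j => (y j : ℂ))
    rwa [Fintype.card_fin] at this
  · calc n = td (k : Set ℂ) (fun j => Complex.I * (y j : ℂ)) := hy.symm
      _ ≤ td (k : Set ℂ) (fun j => (y j : ℂ)) := by
        refine rk_le_of_dep _ _ _ ?_
        intro D _ h j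
        rw [Derivation.leibniz, h j, rz_der_I, smul_zero, smul_zero, add_zero]

private lemma rz_irr (k : Subfield ℂ) {n : ℕ} (G : MvPolynomial (Fin n) k)
    (hirr : Irreducible (map (algebraMap k ℂ) G)) : Irreducible G := by
  have hloc : IsLocalHom (map (algebraMap k ℂ) : MvPolynomial (Fin n) k →+* _) := by
    constructor
    intro f hf
    rw [isUnit_iff_eq_C_of_isReduced] at hf ⊢
    obtain ⟨c, hc, hfc⟩ := hf
    have hcoeff : ∀ m, m ≠ 0 → coeff m f = 0 := by
      intro m hm
      have h1 : coeff m (map (algebraMap k ℂ) f) = 0 := by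
        rw [hfc, coeff_C, if_neg (Ne.symm hm)]
      rw [coeff_map] at h1
      exact (map_eq_zero _).1 h1
    refine ⟨coeff 0 f, ?_, ?_⟩
    · rw [isUnit_iff_ne_zero]
      intro h0
      have h1 : coeff 0 (map (algebraMap k ℂ) f) = 0 := by rw [coeff_map, h0, map_zero]
      rw [hfc, coeff_C, if_pos rfl] at h1
      exact hc.ne_zero h1
    · ext m
      rw [coeff_C]
      split_ifs with h
      · rw [← h]
      · rw [hcoeff m (Ne.symm h)]
  exact Irreducible.of_map hirr

private lemma rz_gen (K : Type) [Field K] (A : Type) [CommRing A] [Algebra K A] (I : Ideal A)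
    [hI : I.IsPrime] :
    ∃ (E : Type) (_ : Field E) (_ : Algebra K E) (ψ : A →ₐ[K] E), ∀ a, ψ a = 0 ↔ a ∈ I := by
  refine ⟨FractionRing (A ⧸ I), inferInstance, inferInstance,
    (IsScalarTower.toAlgHom K (A ⧸ I) (FractionRing (A ⧸ I))).comp (Ideal.Quotient.mkₐ K I),
    fun a => ?_⟩
  have h : Function.Injective (algebraMap (A ⧸ I) (FractionRing (A ⧸ I))) :=
    IsFractionRing.injective _ _
  have h2 := map_eq_zero_iff _ h (x := Ideal.Quotient.mk I a)
  rw [Ideal.Quotient.eq_zero_iff_mem] at h2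
  exact h2

private lemma rz_generic (k : Subfield ℂ) {n : ℕ} (G : MvPolynomial (Fin n) k) (hG : Prime G) :
    ∃ (E : Type) (_ : Field E) (_ : CharZero E) (_ : Algebra k E) (x : Fin n → E),
      ∀ f : MvPolynomial (Fin n) k, aeval x f = 0 ↔ G ∣ f := by
  have hpr : (Ideal.span ({G} : Set (MvPolynomial (Fin n) k))).IsPrime :=
    (Ideal.span_singleton_prime hG.ne_zero).2 hG
  obtain ⟨E, _, _, ψ, hψ⟩ := rz_gen k (MvPolynomial (Fin n) k) (Ideal.span {G})
  refine ⟨E, inferInstance, charZero_of_injective_algebraMap (algebraMap k E).injective,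
    inferInstance, fun j => ψ (X j), fun f => ?_⟩
  have h2 : (aeval (fun j => ψ (X j)) : MvPolynomial (Fin n) k →ₐ[k] E) = ψ := by
    apply MvPolynomial.algHom_ext
    intro j
    rw [aeval_X]
  rw [h2, hψ]
  exact Ideal.mem_span_singleton

theorem exists_real_zero (k : Subfield ℂ) (hk : (k : Set ℂ).Countable) {n : ℕ}
    (G R : MvPolynomial (Fin n) k) (r : ℕ) (hG : G.IsHomogeneous r)
    (hirr : Irreducible (map (algebraMap k ℂ) G)) (hR : R ≠ 0)
    (v : Fin n → ℤ) (hper : ∃ x : Fin n → ℂ, eval (fun j => x j + v j) (map (algebraMap k ℂ) G) ≠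
      eval x (map (algebraMap k ℂ) G))
    (hv : ¬ NonHypC (map (algebraMap k ℂ) (G * R)) v) :
    ∃ β : Fin n → ℝ, ∀ f : MvPolynomial (Fin n) k, aeval (fun j => (β j : ℂ)) f = 0 ↔ G ∣ f := by
  have hGirr : Irreducible G := rz_irr k G hirr
  have hG0 : G ≠ 0 := hGirr.ne_zero
  obtain ⟨y, hy⟩ := rz_real_ind k hk n
  have hinj : ∀ f : MvPolynomial (Fin n) k, aeval (fun j => (y j : ℂ)) f = 0 → f = 0 :=
    fun f hf => (algebraicIndependent_iff.1 hy) f hf
  -- the line
  set p : Polynomial ℂ :=
    aeval (fun j => Polynomial.C (y j : ℂ) + Polynomial.X * Polynomial.C (v j : ℂ)) G with hp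
  have hev : ∀ ρ : ℂ, p.eval ρ = aeval (fun j => (y j : ℂ) + ρ * v j) G := by
    intro ρ
    rw [hp, ← Polynomial.coe_evalRingHom, MvPolynomial.map_aeval, aeval_def]
    have h1 : (Polynomial.evalRingHom ρ).comp (algebraMap k (Polynomial ℂ)) = algebraMap k ℂ := by
      ext x
      simp [Polynomial.algebraMap_apply]
    rw [h1]
    simp only [Polynomial.coe_evalRingHom, Polynomial.eval_add, Polynomial.eval_C,
      Polynomial.eval_mul, Polynomial.eval_X]
    rfl
  have hdeg : p.degree ≠ 0 := by
    intro h0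
    have hc := Polynomial.eq_C_of_degree_eq_zero h0
    have h1 : p.eval 1 = p.eval 0 := by
      rw [hc]; simp
    rw [hev, hev] at h1
    have h2 : (aeval (fun j => X j + C ((v j : ℤ) : k)) G : MvPolynomial (Fin n) k) - G = 0 := by
      apply hinj
      rw [map_sub, ← AlgHom.comp_apply, MvPolynomial.comp_aeval]
      have e1 : (fun j => (aeval fun j => (y j : ℂ)) (X j + C ((v j : ℤ) : k) :
          MvPolynomial (Fin n) k)) = fun j => (y j : ℂ) + 1 * (v j : ℂ) := by
        funext j
        rw [map_add, aeval_X, algHom_C, map_intCast, one_mul]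
      rw [e1, h1]
      have e2 : (fun j => (y j : ℂ) + 0 * (v j : ℂ)) = fun j => (y j : ℂ) := by
        funext j
        rw [zero_mul, add_zero]
      rw [e2, sub_self]
    obtain ⟨x, hx⟩ := hper
    apply hx
    rw [← rz_aeval_eq, ← rz_aeval_eq]
    have h3 := congrArg (aeval x : MvPolynomial (Fin n) k →ₐ[k] ℂ) h2
    rw [map_sub, map_zero, ← AlgHom.comp_apply, MvPolynomial.comp_aeval, sub_eq_zero] at h3
    rw [← h3]
    congr 2
    funext j
    rw [map_add, aeval_X, algHom_C, map_intCast]
  obtain ⟨ρ, hρ⟩ := IsAlgClosed.exists_root p hdeg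
  have hρG : aeval (fun j => (y j : ℂ) + ρ * v j) G = 0 := by
    rw [← hev]; exact hρ
  have hreal : ρ.im = 0 := by
    by_contra hne
    apply hv
    refine ⟨y, ρ, 0, hne, ?_, ?_⟩
    · rw [← rz_aeval_eq, map_mul, hρG, zero_mul]
    · rw [← rz_aeval_eq]
      have e2 : (fun j => (y j : ℂ) + 0 * (v j : ℂ)) = fun j => (y j : ℂ) := by
        funext j
        rw [zero_mul, add_zero]
      rw [e2]
      intro h0
      exact mul_ne_zero hG0 hR (hinj _ h0)
  have hρ' : ρ = (ρ.re : ℂ) := by
    apply Complex.ext <;> simp [hreal]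
  refine ⟨fun j => y j + ρ.re * v j, ?_⟩
  have hβ : (fun j => (((y j + ρ.re * v j : ℝ)) : ℂ)) = fun j => (y j : ℂ) + ρ * v j := by
    funext j
    push_cast
    rw [← hρ']
  rw [hβ]
  set b : Fin n → ℂ := fun j => (y j : ℂ) + ρ * v j with hb
  -- transcendence degree
  have htd : n ≤ td (k : Set ℂ) b + 1 := by
    calc n = td (k : Set ℂ) (fun j => (y j : ℂ)) := ((ind_iff k _).1 hy).symm
      _ ≤ td (k : Set ℂ) (Sum.elim b (fun _ : Fin 1 => ρ)) := by
        refine rk_le_of_dep _ _ _ ?_
        intro D _ h j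
        have h1 : D (b j) = 0 := h (Sum.inl j)
        have h2 : D ρ = 0 := h (Sum.inr 0)
        rw [hb] at h1
        simp only [map_add, Derivation.leibniz, h2, rz_der_int, smul_zero, add_zero] at h1
        exact h1
      _ = td (k : Set ℂ) b + td ((k : Set ℂ) ∪ Set.range b) (fun _ : Fin 1 => ρ) := td_sum _ _ _
      _ ≤ _ := by
        have := rk_le_card (DerOver ((k : Set ℂ) ∪ Set.range b)) (fun _ : Fin 1 => ρ)
        rw [Fintype.card_fin] at this
        exact Nat.add_le_add_left this _
  -- the generic point of the hypersurface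
  obtain ⟨E, _, _, _, x, hx⟩ := rz_generic k G hGirr.prime
  intro f
  constructor
  · intro hf
    rw [← hx]
    refine generic_of_td_le (k := k) x b ?_ ?_ f hf
    · intro g hg
      obtain ⟨q, rfl⟩ := (hx g).1 hg
      rw [map_mul, hρG, zero_mul]
    · rw [rz_range_am]
      have h1 : td (Set.range (algebraMap k E)) x ≤ n := by
        have := rk_le_card (DerOver (Set.range (algebraMap k E))) x
        rwa [Fintype.card_fin] at this
      have h2 : td (Set.range (algebraMap k E)) x ≠ n := by
        intro h3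
        have h4 : AlgebraicIndependent k x := by
          rw [algInd_iff, h3, Fintype.card_fin]
        exact hG0 ((algebraicIndependent_iff.1 h4) G ((hx G).2 dvd_rfl))
      omega
  · rintro ⟨q, rfl⟩
    rw [map_mul, hρG, zero_mul]

end Pool.Agent.EXG
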