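import Pool.Agent.EXG.Core
import Pool.Agent.EXG.Gz
import Pool.Agent.EXP.Fibre
import Pool.Agent.EXG.Rz
import Pool.Agent.EXG.Rd
import Pool.Agent.EXK.KFin
import Pool.Agent.EXP.Main

/-!
# EXG / Fin: exact exponential-algebraic closedness in codimension one

The leading form of `F` has a simple irreducible factor without nonzero integer period.
-/

set_option autoImplicit false

namespace Pool.Agent.EXG

open MvPolynomial Pool.Agent.EXL Pool.Agent.EXI Pool.Agent.EXK

private lemma aeval_eq (k : Subfield ℂ) {ι : Type} (x : ι → ℂ) (f : MvPolynomial ι k) :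
    aeval x f = eval x (map (algebraMap k ℂ) f) := by
  rw [eval_map, aeval_def]

private lemma map_hc (k : Subfield ℂ) {ι : Type} (i : ℕ) (f : MvPolynomial ι k) :
    map (algebraMap k ℂ) (homogeneousComponent i f) =
      homogeneousComponent i (map (algebraMap k ℂ) f) := by
  ext d
  rw [coeff_map, coeff_homogeneousComponent, coeff_homogeneousComponent, coeff_map]
  split_ifs with h
  · rfl
  · exact map_zero _

private lemma tdeg_map (k : Subfield ℂ) {ι : Type} (f : MvPolynomial ι k) :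
    (map (algebraMap k ℂ) f).totalDegree = f.totalDegree := by
  rw [totalDegree, totalDegree, support_map_of_injective f (algebraMap k ℂ).injective]

theorem mainZ {m : ℕ} (hm : 1 ≤ m)
    (P : Ideal (MvPolynomial (Fin (m + 1) ⊕ Fin (m + 1)) ℂ)) (hP : P.IsPrime)
    (hY : ∀ j : Fin (m + 1), (X (Sum.inr j) : MvPolynomial (Fin (m + 1) ⊕ Fin (m + 1)) ℂ) ∉ P)
    (hdim : Algebra.trdeg ℂ (MvPolynomial (Fin (m + 1) ⊕ Fin (m + 1)) ℂ ⧸ P) = (m + 1 : ℕ))
    (F : MvPolynomial (Fin (m + 1)) ℂ) (hF0 : F ≠ 0)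
    (hF : ∀ f : MvPolynomial (Fin (m + 1)) ℂ, rename Sum.inl f ∈ P ↔ F ∣ f)
    (G R : MvPolynomial (Fin (m + 1)) ℂ) (r : ℕ)
    (hL : homogeneousComponent F.totalDegree F = G * R)
    (hGh : G.IsHomogeneous r) (hG : Irreducible G) (hGR : ¬ G ∣ R)
    (hper : ∀ v : Fin (m + 1) → ℤ, v ≠ 0 →
      ∃ x : Fin (m + 1) → ℂ, eval (fun j => x j + v j) G ≠ eval x G)
    (h : MvPolynomial (Fin (m + 1) ⊕ Fin (m + 1)) ℂ) (hh : h ∉ P) :
    ∃ z : Fin (m + 1) → ℂ, (∀ f ∈ P, eval (Sum.elim z fun j => Complex.exp (z j)) f = 0) ∧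
      eval (Sum.elim z fun j => Complex.exp (z j)) h ≠ 0 := by
  classical
  by_cases hconj : G ∣ map (starRingEnd ℂ) G
  swap
  · exact EXK.main P hP hY hdim F hF0 hF (Or.inr ⟨G, R, r, hL, hGh, hG, hconj, hper⟩) h hh
  by_cases hall : ∀ v : Fin (m + 1) → ℤ, v ≠ 0 →
      NonHypC (homogeneousComponent F.totalDegree F) v
  · exact EXK.main P hP hY hdim F hF0 hF (Or.inl hall) h hh
  push Not at hall
  obtain ⟨v, hv, hvN⟩ := hall
  obtain ⟨k, hk, p, hC, hp, hx⟩ := exists_generic2 P hP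
    (((h.coeffs : Set ℂ) ∪ (F.coeffs : Set ℂ)) ∪
      (((G.coeffs : Set ℂ) ∪ (R.coeffs : Set ℂ)) ∪ {Complex.I}))
    (((Finset.countable_toSet _).union (Finset.countable_toSet _)).union
      (((Finset.countable_toSet _).union (Finset.countable_toSet _)).union
        (Set.countable_singleton _)))
  have hI : Complex.I ∈ k := hC (Or.inr (Or.inr rfl))
  obtain ⟨h₀, hh₀⟩ := exists_descent k h (fun c hc => hC (Or.inl (Or.inl hc)))
  obtain ⟨F₀, hF₀⟩ := exists_descent k F (fun c hc => hC (Or.inl (Or.inr hc)))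
  obtain ⟨G₀, hG₀⟩ := exists_descent k G (fun c hc => hC (Or.inr (Or.inl (Or.inl hc))))
  obtain ⟨R₀, hR₀⟩ := exists_descent k R (fun c hc => hC (Or.inr (Or.inl (Or.inr hc))))
  have hinj : Function.Injective (map (algebraMap k ℂ) :
      MvPolynomial (Fin (m + 1)) k → MvPolynomial (Fin (m + 1)) ℂ) :=
    map_injective _ (algebraMap k ℂ).injective
  have hpe : Sum.elim (fun j => p (Sum.inl j)) (fun j => p (Sum.inr j)) = p := by
    funext i
    rcases i with i | i <;> rfl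
  have hb : ∀ j, p (Sum.inr j) ≠ 0 := by
    intro j h0
    apply hY j
    have h2 := (hp (X (Sum.inr j))).1 (by rw [aeval_X, h0])
    rwa [map_X] at h2
  have hk0 : F₀ ≠ 0 := by
    rintro rfl
    rw [map_zero] at hF₀
    exact hF0 hF₀.symm
  have hker : ∀ f : MvPolynomial (Fin (m + 1)) k,
      aeval (fun j => p (Sum.inl j)) f = 0 ↔ F₀ ∣ f := by
    intro f
    have h1 : aeval (fun j => p (Sum.inl j)) f = aeval p (rename Sum.inl f) := by
      rw [aeval_rename]
      rfl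
    rw [h1, hp, map_rename, hF, ← hF₀]
    exact ⟨dvd_of_map k F₀ f, fun h2 => map_dvd (map (algebraMap k ℂ)) h2⟩
  have htd := td_of_trdeg P hP k hk p hp hx (m + 1) hdim
  -- the leading form
  have hL₀ : homogeneousComponent F₀.totalDegree F₀ = G₀ * R₀ := by
    apply hinj
    rw [map_mul, map_hc, ← tdeg_map, hF₀, hG₀, hR₀, hL]
  have hG₀h : G₀.IsHomogeneous r := by
    rw [← hG₀] at hGh
    exact IsHomogeneous.of_map (algebraMap k ℂ).injective hGh
  have hirr : Irreducible (map (algebraMap k ℂ) G₀) := by rw [hG₀]; exact hG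
  have hGR₀ : ¬ G₀ ∣ R₀ := by
    intro hd
    apply hGR
    rw [← hG₀, ← hR₀]
    exact map_dvd (map (algebraMap k ℂ)) hd
  have hR₀0 : R₀ ≠ 0 := by
    rintro rfl
    exact hGR₀ (dvd_zero _)
  have hper₀ : ∀ v : Fin (m + 1) → ℤ, v ≠ 0 → ∃ x : Fin (m + 1) → ℂ,
      eval (fun j => x j + v j) (map (algebraMap k ℂ) G₀) ≠
        eval x (map (algebraMap k ℂ) G₀) := by
    rw [hG₀]
    exact hper
  have hconj₀ : map (algebraMap k ℂ) G₀ ∣ map (starRingEnd ℂ) (map (algebraMap k ℂ) G₀) := by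
    rw [hG₀]
    exact hconj
  have hvN₀ : ¬ NonHypC (map (algebraMap k ℂ) (G₀ * R₀)) v := by
    rw [map_mul, hG₀, hR₀, ← hL]
    exact hvN
  obtain ⟨β, hβ⟩ := exists_real_zero k hk G₀ R₀ r hG₀h hirr hR₀0 v (hper₀ v hv) hvN₀
  obtain ⟨c, μ, hμ, hc, hd, hind⟩ := grad k hI G₀ R₀ r hG₀h hirr hGR₀ hper₀ hconj₀ β hβ
  -- independence of `a_1, .., a_m`
  have hdeg : 0 < degreeOf 0 F := by
    refine EXP.degreeOf_pos_of_top F G R hF0 (EXP.degreeOf_pos G ?_) hL
    intro v hv
    obtain ⟨x, hx⟩ := hper v hv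
    exact ⟨x, 1, by simpa using hx⟩
  have ha : AlgebraicIndependent k (fun j : Fin m => p (Sum.inl j.succ)) := by
    rw [algebraicIndependent_iff]
    intro f hf
    by_contra hf0
    have h1 : aeval (fun j => p (Sum.inl j)) (rename Fin.succ f) = 0 := by
      rw [aeval_rename]
      exact hf
    have h2 := (hker _).1 h1
    have h3 : F ∣ rename Fin.succ (map (algebraMap k ℂ) f) := by
      rw [← hF₀, ← map_rename]
      exact map_dvd (map (algebraMap k ℂ)) h2
    refine EXP.not_dvd_rename F hdeg (map (algebraMap k ℂ) f) ?_ h3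
    intro h4
    apply hf0
    exact map_injective _ (algebraMap k ℂ).injective (by rw [h4, map_zero])
  have hfib : ∀ x : Fin (m + 1) → ℂ, AlgebraicIndependent k (fun j : Fin m => x j.succ) →
      aeval x F₀ = 0 → ∃ Q : Ideal (MvPolynomial (Fin (m + 1)) ℂ), Q.IsPrime ∧
      (∀ j : Fin (m + 1), (X j : MvPolynomial (Fin (m + 1)) ℂ) ∉ Q) ∧
      Algebra.trdeg ℂ (MvPolynomial (Fin (m + 1)) ℂ ⧸ Q) = 1 ∧
      ∀ w : Fin (m + 1) → ℂ, (∀ g ∈ Q, eval w g = 0) →
        Spec k (Sum.elim (fun j => p (Sum.inl j)) (fun j => p (Sum.inr j))) (Sum.elim x w) := by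
    intro x hx' hxF
    obtain ⟨Q, hQ, hQY, hQd, hQw⟩ := EXP.fibre_curve P hP hY hdim F hF0 hF k hk p hp hx x (by
      intro f
      rw [hker f]
      exact gen_zero k F₀ hk0 (fun j => p (Sum.inl j)) hker ha x hx' hxF f)
    refine ⟨Q, hQ, hQY, hQd, ?_⟩
    intro w hw
    rw [hpe]
    intro f hf
    rw [aeval_eq]
    exact hQw w hw _ ((hp f).1 hf)
  obtain ⟨x, hsp, hne⟩ := core k hk hm (fun j => p (Sum.inl j)) (fun j => p (Sum.inr j)) hb F₀
    ((hker F₀).2 dvd_rfl) (by rw [hpe]; exact htd) hfib F₀.totalDegree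
    (fun i => homogeneousComponent i F₀) (fun i => homogeneousComponent_isHomogeneous i F₀)
    (sum_homogeneousComponent F₀).symm β hind c hc μ hμ
    (by
      show aeval (fun j => (β j : ℂ)) (homogeneousComponent F₀.totalDegree F₀) = 0
      rw [hL₀, map_mul, (hβ G₀).2 dvd_rfl, zero_mul])
    (by
      intro j
      show aeval (fun j => (β j : ℂ)) (pderiv j (homogeneousComponent F₀.totalDegree F₀)) = _
      rw [hL₀]
      exact hd j)
    h₀ (by
      rw [hpe]
      intro h0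
      exact hh (hh₀ ▸ (hp h₀).1 h0))
  rw [hpe] at hsp
  refine ⟨x, ?_, ?_⟩
  · exact hx _ fun f hf => hsp f ((hp f).2 hf)
  · rw [← hh₀, ← aeval_eq]
    exact hne

end Pool.Agent.EXG
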