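import Mathlib

/-!
# EXG / Fix: fixed points depending holomorphically on a parameter, and one more equation

`fix_holo`: a family of contractions `G(·, z)` of a closed ball, jointly holomorphic, `z ∈ U` open: the fixed
point is a holomorphic function of `z` (uniform limit of the iterates).
`zero_near`: a holomorphic function on a neighbourhood of a closed disc which is closer than
`min ‖H‖` on the circle to `H` with a zero at the centre has a zero in the disc (Rouche's theorem, here from the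
minimum principle).
-/

set_option autoImplicit false

namespace Pool.Agent.EXG

open Topology

theorem fix_holo {E : Type*} [NormedAddCommGroup E] [NormedSpace ℂ E] [CompleteSpace E]
    (x₀ : E) (R : ℝ) (hR : 0 ≤ R) (U : Set ℂ) (hU : IsOpen U) (G : E → ℂ → E)
    (hmaps : ∀ z ∈ U, ∀ x ∈ Metric.closedBall x₀ R, G x z ∈ Metric.closedBall x₀ R)
    (hlip : ∀ z ∈ U, ∀ x ∈ Metric.closedBall x₀ R, ∀ y ∈ Metric.closedBall x₀ R,
      ‖G x z - G y z‖ ≤ 1 / 2 * ‖x - y‖)
    (hG : DifferentiableOn ℂ (fun p : E × ℂ => G p.1 p.2) (Metric.closedBall x₀ R ×ˢ U)) :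
    ∃ φ : ℂ → E, DifferentiableOn ℂ φ U ∧
      ∀ z ∈ U, φ z ∈ Metric.closedBall x₀ R ∧ G (φ z) z = φ z := by
  -- the iterates
  obtain ⟨F, hF0, hFs⟩ : ∃ F : ℕ → ℂ → E, (∀ z, F 0 z = x₀) ∧ ∀ n z, F (n + 1) z = G (F n z) z :=
    ⟨fun n z => Nat.rec x₀ (fun _ x => G x z) n, fun _ => rfl, fun _ _ => rfl⟩
  have hx₀ : x₀ ∈ Metric.closedBall x₀ R := Metric.mem_closedBall_self hR
  have hmem : ∀ n, ∀ z ∈ U, F n z ∈ Metric.closedBall x₀ R := by
    intro n z hz
    induction n with
    | zero => rw [hF0]; exact hx₀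
    | succ n ih => rw [hFs]; exact hmaps z hz _ ih
  have hdiff : ∀ n, DifferentiableOn ℂ (F n) U := by
    intro n
    induction n with
    | zero =>
      exact (differentiableOn_const x₀).congr fun z _ => hF0 z
    | succ n ih =>
      have h1 : DifferentiableOn ℂ (fun z => ((F n z, z) : E × ℂ)) U :=
        ih.prodMk differentiableOn_id
      have h2 : Set.MapsTo (fun z => ((F n z, z) : E × ℂ)) U (Metric.closedBall x₀ R ×ˢ U) :=
        fun z hz => ⟨hmem n z hz, hz⟩
      exact (hG.comp h1 h2).congr fun z _ => hFs n z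
  have hstep : ∀ n, ∀ z ∈ U, ‖F (n + 1) z - F n z‖ ≤ R * (1 / 2) ^ n := by
    intro n z hz
    induction n with
    | zero =>
      rw [pow_zero, mul_one, hF0, ← dist_eq_norm]
      exact hmem 1 z hz
    | succ n ih =>
      rw [hFs (n + 1), hFs n, pow_succ]
      have h1 := hlip z hz _ (hmem (n + 1) z hz) _ (hmem n z hz)
      rw [hFs n] at h1 ih
      linarith
  -- the limit
  have hcau : ∀ z ∈ U, CauchySeq (fun n => F n z) := by
    intro z hz
    refine cauchySeq_of_le_geometric (1 / 2) R (by norm_num) fun n => ?_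
    rw [dist_comm, dist_eq_norm]
    exact hstep n z hz
  have hlimex : ∀ z, ∃ y : E, z ∈ U → Filter.Tendsto (fun n => F n z) Filter.atTop (𝓝 y) := by
    intro z
    by_cases hz : z ∈ U
    · obtain ⟨y, hy⟩ := cauchySeq_tendsto_of_complete (hcau z hz)
      exact ⟨y, fun _ => hy⟩
    · exact ⟨x₀, fun h => absurd h hz⟩
  choose φ hφ using hlimex
  have hdist : ∀ n, ∀ z ∈ U, dist (F n z) (φ z) ≤ R * (1 / 2) ^ n / (1 - 1 / 2) := by
    intro n z hz
    refine dist_le_of_le_geometric_of_tendsto (1 / 2) R (by norm_num) (fun k => ?_) (hφ z hz) n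
    rw [dist_comm, dist_eq_norm]
    exact hstep k z hz
  have hunif : TendstoUniformlyOn F φ Filter.atTop U := by
    rw [Metric.tendstoUniformlyOn_iff]
    intro ε hε
    have h1 : Filter.Tendsto (fun n : ℕ => R * (1 / 2) ^ n / (1 - 1 / 2)) Filter.atTop
        (𝓝 (R * 0 / (1 - 1 / 2))) :=
      ((tendsto_pow_atTop_nhds_zero_of_lt_one (by norm_num) (by norm_num)).const_mul R).div_const _
    rw [mul_zero, zero_div] at h1
    filter_upwards [h1.eventually (gt_mem_nhds hε)] with n hn z hz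
    rw [dist_comm]
    exact (hdist n z hz).trans_lt hn
  refine ⟨φ, hunif.tendstoLocallyUniformlyOn.differentiableOn
    (Filter.Eventually.of_forall hdiff) hU, fun z hz => ?_⟩
  have hφm : φ z ∈ Metric.closedBall x₀ R :=
    Metric.isClosed_closedBall.mem_of_tendsto (hφ z hz)
      (Filter.Eventually.of_forall fun n => hmem n z hz)
  refine ⟨hφm, ?_⟩
  have h1 : Filter.Tendsto (fun n => F (n + 1) z) Filter.atTop (𝓝 (φ z)) :=
    (hφ z hz).comp (Filter.tendsto_add_atTop_nat 1)
  have h2 : Filter.Tendsto (fun n => F (n + 1) z) Filter.atTop (𝓝 (G (φ z) z)) := by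
    rw [tendsto_iff_norm_sub_tendsto_zero]
    have h3 : Filter.Tendsto (fun n => 1 / 2 * ‖F n z - φ z‖) Filter.atTop (𝓝 (1 / 2 * 0)) :=
      ((tendsto_iff_norm_sub_tendsto_zero.1 (hφ z hz)).const_mul (1 / 2))
    rw [mul_zero] at h3
    refine squeeze_zero (fun n => norm_nonneg _) (fun n => ?_) h3
    rw [hFs n]
    exact hlip z hz _ (hmem n z hz) _ hφm
  exact tendsto_nhds_unique h2 h1

/-- A zero in the disc from closeness on the circle. -/
theorem zero_near (w : ℂ) (r : ℝ) (hr : 0 < r) (f H : ℂ → ℂ)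
    (hf : DiffContOnCl ℂ f (Metric.ball w r)) (hHw : H w = 0) (ε : ℝ)
    (hfw : ‖f w - H w‖ < ε) (hH : ∀ z ∈ Metric.sphere w r, 2 * ε ≤ ‖H z‖)
    (hclose : ∀ z ∈ Metric.sphere w r, ‖f z - H z‖ < ε) :
    ∃ z ∈ Metric.ball w r, f z = 0 := by
  by_contra hcon
  push Not at hcon
  have hfr : ∀ z ∈ Metric.sphere w r, ε < ‖f z‖ := by
    intro z hz
    have h1 := hH z hz
    have h2 := hclose z hz
    have h3 : ‖H z‖ ≤ ‖f z‖ + ‖f z - H z‖ := by
      calc ‖H z‖ = ‖f z - (f z - H z)‖ := by rw [sub_sub_cancel]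
        _ ≤ _ := norm_sub_le _ _
    linarith
  have hε : 0 < ε := lt_of_le_of_lt (norm_nonneg _) hfw
  have hne : ∀ z ∈ Metric.closedBall w r, f z ≠ 0 := by
    intro z hz
    rcases lt_or_eq_of_le (Metric.mem_closedBall.1 hz) with h | h
    · exact hcon z (Metric.mem_ball.2 h)
    · intro h0
      have := hfr z (Metric.mem_sphere.2 h)
      rw [h0, norm_zero] at this
      linarith
  have hinv : DiffContOnCl ℂ (fun z => (f z)⁻¹) (Metric.ball w r) := by
    refine hf.inv fun z hz => ?_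
    rw [closure_ball w hr.ne'] at hz
    exact hne z hz
  have h1 : ‖(f w)⁻¹‖ ≤ ε⁻¹ := by
    refine Complex.norm_le_of_forall_mem_frontier_norm_le Metric.isBounded_ball hinv
      (fun z hz => ?_) (subset_closure (Metric.mem_ball_self hr))
    rw [frontier_ball w hr.ne'] at hz
    rw [norm_inv]
    exact inv_anti₀ hε (hfr z hz).le
  have h2 : ‖f w‖ < ε := by rwa [hHw, sub_zero] at hfw
  have h3 : 0 < ‖f w‖ := norm_pos_iff.2 (hne w (Metric.mem_closedBall_self hr.le))
  rw [norm_inv, inv_le_inv₀ h3 hε] at h1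
  linarith

end Pool.Agent.EXG
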