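import Mathlib

/-!
# EXG / Fixp: fixed points of a contraction depending on a parameter

PROOF.  `g(., z)` maps `closedBall c (R / 2)` into itself; the fixed point depends differentiably on `z` by the
implicit function theorem for `x - g(x, z)` (`‖D_x g‖ ≤ 1 / 2`) and by uniqueness.
-/

set_option autoImplicit false

namespace Pool.Agent.EXG

open Topology Filter Metric
open scoped ContDiff NNReal

theorem fix_param {F Z : Type*} [NormedAddCommGroup F] [NormedSpace ℂ F] [CompleteSpace F]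
    [NormedAddCommGroup Z] [NormedSpace ℂ Z] [CompleteSpace Z] (N : ℕ∞ω) (hN : N ≠ 0)
    (c : F) (R : ℝ) (hR : 0 < R) (D : Set Z) (hD : IsOpen D) (g : F → Z → F)
    (hg : ∀ x ∈ ball c R, ∀ z ∈ D, ContDiffAt ℂ N (fun q : F × Z => g q.1 q.2) (x, z))
    (hL : ∀ z ∈ D, ∀ x ∈ ball c R, ∀ y ∈ ball c R, ‖g x z - g y z‖ ≤ 1 / 2 * ‖x - y‖)
    (hc : ∀ z ∈ D, ‖g c z - c‖ ≤ R / 4) :
    ∃ ξ : Z → F, ∀ z ∈ D, ξ z ∈ ball c R ∧ g (ξ z) z = ξ z ∧ ContDiffAt ℂ N ξ z ∧
      ∀ x ∈ ball c R, g x z = x → x = ξ z := by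
  classical
  have huniq : ∀ z ∈ D, ∀ x ∈ ball c R, ∀ y ∈ ball c R, g x z = x → g y z = y → x = y := by
    intro z hz x hx y hy h1 h2
    have h3 := hL z hz x hx y hy
    rw [h1, h2] at h3
    have h4 := norm_nonneg (x - y)
    have h5 : ‖x - y‖ = 0 := by linarith
    exact sub_eq_zero.1 (norm_eq_zero.1 h5)
  have hsub : closedBall c (R / 2) ⊆ ball c R := closedBall_subset_ball (by linarith)
  have hex : ∀ z ∈ D, ∃ x ∈ ball c R, g x z = x := by
    intro z hz
    have hmaps : Set.MapsTo (fun x => g x z) (closedBall c (R / 2)) (closedBall c (R / 2)) := by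
      intro x hx
      have hx' := hsub hx
      rw [mem_closedBall, dist_eq_norm] at hx ⊢
      have h1 := hL z hz x hx' c (mem_ball_self hR)
      have h2 := hc z hz
      calc ‖g x z - c‖ = ‖(g x z - g c z) + (g c z - c)‖ := by congr 1; abel
        _ ≤ ‖g x z - g c z‖ + ‖g c z - c‖ := norm_add_le _ _
        _ ≤ 1 / 2 * (R / 2) + R / 4 := by
            refine add_le_add (h1.trans ?_) h2
            gcongr
        _ = R / 2 := by ring
    have hcon : ContractingWith (1 / 2 : ℝ≥0) (hmaps.restrict _ _ _) := by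
      refine ⟨by rw [← NNReal.coe_lt_coe]; push_cast; norm_num, LipschitzWith.of_dist_le_mul ?_⟩
      intro x y
      rw [Subtype.dist_eq, Subtype.dist_eq, dist_eq_norm, dist_eq_norm]
      have h1 := hL z hz x.1 (hsub x.2) y.1 (hsub y.2)
      push_cast
      exact h1
    obtain ⟨y, hy, hfix, -⟩ := hcon.exists_fixedPoint' isClosed_closedBall.isComplete hmaps
      (mem_closedBall_self (by linarith)) (edist_ne_top _ _)
    exact ⟨y, hsub hy, hfix⟩
  choose! ξ hξ hξf using hex
  refine ⟨ξ, fun z hz => ⟨hξ z hz, hξf z hz, ?_, fun x hx h =>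
    huniq z hz x hx _ (hξ z hz) h (hξf z hz)⟩⟩
  -- the derivative
  set f : Z × F → F := fun u => u.2 - g u.2 u.1 with hf
  have hgz : ContDiffAt ℂ N (fun u : Z × F => g u.2 u.1) (z, ξ z) := by
    have h1 : ContDiffAt ℂ N (fun u : Z × F => ((u.2, u.1) : F × Z)) (z, ξ z) :=
      contDiffAt_snd.prodMk contDiffAt_fst
    exact ContDiffAt.comp (z, ξ z) (g := fun q : F × Z => g q.1 q.2)
      (f := fun u : Z × F => ((u.2, u.1) : F × Z)) (hg _ (hξ z hz) z hz) h1
  have cdf : ContDiffAt ℂ N f (z, ξ z) := contDiffAt_snd.sub hgz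
  have hd : HasFDerivAt f (fderiv ℂ f (z, ξ z)) (z, ξ z) :=
    (cdf.differentiableAt hN).hasFDerivAt
  have hinr : HasFDerivAt (fun w : F => ((z, w) : Z × F)) (ContinuousLinearMap.inr ℂ Z F) (ξ z) :=
    hasFDerivAt_prodMk_right z (ξ z)
  have hcomp := HasFDerivAt.comp (ξ z) (g := f) hd hinr
  have hgd : DifferentiableAt ℂ (fun w : F => g w z) (ξ z) := by
    have h1 := (hgz.differentiableAt hN).comp (ξ z) hinr.differentiableAt
    exact h1
  have hcomp2 : HasFDerivAt (fun w : F => w - g w z)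
      (ContinuousLinearMap.id ℂ F - fderiv ℂ (fun w : F => g w z) (ξ z)) (ξ z) :=
    (hasFDerivAt_id (ξ z)).sub hgd.hasFDerivAt
  have heq := hcomp.unique hcomp2
  have hnorm : ‖fderiv ℂ (fun w : F => g w z) (ξ z)‖ ≤ 1 / 2 := by
    refine norm_fderiv_le_of_lip' ℂ (by norm_num) ?_
    filter_upwards [isOpen_ball.mem_nhds (hξ z hz)] with x hx
    exact hL z hz x hx _ (hξ z hz)
  have hinv : (fderiv ℂ f (z, ξ z) ∘L .inr ℂ Z F).IsInvertible := by
    rw [heq]
    refine ⟨ContinuousLinearEquiv.unitsEquiv ℂ F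
      (Units.oneSub (fderiv ℂ (fun w : F => g w z) (ξ z)) (hnorm.trans_lt (by norm_num))), ?_⟩
    ext v
    simp
  have e1 := cdf.eventually_apply_implicitFunction hN hinv
  have e3 := cdf.contDiffAt_implicitFunction hN hinv
  have e4 := cdf.implicitFunction_apply_self hN hinv
  set φ := cdf.implicitFunction hN hinv with hφ
  have h0 : f (z, ξ z) = 0 := by
    show ξ z - g (ξ z) z = 0
    rw [hξf z hz, sub_self]
  have hball : ∀ᶠ y in 𝓝 z, φ y ∈ ball c R := by
    have h1 : ContinuousAt φ z := e3.continuousAt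
    have h2 : φ z ∈ ball c R := by
      have : φ z = ξ z := e4
      rw [this]
      exact hξ z hz
    exact h1.eventually (isOpen_ball.mem_nhds h2)
  have hev : ξ =ᶠ[𝓝 z] φ := by
    filter_upwards [e1, hball, hD.mem_nhds hz] with y h1 h2 h3
    refine huniq y h3 _ (hξ y h3) _ h2 (hξf y h3) ?_
    have h4 : φ y - g (φ y) y = 0 := h1.trans h0
    exact (sub_eq_zero.1 h4).symm
  exact e3.congr_of_eventuallyEq hev

end Pool.Agent.EXG
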