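import Mathlib

/-!
# EXG / NiceA2: choice of `θ` (helper42), choice of the radius `s` (helper84)

PROOF.  The real numbers `θ` with `∑ c_j η_j = I θ` for some `η` with `exp(η_j) ∈ Z j` for all `j` are a countable
set, so there is `θ` outside with `|θ| < m0`. Choose `η_T` with `R T (η_T)`, `∑ c_j η_T j = I θ`; its limit `η^∞` along `𝒰` has
`∑ c_j η^∞_j = I θ`, so `exp(η^∞_i) ∉ Z i` for some `i`.
-/

set_option autoImplicit false

namespace Pool.Agent.EXG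

open Topology Filter

private theorem exp_fib (Z : Set ℂ) (hZ : Z.Countable) : {z : ℂ | Complex.exp z ∈ Z}.Countable := by
  have h1 : {z : ℂ | Complex.exp z ∈ Z} ⊆ ⋃ w ∈ Z, {z : ℂ | Complex.exp z = w} := by
    intro z hz
    exact Set.mem_biUnion hz rfl
  refine (hZ.biUnion fun w _ => ?_).mono h1
  rcases Set.eq_empty_or_nonempty {z : ℂ | Complex.exp z = w} with h | ⟨z0, h0⟩
  · rw [h]
    exact Set.countable_empty
  · refine (Set.countable_range fun k : ℤ => z0 + k * (2 * Real.pi * Complex.I)).mono ?_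
    intro z hz
    have h2 : Complex.exp z = Complex.exp z0 := by
      rw [Set.mem_ofPred_eq] at hz h0
      rw [hz, h0]
    obtain ⟨k, hk⟩ := Complex.exp_eq_exp_iff_exists_int.1 h2
    exact ⟨k, hk.symm⟩

theorem exists_theta {n : ℕ} (c : Fin n → ℝ) (𝒰 : Ultrafilter ℕ) (ρ m0 : ℝ) (hm0 : 0 < m0)
    (Z : Fin n → Set ℂ) (hZ : ∀ i, (Z i).Countable) (R : ℕ → (Fin n → ℂ) → Prop)
    (hs : ∀ᶠ T : ℕ in (𝒰 : Filter ℕ), ∀ t : ℂ, ‖t‖ < m0 → ∃ η : Fin n → ℂ, R T η ∧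
      (∀ j, ‖η j‖ ≤ ρ) ∧ ∑ j, (c j : ℂ) * η j = t) :
    ∃ (i : Fin n) (θ : ℝ) (η : ℕ → Fin n → ℂ) (ηi : Fin n → ℂ),
      (∀ᶠ T : ℕ in (𝒰 : Filter ℕ), R T (η T) ∧ (∀ j, ‖η T j‖ ≤ ρ) ∧
        ∑ j, (c j : ℂ) * η T j = Complex.I * θ) ∧
      (∀ j, ‖ηi j‖ ≤ ρ) ∧ ∑ j, (c j : ℂ) * ηi j = Complex.I * θ ∧
      (∀ j, Tendsto (fun T => η T j) (𝒰 : Filter ℕ) (𝓝 (ηi j))) ∧ Complex.exp (ηi i) ∉ Z i := by
  classical
  -- the countable set of bad values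
  have hC : {η : Fin n → ℂ | ∀ j, η j ∈ {z : ℂ | Complex.exp z ∈ Z j}}.Countable :=
    Set.countable_pi fun j => exp_fib (Z j) (hZ j)
  have hS : ((fun η : Fin n → ℂ => (∑ j, (c j : ℂ) * η j).im) ''
      {η : Fin n → ℂ | ∀ j, η j ∈ {z : ℂ | Complex.exp z ∈ Z j}}).Countable := hC.image _
  obtain ⟨θ, hθ, hθS⟩ := (hS.dense_compl ℝ).inter_open_nonempty (Set.Ioo (-m0) m0) isOpen_Ioo
    ⟨0, by simp [hm0]⟩
  have hnorm : ‖Complex.I * (θ : ℂ)‖ < m0 := by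
    rw [norm_mul, Complex.norm_I, one_mul, Complex.norm_real, Real.norm_eq_abs, abs_lt]
    exact ⟨hθ.1, hθ.2⟩
  have hex : ∀ T : ℕ, ∃ η : Fin n → ℂ,
      (∀ t : ℂ, ‖t‖ < m0 → ∃ η : Fin n → ℂ, R T η ∧
        (∀ j, ‖η j‖ ≤ ρ) ∧ ∑ j, (c j : ℂ) * η j = t) →
      R T η ∧ (∀ j, ‖η j‖ ≤ ρ) ∧ ∑ j, (c j : ℂ) * η j = Complex.I * θ := by
    intro T
    by_cases h : ∀ t : ℂ, ‖t‖ < m0 → ∃ η : Fin n → ℂ, R T η ∧
        (∀ j, ‖η j‖ ≤ ρ) ∧ ∑ j, (c j : ℂ) * η j = t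
    · obtain ⟨η, hη⟩ := h _ hnorm
      exact ⟨η, fun _ => hη⟩
    · exact ⟨0, fun h' => absurd h' h⟩
  choose η hη using hex
  have hev : ∀ᶠ T : ℕ in (𝒰 : Filter ℕ), R T (η T) ∧ (∀ j, ‖η T j‖ ≤ ρ) ∧
      ∑ j, (c j : ℂ) * η T j = Complex.I * θ := hs.mono fun T hT => hη T hT
  -- the limit
  have hcomp : IsCompact {x : Fin n → ℂ | ∀ j, x j ∈ Metric.closedBall (0 : ℂ) ρ} := by
    have h1 : {x : Fin n → ℂ | ∀ j, x j ∈ Metric.closedBall (0 : ℂ) ρ} =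
        Set.pi Set.univ fun _ : Fin n => Metric.closedBall (0 : ℂ) ρ := by
      ext x
      simp
    rw [h1]
    exact isCompact_univ_pi fun _ => isCompact_closedBall 0 ρ
  have hmem : {x : Fin n → ℂ | ∀ j, x j ∈ Metric.closedBall (0 : ℂ) ρ} ∈
      (𝒰.map η : Ultrafilter (Fin n → ℂ)) := by
    show ∀ᶠ T : ℕ in (𝒰 : Filter ℕ), ∀ j, η T j ∈ Metric.closedBall (0 : ℂ) ρ
    filter_upwards [hev] with T hT j
    rw [mem_closedBall_zero_iff]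
    exact hT.2.1 j
  obtain ⟨ηi, hηi, hlim⟩ := hcomp.ultrafilter_le_nhds' (𝒰.map η) hmem
  have ht : Tendsto η (𝒰 : Filter ℕ) (𝓝 ηi) := hlim
  have htj : ∀ j, Tendsto (fun T => η T j) (𝒰 : Filter ℕ) (𝓝 (ηi j)) :=
    fun j => (tendsto_pi_nhds.1 ht) j
  have hsum : ∑ j, (c j : ℂ) * ηi j = Complex.I * θ := by
    have h1 : Tendsto (fun T => ∑ j, (c j : ℂ) * η T j) (𝒰 : Filter ℕ)
        (𝓝 (∑ j, (c j : ℂ) * ηi j)) :=
      tendsto_finsetSum _ fun j _ => (htj j).const_mul _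
    have h2 : Tendsto (fun T => ∑ j, (c j : ℂ) * η T j) (𝒰 : Filter ℕ)
        (𝓝 (Complex.I * θ)) := by
      refine (tendsto_const_nhds (x := Complex.I * (θ : ℂ))).congr' ?_
      filter_upwards [hev] with T hT
      exact hT.2.2.symm
    exact tendsto_nhds_unique h1 h2
  have hbad : ∃ i, Complex.exp (ηi i) ∉ Z i := by
    by_contra hcon
    push Not at hcon
    apply hθS
    refine ⟨ηi, fun j => hcon j, ?_⟩
    show (∑ j, (c j : ℂ) * ηi j).im = θ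
    rw [hsum]
    simp
  obtain ⟨i, hi⟩ := hbad
  exact ⟨i, θ, η, ηi, hev, fun j => mem_closedBall_zero_iff.1 (hηi j), hsum, htj, hi⟩

private theorem exp_preimage_countable {Z : Set ℂ} (hZ : Z.Countable) :
    {w : ℂ | Complex.exp w ∈ Z}.Countable := by
  have h1 : {w : ℂ | Complex.exp w ∈ Z} = ⋃ z ∈ Z, {w : ℂ | Complex.exp w = z} := by
    ext w
    simp
  rw [h1]
  refine hZ.biUnion fun z _ => ?_
  by_cases hne : ∃ w₀ : ℂ, Complex.exp w₀ = z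
  · obtain ⟨w₀, hw₀⟩ := hne
    refine (Set.countable_range fun k : ℤ => w₀ + k * (2 * Real.pi * Complex.I)).mono ?_
    intro w hw
    have hw1 : Complex.exp w = Complex.exp w₀ := by
      rw [hw₀]
      exact hw
    obtain ⟨k, hk⟩ := Complex.exp_eq_exp_iff_exists_int.1 hw1
    exact ⟨k, hk.symm⟩
  · have h2 : {w : ℂ | Complex.exp w = z} = ∅ := by
      ext w
      simp only [Set.mem_ofPred_eq, Set.mem_empty_iff_false, iff_false]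
      exact fun h => hne ⟨w, h⟩
    rw [h2]
    exact Set.countable_empty

theorem exists_s {n : ℕ} (c : Fin n → ℝ) (𝒰 : Ultrafilter ℕ) (Z : Fin n → Set ℂ)
    (hZ : ∀ i, (Z i).Countable) (R : ℕ → (Fin n → ℂ) → Prop)
    (hs : ∀ᶠ T : ℕ in (𝒰 : Filter ℕ), ∀ s : ℝ, 0 < s → ∃ η : Fin n → ℂ, ‖η‖ = s ∧ R T η ∧
      (∑ j, (c j : ℂ) * η j).re = 0) :
    ∃ (i : Fin n) (θ : ℝ) (η : ℕ → Fin n → ℂ) (ηi : Fin n → ℂ),
      (∀ᶠ T : ℕ in (𝒰 : Filter ℕ), R T (η T) ∧ ‖η T‖ ≤ 1 / 4 ∧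
        (∑ j, (c j : ℂ) * η T j).re = 0) ∧ ‖ηi‖ ≤ 1 / 4 ∧
      ∑ j, (c j : ℂ) * ηi j = Complex.I * θ ∧
      Filter.Tendsto η (𝒰 : Filter ℕ) (nhds ηi) ∧ Complex.exp (ηi i) ∉ Z i := by
  classical
  have h1 : ∀ s : ℝ, 0 < s → s ≤ 1 / 4 → ∃ (η : ℕ → Fin n → ℂ) (L : Fin n → ℂ),
      (∀ᶠ T : ℕ in (𝒰 : Filter ℕ), ‖η T‖ = s ∧ R T (η T) ∧
        (∑ j, (c j : ℂ) * η T j).re = 0) ∧
      Tendsto η (𝒰 : Filter ℕ) (𝓝 L) ∧ ‖L‖ = s ∧ (∑ j, (c j : ℂ) * L j).re = 0 := by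
    intro s hs0 hs1
    have h2 : ∀ T : ℕ, ∃ η : Fin n → ℂ, ‖η‖ ≤ 1 / 4 ∧
        ((∃ η' : Fin n → ℂ, ‖η'‖ = s ∧ R T η' ∧ (∑ j, (c j : ℂ) * η' j).re = 0) →
          ‖η‖ = s ∧ R T η ∧ (∑ j, (c j : ℂ) * η j).re = 0) := by
      intro T
      by_cases h : ∃ η' : Fin n → ℂ, ‖η'‖ = s ∧ R T η' ∧ (∑ j, (c j : ℂ) * η' j).re = 0
      · obtain ⟨η, hη⟩ := h
        exact ⟨η, hη.1.le.trans hs1, fun _ => hη⟩
      · exact ⟨0, by simp, fun h' => absurd h' h⟩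
    choose η hη1 hη2 using h2
    have hle : ((𝒰.map η : Ultrafilter (Fin n → ℂ)) : Filter (Fin n → ℂ)) ≤
        𝓟 (Metric.closedBall (0 : Fin n → ℂ) (1 / 4)) := by
      rw [le_principal_iff, Ultrafilter.mem_coe, Ultrafilter.mem_map]
      exact Filter.univ_mem' (f := (𝒰 : Filter ℕ)) fun T => by
        rw [Set.mem_preimage, mem_closedBall_zero_iff]
        exact hη1 T
    obtain ⟨L, _, hL⟩ :=
      (isCompact_closedBall (0 : Fin n → ℂ) (1 / 4)).ultrafilter_le_nhds (𝒰.map η) hle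
    have hT : Tendsto η (𝒰 : Filter ℕ) (𝓝 L) := hL
    have hev : ∀ᶠ T : ℕ in (𝒰 : Filter ℕ), ‖η T‖ = s ∧ R T (η T) ∧
        (∑ j, (c j : ℂ) * η T j).re = 0 := hs.mono fun T h => hη2 T (h s hs0)
    refine ⟨η, L, hev, hT, ?_, ?_⟩
    · have h3 : Tendsto (fun T => ‖η T‖) (𝒰 : Filter ℕ) (𝓝 s) :=
        tendsto_const_nhds.congr' (hev.mono fun T h => h.1.symm)
      exact tendsto_nhds_unique hT.norm h3
    · have hc : Continuous fun y : Fin n → ℂ => (∑ j, (c j : ℂ) * y j).re := by fun_prop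
      have h3 : Tendsto (fun T => (∑ j, (c j : ℂ) * η T j).re) (𝒰 : Filter ℕ) (𝓝 0) :=
        tendsto_const_nhds.congr' (hev.mono fun T h => h.2.2.symm)
      exact tendsto_nhds_unique ((hc.tendsto L).comp hT) h3
  -- the bad limits
  have hbad : (Set.univ.pi fun j : Fin n => {w : ℂ | Complex.exp w ∈ Z j}).Countable :=
    Set.countable_univ_pi fun j => exp_preimage_countable (hZ j)
  have hnorm : ((fun y : Fin n → ℂ => ‖y‖) ''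
      (Set.univ.pi fun j : Fin n => {w : ℂ | Complex.exp w ∈ Z j})).Countable :=
    hbad.image _
  obtain ⟨s, hs1, hs2⟩ : ∃ s ∈ Set.Ioc (0 : ℝ) (1 / 4), s ∉ (fun y : Fin n → ℂ => ‖y‖) ''
      (Set.univ.pi fun j : Fin n => {w : ℂ | Complex.exp w ∈ Z j}) := by
    by_contra hcon
    push Not at hcon
    have h3 : (Set.Ioc (0 : ℝ) (1 / 4)).Countable := hnorm.mono fun s hs => hcon s hs
    have h4 : (1 : ℝ) / 4 ≤ 0 := by
      simpa using! h3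
    norm_num at h4
  obtain ⟨η, L, hev, hT, hL1, hL2⟩ := h1 s hs1.1 hs1.2
  have hLbad : ∃ i, Complex.exp (L i) ∉ Z i := by
    by_contra hcon
    push Not at hcon
    exact hs2 ⟨L, fun j _ => hcon j, hL1⟩
  obtain ⟨i, hi⟩ := hLbad
  refine ⟨i, (∑ j, (c j : ℂ) * L j).im, η, L, hev.mono fun T h => ⟨h.2.1, ?_, h.2.2⟩, ?_, ?_,
    hT, hi⟩
  · rw [h.1]
    exact hs1.2
  · rw [hL1]
    exact hs1.2
  · apply Complex.ext
    · rw [hL2]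
      simp
    · simp

end Pool.Agent.EXG
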