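import Pool.Agent.EXG.Lim

/-!
# EXG / NiceB1: `exists_bad` (helper26)

For every `N` and `i` choose the limit `N'` by `lim` (`κ = Unit`), and for every pair the limit `P'` of `lim`
(`κ = Fin 2`). `Z i` = union over `N ≠ 0` of the roots of `N'`, and over `j ≠ i` of the `w` with `P'(w, ·) = 0`
identically.
-/

set_option autoImplicit false

namespace Pool.Agent.EXG

open MvPolynomial Topology Filter

private lemma bad_finite_one (N' : MvPolynomial Unit ℂ) (hN : N' ≠ 0) :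
    {w : ℂ | eval (fun _ => w) N' = 0}.Finite := by
  by_contra hinf
  set q : Polynomial ℂ := aeval (fun _ : Unit => (Polynomial.X : Polynomial ℂ)) N' with hq
  have hqe : ∀ w : ℂ, q.eval w = eval (fun _ => w) N' := by
    intro w
    have h1 : q.eval w = (Polynomial.evalRingHom w).comp
        (aeval (fun _ : Unit => (Polynomial.X : Polynomial ℂ)) :
          MvPolynomial Unit ℂ →ₐ[ℂ] Polynomial ℂ).toRingHom N' := rfl
    rw [h1]
    have h2 : ((Polynomial.evalRingHom w).comp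
        (aeval (fun _ : Unit => (Polynomial.X : Polynomial ℂ)) :
          MvPolynomial Unit ℂ →ₐ[ℂ] Polynomial ℂ).toRingHom) =
        (eval (fun _ : Unit => w) : MvPolynomial Unit ℂ →+* ℂ) := by
      apply MvPolynomial.ringHom_ext
      · intro r
        simp [Polynomial.algebraMap_eq]
      · intro i
        simp
    rw [h2]
  have hq0 : q = 0 := by
    apply Polynomial.eq_zero_of_infinite_isRoot
    refine Set.Infinite.mono ?_ hinf
    intro w hw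
    show q.eval w = 0
    rw [hqe]
    exact hw
  apply hN
  apply MvPolynomial.funext
  intro x
  have h1 := hqe (x ())
  rw [hq0, Polynomial.eval_zero] at h1
  have h2 : (fun _ : Unit => x ()) = x := by
    funext i; rfl
  rw [h2] at h1
  rw [← h1, map_zero]

private lemma bad_slice (Q : MvPolynomial (Fin 2) ℂ) (ζ : ℂ) :
    ∃ q : Polynomial ℂ, ∀ w, q.eval w = eval ![w, ζ] Q := by
  refine ⟨aeval ![(Polynomial.X : Polynomial ℂ), Polynomial.C ζ] Q, fun w => ?_⟩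
  have h2 : ((Polynomial.evalRingHom w).comp
      (aeval ![(Polynomial.X : Polynomial ℂ), Polynomial.C ζ] :
        MvPolynomial (Fin 2) ℂ →ₐ[ℂ] Polynomial ℂ).toRingHom) =
      (eval ![w, ζ] : MvPolynomial (Fin 2) ℂ →+* ℂ) := by
    apply MvPolynomial.ringHom_ext
    · intro r
      simp [Polynomial.algebraMap_eq]
    · intro i
      fin_cases i <;> simp
  rw [← h2]
  rfl

private lemma bad_slice' (Q : MvPolynomial (Fin 2) ℂ) (w : ℂ) :
    ∃ q : Polynomial ℂ, ∀ ζ, q.eval ζ = eval ![w, ζ] Q := by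
  refine ⟨aeval ![Polynomial.C w, (Polynomial.X : Polynomial ℂ)] Q, fun ζ => ?_⟩
  have h2 : ((Polynomial.evalRingHom ζ).comp
      (aeval ![Polynomial.C w, (Polynomial.X : Polynomial ℂ)] :
        MvPolynomial (Fin 2) ℂ →ₐ[ℂ] Polynomial ℂ).toRingHom) =
      (eval ![w, ζ] : MvPolynomial (Fin 2) ℂ →+* ℂ) := by
    apply MvPolynomial.ringHom_ext
    · intro r
      simp [Polynomial.algebraMap_eq]
    · intro i
      fin_cases i <;> simp
  rw [← h2]
  rfl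

private lemma bad_finite_two (Q : MvPolynomial (Fin 2) ℂ) (hQ : Q ≠ 0) :
    {w : ℂ | ∀ ζ, eval ![w, ζ] Q = 0}.Finite := by
  by_contra hinf
  apply hQ
  apply MvPolynomial.funext
  intro x
  obtain ⟨q, hq⟩ := bad_slice Q (x 1)
  have hq0 : q = 0 := by
    apply Polynomial.eq_zero_of_infinite_isRoot
    refine Set.Infinite.mono ?_ hinf
    intro w hw
    show q.eval w = 0
    rw [hq]
    exact hw (x 1)
  have h1 := hq (x 0)
  rw [hq0, Polynomial.eval_zero] at h1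
  have h2 : ![x 0, x 1] = x := by
    funext i
    fin_cases i <;> rfl
  rw [h2] at h1
  rw [← h1, map_zero]

private lemma bad_cont (Q : MvPolynomial (Fin 2) ℂ) :
    Continuous (fun p : ℂ × ℂ => eval ![p.1, p.2] Q) := by
  have h1 : Continuous (fun x : Fin 2 → ℂ => eval x Q) := MvPolynomial.continuous_eval Q
  refine h1.comp ?_
  refine continuous_pi (fun i => ?_)
  fin_cases i
  · exact continuous_fst
  · exact continuous_snd

private lemma bad_compact (G : ℂ → ℂ → ℂ) (hG : Continuous (fun p : ℂ × ℂ => G p.1 p.2))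
    (a b : ℂ) (δ : ℝ) (hδ : 0 < δ) (h : ∀ ζ ∈ Metric.sphere b δ, G a ζ ≠ 0) :
    ∃ η : ℝ, 0 < η ∧ ∀ᶠ z in 𝓝 a, ∀ ζ ∈ Metric.sphere b δ, η < ‖G z ζ‖ := by
  have hK : IsCompact (Metric.sphere b δ) := isCompact_sphere _ _
  have hKn : (Metric.sphere b δ).Nonempty := NormedSpace.sphere_nonempty.2 hδ.le
  have hc : Continuous (fun p : ℂ × ℂ => ‖G p.1 p.2‖) := hG.norm
  have hc1 : Continuous (fun ζ : ℂ => ‖G a ζ‖) :=
    hc.comp (continuous_const.prodMk continuous_id)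
  obtain ⟨ζ0, hζ0, hmin⟩ := hK.exists_isMinOn hKn hc1.continuousOn
  have h8 : 0 < ‖G a ζ0‖ := norm_pos_iff.2 (h ζ0 hζ0)
  refine ⟨‖G a ζ0‖ / 2, by positivity, ?_⟩
  refine hK.eventually_forall_of_forall_eventually (P := fun z ζ => ‖G a ζ0‖ / 2 < ‖G z ζ‖) ?_
  intro ζ hζ
  have h9 : ‖G a ζ0‖ ≤ ‖G a ζ‖ := hmin hζ
  refine (hc.continuousAt (x := (a, ζ))).eventually_const_lt ?_
  show ‖G a ζ0‖ / 2 < ‖G a ζ‖
  linarith

theorem exists_bad {m n : ℕ} (k : Subfield ℂ) (hk : (k : Set ℂ).Countable) (β : Fin m → ℝ)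
    (hβ : AlgebraicIndependent k (fun j => Complex.I * (β j : ℂ)))
    (P : Fin n → Fin n → MvPolynomial (Fin m ⊕ Fin 2) k) (hP : ∀ i j, i ≠ j → P i j ≠ 0)
    (𝒰 : Ultrafilter ℕ) (h𝒰 : (𝒰 : Filter ℕ) ≤ atTop) (b : ℕ → Fin n → ℂ)
    (hb : ∀ T j, b T j ≠ 0) :
    ∃ Z : Fin n → Set ℂ, (∀ i, (Z i).Countable) ∧ ∀ (i : Fin n) (w : Fin n → ℂ), w i ∉ Z i →
      (∀ N : MvPolynomial (Fin m ⊕ Unit) k, N ≠ 0 → ∃ r : ℝ, 0 < r ∧
        ∀ᶠ T : ℕ in (𝒰 : Filter ℕ), ∀ (x : Fin m → ℂ) (z : ℂ),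
          (∀ j, ‖x j - Complex.I * (T : ℂ) * (β j : ℂ)‖ ≤ √(T : ℝ)) → ‖z - w i‖ ≤ r →
          aeval (Sum.elim x fun _ => b T i * z) N ≠ 0) ∧
      (∀ δ : ℝ, 0 < δ → ∃ δ' r : ℝ, 0 < δ' ∧ δ' < δ ∧ 0 < r ∧
        ∀ᶠ T : ℕ in (𝒰 : Filter ℕ), ∀ j, j ≠ i → ∀ (x : Fin m → ℂ) (z ζ : ℂ),
          (∀ l, ‖x l - Complex.I * (T : ℂ) * (β l : ℂ)‖ ≤ √(T : ℝ)) → ‖z - w i‖ ≤ r →
          ‖ζ - w j‖ = δ' → aeval (Sum.elim x ![b T i * z, b T j * ζ]) (P i j) ≠ 0) := by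
  classical
  have hkc : Countable k := hk.to_subtype
  have hcN : Countable (MvPolynomial (Fin m ⊕ Unit) k) := by
    have h1 : Cardinal.mk (MvPolynomial (Fin m ⊕ Unit) k) ≤ Cardinal.aleph0 := by
      refine (MvPolynomial.cardinalMk_le_max (σ := Fin m ⊕ Unit) (R := k)).trans ?_
      simp
    exact Cardinal.mk_le_aleph0_iff.1 h1
  -- the limits
  have h1 : ∀ (i : Fin n) (N : MvPolynomial (Fin m ⊕ Unit) k),
      ∃ (ν : ℕ → ℂ) (N' : MvPolynomial Unit ℂ), N ≠ 0 → (N' ≠ 0 ∧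
        ∀ R δ : ℝ, 0 < δ → ∀ᶠ T : ℕ in (𝒰 : Filter ℕ), ∀ (x : Fin m → ℂ) (w : Unit → ℂ),
          (∀ j, ‖x j - Complex.I * (T : ℂ) * (β j : ℂ)‖ ≤ √(T : ℝ)) → (∀ j, ‖w j‖ ≤ R) →
          ‖ν T * aeval (Sum.elim x fun j => b T i * w j) N - eval w N'‖ ≤ δ) := by
    intro i N
    by_cases hN : N = 0
    · exact ⟨0, 0, fun h => absurd hN h⟩
    · obtain ⟨ν, N', -, h3, h4⟩ := lim k β hβ N hN 𝒰 h𝒰 (fun T (_ : Unit) => b T i)
        (fun T _ => hb T i)
      exact ⟨ν, N', fun _ => ⟨h3, h4⟩⟩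
  choose ν1 N1 hN1 using h1
  have h2 : ∀ i j : Fin n, ∃ (ν : ℕ → ℂ) (Q : MvPolynomial (Fin 2) ℂ), i ≠ j → (Q ≠ 0 ∧
      ∀ R δ : ℝ, 0 < δ → ∀ᶠ T : ℕ in (𝒰 : Filter ℕ), ∀ (x : Fin m → ℂ) (w : Fin 2 → ℂ),
        (∀ j, ‖x j - Complex.I * (T : ℂ) * (β j : ℂ)‖ ≤ √(T : ℝ)) → (∀ j, ‖w j‖ ≤ R) →
        ‖ν T * aeval (Sum.elim x fun l => ![b T i, b T j] l * w l) (P i j) - eval w Q‖ ≤ δ) := by
    intro i j
    by_cases hij : i = j
    · exact ⟨0, 0, fun h => absurd hij h⟩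
    · obtain ⟨ν, N', -, h3, h4⟩ := lim k β hβ (P i j) (hP i j hij) 𝒰 h𝒰
        (fun T => ![b T i, b T j]) (fun T l => by
          fin_cases l
          · exact hb T i
          · exact hb T j)
      exact ⟨ν, N', fun _ => ⟨h3, h4⟩⟩
  choose ν2 Q2 hQ2 using h2
  refine ⟨fun i => (⋃ N : {N : MvPolynomial (Fin m ⊕ Unit) k // N ≠ 0},
      {w : ℂ | eval (fun _ => w) (N1 i N.1) = 0}) ∪
      (⋃ j : {j : Fin n // i ≠ j}, {w : ℂ | ∀ ζ, eval ![w, ζ] (Q2 i j.1) = 0}), ?_, ?_⟩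
  · intro i
    refine Set.Countable.union ?_ ?_
    · exact Set.countable_iUnion fun N => (bad_finite_one _ (hN1 i N.1 N.2).1).countable
    · exact Set.countable_iUnion fun j => (bad_finite_two _ (hQ2 i j.1 j.2).1).countable
  intro i w hw
  rw [Set.mem_union, not_or] at hw
  obtain ⟨hw1, hw2⟩ := hw
  constructor
  · -- one variable
    intro N hN
    have h3 : eval (fun _ => w i) (N1 i N) ≠ 0 := fun h =>
      hw1 (Set.mem_iUnion.2 ⟨⟨N, hN⟩, h⟩)
    set η : ℝ := ‖eval (fun _ => w i) (N1 i N)‖ / 2 with hη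
    have h3' : 0 < ‖eval (fun _ => w i) (N1 i N)‖ := norm_pos_iff.2 h3
    have hη0 : 0 < η := by positivity
    have hcont : Continuous (fun z : ℂ => ‖eval (fun _ : Unit => z) (N1 i N)‖) := by
      have h4 : Continuous (fun x : Unit → ℂ => eval x (N1 i N)) := MvPolynomial.continuous_eval _
      exact (h4.comp (continuous_pi fun _ => continuous_id)).norm
    have h4 : ∀ᶠ z in 𝓝 (w i), η < ‖eval (fun _ : Unit => z) (N1 i N)‖ := by
      refine hcont.continuousAt.eventually_const_lt ?_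
      show η < ‖eval (fun _ : Unit => w i) (N1 i N)‖
      rw [hη]; linarith
    obtain ⟨r0, hr0, h5⟩ := Metric.eventually_nhds_iff.1 h4
    refine ⟨r0 / 2, by positivity, ?_⟩
    filter_upwards [(hN1 i N hN).2 (‖w i‖ + r0) η hη0] with T hT x z hx hz
    have h6 : ‖z‖ ≤ ‖w i‖ + r0 := by
      calc ‖z‖ = ‖w i + (z - w i)‖ := by rw [add_sub_cancel]
        _ ≤ ‖w i‖ + ‖z - w i‖ := norm_add_le _ _
        _ ≤ ‖w i‖ + r0 := by linarith
    have h7 := hT x (fun _ => z) hx (fun _ => h6)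
    have h8 := h5 (y := z) (by rw [dist_eq_norm]; linarith)
    intro h9
    rw [h9, mul_zero, zero_sub, norm_neg] at h7
    linarith
  · -- two variables
    intro δ hδ
    have h3 : ∀ j : Fin n, j ≠ i → ∃ ζ, eval ![w i, ζ] (Q2 i j) ≠ 0 := by
      intro j hj
      by_contra hcon
      push Not at hcon
      exact hw2 (Set.mem_iUnion.2 ⟨⟨j, hj.symm⟩, hcon⟩)
    -- the roots
    have h4 : ∀ j : Fin n, j ≠ i → {ζ : ℂ | eval ![w i, ζ] (Q2 i j) = 0}.Finite := by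
      intro j hj
      obtain ⟨q, hq⟩ := bad_slice' (Q2 i j) (w i)
      have hq0 : q ≠ 0 := by
        rintro rfl
        obtain ⟨ζ, hζ⟩ := h3 j hj
        rw [← hq, Polynomial.eval_zero] at hζ
        exact hζ rfl
      refine (Polynomial.finite_setOf_isRoot hq0).subset ?_
      intro ζ hζ
      show q.eval ζ = 0
      rw [hq]
      exact hζ
    have h5 : (⋃ j : {j : Fin n // j ≠ i},
        (fun ζ => ‖ζ - w j.1‖) '' {ζ : ℂ | eval ![w i, ζ] (Q2 i j.1) = 0}).Finite :=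
      Set.finite_iUnion fun j => (h4 j.1 j.2).image _
    obtain ⟨δ', hδ'1, hδ'2⟩ : ∃ δ' ∈ Set.Ioo 0 δ, δ' ∉ (⋃ j : {j : Fin n // j ≠ i},
        (fun ζ => ‖ζ - w j.1‖) '' {ζ : ℂ | eval ![w i, ζ] (Q2 i j.1) = 0}) :=
      (Set.Ioo_infinite hδ).exists_notMem_finite h5
    have hδ0 : 0 < δ' := hδ'1.1
    have h6 : ∀ j : Fin n, j ≠ i → ∀ ζ ∈ Metric.sphere (w j) δ', eval ![w i, ζ] (Q2 i j) ≠ 0 := by
      intro j hj ζ hζ h7
      apply hδ'2
      refine Set.mem_iUnion.2 ⟨⟨j, hj⟩, ζ, h7, ?_⟩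
      rw [mem_sphere_iff_norm] at hζ
      exact hζ
    -- the lower bound on the circle
    have h7 : ∀ j : Fin n, ∃ η : ℝ, 0 < η ∧ (j ≠ i → ∀ᶠ z in 𝓝 (w i),
        ∀ ζ ∈ Metric.sphere (w j) δ', η < ‖eval ![z, ζ] (Q2 i j)‖) := by
      intro j
      by_cases hj : j = i
      · exact ⟨1, one_pos, fun h => absurd hj h⟩
      obtain ⟨η, h8, h9⟩ := bad_compact (fun z ζ => eval ![z, ζ] (Q2 i j)) (bad_cont (Q2 i j))
        (w i) (w j) δ' hδ0 (h6 j hj)
      exact ⟨η, h8, fun _ => h9⟩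
    choose η hη0 hη using h7
    have h8 : ∀ᶠ z in 𝓝 (w i), ∀ j : Fin n, j ≠ i →
        ∀ ζ ∈ Metric.sphere (w j) δ', η j < ‖eval ![z, ζ] (Q2 i j)‖ := by
      rw [Filter.eventually_all]
      intro j
      by_cases hj : j = i
      · exact Filter.Eventually.of_forall fun z h => absurd hj h
      · filter_upwards [hη j hj] with z hz _
        exact hz
    obtain ⟨r0, hr0, h9⟩ := Metric.eventually_nhds_iff.1 h8
    refine ⟨δ', r0 / 2, hδ0, hδ'1.2, by positivity, ?_⟩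
    rw [Filter.eventually_all]
    intro j
    by_cases hj : j = i
    · exact Filter.Eventually.of_forall fun T h => absurd hj h
    filter_upwards [(hQ2 i j (Ne.symm hj)).2 (‖w i‖ + ‖w j‖ + r0 + δ') (η j) (hη0 j)] with
      T hT _ x z ζ hx hz hζ
    have h6 : ‖z‖ ≤ ‖w i‖ + ‖w j‖ + r0 + δ' := by
      calc ‖z‖ = ‖w i + (z - w i)‖ := by rw [add_sub_cancel]
        _ ≤ ‖w i‖ + ‖z - w i‖ := norm_add_le _ _
        _ ≤ ‖w i‖ + ‖w j‖ + r0 + δ' := by linarith [norm_nonneg (w j)]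
    have h6' : ‖ζ‖ ≤ ‖w i‖ + ‖w j‖ + r0 + δ' := by
      calc ‖ζ‖ = ‖w j + (ζ - w j)‖ := by rw [add_sub_cancel]
        _ ≤ ‖w j‖ + ‖ζ - w j‖ := norm_add_le _ _
        _ ≤ ‖w i‖ + ‖w j‖ + r0 + δ' := by linarith [norm_nonneg (w i)]
    have h10 := hT x ![z, ζ] hx (fun l => by
      fin_cases l
      · exact h6
      · exact h6')
    have h11 : (fun l => ![b T i, b T j] l * ![z, ζ] l) = ![b T i * z, b T j * ζ] := by
      funext l
      fin_cases l <;> rfl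
    rw [h11] at h10
    have h12 := h9 (y := z) (by rw [dist_eq_norm]; linarith) j hj ζ
      (by rw [mem_sphere_iff_norm]; exact hζ)
    intro h13
    rw [h13, mul_zero, zero_sub, norm_neg] at h10
    linarith

end Pool.Agent.EXG
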