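import Mathlib

/-! # EXG, module Sel: a transcendental coordinate

A family of points `η θ`, `θ` in an uncountable set, with `φ (η θ) = θ` (for instance `φ η = ‖η‖`
or `c · η = i θ`): for some `θ` one of the `exp (η θ i)` is transcendental over the countable
field `k`. -/

set_option autoImplicit false

namespace Pool.Agent.EXG

/-- the points with all `exp (η i)` algebraic over a countable field form a countable set -/
theorem alg_points_countable {n : ℕ} (k : Subfield ℂ) [Countable k] :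
    {η : Fin n → ℂ | ∀ i, IsAlgebraic k (Complex.exp (η i))}.Countable := by
  have h0 : {z : ℂ | IsAlgebraic k z}.Countable := Algebraic.countable k ℂ
  have h1 : {η : Fin n → ℂ | ∀ i, IsAlgebraic k (Complex.exp (η i))} =
      {η : Fin n → ℂ | ∀ i, η i ∈ Complex.exp ⁻¹' {z : ℂ | IsAlgebraic k z}} := rfl
  rw [h1]
  exact Set.countable_pi fun i => h0.preimage_cexp

theorem sel {n : ℕ} (k : Subfield ℂ) [Countable k] {ι : Type*} (Θ : Set ι)
    (hΘ : ¬ Θ.Countable) (φ : (Fin n → ℂ) → ι) (η : ι → Fin n → ℂ)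
    (hη : ∀ θ ∈ Θ, φ (η θ) = θ) :
    ∃ θ ∈ Θ, ∃ i, Transcendental k (Complex.exp (η θ i)) := by
  by_contra hcon
  push Not at hcon
  apply hΘ
  refine ((alg_points_countable (n := n) k).image φ).mono fun θ hθ => ?_
  refine ⟨η θ, fun i => ?_, hη θ hθ⟩
  have := hcon θ hθ i
  rwa [Transcendental, not_not] at this

/-- the form with norms: points of every small norm -/
theorem sel_norm {n : ℕ} (k : Subfield ℂ) [Countable k] (s₀ : ℝ) (hs₀ : 0 < s₀)
    (η : ℝ → Fin n → ℂ) (hη : ∀ s : ℝ, 0 < s → s < s₀ → ‖η s‖ = s) :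
    ∃ s : ℝ, 0 < s ∧ s < s₀ ∧ ∃ i, Transcendental k (Complex.exp (η s i)) := by
  obtain ⟨s, hs, i, hi⟩ := sel k (Set.Ioo 0 s₀)
    (fun h => by rw [Cardinal.Real.Ioo_countable_iff] at h; linarith) (fun η => ‖η‖) η
    (fun s hs => hη s hs.1 hs.2)
  exact ⟨s, hs.1, hs.2, i, hi⟩

end Pool.Agent.EXG
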