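import Mathlib

/-!
# EXG / Sheet: a root of a separable monic polynomial with holomorphic coefficients on a convex open set

PROOF.  Near every point there are `d` different roots (implicit function theorem): the set of the pairs
(point, root) is a covering of the convex open set `U`, and the identity of `U` lifts
(`IsCoveringMap.existsUnique_continuousMap_lifts`). The lift agrees locally with one of the local roots.
-/

set_option autoImplicit false

namespace Pool.Agent.EXG

open Topology Filter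
open scoped ContDiff

variable {E : Type*} [NormedAddCommGroup E] [NormedSpace ℂ E] [CompleteSpace E]

/-- implicit function theorem at a simple root -/
private theorem sh_ift {U : Set E} (hU : IsOpen U) {d : ℕ} {M : E → Polynomial ℂ} {N : ℕ∞ω}
    (hN : N ≠ 0)
    (hM : ∀ q ∈ U, (M q).Monic ∧ (M q).natDegree = d ∧ (M q).Separable)
    (hcoef : ∀ k, ∀ q ∈ U, ContDiffAt ℂ N (fun q => (M q).coeff k) q) {q : E} (hq : q ∈ U)
    {a : ℂ} (h0 : (M q).eval a = 0) :
    ∃ θ : E → ℂ, θ q = a ∧ ContDiffAt ℂ N θ q ∧ ∀ᶠ p in 𝓝 q, (M p).eval (θ p) = 0 := by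
  set f : E × ℂ → ℂ := fun u => ∑ k ∈ Finset.range (d + 1), (M u.1).coeff k * u.2 ^ k with hf
  have hfe : ∀ p ∈ U, ∀ t : ℂ, f (p, t) = (M p).eval t := by
    intro p hp t
    rw [Polynomial.eval_eq_sum_range' (show (M p).natDegree < d + 1 by rw [(hM p hp).2.1]; omega)]
  have cdf : ContDiffAt ℂ N f (q, a) := by
    refine ContDiffAt.sum fun k _ => ?_
    have h1 : ContDiffAt ℂ N (fun u : E × ℂ => (M u.1).coeff k) (q, a) :=
      ContDiffAt.comp (q, a) (g := fun q => (M q).coeff k) (f := Prod.fst) (hcoef k q hq)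
        contDiffAt_fst
    exact h1.mul (contDiffAt_snd.pow k)
  have hder : (M q).derivative.eval a ≠ 0 :=
    (hM q hq).2.2.eval₂_derivative_ne_zero (RingHom.id ℂ) h0
  have hd : HasFDerivAt f (fderiv ℂ f (q, a)) (q, a) :=
    (cdf.differentiableAt hN).hasFDerivAt
  have hinr : HasFDerivAt (fun w : ℂ => ((q, w) : E × ℂ)) (ContinuousLinearMap.inr ℂ E ℂ) a :=
    hasFDerivAt_prodMk_right q a
  have hcomp := HasFDerivAt.comp a (g := f) hd hinr
  have hcomp2 := ((M q).hasDerivAt a).hasFDerivAt
  have hfun : (f ∘ fun w : ℂ => ((q, w) : E × ℂ)) = fun w => (M q).eval w := by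
    funext w
    exact hfe q hq w
  rw [hfun] at hcomp
  have heq := hcomp.unique hcomp2
  have hinv : (fderiv ℂ f (q, a) ∘L .inr ℂ E ℂ).IsInvertible := by
    rw [heq]
    refine ⟨ContinuousLinearEquiv.unitsEquivAut ℂ (Units.mk0 _ hder), ?_⟩
    ext
    simp
  have e1 := cdf.eventually_apply_implicitFunction hN hinv
  have e3 := cdf.contDiffAt_implicitFunction hN hinv
  have e4 := cdf.implicitFunction_apply_self hN hinv
  refine ⟨cdf.implicitFunction hN hinv, e4, e3, ?_⟩
  filter_upwards [e1, hU.mem_nhds hq] with z hz hzU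
  rw [← hfe z hzU, hz, hfe q hq, h0]

/-- local roots -/
private theorem sh_local {U : Set E} (hU : IsOpen U) {d : ℕ} {M : E → Polynomial ℂ} {N : ℕ∞ω}
    (hN : N ≠ 0)
    (hM : ∀ q ∈ U, (M q).Monic ∧ (M q).natDegree = d ∧ (M q).Separable)
    (hcoef : ∀ k, ∀ q ∈ U, ContDiffAt ℂ N (fun q => (M q).coeff k) q) {q : E} (hq : q ∈ U) :
    ∃ (V : Set E) (θ : Fin d → E → ℂ), IsOpen V ∧ q ∈ V ∧ V ⊆ U ∧
      (∀ i, ContDiffAt ℂ N (θ i) q) ∧ (∀ i, ∀ p ∈ V, ContinuousAt (θ i) p) ∧
      (∀ p ∈ V, ∀ i j, i ≠ j → θ i p ≠ θ j p) ∧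
      ∀ p ∈ V, ∀ t, (M p).eval t = 0 ↔ ∃ i, t = θ i p := by
  classical
  obtain ⟨hm, hdeg, hsep⟩ := hM q hq
  have hq0 : M q ≠ 0 := hm.ne_zero
  have hcard : (M q).roots.toFinset.card = d := by
    rw [Multiset.toFinset_card_of_nodup (Polynomial.nodup_roots hsep), ← hdeg]
    exact (IsAlgClosed.splits (M q)).natDegree_eq_card_roots.symm
  let e := (Finset.equivFinOfCardEq hcard).symm
  have hroot : ∀ i, (M q).eval (e i : ℂ) = 0 := by
    intro i
    have h1 := (e i).2
    rw [Multiset.mem_toFinset, Polynomial.mem_roots hq0] at h1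
    exact h1
  choose θ hθ0 hθc hθr using fun i => sh_ift hU hN hM hcoef hq (hroot i)
  have hinj : ∀ i j, i ≠ j → θ i q ≠ θ j q := by
    intro i j hij h
    rw [hθ0, hθ0] at h
    exact hij (e.injective (Subtype.ext h))
  have h1N : (1 : ℕ∞ω) ≤ N := ENat.one_le_iff_ne_zero_withTop.2 hN
  have ev1 : ∀ᶠ z in 𝓝 q, ∀ i, (M z).eval (θ i z) = 0 := Filter.eventually_all.2 hθr
  have ev2 : ∀ᶠ z in 𝓝 q, ∀ i, ContinuousAt (θ i) z :=
    Filter.eventually_all.2 fun i =>
      (((hθc i).of_le h1N).eventually (by simp)).mono fun z hz => hz.continuousAt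
  have ev3 : ∀ᶠ z in 𝓝 q, ∀ i j, i ≠ j → θ i z ≠ θ j z := by
    refine Filter.eventually_all.2 fun i => Filter.eventually_all.2 fun j => ?_
    by_cases hij : i = j
    · exact Filter.Eventually.of_forall fun z h => absurd hij h
    · have hc : ContinuousAt (fun z => θ i z - θ j z) q :=
        (hθc i).continuousAt.sub (hθc j).continuousAt
      have h1 := hc.eventually_ne (sub_ne_zero.2 (hinj i j hij))
      filter_upwards [h1] with z hz _
      exact sub_ne_zero.1 hz
  obtain ⟨V, hV, hVo, hqV⟩ := eventually_nhds_iff.1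
    ((ev1.and (ev2.and ev3)).and (hU.mem_nhds hq))
  refine ⟨V, θ, hVo, hqV, fun p hp => (hV p hp).2, hθc, fun i p hp => (hV p hp).1.2.1 i,
    fun p hp => (hV p hp).1.2.2, fun p hp t => ⟨fun ht => ?_, ?_⟩⟩
  · obtain ⟨⟨h1, -, h2⟩, hpU⟩ := hV p hp
    obtain ⟨hm', hdeg', -⟩ := hM p hpU
    by_contra hne
    push Not at hne
    have hc : (insert t (Finset.univ.image fun i => θ i p)).card = d + 1 := by
      rw [Finset.card_insert_of_notMem, Finset.card_image_of_injective, Finset.card_univ,
        Fintype.card_fin]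
      · intro i j hij
        by_contra hne'
        exact h2 i j hne' hij
      · intro hmem
        obtain ⟨i, -, hi⟩ := Finset.mem_image.1 hmem
        exact hne i hi.symm
    have hsub : insert t (Finset.univ.image fun i => θ i p) ⊆ (M p).roots.toFinset := by
      intro x hx
      rw [Multiset.mem_toFinset, Polynomial.mem_roots hm'.ne_zero, Polynomial.IsRoot.def]
      rcases Finset.mem_insert.1 hx with rfl | hx
      · exact ht
      · obtain ⟨i, -, rfl⟩ := Finset.mem_image.1 hx
        exact h1 i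
    have h3 := Finset.card_le_card hsub
    have h4 := (Multiset.toFinset_card_le (M p).roots).trans (Polynomial.card_roots' (M p))
    omega
  · rintro ⟨i, rfl⟩
    exact (hV p hp).1.1 i

/-- the pairs (point of `U`, root) -/
private abbrev Wt (U : Set E) (M : E → Polynomial ℂ) : Type _ :=
  {w : U × ℂ // (M (w.1 : E)).eval w.2 = 0}

private theorem sh_cov {U : Set E} (hU : IsOpen U) {d : ℕ} {M : E → Polynomial ℂ} {N : ℕ∞ω}
    (hN : N ≠ 0)
    (hM : ∀ q ∈ U, (M q).Monic ∧ (M q).natDegree = d ∧ (M q).Separable)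
    (hcoef : ∀ k, ∀ q ∈ U, ContDiffAt ℂ N (fun q => (M q).coeff k) q) :
    IsCoveringMap (fun w : Wt U M => w.1.1) := by
  classical
  intro x
  obtain ⟨V, θ, hVo, hxV, hVU, -, hθc, hθne, hθr⟩ := sh_local hU hN hM hcoef x.2
  have hπ : Continuous (fun w : Wt U M => w.1.1) := continuous_fst.comp continuous_subtype_val
  set U' : Set U := {y | (y : E) ∈ V} with hU'
  have hU'o : IsOpen U' := hVo.preimage continuous_subtype_val
  have hidx : ∀ w : (fun w : Wt U M => w.1.1) ⁻¹' U', ∃ i, w.1.1.2 = θ i (w.1.1.1 : E) :=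
    fun w => (hθr _ w.2 _).1 w.1.2
  choose idx hidx using hidx
  have hidx' : ∀ (w : (fun w : Wt U M => w.1.1) ⁻¹' U') (i : Fin d),
      idx w = i ↔ w.1.1.2 = θ i (w.1.1.1 : E) := by
    intro w i
    constructor
    · rintro rfl
      exact hidx w
    · intro h
      by_contra hne
      exact hθne _ w.2 _ _ hne ((hidx w).symm.trans h)
  have hθU : ∀ i, Continuous (fun y : U' => θ i ((y : U) : E)) := by
    intro i
    rw [continuous_iff_continuousAt]
    intro y
    have h1 := hθc i _ y.2
    exact ContinuousAt.comp (g := θ i) (f := fun y : U' => ((y : U) : E)) h1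
      (continuous_subtype_val.comp continuous_subtype_val).continuousAt
  have hcont : Continuous (fun w : (fun w : Wt U M => w.1.1) ⁻¹' U' =>
      (⟨w.1.1.1, w.2⟩ : U')) :=
    Continuous.subtype_mk (hπ.comp continuous_subtype_val) _
  have hidxc : Continuous idx := by
    rw [continuous_discrete_rng]
    intro i
    have h1 : idx ⁻¹' {i} = ⋂ j : {j : Fin d // j ≠ i},
        {w | w.1.1.2 ≠ θ j (w.1.1.1 : E)} := by
      ext w
      simp only [Set.mem_preimage, Set.mem_singleton_iff, Set.mem_iInter, Set.mem_ofPred_eq]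
      constructor
      · intro h j hj
        exact j.2 (((hidx' w j).2 hj).symm.trans h)
      · intro h
        by_contra hne
        exact h ⟨idx w, hne⟩ (hidx w)
    rw [h1]
    refine isOpen_iInter_of_finite fun j => ?_
    refine isOpen_ne_fun ?_ ?_
    · exact continuous_snd.comp (continuous_subtype_val.comp continuous_subtype_val)
    · exact (hθU j).comp hcont
  have hev : IsEvenlyCovered (fun w : Wt U M => w.1.1) x (Fin d) := by
    refine ⟨inferInstance, U', hxV, hU'o, hU'o.preimage hπ, ?_, ?_⟩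
    · refine
        { toFun := fun w => (⟨w.1.1.1, w.2⟩, idx w)
          invFun := fun z => ⟨⟨(z.1.1, θ z.2 ((z.1 : U) : E)),
            (hθr _ z.1.2 _).2 ⟨z.2, rfl⟩⟩, z.1.2⟩
          left_inv := ?_
          right_inv := ?_
          continuous_toFun := hcont.prodMk hidxc
          continuous_invFun := ?_ }
      · intro w
        apply Subtype.ext
        apply Subtype.ext
        exact Prod.ext rfl (hidx w).symm
      · rintro ⟨y, i⟩
        refine Prod.ext rfl ?_
        exact (hidx' _ _).2 rfl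
      · refine Continuous.subtype_mk (Continuous.subtype_mk ?_ _) _
        refine Continuous.prodMk (continuous_subtype_val.comp continuous_fst) ?_
        rw [continuous_prod_of_discrete_right]
        intro i
        exact hθU i
    · intro w
      rfl
  exact hev.to_isEvenlyCovered_preimage

/-- A root of a separable monic polynomial with differentiable coefficients on a convex open set. -/
theorem sheet_gen (U : Set E) (hU : IsOpen U) (hc : Convex ℝ U) (d : ℕ)
    (M : E → Polynomial ℂ) (N : ℕ∞ω) (hN : N ≠ 0)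
    (hM : ∀ q ∈ U, (M q).Monic ∧ (M q).natDegree = d ∧ (M q).Separable)
    (hcoef : ∀ k, ∀ q ∈ U, ContDiffAt ℂ N (fun q => (M q).coeff k) q) (q₀ : E) (hq₀ : q₀ ∈ U)
    (θ₀ : ℂ) (h0 : (M q₀).eval θ₀ = 0) :
    ∃ θ : E → ℂ, (∀ q ∈ U, ContDiffAt ℂ N θ q) ∧ θ q₀ = θ₀ ∧ ∀ q ∈ U, (M q).eval (θ q) = 0 := by
  classical
  have cov := sh_cov hU hN hM hcoef
  have : ContractibleSpace U := hc.contractibleSpace ⟨q₀, hq₀⟩
  have : LocallyPathConnectedSpace E := inferInstance
  have : LocallyPathConnectedSpace U := hU.locallyPathConnectedSpace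
  obtain ⟨F, ⟨hF0, hF⟩, -⟩ := cov.existsUnique_continuousMap_lifts (ContinuousMap.id U)
    ⟨q₀, hq₀⟩ ⟨(⟨q₀, hq₀⟩, θ₀), h0⟩ rfl
  have hF1 : ∀ x : U, (F x).1.1 = x := fun x => congrFun hF x
  set θ : E → ℂ := fun q => if h : q ∈ U then (F ⟨q, h⟩).1.2 else 0 with hθ
  have hθU : ∀ q (h : q ∈ U), θ q = (F ⟨q, h⟩).1.2 := fun q h => dif_pos h
  have hroot : ∀ q ∈ U, (M q).eval (θ q) = 0 := by
    intro q hq
    rw [hθU q hq]
    have h1 := (F ⟨q, hq⟩).2
    rw [hF1] at h1
    exact h1
  have hcont : ∀ q ∈ U, ContinuousAt θ q := by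
    intro q hq
    have h1 : ContinuousOn θ U := by
      rw [continuousOn_iff_continuous_domRestrict]
      have h2 : U.domRestrict θ = fun x : U => (F x).1.2 := by
        funext x
        exact hθU _ x.2
      rw [h2]
      exact continuous_snd.comp (continuous_subtype_val.comp F.continuous)
    exact h1.continuousAt (hU.mem_nhds hq)
  refine ⟨θ, fun q hq => ?_, ?_, hroot⟩
  · obtain ⟨V, η, hVo, hqV, hVU, hηd, hηc, hηne, hηr⟩ := sh_local hU hN hM hcoef hq
    obtain ⟨i, hi⟩ := (hηr q hqV _).1 (hroot q hq)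
    have hev : ∀ᶠ p in 𝓝 q, ∀ j, j ≠ i → θ p ≠ η j p := by
      refine Filter.eventually_all.2 fun j => ?_
      by_cases hij : j = i
      · exact Filter.Eventually.of_forall fun z h => absurd hij h
      · have hc : ContinuousAt (fun z => θ z - η j z) q :=
          (hcont q hq).sub (hηd j).continuousAt
        have h1 := hc.eventually_ne (sub_ne_zero.2 (show θ q ≠ η j q by
          rw [hi]
          exact hηne q hqV _ _ (Ne.symm hij)))
        filter_upwards [h1] with z hz _
        exact sub_ne_zero.1 hz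
    have heq : θ =ᶠ[𝓝 q] η i := by
      filter_upwards [hev, hVo.mem_nhds hqV] with p hp hpV
      obtain ⟨j, hj⟩ := (hηr p hpV _).1 (hroot p (hVU hpV))
      by_cases hji : j = i
      · rw [hj, hji]
      · exact absurd hj (hp j hji)
    exact (hηd i).congr_of_eventuallyEq heq
  · rw [hθU q₀ hq₀, hF0]

end Pool.Agent.EXG
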