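import Mathlib
import Pool.Agent.EXG.SheetG

/-!
# EXG / Sheet: roots of a separable family over a convex open set

PROOF.  `sheet_gen` for the coefficients of `M`, which are polynomials in `u`.
-/

set_option autoImplicit false

namespace Pool.Agent.EXG

open MvPolynomial

theorem sheet {σ : Type} [Fintype σ] (M : Polynomial (MvPolynomial σ ℂ)) (hM : M.Monic)
    (Om : Set (σ → ℂ)) (hOm : IsOpen Om) (hconv : Convex ℝ Om)
    (hsep : ∀ u ∈ Om, (M.map (eval u)).Separable) (u₀ : σ → ℂ) (hu₀ : u₀ ∈ Om) (θ₀ : ℂ)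
    (hθ₀ : (M.map (eval u₀)).eval θ₀ = 0) :
    ∃ θ : (σ → ℂ) → ℂ, DifferentiableOn ℂ θ Om ∧ θ u₀ = θ₀ ∧
      ∀ u ∈ Om, (M.map (eval u)).eval (θ u) = 0 := by
  have hpol : ∀ P : MvPolynomial σ ℂ, ContDiff ℂ 1 fun u : σ → ℂ => eval u P := by
    intro P
    induction P using MvPolynomial.induction_on with
    | C a =>
      simp only [eval_C]
      exact contDiff_const
    | add p q hp hq =>
      simp only [map_add]
      exact hp.add hq
    | mul_X p i hp =>
      simp only [map_mul, eval_X]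
      exact hp.mul (contDiff_apply ℂ ℂ i)
  obtain ⟨θ, h1, h2, h3⟩ := sheet_gen Om hOm hconv M.natDegree (fun u => M.map (eval u)) 1
    one_ne_zero (fun u hu => ⟨hM.map _, hM.natDegree_map _, hsep u hu⟩)
    (fun k u hu => by
      simp only [Polynomial.coeff_map]
      exact (hpol _).contDiffAt) u₀ hu₀ θ₀ hθ₀
  exact ⟨θ, fun u hu => ((h1 u hu).differentiableAt one_ne_zero).differentiableWithinAt, h2, h3⟩

end Pool.Agent.EXG
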