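import Pool.Agent.EXG.Sheet
import Pool.Agent.EXG.Defs

/-!
# EXG / Sheets: the holomorphic sheet of `V` through a given point

PROOF.  `sheet` for `pr.M` mapped to `ℂ` (`(pr.M.map (map (algebraMap k ℂ))).map (eval u) = pr.M.map (sp k u)`), `u₀ = bs i x y`,
`θ₀ = Q(x, y)` (`pr.root`). `Y u q = B_q(u, θ(u)) / Dl(u)`: at `u₀` it is the point by `pr.coord`; `pr.spec`, `pr.ne_zero`,
`pr.Bz`, `pr.Bx`.
-/

set_option autoImplicit false

namespace Pool.Agent.EXG

open MvPolynomial Pool.Agent.EXI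

private lemma diff_aeval {k : Subfield ℂ} {σ : Type} [Fintype σ] (p : MvPolynomial σ k) :
    Differentiable ℂ fun u : σ → ℂ => aeval u p := by
  induction p using MvPolynomial.induction_on with
  | C a =>
    simp only [algHom_C]
    exact differentiable_const _
  | add p q hp hq =>
    simp only [map_add]
    exact hp.add hq
  | mul_X p i hp =>
    simp only [map_mul, aeval_X]
    exact hp.mul (differentiable_apply i)

private lemma evm_eq {k : Subfield ℂ} {σ : Type} (p : Polynomial (MvPolynomial σ k)) (u : σ → ℂ)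
    (θ : ℂ) :
    evm p u θ = ∑ n ∈ Finset.range (p.natDegree + 1), aeval u (p.coeff n) * θ ^ n := by
  unfold evm
  rw [Polynomial.eval_map, Polynomial.eval₂_eq_sum_range]
  rfl

private lemma evm_C {k : Subfield ℂ} {σ : Type} (c : MvPolynomial σ k) (u : σ → ℂ) (θ : ℂ) :
    evm (Polynomial.C c) u θ = aeval u c := by
  unfold evm
  rw [Polynomial.map_C, Polynomial.eval_C]
  rfl

private lemma map_map_eval {k : Subfield ℂ} {σ : Type} (p : Polynomial (MvPolynomial σ k))
    (u : σ → ℂ) :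
    (p.map (MvPolynomial.map (algebraMap k ℂ))).map (eval u) = p.map (sp k u) := by
  rw [Polynomial.map_map]
  have h : (eval u).comp (MvPolynomial.map (algebraMap k ℂ)) = sp k u := by
    refine RingHom.ext fun c => ?_
    change eval u (MvPolynomial.map (algebraMap k ℂ) c) = aeval u c
    rw [aeval_def, eval_map]
  rw [h]

theorem sheets {k : Subfield ℂ} {m : ℕ} {a b : Fin (m + 1) → ℂ} {i : Fin (m + 1)}
    (pr : Prim k a b i) (Om : Set (Option (Fin m) → ℂ)) (hOm : IsOpen Om) (hconv : Convex ℝ Om)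
    (hDl : ∀ u ∈ Om, aeval u pr.Dl ≠ 0) (x y : Fin (m + 1) → ℂ)
    (hxy : Spec k (Sum.elim a b) (Sum.elim x y)) (hu : bs i x y ∈ Om) :
    ∃ Y : (Option (Fin m) → ℂ) → Fin (m + 1) ⊕ Fin (m + 1) → ℂ,
      (∀ q, DifferentiableOn ℂ (fun u => Y u q) Om) ∧ Y (bs i x y) = Sum.elim x y ∧
      ∀ u ∈ Om, Spec k (Sum.elim a b) (Y u) ∧ (∀ j, Y u (Sum.inr j) ≠ 0) ∧
        Y u (Sum.inr i) = u none ∧ ∀ j : Fin m, Y u (Sum.inl j.succ) = u (some j) := by
  obtain ⟨θ, hθd, hθ0, hθ⟩ := sheet (pr.M.map (MvPolynomial.map (algebraMap k ℂ)))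
    (pr.monic.map _) Om hOm hconv
    (fun u hu => by rw [map_map_eval]; exact pr.sep u (hDl u hu)) (bs i x y) hu
    (aeval (Sum.elim x y) pr.Q) (by rw [map_map_eval]; exact pr.root x y hxy)
  have hev : ∀ u ∈ Om, evm pr.M u (θ u) = 0 := by
    intro u hu
    have := hθ u hu
    rw [map_map_eval] at this
    exact this
  refine ⟨fun u q => evm (pr.B q) u (θ u) / aeval u pr.Dl, fun q => ?_, ?_, fun u hu' => ?_⟩
  · have h1 : DifferentiableOn ℂ (fun u => evm (pr.B q) u (θ u)) Om := by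
      simp only [evm_eq]
      refine DifferentiableOn.fun_sum fun n _ => ?_
      exact ((diff_aeval _).differentiableOn).mul (hθd.pow n)
    have h2 : DifferentiableOn ℂ (fun u : Option (Fin m) → ℂ => (aeval u pr.Dl)⁻¹) Om :=
      fun u hu' => (((diff_aeval pr.Dl) u).fun_inv (hDl u hu')).differentiableWithinAt
    simp only [div_eq_mul_inv]
    exact h1.mul h2
  · funext q
    simp only []
    rw [hθ0, ← pr.coord x y hxy q, mul_div_cancel_left₀ _ (hDl _ hu)]
  · have hD := hDl u hu'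
    refine ⟨pr.spec u (θ u) hD (hev u hu'), fun j => ?_, ?_, fun j => ?_⟩
    · exact div_ne_zero (pr.ne_zero u (θ u) hD (hev u hu') j) hD
    · change evm (pr.B (Sum.inr i)) u (θ u) / aeval u pr.Dl = u none
      rw [pr.Bz, evm_C, map_mul, aeval_X, mul_div_cancel_left₀ _ hD]
    · change evm (pr.B (Sum.inl j.succ)) u (θ u) / aeval u pr.Dl = u (some j)
      rw [pr.Bx, evm_C, map_mul, aeval_X, mul_div_cancel_left₀ _ hD]

end Pool.Agent.EXG
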