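import Pool.Agent.EXG.Defs

/-!
# EXG / Slope: algebraic functions near `z = 0`

PROOF.  For `P = ∑_e p_e(z) Y^e`, `p_e(z) ~ α_e z^{n_e}` for `p_e ≠ 0`. If `P(z, y) = 0`, `y ≠ 0` and `z ≠ 0` is small,
the largest term `e` and some other term `e'` are comparable (up to the number of terms), so
`(n_e - n_{e'}) log ‖z‖ + (e - e') log ‖y‖ = O(1)`: `log ‖y‖ = r log ‖z‖ + O(1)` with `r` in a finite set of rational
numbers (`slope_one`). So `∑ c_j log ‖y_j‖ = (∑ c_j r_j) log ‖z‖ + O(1)` with finitely many possible `r`, `r_{i0} = 1`,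
and `∑ c_j r_j ≠ 0` (clear denominators, `hc`).
-/

set_option autoImplicit false

namespace Pool.Agent.EXG

open Topology Filter

private theorem slope_poly (q : Polynomial ℂ) (hq : q ≠ 0) : ∃ (k : ℕ) (A : ℝ),
    ∀ᶠ z in 𝓝[≠] (0 : ℂ), q.eval z ≠ 0 ∧ |Real.log ‖q.eval z‖ - k * Real.log ‖z‖| ≤ A := by
  obtain ⟨s, hs, hsd⟩ := Polynomial.exists_eq_pow_rootMultiplicity_mul_and_not_dvd q hq 0
  obtain ⟨k, hk⟩ : ∃ k, k = Polynomial.rootMultiplicity 0 q := ⟨_, rfl⟩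
  rw [← hk, Polynomial.C_0, sub_zero] at hs
  have hs0 : s.eval 0 ≠ 0 := fun h => hsd (Polynomial.dvd_iff_isRoot.2 h)
  have hc : ContinuousAt (fun z : ℂ => Real.log ‖s.eval z‖) 0 :=
    ContinuousAt.log s.continuous.continuousAt.norm (norm_ne_zero_iff.2 hs0)
  have h1 : ∀ᶠ z in 𝓝 (0 : ℂ), |Real.log ‖s.eval z‖| < |Real.log ‖s.eval 0‖| + 1 :=
    hc.abs.eventually_lt_const (by linarith)
  have h2 : ∀ᶠ z in 𝓝 (0 : ℂ), s.eval z ≠ 0 := s.continuous.continuousAt.eventually_ne hs0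
  refine ⟨k, |Real.log ‖s.eval 0‖| + 1, ?_⟩
  filter_upwards [h1.filter_mono nhdsWithin_le_nhds, h2.filter_mono nhdsWithin_le_nhds,
    self_mem_nhdsWithin] with z hz1 hz2 hz3
  have hz : z ≠ 0 := hz3
  have he : q.eval z = z ^ k * s.eval z := by
    conv_lhs => rw [hs]
    simp
  refine ⟨?_, ?_⟩
  · rw [he]
    exact mul_ne_zero (pow_ne_zero _ hz) hz2
  · rw [he, norm_mul, norm_pow, Real.log_mul (pow_ne_zero _ (norm_ne_zero_iff.2 hz))
      (norm_ne_zero_iff.2 hz2), Real.log_pow, add_sub_cancel_left]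
    exact hz1.le

private theorem slope_ev (P : Polynomial (Polynomial ℂ)) (z y : ℂ) :
    EXP.ev P z y = ∑ e ∈ P.support, (P.coeff e).eval z * y ^ e := by
  unfold EXP.ev
  rw [Polynomial.eval_map, Polynomial.eval₂_eq_sum, Polynomial.sum_def]
  rfl

private theorem slope_one (P : Polynomial (Polynomial ℂ)) (hP : P ≠ 0) :
    ∃ (R : Finset ℚ) (C : ℝ), ∀ᶠ z in 𝓝[≠] (0 : ℂ), ∀ y : ℂ, y ≠ 0 → EXP.ev P z y = 0 →
      ∃ r ∈ R, |Real.log ‖y‖ - r * Real.log ‖z‖| ≤ C := by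
  classical
  have hsup : P.support.Nonempty := Polynomial.support_nonempty.2 hP
  have hco : ∀ e : ℕ, ∃ (k : ℕ) (A : ℝ), e ∈ P.support → ∀ᶠ z in 𝓝[≠] (0 : ℂ),
      (P.coeff e).eval z ≠ 0 ∧ |Real.log ‖(P.coeff e).eval z‖ - k * Real.log ‖z‖| ≤ A := by
    intro e
    by_cases he : e ∈ P.support
    · obtain ⟨k, A, h⟩ := slope_poly (P.coeff e) (Polynomial.mem_support_iff.1 he)
      exact ⟨k, A, fun _ => h⟩
    · exact ⟨0, 0, fun h => absurd h he⟩
  choose k A hkA using hco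
  obtain ⟨A₀, hA₀⟩ : ∃ A₀ : ℝ, ∀ e ∈ P.support, A e ≤ A₀ := by
    refine ⟨∑ e ∈ P.support, |A e|, fun e he => (le_abs_self _).trans ?_⟩
    exact Finset.single_le_sum (f := fun e => |A e|) (fun e _ => abs_nonneg _) he
  have hev : ∀ᶠ z in 𝓝[≠] (0 : ℂ), ∀ e ∈ P.support, (P.coeff e).eval z ≠ 0 ∧
      |Real.log ‖(P.coeff e).eval z‖ - k e * Real.log ‖z‖| ≤ A e :=
    (Filter.eventually_all_finset P.support).2 fun e he => hkA e he
  refine ⟨(P.support ×ˢ P.support).image fun p : ℕ × ℕ =>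
    -(((k p.1 : ℚ) - k p.2) / ((p.1 : ℚ) - p.2)),
    Real.log (P.support.card) + A₀ + A₀, ?_⟩
  filter_upwards [hev] with z hz y hy h0
  rw [slope_ev] at h0
  obtain ⟨e, he, hmax⟩ := P.support.exists_max_image
    (fun e => ‖(P.coeff e).eval z * y ^ e‖) hsup
  have hpos : ∀ e ∈ P.support, 0 < ‖(P.coeff e).eval z * y ^ e‖ := fun e he =>
    norm_pos_iff.2 (mul_ne_zero (hz e he).1 (pow_ne_zero _ hy))
  have hcard : (0 : ℝ) < P.support.card := by exact_mod_cast hsup.card_pos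
  -- a second large term
  obtain ⟨e', he', hne, hlarge⟩ : ∃ e' ∈ P.support, e' ≠ e ∧
      ‖(P.coeff e).eval z * y ^ e‖ ≤ P.support.card * ‖(P.coeff e').eval z * y ^ e'‖ := by
    by_contra hcon
    push Not at hcon
    have h1 : (P.coeff e).eval z * y ^ e =
        -∑ e' ∈ P.support.erase e, (P.coeff e').eval z * y ^ e' := by
      rw [← Finset.add_sum_erase _ _ he] at h0
      exact eq_neg_of_add_eq_zero_left h0
    have h2 : ‖(P.coeff e).eval z * y ^ e‖ ≤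
        ∑ e' ∈ P.support.erase e, ‖(P.coeff e').eval z * y ^ e'‖ := by
      conv_lhs => rw [h1, norm_neg]
      exact norm_sum_le _ _
    have h3 : ∑ e' ∈ P.support.erase e, ‖(P.coeff e').eval z * y ^ e'‖ ≤
        ∑ _e' ∈ P.support.erase e, ‖(P.coeff e).eval z * y ^ e‖ / P.support.card := by
      refine Finset.sum_le_sum fun e' he' => ?_
      have := hcon e' (Finset.mem_of_mem_erase he') (Finset.ne_of_mem_erase he')
      rw [le_div_iff₀ hcard]
      linarith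
    rw [Finset.sum_const, nsmul_eq_mul, Finset.card_erase_of_mem he] at h3
    have h4 : ((P.support.card - 1 : ℕ) : ℝ) = P.support.card - 1 := by
      rw [Nat.cast_sub hsup.card_pos]
      simp
    rw [h4] at h3
    have h5 := hpos e he
    have h6 : ((P.support.card : ℝ) - 1) * (‖(P.coeff e).eval z * y ^ e‖ / P.support.card) <
        ‖(P.coeff e).eval z * y ^ e‖ := by
      rw [mul_div_assoc', div_lt_iff₀ hcard]
      nlinarith
    linarith
  refine ⟨-(((k e : ℚ) - k e') / ((e : ℚ) - e')), Finset.mem_image.2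
    ⟨(e, e'), Finset.mem_product.2 ⟨he, he'⟩, rfl⟩, ?_⟩
  have hyn : ‖y‖ ≠ 0 := norm_ne_zero_iff.2 hy
  have hlog : ∀ e ∈ P.support, Real.log ‖(P.coeff e).eval z * y ^ e‖ =
      Real.log ‖(P.coeff e).eval z‖ + e * Real.log ‖y‖ := by
    intro e he
    rw [norm_mul, norm_pow, Real.log_mul (norm_ne_zero_iff.2 (hz e he).1)
      (pow_ne_zero _ hyn), Real.log_pow]
  have hl1 : Real.log ‖(P.coeff e').eval z * y ^ e'‖ ≤
      Real.log ‖(P.coeff e).eval z * y ^ e‖ :=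
    Real.log_le_log (hpos e' he') (hmax e' he')
  have hl2 : Real.log ‖(P.coeff e).eval z * y ^ e‖ ≤
      Real.log P.support.card + Real.log ‖(P.coeff e').eval z * y ^ e'‖ := by
    rw [← Real.log_mul hcard.ne' (hpos e' he').ne']
    exact Real.log_le_log (hpos e he) hlarge
  rw [hlog e he, hlog e' he'] at hl1 hl2
  have ha1 := abs_le.1 ((hz e he).2.trans (hA₀ e he))
  have ha2 := abs_le.1 ((hz e' he').2.trans (hA₀ e' he'))
  have hmain : |((e : ℝ) - e') * Real.log ‖y‖ + ((k e : ℝ) - k e') * Real.log ‖z‖| ≤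
      Real.log P.support.card + A₀ + A₀ := by
    have hlc : 0 ≤ Real.log P.support.card := by
      refine Real.log_nonneg ?_
      exact_mod_cast hsup.card_pos
    rw [abs_le]
    constructor
    · nlinarith [ha1.1, ha1.2, ha2.1, ha2.2]
    · nlinarith [ha1.1, ha1.2, ha2.1, ha2.2]
  have hd : (e : ℝ) - e' ≠ 0 := by
    rw [sub_ne_zero]
    exact_mod_cast hne.symm
  have hd1 : 1 ≤ |(e : ℝ) - e'| := by
    have h1 : (e : ℤ) - e' ≠ 0 := by
      rw [sub_ne_zero]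
      exact_mod_cast hne.symm
    have h2 : 1 ≤ |(e : ℤ) - e'| := Int.one_le_abs h1
    have h3 : ((|(e : ℤ) - e'| : ℤ) : ℝ) = |(e : ℝ) - e'| := by push_cast; rfl
    rw [← h3]
    exact_mod_cast h2
  have heq : Real.log ‖y‖ - ((-(((k e : ℚ) - k e') / ((e : ℚ) - e')) : ℚ) : ℝ) *
      Real.log ‖z‖ =
      (((e : ℝ) - e') * Real.log ‖y‖ + ((k e : ℝ) - k e') * Real.log ‖z‖) / ((e : ℝ) - e') := by
    push_cast
    field_simp
    ring
  rw [heq, abs_div]
  exact (div_le_self (abs_nonneg _) hd1).trans hmain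

private theorem slope_ne {n : ℕ} (c : Fin n → ℝ)
    (hc : ∀ v : Fin n → ℤ, v ≠ 0 → ∑ j, c j * v j ≠ 0) (r : Fin n → ℚ) (hr : r ≠ 0) :
    ∑ j, c j * (r j : ℝ) ≠ 0 := by
  classical
  set N : ℕ := ∏ j, (r j).den with hN
  have hN0 : N ≠ 0 := Finset.prod_ne_zero_iff.2 fun j _ => (r j).den_ne_zero
  have hint : ∀ j, ∃ v : ℤ, (v : ℚ) = N * r j := by
    intro j
    obtain ⟨t, ht⟩ : (r j).den ∣ N := Finset.dvd_prod_of_mem _ (Finset.mem_univ j)
    refine ⟨t * (r j).num, ?_⟩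
    rw [ht]
    push_cast
    have h1 : (r j : ℚ) * (r j).den = (r j).num := Rat.mul_den_eq_num (r j)
    rw [← h1]
    ring
  choose v hv using hint
  have hv0 : v ≠ 0 := by
    intro h
    apply hr
    funext j
    have h1 := hv j
    rw [h] at h1
    simp only [Pi.zero_apply, Int.cast_zero] at h1
    rcases mul_eq_zero.1 h1.symm with h2 | h2
    · exact absurd (by exact_mod_cast h2) hN0
    · exact h2
  intro h
  apply hc v hv0
  have h1 : ∀ j, (v j : ℝ) = N * (r j : ℝ) := by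
    intro j
    have := congrArg (fun q : ℚ => (q : ℝ)) (hv j)
    push_cast at this
    exact this
  calc ∑ j, c j * (v j : ℝ) = ∑ j, (N : ℝ) * (c j * (r j : ℝ)) := by
        refine Finset.sum_congr rfl fun j _ => ?_
        rw [h1 j]
        ring
    _ = 0 := by rw [← Finset.mul_sum, h, mul_zero]

theorem slope {n : ℕ} (c : Fin n → ℝ) (hc : ∀ v : Fin n → ℤ, v ≠ 0 → ∑ j, c j * v j ≠ 0)
    (P : Fin n → Polynomial (Polynomial ℂ)) (hP : ∀ j, P j ≠ 0) (i0 : Fin n) (B : ℝ) :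
    ∃ ε : ℝ, 0 < ε ∧ ∀ (z : ℂ) (y : Fin n → ℂ), z ≠ 0 → ‖z‖ < ε → (∀ j, y j ≠ 0) →
      (∀ j, EXP.ev (P j) z (y j) = 0) → y i0 = z → B < |∑ j, c j * Real.log ‖y j‖| := by
  classical
  choose R C hRC using fun j => slope_one (P j) (hP j)
  obtain ⟨K, hK⟩ : ∃ K : ℝ, K = ∑ j, |c j| * |C j| := ⟨_, rfl⟩
  -- the finite set of slopes
  set S : Finset (Fin n → ℚ) := (Fintype.piFinset fun j => insert 1 (R j)).filter
    fun r => r i0 = 1 with hS
  have hlog : Tendsto (fun z : ℂ => |Real.log ‖z‖|) (𝓝[≠] 0) atTop := by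
    refine tendsto_abs_atBot_atTop.comp (Real.tendsto_log_nhdsGT_zero.comp ?_)
    exact tendsto_norm_nhdsNE_zero
  have hfin : ∀ᶠ z in 𝓝[≠] (0 : ℂ), ∀ r ∈ S,
      B + K < |∑ j, c j * (r j : ℝ)| * |Real.log ‖z‖| := by
    refine (Filter.eventually_all_finset S).2 fun r hr => ?_
    have hr1 : r i0 = 1 := (Finset.mem_filter.1 hr).2
    have hr0 : r ≠ 0 := by
      intro h
      rw [h] at hr1
      simp at hr1
    have hpos : 0 < |∑ j, c j * (r j : ℝ)| := abs_pos.2 (slope_ne c hc r hr0)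
    exact (hlog.const_mul_atTop hpos).eventually_gt_atTop (B + K)
  have hall : ∀ᶠ z in 𝓝[≠] (0 : ℂ), (∀ j, ∀ y : ℂ, y ≠ 0 → EXP.ev (P j) z y = 0 →
      ∃ r ∈ R j, |Real.log ‖y‖ - r * Real.log ‖z‖| ≤ C j) ∧
      ∀ r ∈ S, B + K < |∑ j, c j * (r j : ℝ)| * |Real.log ‖z‖| :=
    (eventually_all.2 hRC).and hfin
  rw [eventually_nhdsWithin_iff, Metric.eventually_nhds_iff_ball] at hall
  obtain ⟨ε, hε, h⟩ := hall
  refine ⟨ε, hε, fun z y hz hzε hy hev hyz => ?_⟩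
  obtain ⟨h1, h2⟩ := h z (mem_ball_zero_iff.2 hzε) hz
  have h3 : ∀ j, ∃ r : ℚ, r ∈ insert 1 (R j) ∧ (j = i0 → r = 1) ∧
      |Real.log ‖y j‖ - r * Real.log ‖z‖| ≤ |C j| := by
    intro j
    by_cases hj : j = i0
    · subst hj
      refine ⟨1, Finset.mem_insert_self _ _, fun _ => rfl, ?_⟩
      rw [hyz]
      simp
    · obtain ⟨r, hr, hrC⟩ := h1 j (y j) (hy j) (hev j)
      exact ⟨r, Finset.mem_insert_of_mem hr, fun h => absurd h hj, hrC.trans (le_abs_self _)⟩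
  choose r hr1 hr2 hr3 using h3
  have hrS : r ∈ S := Finset.mem_filter.2 ⟨Fintype.mem_piFinset.2 hr1, hr2 i0 rfl⟩
  have h4 := h2 r hrS
  have h5 : ∑ j, c j * Real.log ‖y j‖ = (∑ j, c j * (r j : ℝ)) * Real.log ‖z‖ +
      ∑ j, c j * (Real.log ‖y j‖ - r j * Real.log ‖z‖) := by
    rw [Finset.sum_mul, ← Finset.sum_add_distrib]
    exact Finset.sum_congr rfl fun j _ => by ring
  have h6 : |∑ j, c j * (Real.log ‖y j‖ - r j * Real.log ‖z‖)| ≤ K := by
    rw [hK]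
    refine (Finset.abs_sum_le_sum_abs _ _).trans (Finset.sum_le_sum fun j _ => ?_)
    rw [abs_mul]
    exact mul_le_mul_of_nonneg_left (hr3 j) (abs_nonneg _)
  rw [h5]
  have h7 : |(∑ j, c j * (r j : ℝ)) * Real.log ‖z‖| -
      |∑ j, c j * (Real.log ‖y j‖ - r j * Real.log ‖z‖)| ≤
      |(∑ j, c j * (r j : ℝ)) * Real.log ‖z‖ +
        ∑ j, c j * (Real.log ‖y j‖ - r j * Real.log ‖z‖)| := by
    have := abs_sub_abs_le_abs_sub ((∑ j, c j * (r j : ℝ)) * Real.log ‖z‖)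
      (-∑ j, c j * (Real.log ‖y j‖ - r j * Real.log ‖z‖))
    rwa [abs_neg, sub_neg_eq_add] at this
  rw [abs_mul] at h7
  linarith

end Pool.Agent.EXG
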