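import Mathlib

/-!
# EXG / Surj: a linear form on a piece of a curve is onto a disc

`Z` closed, `0 ∈ Z`, `m₀ ≤ ‖ℓ η‖` on the sphere of radius `ρ`; through every point of `Z` in the open ball
there is an analytic disc in `Z` on which `ℓ` is not constant: then `ℓ` maps `Z ∩ closedBall 0 ρ` onto the
disc of radius `m₀` (the image is closed and open in the disc: open mapping theorem).
-/

set_option autoImplicit false

namespace Pool.Agent.EXG

open Topology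

theorem surj_of_disc {E : Type*} [NormedAddCommGroup E] [NormedSpace ℂ E] [ProperSpace E]
    (Z : Set E) (hZ : IsClosed Z) (l : E →L[ℂ] ℂ) (ρ m₀ : ℝ) (hρ : 0 < ρ) (hm : 0 < m₀)
    (h0 : (0 : E) ∈ Z) (hb : ∀ η ∈ Z, ‖η‖ = ρ → m₀ ≤ ‖l η‖)
    (hd : ∀ η ∈ Z, ‖η‖ < ρ → ∃ φ : ℂ → E, φ 0 = η ∧ AnalyticAt ℂ φ 0 ∧
      (∀ᶠ t in 𝓝 (0 : ℂ), φ t ∈ Z) ∧ ¬ ∀ᶠ t in 𝓝 (0 : ℂ), l (φ t) = l η) :
    Metric.ball (0 : ℂ) m₀ ⊆ l '' (Z ∩ Metric.closedBall 0 ρ) := by
  have hcomp : IsCompact (Z ∩ Metric.closedBall (0 : E) ρ) :=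
    (isCompact_closedBall 0 ρ).inter_left hZ
  have hclosed : IsClosed (l '' (Z ∩ Metric.closedBall (0 : E) ρ)) :=
    (hcomp.image l.continuous).isClosed
  have hint : ∀ t ∈ Metric.ball (0 : ℂ) m₀, t ∈ l '' (Z ∩ Metric.closedBall (0 : E) ρ) →
      t ∈ interior (l '' (Z ∩ Metric.closedBall (0 : E) ρ)) := by
    rintro t ht ⟨η, ⟨hηZ, hηρ⟩, rfl⟩
    rw [mem_ball_zero_iff] at ht
    rw [mem_closedBall_zero_iff] at hηρ
    have hlt : ‖η‖ < ρ := by
      refine lt_of_le_of_ne hηρ fun h => ?_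
      exact absurd (hb η hηZ h) (not_le.2 ht)
    obtain ⟨φ, hφ0, hφa, hφZ, hφc⟩ := hd η hηZ hlt
    have hga : AnalyticAt ℂ (fun t => l (φ t)) 0 := by
      have h1 := (l.analyticAt (φ 0)).comp hφa
      exact h1
    rcases hga.eventually_constant_or_nhds_le_map_nhds with h | h
    · exfalso
      apply hφc
      filter_upwards [h] with t ht'
      rw [ht', hφ0]
    · rw [mem_interior_iff_mem_nhds]
      have h2 : ∀ᶠ t in 𝓝 (0 : ℂ), ‖φ t‖ < ρ := by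
        refine hφa.continuousAt.norm.eventually (gt_mem_nhds ?_)
        show ‖φ 0‖ < ρ
        rw [hφ0]
        exact hlt
      have h3 : (fun t => l (φ t)) '' {t | φ t ∈ Z ∧ ‖φ t‖ < ρ} ∈ 𝓝 (l η) := by
        have h4 : (fun t => l (φ t)) '' {t | φ t ∈ Z ∧ ‖φ t‖ < ρ} ∈
            Filter.map (fun t => l (φ t)) (𝓝 0) :=
          Filter.image_mem_map (hφZ.and h2)
        have h5 := h h4
        rwa [hφ0] at h5
      refine Filter.mem_of_superset h3 ?_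
      rintro _ ⟨t, ⟨ht1, ht2⟩, rfl⟩
      exact ⟨φ t, ⟨ht1, mem_closedBall_zero_iff.2 ht2.le⟩, rfl⟩
  have hpre : IsPreconnected (Metric.ball (0 : ℂ) m₀) := (convex_ball 0 m₀).isPreconnected
  have h0b : (0 : ℂ) ∈ Metric.ball (0 : ℂ) m₀ := Metric.mem_ball_self hm
  have h0i : (0 : ℂ) ∈ l '' (Z ∩ Metric.closedBall (0 : E) ρ) :=
    ⟨0, ⟨h0, mem_closedBall_zero_iff.2 (by rw [norm_zero]; exact hρ.le)⟩, map_zero l⟩
  have hsub := hpre.subset_of_closure_inter_subset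
    (isOpen_interior (s := l '' (Z ∩ Metric.closedBall (0 : E) ρ)))
    ⟨0, h0b, hint 0 h0b h0i⟩ (by
      rintro t ⟨ht1, ht2⟩
      exact hint t ht2 (hclosed.closure_subset_iff.2 interior_subset ht1))
  exact hsub.trans interior_subset

end Pool.Agent.EXG
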