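import Pool.Agent.EXG.Ax
import Pool.Agent.EXG.SurjDisc
import Pool.Agent.EXP.LocA

/-!
# EXG / SurjC: uniform surjectivity on an open and closed part of a plane curve

PROOF.  `surj_disc` for `G = {η | ∃ q ∈ S0, ∀ j, y j * exp (η j) = A_j(q) / D(q)}`, `K = closure G ∩ {‖η_j‖ ≤ ρ}`,
`B = {η | y_{i0} exp(η_{i0}) ∈ S}`.
Discs: `η ∈ G`, `q = (z, θ)`, `z ∉ S`; `local_roots` gives an analytic root `θ(z')` through `θ`, in `S0` for `z'` near `z`
(`S0 = crv ∩ U`), `Y_j(z') = A_j(z', θ(z')) / D(z')` is analytic, not zero, `Y_{i0}(z') = z'` and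
`η_j(z')` = the analytic logarithm of `Y_j(z') / y_j` with value `η_j` at `z`. `∑ c_j η_j(z')` is not locally constant by
`ax` (each `Y_j` is a root of a polynomial with coefficients polynomials in `z`).
`K \ B ⊆ G`: if `η ∈ closure G` and `z = y_{i0} exp(η_{i0}) ∉ S` then, near `z`, the points of the curve are on finitely
many branches `θ_i(z')`, one of which is used frequently: `(z, θ_i(z)) ∈ crv p S ∩ V = S0`. If `z ∈ S` (finitely many):
`y_j exp(η_j)` is a root of `Q(z, ·) ≠ 0` where the polynomial of `Y_j` is `(Z - z)^e Q`; so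
`exp(η_j)` is in a finite set and `η_j` in a countable set (`y_j ≠ 0`).
-/

set_option autoImplicit false

namespace Pool.Agent.EXG

open Topology

private theorem ev_eq (A : Polynomial (Polynomial ℂ)) (z t : ℂ) :
    EXP.ev A z t = A.eval₂ (Polynomial.evalRingHom z) t := by
  unfold EXP.ev
  rw [Polynomial.eval_map]

private theorem ev_add (A B : Polynomial (Polynomial ℂ)) (z t : ℂ) :
    EXP.ev (A + B) z t = EXP.ev A z t + EXP.ev B z t := by
  unfold EXP.ev
  rw [Polynomial.map_add, Polynomial.eval_add]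

private theorem ev_mono (k : ℕ) (a : Polynomial ℂ) (z t : ℂ) :
    EXP.ev (Polynomial.monomial k a) z t = a.eval z * t ^ k := by
  unfold EXP.ev
  rw [Polynomial.map_monomial, Polynomial.eval_monomial, Polynomial.coe_evalRingHom]

private theorem ev_cont (A : Polynomial (Polynomial ℂ)) :
    Continuous (fun q : ℂ × ℂ => EXP.ev A q.1 q.2) := by
  induction A using Polynomial.induction_on' with
  | add p q hp hq =>
    simp only [ev_add]
    exact hp.add hq
  | monomial k a =>
    simp only [ev_mono]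
    exact (a.continuous.comp continuous_fst).mul (continuous_snd.pow k)

private theorem ev_an (A : Polynomial (Polynomial ℂ)) {f : ℂ → ℂ} {z₀ : ℂ}
    (hf : AnalyticAt ℂ f z₀) : AnalyticAt ℂ (fun z => EXP.ev A z (f z)) z₀ := by
  induction A using Polynomial.induction_on' with
  | add p q hp hq =>
    simp only [ev_add]
    exact hp.fun_add hq
  | monomial k a =>
    simp only [ev_mono]
    exact (a.differentiable.analyticAt z₀).fun_mul (hf.fun_pow k)

private theorem exists_alg (p : Polynomial (Polynomial ℂ)) (hm : p.Monic)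
    (A : Polynomial (Polynomial ℂ)) : ∃ P : Polynomial (Polynomial ℂ), P.Monic ∧
      ∀ z t, EXP.ev p z t = 0 → EXP.ev P z (EXP.ev A z t) = 0 := by
  have hfin : Module.Finite (Polynomial ℂ) (AdjoinRoot p) := hm.finite_adjoinRoot
  obtain ⟨P, hP, hP0⟩ : IsIntegral (Polynomial ℂ) (AdjoinRoot.mk p A) :=
    IsIntegral.of_finite _ _
  refine ⟨P, hP, fun z t ht => ?_⟩
  have h1 : AdjoinRoot.mk p (P.eval₂ Polynomial.C A) = 0 := by
    rw [Polynomial.hom_eval₂]
    exact hP0
  obtain ⟨Q, hQ⟩ := AdjoinRoot.mk_eq_zero.1 h1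
  have h2 := congrArg (Polynomial.eval₂RingHom (Polynomial.evalRingHom z) t) hQ
  rw [Polynomial.hom_eval₂, map_mul] at h2
  have h3 : (Polynomial.eval₂RingHom (Polynomial.evalRingHom z) t) p = 0 := by
    rw [Polynomial.coe_eval₂RingHom, ← ev_eq, ht]
  have h4 : (Polynomial.eval₂RingHom (Polynomial.evalRingHom z) t).comp Polynomial.C =
      Polynomial.evalRingHom z := by
    ext x <;> simp
  rw [h3, zero_mul, h4, Polynomial.coe_eval₂RingHom, ← ev_eq, ← ev_eq] at h2
  exact h2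

private theorem exists_alg' (p : Polynomial (Polynomial ℂ)) (hm : p.Monic)
    (A : Polynomial (Polynomial ℂ)) (D : Polynomial ℂ) (hD : D ≠ 0) :
    ∃ P : Polynomial (Polynomial ℂ), P ≠ 0 ∧
      ∀ z t, D.eval z ≠ 0 → EXP.ev p z t = 0 → EXP.ev P z (EXP.ev A z t / D.eval z) = 0 := by
  obtain ⟨P, hP, h⟩ := exists_alg p hm A
  refine ⟨P.comp (Polynomial.C D * Polynomial.X), ?_, fun z t hz ht => ?_⟩
  · intro h0
    rcases Polynomial.comp_eq_zero_iff.1 h0 with h1 | ⟨-, h1⟩
    · exact hP.ne_zero h1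
    · have h2 := congrArg (fun q => Polynomial.coeff q 1) h1
      simp only [Polynomial.coeff_C_mul, Polynomial.coeff_X_one, mul_one,
        Polynomial.coeff_C_succ] at h2
      exact hD h2
  · have h1 := h z t ht
    unfold EXP.ev at h1 ⊢
    rw [Polynomial.map_comp, Polynomial.eval_comp]
    simp only [Polynomial.map_mul, Polynomial.map_C, Polynomial.map_X, Polynomial.eval_mul,
      Polynomial.eval_C, Polynomial.eval_X, Polynomial.coe_evalRingHom]
    rw [mul_div_cancel₀ _ hz]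
    exact h1

private theorem exists_div (P : Polynomial (Polynomial ℂ)) (hP : P ≠ 0) (s : ℂ) :
    ∃ (e : ℕ) (Q : Polynomial (Polynomial ℂ)),
      P = Polynomial.C (Polynomial.X - Polynomial.C s) ^ e * Q ∧
      Q.map (Polynomial.evalRingHom s) ≠ 0 := by
  have hu : ¬ IsUnit (Polynomial.C (Polynomial.X - Polynomial.C s) :
      Polynomial (Polynomial ℂ)) := by
    rw [Polynomial.isUnit_C]
    exact Polynomial.not_isUnit_X_sub_C s
  obtain ⟨Q, hQ, hQ2⟩ :=
    (FiniteMultiplicity.of_not_isUnit hu hP).exists_eq_pow_mul_and_not_dvd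
  refine ⟨_, Q, hQ, fun h0 => hQ2 ?_⟩
  rw [Polynomial.C_dvd_iff_dvd_coeff]
  intro k
  rw [Polynomial.dvd_iff_isRoot]
  have h1 := congrArg (fun q => Polynomial.coeff q k) h0
  simp only [Polynomial.coeff_map, Polynomial.coe_evalRingHom, Polynomial.coeff_zero] at h1
  exact h1

private theorem exp_countable (y : ℂ) (hy : y ≠ 0) (Q : Polynomial ℂ) (hQ : Q ≠ 0) :
    {ξ : ℂ | Q.eval (y * Complex.exp ξ) = 0}.Countable := by
  have h1 : ∀ w : ℂ, {z : ℂ | Complex.exp z = w}.Countable := by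
    intro w
    rcases Set.eq_empty_or_nonempty {z : ℂ | Complex.exp z = w} with h | ⟨z₀, hz₀⟩
    · rw [h]
      exact Set.countable_empty
    · refine (Set.countable_range (fun k : ℤ => z₀ + k * (2 * Real.pi * Complex.I))).mono ?_
      intro z hz
      have h2 : Complex.exp z = Complex.exp z₀ := by
        rw [Set.mem_ofPred_eq] at hz hz₀
        rw [hz, hz₀]
      obtain ⟨k, hk⟩ := Complex.exp_eq_exp_iff_exists_int.1 h2
      exact ⟨k, hk.symm⟩
  have h2 : {ξ : ℂ | Q.eval (y * Complex.exp ξ) = 0} ⊆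
      ⋃ w ∈ (Q.roots.toFinset : Set ℂ), {z : ℂ | Complex.exp z = y⁻¹ * w} := by
    intro ξ hξ
    rw [Set.mem_iUnion₂]
    refine ⟨y * Complex.exp ξ, ?_, ?_⟩
    · rw [Finset.mem_coe, Multiset.mem_toFinset, Polynomial.mem_roots hQ]
      exact hξ
    · show Complex.exp ξ = y⁻¹ * (y * Complex.exp ξ)
      rw [inv_mul_cancel_left₀ hy]
  refine Set.Countable.mono h2 ?_
  exact (Q.roots.toFinset.finite_toSet.countable).biUnion fun w _ => h1 _

/-- The points of the curve near a value outside `S`. -/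
private theorem loc_roots (p : Polynomial (Polynomial ℂ)) (hm : p.Monic) (z₀ : ℂ)
    (hsep : (p.map (Polynomial.evalRingHom z₀)).Separable) :
    ∃ (r : ℝ) (θ : Fin p.natDegree → ℂ → ℂ), 0 < r ∧
      (∀ i, ∀ z ∈ Metric.ball z₀ r, AnalyticAt ℂ (θ i) z) ∧
      ∀ z ∈ Metric.ball z₀ r, ∀ t, EXP.ev p z t = 0 ↔ ∃ i, t = θ i z := by
  obtain ⟨r, θ, hr, h1, -, h2⟩ := EXP.local_roots p hm z₀ hsep
  refine ⟨r, θ, hr, fun i z hz => (h1 i).analyticAt (Metric.isOpen_ball.mem_nhds hz), ?_⟩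
  intro z hz t
  unfold EXP.ev
  rw [h2 z hz, Polynomial.eval_prod, Finset.prod_eq_zero_iff]
  constructor
  · rintro ⟨i, -, hi⟩
    refine ⟨i, ?_⟩
    simpa [sub_eq_zero] using hi
  · rintro ⟨i, hi⟩
    exact ⟨i, Finset.mem_univ i, by simp [hi]⟩

theorem surj_curve {n : ℕ} (c : Fin n → ℝ) (hc : ∀ v : Fin n → ℤ, v ≠ 0 → ∑ j, c j * v j ≠ 0)
    (p : Polynomial (Polynomial ℂ)) (hm : p.Monic) (D : Polynomial ℂ)
    (A : Fin n → Polynomial (Polynomial ℂ)) (S : Finset ℂ) (h0S : (0 : ℂ) ∈ S)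
    (hsep : ∀ z ∉ S, (p.map (Polynomial.evalRingHom z)).Separable)
    (hD : ∀ z ∉ S, D.eval z ≠ 0)
    (hA : ∀ z ∉ S, ∀ θ, EXP.ev p z θ = 0 → ∀ j, EXP.ev (A j) z θ ≠ 0)
    (i0 : Fin n) (hi0 : ∀ z θ, EXP.ev (A i0) z θ = D.eval z * z)
    (S0 : Set (ℂ × ℂ)) (U V : Set (ℂ × ℂ)) (hU : IsOpen U) (hV : IsClosed V)
    (hSU : S0 = crv p S ∩ U) (hSV : S0 = crv p S ∩ V)
    (y : Fin n → ℂ) (hy : ∀ j, y j ≠ 0)
    (hyS : ∃ q ∈ S0, ∀ j, y j = EXP.ev (A j) q.1 q.2 / D.eval q.1)
    (W : Set (Fin n → ℂ)) (hW : IsClosed {η : Fin n → ℂ | (fun j => y j * Complex.exp (η j)) ∈ W})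
    (hSW : ∀ q ∈ S0, (fun j => EXP.ev (A j) q.1 q.2 / D.eval q.1) ∈ W)
    (ρ m0 : ℝ) (hρ : 0 < ρ) (hm0 : 0 < m0)
    (hbd : ∀ η : Fin n → ℂ, (fun j => y j * Complex.exp (η j)) ∈ W → (∀ j, ‖η j‖ ≤ ρ) →
      (∃ j, ‖η j‖ = ρ) → m0 ≤ ‖∑ j, (c j : ℂ) * η j‖)
    (t : ℂ) (ht : ‖t‖ < m0) :
    ∃ η : Fin n → ℂ, (fun j => y j * Complex.exp (η j)) ∈ W ∧ (∀ j, ‖η j‖ ≤ ρ) ∧
      ∑ j, (c j : ℂ) * η j = t := by
  classical
  -- the part of the curve
  obtain ⟨G, hG⟩ : ∃ G : Set (Fin n → ℂ), G = {η | ∃ q ∈ S0, ∀ j,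
      y j * Complex.exp (η j) = EXP.ev (A j) q.1 q.2 / D.eval q.1} := ⟨_, rfl⟩
  have hGm : ∀ η, η ∈ G ↔ ∃ q ∈ S0, ∀ j,
      y j * Complex.exp (η j) = EXP.ev (A j) q.1 q.2 / D.eval q.1 := by
    intro η; rw [hG]; rfl
  have hS0 : ∀ q ∈ S0, q.1 ∉ S ∧ EXP.ev p q.1 q.2 = 0 := by
    intro q hq
    rw [hSU] at hq
    exact hq.1
  have hzq : ∀ η : Fin n → ℂ, ∀ q ∈ S0, (∀ j,
      y j * Complex.exp (η j) = EXP.ev (A j) q.1 q.2 / D.eval q.1) →
      y i0 * Complex.exp (η i0) = q.1 := by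
    intro η q hq h
    rw [h i0, hi0, mul_div_cancel_left₀ _ (hD _ (hS0 q hq).1)]
  have hzc : Continuous (fun η : Fin n → ℂ => y i0 * Complex.exp (η i0)) := by fun_prop
  have hGW : ∀ η ∈ closure G, (fun j => y j * Complex.exp (η j)) ∈ W := by
    have h1 : G ⊆ {η : Fin n → ℂ | (fun j => y j * Complex.exp (η j)) ∈ W} := by
      intro η hη
      obtain ⟨q, hq, h⟩ := (hGm η).1 hη
      have h2 := hSW q hq
      show (fun j => y j * Complex.exp (η j)) ∈ W
      rw [funext h]
      exact h2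
    exact fun η hη => closure_minimal h1 hW hη
  have hSc : IsClosed (S : Set ℂ) := S.finite_toSet.isClosed
  -- points of the closure over good values
  have hC1 : ∀ η ∈ closure G, y i0 * Complex.exp (η i0) ∉ S → η ∈ G := by
    intro η hη hz
    obtain ⟨z, hzd⟩ : ∃ z, z = y i0 * Complex.exp (η i0) := ⟨_, rfl⟩
    rw [← hzd] at hz
    obtain ⟨r, θ, hr, hθ, hθp⟩ := loc_roots p hm z (hsep z hz)
    have hzb : z ∈ Metric.ball z r := Metric.mem_ball_self hr
    have hzt : Filter.Tendsto (fun η' : Fin n → ℂ => y i0 * Complex.exp (η' i0)) (𝓝 η) (𝓝 z) := by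
      rw [hzd]; exact hzc.continuousAt
    have hev : ∀ᶠ η' : Fin n → ℂ in 𝓝 η, y i0 * Complex.exp (η' i0) ∈ Metric.ball z r :=
      hzt.eventually_mem (Metric.ball_mem_nhds z hr)
    have hfr : ∃ᶠ η' in 𝓝 η, η' ∈ G := mem_closure_iff_frequently.1 hη
    have h1 : ∃ᶠ η' : Fin n → ℂ in 𝓝 η, ∃ i,
        (y i0 * Complex.exp (η' i0), θ i (y i0 * Complex.exp (η' i0))) ∈ S0 ∧
        ∀ j, y j * Complex.exp (η' j) = EXP.ev (A j) (y i0 * Complex.exp (η' i0))
          (θ i (y i0 * Complex.exp (η' i0))) / D.eval (y i0 * Complex.exp (η' i0)) := by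
      refine (hfr.and_eventually hev).mono ?_
      rintro η' ⟨h2, h3⟩
      obtain ⟨q, hq, h⟩ := (hGm η').1 h2
      have h4 := hzq η' q hq h
      rw [h4] at h3 ⊢
      obtain ⟨i, hi⟩ := (hθp q.1 h3 q.2).1 (hS0 q hq).2
      exact ⟨i, by rw [← hi]; exact hq, by rw [← hi]; exact h⟩
    obtain ⟨i, hi⟩ : ∃ i, ∃ᶠ η' : Fin n → ℂ in 𝓝 η,
        (y i0 * Complex.exp (η' i0), θ i (y i0 * Complex.exp (η' i0))) ∈ S0 ∧
        ∀ j, y j * Complex.exp (η' j) = EXP.ev (A j) (y i0 * Complex.exp (η' i0))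
          (θ i (y i0 * Complex.exp (η' i0))) / D.eval (y i0 * Complex.exp (η' i0)) := by
      by_contra hcon
      apply h1
      have h2 := Filter.eventually_all.2 (fun i =>
        Filter.not_frequently.1 (fun h => hcon ⟨i, h⟩))
      filter_upwards [h2] with η' h3 h4
      obtain ⟨i, hi⟩ := h4
      exact h3 i hi
    have hθc : Filter.Tendsto (fun η' : Fin n → ℂ => θ i (y i0 * Complex.exp (η' i0))) (𝓝 η)
        (𝓝 (θ i z)) := (hθ i z hzb).continuousAt.tendsto.comp hzt
    have hT : Filter.Tendsto (fun η' : Fin n → ℂ =>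
        (y i0 * Complex.exp (η' i0), θ i (y i0 * Complex.exp (η' i0)))) (𝓝 η)
        (𝓝 (z, θ i z)) := hzt.prodMk_nhds hθc
    have hmV : (z, θ i z) ∈ V := by
      refine hV.mem_of_frequently_of_tendsto (hi.mono ?_) hT
      rintro η' ⟨h2, -⟩
      rw [hSV] at h2
      exact h2.2
    have hq0 : (z, θ i z) ∈ S0 := by
      rw [hSV]
      exact ⟨⟨hz, (hθp z hzb _).2 ⟨i, rfl⟩⟩, hmV⟩
    refine (hGm η).2 ⟨(z, θ i z), hq0, fun j => ?_⟩
    have hc1 : Filter.Tendsto (fun η' : Fin n → ℂ => y j * Complex.exp (η' j)) (𝓝 η)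
        (𝓝 (y j * Complex.exp (η j))) := by
      have : Continuous (fun η' : Fin n → ℂ => y j * Complex.exp (η' j)) := by fun_prop
      exact this.continuousAt
    have hc2 : Filter.Tendsto (fun η' : Fin n → ℂ => EXP.ev (A j) (y i0 * Complex.exp (η' i0))
          (θ i (y i0 * Complex.exp (η' i0))) / D.eval (y i0 * Complex.exp (η' i0))) (𝓝 η)
        (𝓝 (EXP.ev (A j) z (θ i z) / D.eval z)) := by
      refine Filter.Tendsto.div ?_ ?_ (hD z hz)
      · exact ((ev_cont (A j)).tendsto (z, θ i z)).comp hT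
      · exact (D.continuous.tendsto z).comp hzt
    exact tendsto_nhds_unique_of_frequently_eq hc1 hc2 (hi.mono fun η' h2 => h2.2 j)
  -- the nonzero polynomial
  obtain ⟨q1, hq1, hyq⟩ := hyS
  have hD0 : D ≠ 0 := by
    intro h
    have := hD q1.1 (hS0 q1 hq1).1
    rw [h, Polynomial.eval_zero] at this
    exact this rfl
  choose P hP0 hPz using fun j => exists_alg' p hm (A j) D hD0
  -- the bad points are countable
  have hbad : {η : Fin n → ℂ | η ∈ closure G ∧ y i0 * Complex.exp (η i0) ∈ S}.Countable := by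
    choose e Q hQ hQ0 using fun (s : ℂ) (j : Fin n) => exists_div (P j) (hP0 j) s
    have h1 : {η : Fin n → ℂ | η ∈ closure G ∧ y i0 * Complex.exp (η i0) ∈ S} ⊆
        ⋃ s ∈ (S : Set ℂ), {η : Fin n → ℂ | ∀ j, η j ∈ {ξ : ℂ |
          ((Q s j).map (Polynomial.evalRingHom s)).eval (y j * Complex.exp ξ) = 0}} := by
      rintro η ⟨hη, hs⟩
      rw [Set.mem_iUnion₂]
      refine ⟨y i0 * Complex.exp (η i0), hs, fun j => ?_⟩
      obtain ⟨s, hsd⟩ : ∃ s, s = y i0 * Complex.exp (η i0) := ⟨_, rfl⟩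
      rw [← hsd] at hs ⊢
      have hcF : Continuous (fun η' : Fin n → ℂ =>
          EXP.ev (Q s j) (y i0 * Complex.exp (η' i0)) (y j * Complex.exp (η' j))) := by
        have h2 : Continuous (fun η' : Fin n → ℂ =>
            (y i0 * Complex.exp (η' i0), y j * Complex.exp (η' j))) := by fun_prop
        exact (ev_cont (Q s j)).comp h2
      have hcl : IsClosed {η' : Fin n → ℂ |
          EXP.ev (Q s j) (y i0 * Complex.exp (η' i0)) (y j * Complex.exp (η' j)) = 0} :=
        isClosed_eq hcF continuous_const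
      have hsub : G ⊆ {η' : Fin n → ℂ |
          EXP.ev (Q s j) (y i0 * Complex.exp (η' i0)) (y j * Complex.exp (η' j)) = 0} := by
        intro η' hη'
        obtain ⟨q, hq, h⟩ := (hGm η').1 hη'
        have h4 := hzq η' q hq h
        have h5 := hPz j q.1 q.2 (hD _ (hS0 q hq).1) (hS0 q hq).2
        have hne : q.1 - s ≠ 0 := by
          intro h6
          rw [sub_eq_zero] at h6
          exact (hS0 q hq).1 (by rw [h6]; exact hs)
        show EXP.ev (Q s j) (y i0 * Complex.exp (η' i0)) (y j * Complex.exp (η' j)) = 0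
        rw [h4, h j]
        rw [hQ s j] at h5
        unfold EXP.ev at h5 ⊢
        rw [Polynomial.map_mul, Polynomial.map_pow, Polynomial.map_C, Polynomial.eval_mul,
          Polynomial.eval_pow, Polynomial.eval_C] at h5
        simp only [Polynomial.coe_evalRingHom, Polynomial.eval_sub, Polynomial.eval_X,
          Polynomial.eval_C] at h5
        exact (mul_eq_zero.1 h5).resolve_left (pow_ne_zero _ hne)
      have h6 := closure_minimal hsub hcl hη
      rw [Set.mem_ofPred_eq, ← hsd] at h6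
      exact h6
    refine Set.Countable.mono h1 ?_
    exact S.finite_toSet.countable.biUnion fun s _ => Set.countable_pi fun j =>
      exp_countable (y j) (hy j) _ (hQ0 s j)
  -- the compact piece
  obtain ⟨K, hK⟩ : ∃ K : Set (Fin n → ℂ), K = closure G ∩ Metric.closedBall 0 ρ := ⟨_, rfl⟩
  have hKc : IsCompact K := by
    rw [hK]
    exact (isCompact_closedBall 0 ρ).inter_left isClosed_closure
  have hKn : ∀ η ∈ K, ∀ j, ‖η j‖ ≤ ρ := by
    intro η hη j
    rw [hK] at hη
    exact (norm_le_pi_norm η j).trans (mem_closedBall_zero_iff.1 hη.2)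
  obtain ⟨B, hB⟩ : ∃ B : Set (Fin n → ℂ), B = {η | y i0 * Complex.exp (η i0) ∈ S} := ⟨_, rfl⟩
  have hBm : ∀ η, η ∈ B ↔ y i0 * Complex.exp (η i0) ∈ S := by intro η; rw [hB]; rfl
  have hBc : IsClosed B := by rw [hB]; exact hSc.preimage hzc
  have hLc : Continuous (fun η : Fin n → ℂ => ∑ j, (c j : ℂ) * η j) := by fun_prop
  have hKB : (K ∩ B).Countable := by
    refine hbad.mono ?_
    rintro η ⟨h1, h2⟩
    rw [hK] at h1
    exact ⟨h1.1, (hBm η).1 h2⟩
  have h0G : (0 : Fin n → ℂ) ∈ G := by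
    refine (hGm 0).2 ⟨q1, hq1, fun j => ?_⟩
    rw [Pi.zero_apply, Complex.exp_zero, mul_one]
    exact hyq j
  obtain ⟨η, hη, hηt⟩ := surj_disc K B hKc (fun η => ∑ j, (c j : ℂ) * η j) hLc.continuousOn
    (hKB.image _) ((hKc.inter_right hBc).image hLc).isClosed m0
    ⟨0, by
      rw [hK]
      exact ⟨subset_closure h0G, by simp [hρ.le]⟩, by
      rw [hBm]
      rw [hzq 0 q1 hq1 (fun j => by
        rw [Pi.zero_apply, Complex.exp_zero, mul_one]; exact hyq j)]
      exact (hS0 q1 hq1).1, by simpa using hm0⟩ (by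
      -- discs
      intro η hη hηB hηL
      have hηcl : η ∈ closure G := by rw [hK] at hη; exact hη.1
      have hlt : ∀ j, ‖η j‖ < ρ := by
        intro j
        refine lt_of_le_of_ne (hKn η hη j) fun h => ?_
        exact absurd (hbd η (hGW η hηcl) (hKn η hη) ⟨j, h⟩) (not_le.2 hηL)
      rw [hBm] at hηB
      obtain ⟨q, hq, hqj⟩ := (hGm η).1 (hC1 η hηcl hηB)
      obtain ⟨⟨z₁, θ₁⟩, hqd⟩ : ∃ q' : ℂ × ℂ, q' = q := ⟨_, rfl⟩
      rw [← hqd] at hq hqj
      simp only at hqj
      obtain ⟨hz1, hp1⟩ := hS0 _ hq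
      simp only at hz1 hp1
      obtain ⟨r, θ, hr, hθ, hθp⟩ := loc_roots p hm z₁ (hsep z₁ hz1)
      have hzb : z₁ ∈ Metric.ball z₁ r := Metric.mem_ball_self hr
      obtain ⟨i, hi⟩ := (hθp z₁ hzb θ₁).1 hp1
      obtain ⟨Y, hY⟩ : ∃ Y : Fin n → ℂ → ℂ, Y = fun j z => EXP.ev (A j) z (θ i z) / D.eval z :=
        ⟨_, rfl⟩
      have hYe : ∀ j z, Y j z = EXP.ev (A j) z (θ i z) / D.eval z := by
        intro j z; rw [hY]
      have hYan : ∀ j, AnalyticAt ℂ (Y j) z₁ := by
        intro j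
        rw [hY]
        exact (ev_an (A j) (hθ i z₁ hzb)).fun_div (D.differentiable.analyticAt z₁) (hD z₁ hz1)
      have hYz : ∀ j, Y j z₁ = y j * Complex.exp (η j) := by
        intro j
        rw [hYe, hqj j, hi]
      have hY0 : ∀ j, Y j z₁ ≠ 0 := by
        intro j
        rw [hYz]
        exact mul_ne_zero (hy j) (Complex.exp_ne_zero _)
      -- near z₁ everything is in the curve
      have hnear : ∀ᶠ z in 𝓝 z₁, z ∉ S ∧ z ∈ Metric.ball z₁ r ∧ (z, θ i z) ∈ S0 := by
        have h1 : ∀ᶠ z in 𝓝 z₁, z ∉ S := hSc.isOpen_compl.mem_nhds hz1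
        have h2 : ∀ᶠ z in 𝓝 z₁, z ∈ Metric.ball z₁ r := Metric.ball_mem_nhds z₁ hr
        have h3 : ContinuousAt (fun z => (z, θ i z)) z₁ :=
          continuousAt_id.prodMk (hθ i z₁ hzb).continuousAt
        have h4 : (z₁, θ i z₁) ∈ U := by
          rw [← hi]
          rw [hSU] at hq
          exact hq.2
        filter_upwards [h1, h2, h3.eventually_mem (hU.mem_nhds h4)] with z h5 h6 h7
        refine ⟨h5, h6, ?_⟩
        rw [hSU]
        exact ⟨⟨h5, (hθp z h6 _).2 ⟨i, rfl⟩⟩, h7⟩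
      have hslit : ∀ j, ∀ᶠ z in 𝓝 z₁, Y j z / Y j z₁ ∈ Complex.slitPlane := by
        intro j
        have h1 : ContinuousAt (fun z => Y j z / Y j z₁) z₁ :=
          (hYan j).continuousAt.div_const _
        refine h1.eventually_mem (Complex.isOpen_slitPlane.mem_nhds ?_)
        rw [div_self (hY0 j)]
        exact Complex.one_mem_slitPlane
      obtain ⟨Γ, hΓ⟩ : ∃ Γ : ℂ → Fin n → ℂ, Γ = fun z j => η j + Complex.log (Y j z / Y j z₁) :=
        ⟨_, rfl⟩
      have hΓe : ∀ z j, Γ z j = η j + Complex.log (Y j z / Y j z₁) := by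
        intro z j; rw [hΓ]
      have hΓan : ∀ j, AnalyticAt ℂ (fun z => Γ z j) z₁ := by
        intro j
        simp only [hΓe]
        refine analyticAt_const.fun_add (AnalyticAt.clog ?_ ?_)
        · exact (hYan j).fun_div analyticAt_const (hY0 j)
        · rw [div_self (hY0 j)]
          exact Complex.one_mem_slitPlane
      have hΓ1 : Γ z₁ = η := by
        funext j
        rw [hΓe, div_self (hY0 j), Complex.log_one, add_zero]
      have hΓK : ∀ᶠ z in 𝓝 z₁, Γ z ∈ K := by
        have h1 : ∀ j, ∀ᶠ z in 𝓝 z₁, ‖Γ z j‖ < ρ := by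
          intro j
          refine (hΓan j).continuousAt.norm.eventually_lt continuousAt_const ?_
          show ‖Γ z₁ j‖ < ρ
          rw [hΓ1]
          exact hlt j
        filter_upwards [hnear, Filter.eventually_all.2 h1] with z h2 h3
        rw [hK]
        refine ⟨subset_closure ((hGm _).2 ⟨(z, θ i z), h2.2.2, fun j => ?_⟩), ?_⟩
        · have hYne : Y j z ≠ 0 := by
            rw [hYe]
            exact div_ne_zero (hA z h2.1 _ (hS0 _ h2.2.2).2 j) (hD z h2.1)
          rw [hΓe, Complex.exp_add, Complex.exp_log (div_ne_zero hYne (hY0 j)), ← mul_assoc,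
            ← hYz j, mul_div_cancel₀ _ (hY0 j)]
          exact hYe j z
        · rw [mem_closedBall_zero_iff, pi_norm_le_iff_of_nonneg hρ.le]
          exact fun j => (h3 j).le
      have hshift : Filter.Tendsto (fun s : ℂ => z₁ + s) (𝓝 0) (𝓝 z₁) := by
        have h1 : Continuous (fun s : ℂ => z₁ + s) := by fun_prop
        have h2 := h1.tendsto 0
        rwa [add_zero] at h2
      refine ⟨fun s => Γ (z₁ + s), by simp only [add_zero]; exact hΓ1,
        hshift.eventually hΓK, ?_, ?_⟩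
      · have h1 : AnalyticAt ℂ (fun z => ∑ j, (c j : ℂ) * Γ z j) z₁ := by
          apply Finset.analyticAt_fun_sum
          intro j _
          exact analyticAt_const.fun_mul (hΓan j)
        have h2 : AnalyticAt ℂ (fun s : ℂ => z₁ + s) 0 := analyticAt_const.fun_add analyticAt_id
        have h3 : AnalyticAt ℂ (fun z => ∑ j, (c j : ℂ) * Γ z j) ((fun s : ℂ => z₁ + s) 0) := by
          simp only [add_zero]; exact h1
        exact h3.comp h2
      · intro hconst
        -- the relation of the logarithmic derivatives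
        have h1 : ∀ᶠ z in 𝓝 z₁, ∑ j, (c j : ℂ) * Γ z j = ∑ j, (c j : ℂ) * η j := by
          have h2 : Filter.Tendsto (fun z : ℂ => z - z₁) (𝓝 z₁) (𝓝 0) := by
            have h3 : Continuous (fun z : ℂ => z - z₁) := by fun_prop
            have h4 := h3.tendsto z₁
            rwa [sub_self] at h4
          filter_upwards [h2.eventually hconst] with z hz
          simp only [add_sub_cancel, add_zero, hΓ1] at hz
          exact hz
        have h2 : ∀ᶠ z in 𝓝 z₁, ∀ j, AnalyticAt ℂ (Y j) z :=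
          Filter.eventually_all.2 fun j => (hYan j).eventually_analyticAt
        have h3 : ∀ᶠ z in 𝓝 z₁, ∀ j, Y j z / Y j z₁ ∈ Complex.slitPlane :=
          Filter.eventually_all.2 hslit
        have h4 : ∀ᶠ z in 𝓝 z₁, ∑ j, (c j : ℂ) * (deriv (Y j) z / Y j z) = 0 := by
          filter_upwards [eventually_eventually_nhds.2 h1, h2, h3] with z hz1' hz2 hz3
          have hd : HasDerivAt (fun z => ∑ j, (c j : ℂ) * Γ z j)
              (∑ j, (c j : ℂ) * (deriv (Y j) z / Y j z)) z := by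
            apply HasDerivAt.fun_sum
            intro j _
            apply HasDerivAt.const_mul
            simp only [hΓe]
            have h5 : HasDerivAt (fun z => Y j z / Y j z₁) (deriv (Y j) z / Y j z₁) z :=
              (hz2 j).differentiableAt.hasDerivAt.div_const _
            have h6 := (h5.clog (hz3 j)).const_add (η j)
            refine h6.congr_deriv ?_
            have h7 : Y j z ≠ 0 := by
              intro h8
              have h9 := hz3 j
              rw [h8, zero_div] at h9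
              exact Complex.zero_notMem_slitPlane h9
            have h8 := hY0 j
            field_simp
          have hd2 : HasDerivAt (fun z => ∑ j, (c j : ℂ) * Γ z j) 0 z :=
            (hasDerivAt_const z (∑ j, (c j : ℂ) * η j)).congr_of_eventuallyEq hz1'
          exact hd.unique hd2
        refine ax c hc Y z₁ (fun h => hz1 (by rw [h]; exact h0S)) hYan hY0 i0 ?_ ?_ h4
        · filter_upwards [hnear] with z hz
          rw [hYe, hi0, mul_div_cancel_left₀ _ (hD z hz.1)]
        · intro j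
          refine ⟨P j, hP0 j, ?_⟩
          filter_upwards [hnear] with z hz
          rw [hYe]
          exact hPz j z _ (hD z hz.1) (hS0 _ hz.2.2).2) t ht
  refine ⟨η, hGW η (by rw [hK] at hη; exact hη.1), hKn η hη, hηt⟩

end Pool.Agent.EXG
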