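import Mathlib

/-! # EXG, module Ultra: limits along one ultrafilter

Every bounded sequence of a proper space converges along `Filter.hyperfilter ℕ`; normalized vectors
converge to a vector of norm one.  (No subsequences, no diagonal argument.) -/

set_option autoImplicit false

namespace Pool.Agent.EXG

open Topology Filter

/-- the fixed ultrafilter -/
noncomputable abbrev Uf : Filter ℕ := (hyperfilter ℕ : Filter ℕ)

theorem hyper_le_atTop : (Uf : Filter ℕ) ≤ atTop := by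
  rw [← Nat.cofinite_eq_atTop]
  exact hyperfilter_le_cofinite

/-- from eventually at infinity -/
theorem hyper_of_atTop {p : ℕ → Prop} (h : ∀ᶠ n in atTop, p n) : ∀ᶠ n in Uf, p n :=
  h.filter_mono hyper_le_atTop

/-- along the ultrafilter: either `p` or not `p` eventually -/
theorem hyper_or (p : ℕ → Prop) : (∀ᶠ n in Uf, p n) ∨ ∀ᶠ n in Uf, ¬ p n :=
  (hyperfilter ℕ).em p

theorem hyper_frequently {p : ℕ → Prop} (h : ∀ᶠ n in Uf, p n) : ∃ᶠ n in atTop, p n :=
  (h.frequently).filter_mono hyper_le_atTop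

/-- bounded sequences converge -/
theorem hyper_lim {E : Type*} [NormedAddCommGroup E] [ProperSpace E] (a : ℕ → E) (C : ℝ)
    (h : ∀ᶠ n in Uf, ‖a n‖ ≤ C) : ∃ l : E, ‖l‖ ≤ C ∧ Tendsto a Uf (𝓝 l) := by
  have hc := isCompact_closedBall (0 : E) C
  have h1 : ((hyperfilter ℕ).map a : Filter E) ≤ 𝓟 (Metric.closedBall (0 : E) C) := by
    rw [le_principal_iff, Ultrafilter.coe_map, mem_map]
    filter_upwards [h] with n hn
    simpa using hn
  obtain ⟨l, hl, hl2⟩ := hc.ultrafilter_le_nhds ((hyperfilter ℕ).map a) h1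
  refine ⟨l, by simpa using hl, ?_⟩
  rw [Ultrafilter.coe_map] at hl2
  exact hl2

/-- limits in a compact set -/
theorem hyper_lim_compact {X : Type*} [TopologicalSpace X] {K : Set X} (hK : IsCompact K)
    (a : ℕ → X) (h : ∀ᶠ n in Uf, a n ∈ K) : ∃ l ∈ K, Tendsto a Uf (𝓝 l) := by
  have h1 : ((hyperfilter ℕ).map a : Filter X) ≤ 𝓟 K := by
    rw [le_principal_iff, Ultrafilter.coe_map, mem_map]
    exact h
  obtain ⟨l, hl, hl2⟩ := hK.ultrafilter_le_nhds ((hyperfilter ℕ).map a) h1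
  rw [Ultrafilter.coe_map] at hl2
  exact ⟨l, hl, hl2⟩

/-- normalized vectors converge to a vector of norm one -/
theorem hyper_norm_lim {E : Type*} [NormedAddCommGroup E] [NormedSpace ℂ E] [ProperSpace E]
    (c : ℕ → E) (h : ∀ᶠ n in Uf, c n ≠ 0) :
    ∃ l : E, ‖l‖ = 1 ∧ Tendsto (fun n => ((‖c n‖⁻¹ : ℝ) : ℂ) • c n) Uf (𝓝 l) := by
  have hn : ∀ᶠ n in Uf, ‖((‖c n‖⁻¹ : ℝ) : ℂ) • c n‖ = 1 := by
    filter_upwards [h] with n hn
    rw [norm_smul, Complex.norm_real, norm_inv, norm_norm,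
      inv_mul_cancel₀ (norm_ne_zero_iff.2 hn)]
  obtain ⟨l, _, hl⟩ := hyper_lim _ 1 (hn.mono fun n hn => hn.le)
  refine ⟨l, ?_, hl⟩
  have h2 : Tendsto (fun n => ‖((‖c n‖⁻¹ : ℝ) : ℂ) • c n‖) Uf (𝓝 ‖l‖) := hl.norm
  have h3 : Tendsto (fun n => ‖((‖c n‖⁻¹ : ℝ) : ℂ) • c n‖) Uf (𝓝 1) :=
    tendsto_const_nhds.congr' (hn.mono fun n hn => hn.symm)
  exact tendsto_nhds_unique h2 h3

/-- a complex number is the limit of a bounded sequence, as a function (for countably many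
sequences at once) -/
noncomputable def hlim {E : Type*} [NormedAddCommGroup E] (a : ℕ → E) : E := limUnder Uf a

theorem tendsto_hlim {E : Type*} [NormedAddCommGroup E] [ProperSpace E] (a : ℕ → E) (C : ℝ)
    (h : ∀ᶠ n in Uf, ‖a n‖ ≤ C) : Tendsto a Uf (𝓝 (hlim a)) := by
  obtain ⟨l, _, hl⟩ := hyper_lim a C h
  exact tendsto_nhds_limUnder ⟨l, hl⟩

end Pool.Agent.EXG
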